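import Pool.Agent.Work.MP_7da6af_nt.AnomPar

/-! # The surface is closed -/

set_option autoImplicit false

namespace Pool.Agent.Work.MP_7da6af_nt.Anom

open Pool.Agent.Work.MP_7da6af_nt Gen

/-- a closed set is given by the polynomials which vanish on it -/
theorem isClosed_of_sep {V : Set Tor}
    (h : ∀ q, q ∉ V → ∃ f : MvPolynomial (Fin 5) Om, (∀ q' ∈ V, MvPolynomial.eval q'.co f = 0) ∧
      MvPolynomial.eval q.co f ≠ 0) : IsClosed V := by
  rw [isClosed_iff]
  refine ⟨{f | ∀ q' ∈ V, MvPolynomial.eval q'.co f = 0}, ?_⟩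
  ext q
  constructor
  · intro hq
    by_contra hV
    obtain ⟨f, h1, h2⟩ := h q hV
    exact h2 (hq f h1)
  · intro hq f hf
    exact hf q hq

section

variable {k : Type} [Field k] (φ : k →+* Om) (F : Fin 3 → RatFunc k) (u v w : Polynomial k)

/-- the constants as polynomials in the coordinates -/
noncomputable def io : k →+* MvPolynomial (Fin 5) Om :=
  (MvPolynomial.C : Om →+* MvPolynomial (Fin 5) Om).comp φ

/-- the evaluation at a point -/
noncomputable def evq (q : Tor) : MvPolynomial (Fin 5) Om →+* Om := MvPolynomial.eval q.co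

/-- the equation of a coordinate of the curve -/
noncomputable def pL (l : Fin 3) : Polynomial (MvPolynomial (Fin 5) Om) :=
  Polynomial.C (MvPolynomial.X (Fin.natAdd 2 l)) * (F l).denom.map (io φ) - (F l).num.map (io φ)

/-- the linear equation -/
noncomputable def pE : Polynomial (MvPolynomial (Fin 5) Om) :=
  Polynomial.C (MvPolynomial.X 0) * u.map (io φ) +
    Polynomial.C (MvPolynomial.X 1) * v.map (io φ) - w.map (io φ)

theorem evq_io (q : Tor) : (evq q).comp (io φ) = φ := by
  ext a
  simp [evq, io]

theorem map_pL (q : Tor) (l : Fin 3) : (pL φ F l).map (evq q) =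
    Polynomial.C (q.co (Fin.natAdd 2 l)) * (F l).denom.map φ - (F l).num.map φ := by
  unfold pL
  rw [Polynomial.map_sub, Polynomial.map_mul, Polynomial.map_map, Polynomial.map_map, evq_io,
    Polynomial.map_C]
  simp [evq]

theorem map_pE (q : Tor) : (pE φ u v w).map (evq q) =
    Polynomial.C (q.co 0) * u.map φ + Polynomial.C (q.co 1) * v.map φ - w.map φ := by
  unfold pE
  rw [Polynomial.map_sub, Polynomial.map_add, Polynomial.map_mul, Polynomial.map_mul,
    Polynomial.map_map, Polynomial.map_map, Polynomial.map_map, evq_io, Polynomial.map_C,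
    Polynomial.map_C]
  simp [evq]

theorem eval_pL (q : Tor) (y : Om) (l : Fin 3) : ((pL φ F l).map (evq q)).eval y =
    q.co (Fin.natAdd 2 l) * ev φ y (F l).denom - ev φ y (F l).num := by
  rw [map_pL, Polynomial.eval_sub, Polynomial.eval_mul, Polynomial.eval_C, Polynomial.eval_map,
    Polynomial.eval_map]
  rfl

theorem eval_pE (q : Tor) (y : Om) : ((pE φ u v w).map (evq q)).eval y =
    q.co 0 * ev φ y u + q.co 1 * ev φ y v - ev φ y w := by
  rw [map_pE, Polynomial.eval_sub, Polynomial.eval_add, Polynomial.eval_mul, Polynomial.eval_mul,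
    Polynomial.eval_C, Polynomial.eval_C, Polynomial.eval_map, Polynomial.eval_map,
    Polynomial.eval_map]
  rfl

theorem mem_surf_iff (q : Tor) : q ∈ surf φ F u v w ↔
    ∃ y, (∀ l, ((pL φ F l).map (evq q)).eval y = 0) ∧ ((pE φ u v w).map (evq q)).eval y = 0 := by
  constructor
  · rintro ⟨y, hr, h2, he⟩
    refine ⟨y, fun l => ?_, ?_⟩
    · rw [eval_pL, h2 l]
      unfold Gen.cu
      have := (hr l).2
      field_simp
      ring
    · rw [eval_pE, ← he]
      ring
  · rintro ⟨y, hl, he⟩
    have hr : Reg F φ y := by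
      intro l
      have h1 := hl l
      rw [eval_pL] at h1
      obtain ⟨a, b, hab⟩ := (F l).isCoprime_num_denom
      have h2 := congrArg (ev φ y) hab
      rw [ev_add, ev_mul, ev_mul, ev_one] at h2
      have h3 : ev φ y (F l).denom ≠ 0 := by
        intro h0
        rw [h0, mul_zero, zero_sub, neg_eq_zero] at h1
        rw [h1, h0, mul_zero, mul_zero, add_zero] at h2
        exact zero_ne_one h2
      refine ⟨?_, h3⟩
      rw [← sub_eq_zero.1 h1]
      exact mul_ne_zero (co_ne q _) h3
    refine ⟨y, hr, fun l => ?_, ?_⟩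
    · have h1 := hl l
      rw [eval_pL, sub_eq_zero] at h1
      unfold Gen.cu
      rw [eq_div_iff (hr l).2]
      exact h1
    · rw [eval_pE, sub_eq_zero] at he
      rw [← he]
      ring

/-- the degree of the equation of a coordinate with a zero or a pole at infinity -/
theorem natDegree_pL (q : Tor) (j : Fin 3) (hj : (F j).num.natDegree ≠ (F j).denom.natDegree) :
    ((pL φ F j).map (evq q)).natDegree = max (F j).num.natDegree (F j).denom.natDegree ∧
      (pL φ F j).map (evq q) ≠ 0 := by
  have e1 : ((F j).num.map φ).natDegree = (F j).num.natDegree :=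
    Polynomial.natDegree_map_eq_of_injective φ.injective _
  have e2 : (Polynomial.C (q.co (Fin.natAdd 2 j)) * (F j).denom.map φ).natDegree =
      (F j).denom.natDegree := by
    rw [Polynomial.natDegree_C_mul (co_ne q _)]
    exact Polynomial.natDegree_map_eq_of_injective φ.injective _
  rw [map_pL]
  have h0 : Polynomial.C (q.co (Fin.natAdd 2 j)) * (F j).denom.map φ - (F j).num.map φ ≠ 0 := by
    intro h
    rw [sub_eq_zero] at h
    rw [h, e1] at e2
    exact hj e2
  refine ⟨?_, h0⟩
  rcases lt_or_gt_of_ne hj with h | h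
  · rw [max_eq_right h.le, Polynomial.natDegree_sub_eq_left_of_natDegree_lt (by rw [e1, e2]; exact h),
      e2]
  · rw [max_eq_left h.le, Polynomial.natDegree_sub_eq_right_of_natDegree_lt (by rw [e1, e2]; exact h),
      e1]

theorem natDegree_pL_le (j : Fin 3) :
    (pL φ F j).natDegree ≤ max (F j).num.natDegree (F j).denom.natDegree := by
  unfold pL
  refine (Polynomial.natDegree_sub_le _ _).trans ?_
  refine max_le ?_ ?_
  · refine (Polynomial.natDegree_C_mul_le _ _).trans ?_
    exact Polynomial.natDegree_map_le.trans (le_max_right _ _)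
  · exact Polynomial.natDegree_map_le.trans (le_max_left _ _)

/-- a linear combination of the equations -/
noncomputable def pS (lam : Om) : Polynomial (MvPolynomial (Fin 5) Om) :=
  pE φ u v w + ∑ l : Fin 3, Polynomial.C (MvPolynomial.C (lam ^ ((l : ℕ) + 1))) * pL φ F l

theorem eval_pS (q : Tor) (y lam : Om) : ((pS φ F u v w lam).map (evq q)).eval y =
    ((pE φ u v w).map (evq q)).eval y +
      ∑ l : Fin 3, lam ^ ((l : ℕ) + 1) * ((pL φ F l).map (evq q)).eval y := by
  unfold pS
  rw [Polynomial.map_add, Polynomial.eval_add, Polynomial.map_sum, Polynomial.eval_finsetSum]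
  congr 1
  refine Finset.sum_congr rfl fun l _ => ?_
  rw [Polynomial.map_mul, Polynomial.eval_mul, Polynomial.map_C, Polynomial.eval_C]
  simp [evq]

/-- a combination which does not vanish at given points -/
theorem exists_lam (q : Tor) (s : Finset Om) (hs : ∀ y ∈ s,
    ¬ ((∀ l, ((pL φ F l).map (evq q)).eval y = 0) ∧ ((pE φ u v w).map (evq q)).eval y = 0)) :
    ∃ lam : Om, ∀ y ∈ s, ((pS φ F u v w lam).map (evq q)).eval y ≠ 0 := by
  set G : Om → Polynomial Om := fun y => Polynomial.C (((pE φ u v w).map (evq q)).eval y) +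
    ∑ l : Fin 3, Polynomial.X ^ ((l : ℕ) + 1) *
      Polynomial.C (((pL φ F l).map (evq q)).eval y) with hG
  have hGeval : ∀ y lam, (G y).eval lam = ((pS φ F u v w lam).map (evq q)).eval y := by
    intro y lam
    rw [eval_pS, hG]
    simp only [Polynomial.eval_add, Polynomial.eval_C, Polynomial.eval_finsetSum,
      Polynomial.eval_mul, Polynomial.eval_pow, Polynomial.eval_X]
  have hGne : ∀ y ∈ s, G y ≠ 0 := by
    intro y hy h0
    apply hs y hy
    have hc : ∀ n, (G y).coeff n = 0 := fun n => by rw [h0, Polynomial.coeff_zero]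
    have c0 := hc 0
    have c1 := hc 1
    have c2 := hc 2
    have c3 := hc 3
    simp [hG, Fin.sum_univ_three, Polynomial.coeff_C, Polynomial.coeff_X_pow,
      Polynomial.coeff_X] at c0 c1 c2 c3
    refine ⟨fun l => ?_, c0⟩
    fin_cases l
    · exact c1
    · exact c2
    · exact c3
  obtain ⟨lam, hlam⟩ : ∃ lam, (∏ y ∈ s, G y).eval lam ≠ 0 := by
    by_contra hcon
    push Not at hcon
    exact Finset.prod_ne_zero_iff.2 hGne
      (Polynomial.funext fun t => by rw [hcon t, Polynomial.eval_zero])
  refine ⟨lam, fun y hy => ?_⟩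
  rw [Polynomial.eval_prod, Finset.prod_ne_zero_iff] at hlam
  rw [← hGeval]
  exact hlam y hy

end

/-- If some `F j` has a zero or a pole at infinity, then the surface is Zariski closed. -/
theorem closed_surf {k : Type} [Field k] (φ : k →+* Om) (F : Fin 3 → RatFunc k)
    (u v w : Polynomial k) (j : Fin 3) (hj : (F j).num.natDegree ≠ (F j).denom.natDegree) :
    IsClosed (surf φ F u v w) := by
  classical
  apply isClosed_of_sep
  intro q hq
  obtain ⟨hdeg, hne⟩ := natDegree_pL φ F q j hj
  set D := max (F j).num.natDegree (F j).denom.natDegree with hD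
  obtain ⟨lam, hlam⟩ := exists_lam φ F u v w q ((pL φ F j).map (evq q)).roots.toFinset
    (fun y _ hy => hq ((mem_surf_iff φ F u v w q).2 ⟨y, hy⟩))
  set N := (pS φ F u v w lam).natDegree + 1 with hN
  refine ⟨(pL φ F j).resultant (pS φ F u v w lam) D N, fun q' hq' => ?_, ?_⟩
  · obtain ⟨y, hl, he⟩ := (mem_surf_iff φ F u v w q').1 hq'
    obtain ⟨a, b, -, -, hab⟩ := Polynomial.exists_mul_add_mul_eq_C_resultant (m := D) (n := N)
      (pL φ F j) (pS φ F u v w lam) (natDegree_pL_le φ F j) (Nat.le_succ _)
      (Or.inr (Nat.succ_ne_zero _))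
    have h1 := congrArg (fun P => (P.map (evq q')).eval y) hab
    simp only [Polynomial.map_add, Polynomial.map_mul, Polynomial.eval_add, Polynomial.eval_mul,
      Polynomial.map_C, Polynomial.eval_C] at h1
    rw [eval_pS, he, hl j] at h1
    simp only [hl, mul_zero, Finset.sum_const_zero, add_zero, zero_mul] at h1
    exact h1.symm
  · have h1 : MvPolynomial.eval q.co ((pL φ F j).resultant (pS φ F u v w lam) D N) =
        ((pL φ F j).map (evq q)).resultant ((pS φ F u v w lam).map (evq q)) D N :=
      (Polynomial.resultant_map_map _ _ _ _ _).symm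
    have h2 : ((pS φ F u v w lam).map (evq q)).natDegree ≤ N :=
      Polynomial.natDegree_map_le.trans (Nat.le_succ _)
    obtain ⟨m, hm⟩ := Nat.exists_eq_add_of_le h2
    have hcop : IsCoprime ((pL φ F j).map (evq q)) ((pS φ F u v w lam).map (evq q)) := by
      rw [Polynomial.isCoprime_iff_aeval_ne_zero_of_isAlgClosed (k := Om) (K := Om)]
      intro a
      by_cases ha : ((pL φ F j).map (evq q)).eval a = 0
      · right
        rw [Polynomial.coe_aeval_eq_eval]
        apply hlam
        rw [Multiset.mem_toFinset, Polynomial.mem_roots hne]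
        exact ha
      · left
        rw [Polynomial.coe_aeval_eq_eval]
        exact ha
    rw [h1, hm, Polynomial.resultant_add_right_deg _ _ _ _ _ le_rfl, ← hdeg]
    refine mul_ne_zero (pow_ne_zero _ ?_) (Polynomial.resultant_ne_zero _ _ hcop)
    rw [Polynomial.coeff_natDegree, Ne, Polynomial.leadingCoeff_eq_zero]
    exact hne

end Pool.Agent.Work.MP_7da6af_nt.Anom
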