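import Mathlib

/-! # Torsion anomalous subvarieties of the torus of dimension five: definitions -/

set_option autoImplicit false

namespace Pool.Agent.Work.MP_7da6af_nt

open MvPolynomial

/-- the field of algebraic numbers -/
abbrev Om : Type := AlgebraicClosure ℚ

/-- the torus of dimension five over the algebraic numbers -/
def Tor : Type := Fin 5 → Omˣ

noncomputable instance : CommGroup Tor := inferInstanceAs (CommGroup (Fin 5 → Omˣ))

/-- the underlying function of a point -/
def Tor.fn (q : Tor) : Fin 5 → Omˣ := q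

/-- the coordinates of a point -/
def Tor.co (q : Tor) (i : Fin 5) : Om := (q.fn i : Om)

/-- the common zeros of a set of polynomials -/
def zLoc (I : Set (MvPolynomial (Fin 5) Om)) : Set Tor := {q | ∀ f ∈ I, eval q.co f = 0}

/-- the Zariski topology: the closed sets are the sets of common zeros of polynomials -/
noncomputable instance : TopologicalSpace Tor :=
  TopologicalSpace.ofClosed (Set.range zLoc)
    ⟨{1}, by ext q; simp [zLoc]⟩
    (fun A hA => by
      refine ⟨{f | ∃ Z ∈ A, ∀ q ∈ Z, eval q.co f = 0}, ?_⟩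
      ext q
      simp only [zLoc, Set.mem_ofPred_eq, Set.mem_sInter]
      constructor
      · intro h Z hZ
        obtain ⟨I, hI⟩ := hA hZ
        rw [← hI]
        intro f hf
        refine h f ⟨Z, hZ, fun q' hq' => ?_⟩
        rw [← hI] at hq'
        exact hq' f hf
      · rintro h f ⟨Z, hZ, hf⟩
        exact hf q (h Z hZ))
    (by
      rintro _ ⟨I, rfl⟩ _ ⟨J, rfl⟩
      refine ⟨{f | ∃ a ∈ I, ∃ b ∈ J, f = a * b}, ?_⟩
      ext q
      simp only [zLoc, Set.mem_ofPred_eq, Set.mem_union]
      constructor
      · intro h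
        by_contra hcon
        push Not at hcon
        obtain ⟨⟨a, ha, ha'⟩, b, hb, hb'⟩ := hcon
        have := h (a * b) ⟨a, ha, b, hb, rfl⟩
        rw [map_mul] at this
        rcases mul_eq_zero.mp this with h1 | h1
        · exact ha' h1
        · exact hb' h1
      · rintro (h | h) f ⟨a, ha, b, hb, rfl⟩
        · rw [map_mul, h a ha, zero_mul]
        · rw [map_mul, h b hb, mul_zero])

/-- the value of the monomial with exponents `m` -/
noncomputable def Tor.chr (q : Tor) (m : Fin 5 → ℤ) : Omˣ := ∏ i, q.fn i ^ m i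

/-- the translate by `ζ` of the algebraic subgroup `{q | q ^ m = 1 for all m in Λ}` -/
def coset (ζ : Tor) (Λ : Submodule ℤ (Fin 5 → ℤ)) : Set Tor := {q | ∀ m ∈ Λ, q.chr m = ζ.chr m}

/-- `B` is a torsion variety of codimension `c`: a finite union of translates by torsion points of
algebraic subgroups, where `c` is the least rank of the relation lattices (the codimension of
`{q | q ^ m = 1 for all m in Λ}` is the rank of `Λ`) -/
def IsTorsionVariety (B : Set Tor) (c : ℕ) : Prop :=
  ∃ F : Finset (Tor × Submodule ℤ (Fin 5 → ℤ)), (∀ p ∈ F, IsOfFinOrder p.1) ∧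
    B = (⋃ p ∈ F, coset p.1 p.2) ∧ (∀ p ∈ F, c ≤ Module.finrank ℤ p.2) ∧
    ∃ p ∈ F, Module.finrank ℤ p.2 = c

/-- the dimension of a Zariski closed set: the supremum of the lengths of chains of irreducible
closed subsets -/
noncomputable def dimT (Y : Set Tor) : WithBot ℕ∞ :=
  Order.krullDim {Z : TopologicalSpace.IrreducibleCloseds Tor // (Z : Set Tor) ⊆ Y}

/-- `Y` is an irreducible component of `W` -/
def IsComponent (Y W : Set Tor) : Prop :=
  Maximal (fun Z : Set Tor => IsIrreducible Z ∧ IsClosed Z ∧ Z ⊆ W) Y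

/-- `Y` is `V`-torsion anomalous: a component of `V ∩ B` for a proper torsion variety `B`, with
`codim Y < codim V + codim B`, that is `dim V < dim Y + codim B` -/
def IsAnomalous (V Y : Set Tor) : Prop :=
  ∃ (B : Set Tor) (c : ℕ), IsTorsionVariety B c ∧ B ≠ Set.univ ∧ IsComponent Y (V ∩ B) ∧
    dimT V < dimT Y + c

/-- `P` is a maximal `V`-torsion anomalous point: it lies in no `V`-torsion anomalous variety of
larger dimension -/
def IsMaxPoint (V : Set Tor) (P : Tor) : Prop :=
  IsAnomalous V {P} ∧ ∀ Y, IsAnomalous V Y → P ∈ Y → ¬ dimT {P} < dimT Y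

/-- the height: the sum of the absolute logarithmic heights of the coordinates -/
noncomputable def hgt (P : Tor) : ℝ := ∑ i, NumberField.absLogHeight₁ (P.co i)

theorem isClosed_iff (Z : Set Tor) : IsClosed Z ↔ ∃ I, zLoc I = Z := by
  rw [← isOpen_compl_iff]
  show Zᶜᶜ ∈ Set.range zLoc ↔ _
  rw [compl_compl]
  rfl

end Pool.Agent.Work.MP_7da6af_nt
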