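import Mathlib

/-! # Krull dimension and transcendence degree: upper bound -/

set_option autoImplicit false

namespace Pool.Agent.Work.MP_7da6af_nt.Anom

open Cardinal

/-- the dimension does not increase under an integral extension -/
theorem ringKrullDim_le_of_integral {R A : Type} [CommRing R] [CommRing A] (g : R →+* A)
    (hg : g.IsIntegral) : ringKrullDim A ≤ ringKrullDim R := by
  let : Algebra R A := g.toAlgebra
  have : Algebra.IsIntegral R A := ⟨hg⟩
  refine Order.krullDim_le_of_strictMono (fun p : PrimeSpectrum A =>
    PrimeSpectrum.comap (algebraMap R A) p) ?_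
  intro p q hpq
  exact Ideal.IsIntegral.comap_lt_comap (R := R) (I := p.asIdeal) (J := q.asIdeal) hpq

/-- a finitely generated domain inside a field of transcendence degree at most `n` -/
theorem ringKrullDim_le_of_trdeg {k A E : Type} [Field k] [CommRing A] [Nontrivial A]
    [Algebra k A] [Algebra.FiniteType k A] [Field E] [Algebra k E] (j : A →ₐ[k] E)
    (hj : Function.Injective j) (n : ℕ) (hn : Algebra.trdeg k E ≤ n) :
    ringKrullDim A ≤ n := by
  obtain ⟨s, g, hg, hint⟩ := exists_integral_inj_algHom_of_fg k A
  have h1 : AlgebraicIndependent k (fun i : Fin s => j (g (MvPolynomial.X i))) := by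
    have h2 : Function.Injective (j.comp g) := hj.comp hg
    have h3 : MvPolynomial.aeval (fun i : Fin s => j (g (MvPolynomial.X i))) = j.comp g := by
      ext i
      simp
    unfold AlgebraicIndependent
    rw [h3]
    exact h2
  have h2 : (s : Cardinal) ≤ n := by
    have := h1.cardinalMk_le_trdeg
    rw [Cardinal.mk_fin] at this
    exact this.trans hn
  have h3 : s ≤ n := by exact_mod_cast h2
  have h4 : ringKrullDim A ≤ ringKrullDim (MvPolynomial (Fin s) k) :=
    ringKrullDim_le_of_integral g.toRingHom hint
  refine h4.trans ?_
  rw [MvPolynomial.ringKrullDim_of_isNoetherianRing, ringKrullDim_eq_zero_of_field, zero_add,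
    Nat.card_eq_fintype_card, Fintype.card_fin]
  exact_mod_cast h3

/-- the field of rational functions in `n` variables -/
theorem trdeg_frac (k : Type) [Field k] (n : ℕ) :
    Algebra.trdeg k (FractionRing (MvPolynomial (Fin n) k)) ≤ n := by
  have h := trdeg_add_eq k (MvPolynomial (Fin n) k)
    (A := FractionRing (MvPolynomial (Fin n) k))
  have h1 : Algebra.trdeg (MvPolynomial (Fin n) k) (FractionRing (MvPolynomial (Fin n) k)) = 0 := by
    have : Algebra.IsAlgebraic (MvPolynomial (Fin n) k) (FractionRing (MvPolynomial (Fin n) k)) :=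
      IsLocalization.isAlgebraic _ (nonZeroDivisors (MvPolynomial (Fin n) k))
    exact trdeg_eq_zero
  rw [← h, h1, add_zero, MvPolynomial.trdeg_of_isDomain]
  simp

end Pool.Agent.Work.MP_7da6af_nt.Anom
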