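import Pool.Agent.Work.MP_7da6af_nt.AnomPar
import Pool.Agent.Work.MP_7da6af_nt.AnomTr

/-! # Dimensions of the surface and of its subvarieties -/

set_option autoImplicit false

namespace Pool.Agent.Work.MP_7da6af_nt.Anom

open Pool.Agent.Work.MP_7da6af_nt Gen
open TopologicalSpace

theorem tor_ext {p q : Tor} (h : ∀ i, p.co i = q.co i) : p = q := by
  have : p.fn = q := by
    funext i
    exact Units.ext (h i)
  exact this

theorem closed_zLoc (I : Set (MvPolynomial (Fin 5) Om)) : IsClosed (zLoc I) :=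
  (isClosed_iff _).mpr ⟨I, rfl⟩

theorem closed_singleton (P : Tor) : IsClosed ({P} : Set Tor) := by
  rw [isClosed_iff]
  refine ⟨Set.range fun i => MvPolynomial.X i - MvPolynomial.C (P.co i), ?_⟩
  ext q
  simp only [zLoc, Set.forall_mem_range, map_sub, MvPolynomial.eval_X, MvPolynomial.eval_C,
    Set.mem_ofPred_eq, Set.mem_singleton_iff, sub_eq_zero]
  constructor
  · exact fun h => tor_ext h
  · rintro rfl i
    rfl

/-- the dimension of a point -/
theorem dimT_singleton (P : Tor) : dimT {P} = 0 := by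
  let a : {Z : IrreducibleCloseds Tor // (Z : Set Tor) ⊆ {P}} :=
    ⟨⟨{P}, isIrreducible_singleton, closed_singleton P⟩, Set.Subset.rfl⟩
  have hsub : Subsingleton {Z : IrreducibleCloseds Tor // (Z : Set Tor) ⊆ {P}} := by
    constructor
    have h1 : ∀ Z : {Z : IrreducibleCloseds Tor // (Z : Set Tor) ⊆ {P}},
        (Z.1 : Set Tor) = {P} := by
      rintro ⟨Z, hZ⟩
      exact (Set.subset_singleton_iff_eq.mp hZ).resolve_left Z.isIrreducible'.nonempty.ne_empty
    intro Z Z'
    apply Subtype.ext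
    apply SetLike.coe_injective
    rw [h1, h1]
  have hne : Nonempty {Z : IrreducibleCloseds Tor // (Z : Set Tor) ⊆ {P}} := ⟨a⟩
  exact le_antisymm Order.krullDim_nonpos_of_subsingleton Order.krullDim_nonneg

/-- a variety larger than a point has positive dimension -/
theorem one_le_dimT {Y : Set Tor} (h1 : IsIrreducible Y) (h2 : IsClosed Y) {P : Tor} (hP : P ∈ Y)
    (hne : Y ≠ {P}) : 1 ≤ dimT Y := by
  unfold dimT
  rw [Order.one_le_krullDim_iff]
  refine ⟨⟨⟨{P}, isIrreducible_singleton, closed_singleton P⟩, by simpa using hP⟩,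
    ⟨⟨Y, h1, h2⟩, Set.Subset.rfl⟩, ?_⟩
  rw [Subtype.mk_lt_mk]
  refine lt_of_le_of_ne ?_ ?_
  · intro q hq
    have : q = P := hq
    rw [this]
    exact hP
  · intro h
    apply hne
    have := congrArg (fun Z : IrreducibleCloseds Tor => (Z : Set Tor)) h
    exact this.symm

/-- a chain of length two -/
theorem two_le_dimT {A B C Y : Set Tor} (hA : IsIrreducible A) (hA' : IsClosed A)
    (hB : IsIrreducible B) (hB' : IsClosed B) (hC : IsIrreducible C) (hC' : IsClosed C)
    (hAB : A ⊂ B) (hBC : B ⊂ C) (hY : C ⊆ Y) : 2 ≤ dimT Y := by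
  unfold dimT
  rw [show (2 : WithBot ℕ∞) = ((2 : ℕ) : WithBot ℕ∞) from rfl, Order.le_krullDim_iff]
  let a : {Z : IrreducibleCloseds Tor // (Z : Set Tor) ⊆ Y} :=
    ⟨⟨A, hA, hA'⟩, hAB.1.trans (hBC.1.trans hY)⟩
  let b : {Z : IrreducibleCloseds Tor // (Z : Set Tor) ⊆ Y} := ⟨⟨B, hB, hB'⟩, hBC.1.trans hY⟩
  let c : {Z : IrreducibleCloseds Tor // (Z : Set Tor) ⊆ Y} := ⟨⟨C, hC, hC'⟩, hY⟩
  have h1 : a < b := hAB
  have h2 : b < c := hBC
  refine ⟨⟨2, ![a, b, c], ?_⟩, rfl⟩
  intro i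
  fin_cases i
  · exact h1
  · exact h2

/-- every irreducible closed subset is contained in a component -/
theorem exists_component {Z W : Set Tor} (h1 : IsIrreducible Z) (h2 : IsClosed Z)
    (hW : IsClosed W) (hZW : Z ⊆ W) : ∃ Y, IsComponent Y W ∧ Z ⊆ Y := by
  obtain ⟨m, hm1, hm2⟩ := zorn_subset_nonempty {Z : Set Tor | IsIrreducible Z ∧ IsClosed Z ∧ Z ⊆ W}
    (by
      intro c hc hch hne
      refine ⟨closure (⋃₀ c), ⟨?_, isClosed_closure, ?_⟩, fun s hs => ?_⟩
      · rw [isIrreducible_iff_closure]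
        obtain ⟨s, hs⟩ := hne
        refine ⟨(hc hs).1.nonempty.mono (Set.subset_sUnion_of_mem hs), ?_⟩
        rw [isPreirreducible_iff_isClosed_union_isClosed]
        intro A B hA hB hAB
        by_contra hcon
        push Not at hcon
        obtain ⟨k1, k2⟩ := hcon
        rw [Set.sUnion_subset_iff] at k1 k2
        push Not at k1 k2
        obtain ⟨s1, hs1, k1⟩ := k1
        obtain ⟨s2, hs2, k2⟩ := k2
        obtain ⟨s3, hs3, i1, i2⟩ : ∃ s3 ∈ c, s1 ⊆ s3 ∧ s2 ⊆ s3 := by
          rcases hch.total hs1 hs2 with h | h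
          · exact ⟨s2, hs2, h, Set.Subset.rfl⟩
          · exact ⟨s1, hs1, Set.Subset.rfl, h⟩
        rcases isPreirreducible_iff_isClosed_union_isClosed.mp (hc hs3).1.isPreirreducible A B hA hB
          ((Set.subset_sUnion_of_mem hs3).trans hAB) with h | h
        · exact k1 (i1.trans h)
        · exact k2 (i2.trans h)
      · exact closure_minimal (Set.sUnion_subset fun s hs => (hc hs).2.2) hW
      · exact (Set.subset_sUnion_of_mem hs).trans subset_closure) Z ⟨h1, h2, hZW⟩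
  exact ⟨m, hm2, hm1⟩

/-- the ideal of a set -/
def vI (Z : Set Tor) : Ideal (MvPolynomial (Fin 5) Om) where
  carrier := {f | ∀ q ∈ Z, MvPolynomial.eval q.co f = 0}
  zero_mem' := fun q _ => map_zero _
  add_mem' := by
    intro f g hf hg q hq
    rw [map_add, hf q hq, hg q hq, add_zero]
  smul_mem' := by
    intro c f hf q hq
    rw [smul_eq_mul, map_mul, hf q hq, mul_zero]

theorem mem_vI {Z : Set Tor} {f : MvPolynomial (Fin 5) Om} :
    f ∈ vI Z ↔ ∀ q ∈ Z, MvPolynomial.eval q.co f = 0 := Iff.rfl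

theorem vI_mono {Z Z' : Set Tor} (h : Z ⊆ Z') : vI Z' ≤ vI Z := fun _ hf q hq => hf q (h hq)

theorem vI_prime {Z : Set Tor} (h : IsIrreducible Z) : (vI Z).IsPrime := by
  constructor
  · intro h0
    obtain ⟨q, hq⟩ := h.nonempty
    have h1 : (1 : MvPolynomial (Fin 5) Om) ∈ vI Z := by rw [h0]; exact Submodule.mem_top
    have := h1 q hq
    rw [map_one] at this
    exact one_ne_zero this
  · intro f g hfg
    have hsub : Z ⊆ zLoc {f} ∪ zLoc {g} := by
      intro q hq
      have := hfg q hq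
      rw [map_mul] at this
      rcases mul_eq_zero.mp this with h1 | h1
      · left
        intro f' hf'
        rw [Set.mem_singleton_iff.mp hf']
        exact h1
      · right
        intro f' hf'
        rw [Set.mem_singleton_iff.mp hf']
        exact h1
    rcases isPreirreducible_iff_isClosed_union_isClosed.mp h.isPreirreducible _ _ (closed_zLoc {f})
      (closed_zLoc {g}) hsub with h1 | h1
    · left
      exact fun q hq => h1 hq f rfl
    · right
      exact fun q hq => h1 hq g rfl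

theorem exists_sep {Z Z' : Set Tor} (hZ : IsClosed Z) (h : ¬ Z' ⊆ Z) :
    ∃ f, f ∈ vI Z ∧ f ∉ vI Z' := by
  obtain ⟨I, rfl⟩ := (isClosed_iff Z).mp hZ
  rw [Set.not_subset] at h
  obtain ⟨q, hq, hq'⟩ := h
  simp only [zLoc, Set.mem_ofPred_eq, not_forall] at hq'
  obtain ⟨f, hf, hfq⟩ := hq'
  exact ⟨f, fun p hp => hp f hf, fun hcon => hfq (hcon q hq)⟩

/-- the dimension is bounded by the dimension of the coordinate ring -/
theorem dimT_le (V : Set Tor) : dimT V ≤ ringKrullDim (MvPolynomial (Fin 5) Om ⧸ vI V) := by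
  unfold dimT ringKrullDim
  rw [← Order.krullDim_orderDual (α := PrimeSpectrum _)]
  have hsurj : Function.Surjective (Ideal.Quotient.mk (vI V)) := Ideal.Quotient.mk_surjective
  have hker : ∀ Z : {Z : IrreducibleCloseds Tor // (Z : Set Tor) ⊆ V},
      RingHom.ker (Ideal.Quotient.mk (vI V)) ≤ vI (Z.1 : Set Tor) := by
    intro Z
    rw [Ideal.mk_ker]
    exact vI_mono Z.2
  have hprime : ∀ Z : {Z : IrreducibleCloseds Tor // (Z : Set Tor) ⊆ V},
      (Ideal.map (Ideal.Quotient.mk (vI V)) (vI (Z.1 : Set Tor))).IsPrime := by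
    intro Z
    have := vI_prime Z.1.isIrreducible'
    exact Ideal.map_isPrime_of_surjective hsurj (hker Z)
  refine Order.krullDim_le_of_strictMono (fun Z => OrderDual.toDual
    (⟨Ideal.map (Ideal.Quotient.mk (vI V)) (vI (Z.1 : Set Tor)), hprime Z⟩ : PrimeSpectrum _)) ?_
  intro Z Z' hZZ
  rw [OrderDual.toDual_lt_toDual, ← PrimeSpectrum.asIdeal_lt_asIdeal]
  have h1 : (Z.1 : Set Tor) ⊆ Z'.1 := hZZ.le
  have h2 : ¬ (Z'.1 : Set Tor) ⊆ Z.1 := fun h => hZZ.not_ge h
  refine lt_of_le_of_ne (Ideal.map_mono (vI_mono h1)) ?_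
  intro heq0
  have heq : Ideal.map (Ideal.Quotient.mk (vI V)) (vI (Z'.1 : Set Tor)) =
    Ideal.map (Ideal.Quotient.mk (vI V)) (vI (Z.1 : Set Tor)) := heq0
  obtain ⟨f, hf, hf'⟩ := exists_sep Z.1.isClosed' h2
  apply hf'
  have h3 : Ideal.Quotient.mk (vI V) f ∈ Ideal.map (Ideal.Quotient.mk (vI V)) (vI (Z'.1 : Set Tor)) := by
    rw [heq]
    exact Ideal.mem_map_of_mem _ hf
  obtain ⟨f', hf1, hf2⟩ := (Ideal.mem_map_iff_of_surjective _ hsurj).mp h3
  have h4 : f - f' ∈ vI V := by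
    rw [← Ideal.Quotient.eq]
    exact hf2.symm
  have h5 : f - f' ∈ vI (Z'.1 : Set Tor) := vI_mono Z'.2 h4
  have := Ideal.add_mem _ h5 hf1
  rwa [sub_add_cancel] at this

section

variable {k : Type} [Field k] {D : Par k}

theorem exists_ev_ne {P : Polynomial k} (φ : k →+* Om) (hP : P ≠ 0) : ∃ y, ev φ y P ≠ 0 := by
  by_contra hcon
  push Not at hcon
  have h1 : P.map φ = 0 := by
    apply Polynomial.funext
    intro y
    rw [Polynomial.eval_zero, Polynomial.eval_map]
    exact hcon y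
  exact hP ((Polynomial.map_eq_zero_iff φ.injective).mp h1)

theorem u'_ne : D.u' ≠ 0 := fun h => D.hu (by rw [D.hdu, h, mul_zero])

theorem v'_ne : D.v' ≠ 0 := fun h => D.hv (by rw [D.hdv, h, mul_zero])

theorem d_ne : D.d ≠ 0 := fun h => D.hu (by rw [D.hdu, h, zero_mul])

theorem ne_of_e2 {G : MvPolynomial (Fin 2) Om} {t y : Om} (h : e2 t y G ≠ 0) : G ≠ 0 :=
  fun h0 => h (by rw [h0]; exact map_zero _)

theorem py_ne (φ : k →+* Om) {P : Polynomial k} (hP : P ≠ 0) : py φ P ≠ 0 := by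
  obtain ⟨y, hy⟩ := exists_ev_ne φ hP
  exact ne_of_e2 (t := 0) (y := y) (by rwa [e2_py])

theorem den_ne : den D ≠ 0 := by
  unfold den
  refine mul_ne_zero (py_ne _ d_ne) (Finset.prod_ne_zero_iff.mpr fun l _ => py_ne _ ?_)
  exact (D.F l).denom_ne_zero

theorem n0_ne : n0 D ≠ 0 := by
  obtain ⟨y, hy⟩ := exists_ev_ne D.φ (v'_ne (D := D))
  apply ne_of_e2 (t := (1 - ev D.φ y D.al * ev D.φ y D.w) / ev D.φ y D.v') (y := y)
  rw [e2_n0, mul_div_cancel₀ _ hy]
  simp

theorem n1_ne : n1 D ≠ 0 := by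
  obtain ⟨y, hy⟩ := exists_ev_ne D.φ (u'_ne (D := D))
  apply ne_of_e2 (t := (ev D.φ y D.be * ev D.φ y D.w - 1) / ev D.φ y D.u') (y := y)
  rw [e2_n1, mul_div_cancel₀ _ hy]
  simp

/-- the hypothesis that the three rational functions are not zero -/
theorem bad_ne (hF : ∀ l, D.F l ≠ 0) : bad D ≠ 0 := by
  unfold bad
  refine mul_ne_zero (mul_ne_zero (mul_ne_zero den_ne ?_) n0_ne) n1_ne
  refine Finset.prod_ne_zero_iff.mpr fun l _ => py_ne _ ?_
  exact RatFunc.num_ne_zero (hF l)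

theorem V_eq : D.V = {q : Tor | ∃ s ∈ (Set.univ : Set (Om × Om)), Over D q s.1 s.2} := by
  ext q
  rw [mem_V_iff]
  constructor
  · rintro ⟨t, y, h⟩
    exact ⟨(t, y), Set.mem_univ _, h⟩
  · rintro ⟨s, _, h⟩
    exact ⟨s.1, s.2, h⟩

theorem V_irr (hF : ∀ l, D.F l ≠ 0) : IsIrreducible D.V := by
  rw [V_eq]
  apply irr _ good_univ
  obtain ⟨t, y, h⟩ := exists_nonzero (bad D) (bad_ne hF)
  obtain ⟨q, hq⟩ := (bad_ne_iff t y).mp h
  exact ⟨q, (t, y), Set.mem_univ _, hq⟩

/-- the fibre over `y` -/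
def fib (D : Par k) (y : Om) : Set Tor := {q | ∃ s ∈ {s : Om × Om | s.2 = y}, Over D q s.1 s.2}

theorem fib_sub (y : Om) : fib D y ⊆ D.V := by
  rintro q ⟨s, _, h⟩
  exact (mem_V_iff q).mpr ⟨s.1, s.2, h⟩

theorem mem_fib {q : Tor} {t y : Om} (h : Over D q t y) : q ∈ fib D y := ⟨(t, y), rfl, h⟩

theorem fib_irr {q : Tor} {t y : Om} (h : Over D q t y) : IsIrreducible (fib D y) :=
  irr _ (good_line y) ⟨q, (t, y), rfl, h⟩

theorem mem_fib_iff {y : Om} (hr : Reg D.F D.φ y) (q : Tor) : q ∈ fib D y ↔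
    (∀ l : Fin 3, q.co (Fin.natAdd 2 l) = Gen.cu D.F D.φ y l) ∧
    ev D.φ y D.u * q.co 0 + ev D.φ y D.v * q.co 1 = ev D.φ y D.w := by
  constructor
  · rintro ⟨s, hs, h⟩
    have h1 := h.mem
    have h2 : s.2 = y := hs
    rw [h2] at h1
    exact h1.2
  · rintro ⟨h1, h2⟩
    obtain ⟨t, ht⟩ := exists_over hr h1 h2
    exact mem_fib ht

theorem fib_closed {y : Om} (hr : Reg D.F D.φ y) : IsClosed (fib D y) := by
  rw [isClosed_iff]
  refine ⟨Set.range (fun l : Fin 3 => MvPolynomial.X (Fin.natAdd 2 l) -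
    MvPolynomial.C (Gen.cu D.F D.φ y l)) ∪ {MvPolynomial.C (ev D.φ y D.u) * MvPolynomial.X 0 +
    MvPolynomial.C (ev D.φ y D.v) * MvPolynomial.X 1 - MvPolynomial.C (ev D.φ y D.w)}, ?_⟩
  ext q
  rw [mem_fib_iff hr]
  simp only [zLoc, Set.mem_ofPred_eq, Set.mem_union, or_imp, forall_and, Set.forall_mem_range,
    Set.mem_singleton_iff, forall_eq, map_sub, map_add, map_mul, MvPolynomial.eval_X,
    MvPolynomial.eval_C, sub_eq_zero]

/-- the fibre is not a point -/
theorem fib_ne {q : Tor} {t y : Om} (h : Over D q t y) : fib D y ≠ {q} := by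
  intro heq
  obtain ⟨s, hs, h1, h2⟩ := good_line y (bad D) (MvPolynomial.X 0 - MvPolynomial.C t)
    ⟨(t, y), rfl, (bad_ne_iff t y).mpr ⟨q, h⟩⟩ ⟨(t + 1, y), rfl, by
      rw [e2_sub, e2_X0, e2_C]; simp⟩
  obtain ⟨q', hq'⟩ := (bad_ne_iff _ _).mp h1
  have hs2 : s.2 = y := hs
  have h3 : q' ∈ fib D y := ⟨s, hs, hq'⟩
  rw [heq, Set.mem_singleton_iff] at h3
  rw [h3, hs2] at hq'
  apply h2
  rw [e2_sub, e2_X0, e2_C, sub_eq_zero]
  -- the parameter is determined by the point
  have a1 := hq'.co0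
  have a2 := hq'.co1
  have b1 := h.co0
  have b2 := h.co1
  have c := bez (D := D) y
  linear_combination (ev D.φ y D.al) * (a2 - b2) - (ev D.φ y D.be) * (a1 - b1) - (s.1 - t) * c

/-- another fibre exists -/
theorem V_ne_fib (hF : ∀ l, D.F l ≠ 0) (j : Fin 3)
    (hj : (D.F j).num.natDegree ≠ (D.F j).denom.natDegree) (y : Om) : ¬ D.V ⊆ fib D y := by
  intro hsub
  set c := Gen.cu D.F D.φ y j with hc
  set P : Polynomial Om := (D.F j).num.map D.φ - Polynomial.C c * (D.F j).denom.map D.φ with hP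
  have hPne : P ≠ 0 := by
    intro h0
    rw [hP, sub_eq_zero] at h0
    have h1 := congrArg Polynomial.natDegree h0
    rw [Polynomial.natDegree_map] at h1
    by_cases hc0 : c = 0
    · rw [hc0, map_zero, zero_mul] at h0
      exact RatFunc.num_ne_zero (hF j) ((Polynomial.map_eq_zero_iff D.φ.injective).mp h0)
    · rw [Polynomial.natDegree_C_mul hc0, Polynomial.natDegree_map] at h1
      exact hj h1
  obtain ⟨y1, hy1⟩ : ∃ y1, P.eval y1 ≠ 0 := by
    by_contra hcon
    push Not at hcon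
    exact hPne (Polynomial.funext fun y => by rw [hcon y, Polynomial.eval_zero])
  have hval : ∀ t y', e2 t y' (py D.φ (D.F j).num - MvPolynomial.C c * py D.φ (D.F j).denom) =
      P.eval y' := by
    intro t y'
    rw [e2_sub, e2_mul, e2_C, e2_py, e2_py, hP, Polynomial.eval_sub, Polynomial.eval_mul,
      Polynomial.eval_C, Polynomial.eval_map, Polynomial.eval_map]
    rfl
  obtain ⟨t0, y0, h0⟩ := exists_nonzero (bad D) (bad_ne hF)
  obtain ⟨s, _, h1, h2⟩ := good_univ (bad D)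
    (py D.φ (D.F j).num - MvPolynomial.C c * py D.φ (D.F j).denom)
    ⟨(t0, y0), Set.mem_univ _, h0⟩ ⟨(0, y1), Set.mem_univ _, by rw [hval]; exact hy1⟩
  obtain ⟨q, hq⟩ := (bad_ne_iff _ _).mp h1
  rw [hval] at h2
  have h3 := hsub ((mem_V_iff q).mpr ⟨s.1, s.2, hq⟩)
  obtain ⟨s', hs', hq'⟩ := h3
  have h4 : s'.2 = y := hs'
  have h5 : Gen.cu D.F D.φ s.2 j = c := by
    rw [hc, ← hq.co2 j, hq'.co2 j, h4]
  apply h2
  rw [hP, Polynomial.eval_sub, Polynomial.eval_mul, Polynomial.eval_C, Polynomial.eval_map,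
    Polynomial.eval_map, ← h5]
  have h6 := (hq.reg j).2
  unfold Gen.cu ev at *
  field_simp
  simp

/-- the coordinates as elements of the field of rational functions in two variables -/
noncomputable def th (D : Par k) :
    MvPolynomial (Fin 5) Om →ₐ[Om] FractionRing (MvPolynomial (Fin 2) Om) :=
  MvPolynomial.aeval fun i => algebraMap (MvPolynomial (Fin 2) Om)
    (FractionRing (MvPolynomial (Fin 2) Om)) (exists_num (D := D) i).choose /
      algebraMap (MvPolynomial (Fin 2) Om) (FractionRing (MvPolynomial (Fin 2) Om)) (den D)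

theorem exists_frac' (f : MvPolynomial (Fin 5) Om) : ∃ (G : MvPolynomial (Fin 2) Om) (m : ℕ),
    (∀ (q : Tor) (t y : Om), Over D q t y →
      MvPolynomial.eval q.co f * e2 t y (den D) ^ m = e2 t y G) ∧
    th D f * algebraMap (MvPolynomial (Fin 2) Om) (FractionRing (MvPolynomial (Fin 2) Om))
      (den D) ^ m = algebraMap (MvPolynomial (Fin 2) Om)
        (FractionRing (MvPolynomial (Fin 2) Om)) G := by
  have hinj : Function.Injective (algebraMap (MvPolynomial (Fin 2) Om)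
    (FractionRing (MvPolynomial (Fin 2) Om))) := IsFractionRing.injective _ _
  have hd : algebraMap (MvPolynomial (Fin 2) Om) (FractionRing (MvPolynomial (Fin 2) Om))
      (den D) ≠ 0 := by
    intro h
    exact den_ne (D := D) (hinj (by rw [h, map_zero]))
  induction f using MvPolynomial.induction_on with
  | C a =>
    refine ⟨MvPolynomial.C a, 0, fun q t y _ => by simp [e2_C], ?_⟩
    rw [pow_zero, mul_one, ← MvPolynomial.algebraMap_eq, AlgHom.commutes,
      ← MvPolynomial.algebraMap_eq, ← IsScalarTower.algebraMap_apply]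
  | add p q hp hq =>
    obtain ⟨G, m, h1, h1'⟩ := hp
    obtain ⟨H, n, h2, h2'⟩ := hq
    refine ⟨G * den D ^ n + H * den D ^ m, m + n, fun q t y h => ?_, ?_⟩
    · rw [map_add, e2_add, e2_mul, e2_mul, e2_pow, e2_pow, ← h1 q t y h, ← h2 q t y h]
      ring
    · rw [map_add, map_add, map_mul, map_mul, map_pow, map_pow, ← h1', ← h2']
      ring
  | mul_X p i hp =>
    obtain ⟨G, m, h1, h1'⟩ := hp
    have h2 := (exists_num (D := D) i).choose_spec
    refine ⟨G * (exists_num (D := D) i).choose, m + 1, fun q t y h => ?_, ?_⟩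
    · rw [map_mul, MvPolynomial.eval_X, e2_mul, ← h1 q t y h, ← h2 q t y h]
      ring
    · rw [map_mul, map_mul, ← h1']
      have h3 : th D (MvPolynomial.X i) = algebraMap (MvPolynomial (Fin 2) Om)
          (FractionRing (MvPolynomial (Fin 2) Om)) (exists_num (D := D) i).choose /
          algebraMap (MvPolynomial (Fin 2) Om) (FractionRing (MvPolynomial (Fin 2) Om))
            (den D) := MvPolynomial.aeval_X _ _
      rw [h3]
      field_simp
      ring

theorem mem_vI_iff (hF : ∀ l, D.F l ≠ 0) (f : MvPolynomial (Fin 5) Om) :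
    f ∈ vI D.V ↔ th D f = 0 := by
  have hinj : Function.Injective (algebraMap (MvPolynomial (Fin 2) Om)
    (FractionRing (MvPolynomial (Fin 2) Om))) := IsFractionRing.injective _ _
  obtain ⟨G, m, h1, h2⟩ := exists_frac' (D := D) f
  have hd : algebraMap (MvPolynomial (Fin 2) Om) (FractionRing (MvPolynomial (Fin 2) Om))
      (den D) ≠ 0 := by
    intro h
    exact den_ne (D := D) (hinj (by rw [h, map_zero]))
  constructor
  · intro hf
    have hG : G = 0 := by
      by_contra hG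
      obtain ⟨t, y, h3⟩ := exists_nonzero (G * bad D) (mul_ne_zero hG (bad_ne hF))
      rw [e2_mul] at h3
      obtain ⟨q, hq⟩ := (bad_ne_iff t y).mp (right_ne_zero_of_mul h3)
      apply left_ne_zero_of_mul h3
      rw [← h1 q t y hq, hf q ((mem_V_iff q).mpr ⟨t, y, hq⟩), zero_mul]
    rw [hG, map_zero] at h2
    exact (mul_eq_zero.mp h2).resolve_right (pow_ne_zero _ hd)
  · intro hf q hq
    rw [hf, zero_mul] at h2
    have hG : G = 0 := hinj (by rw [← h2, map_zero])
    obtain ⟨t, y, h⟩ := (mem_V_iff q).mp hq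
    have h3 := h1 q t y h
    rw [hG] at h3
    have h4 : e2 t y (0 : MvPolynomial (Fin 2) Om) = 0 := map_zero _
    rw [h4] at h3
    exact (mul_eq_zero.mp h3).resolve_right (pow_ne_zero _ h.den_ne)

theorem dimT_V_le (hF : ∀ l, D.F l ≠ 0) : dimT D.V ≤ 2 := by
  refine (dimT_le D.V).trans ?_
  have := vI_prime (V_irr hF)
  have h1 : ∀ f ∈ vI D.V, th D f = 0 := fun f hf => (mem_vI_iff hF f).mp hf
  refine ringKrullDim_le_of_trdeg (k := Om) (Ideal.Quotient.liftₐ (vI D.V) (th D) h1) ?_ 2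
    (by exact_mod_cast trdeg_frac Om 2)
  rw [injective_iff_map_eq_zero]
  intro a ha
  obtain ⟨f, rfl⟩ := Ideal.Quotient.mk_surjective a
  rw [Ideal.Quotient.eq_zero_iff_mem, mem_vI_iff hF]
  exact ha

/-- the dimension of the surface is two -/
theorem dimT_V (hF : ∀ l, D.F l ≠ 0) (hcl : IsClosed D.V) (j : Fin 3)
    (hj : (D.F j).num.natDegree ≠ (D.F j).denom.natDegree) : dimT D.V = 2 := by
  refine le_antisymm (dimT_V_le hF) ?_
  obtain ⟨P, hP⟩ := (V_irr hF).nonempty
  obtain ⟨t, y, h⟩ := (mem_V_iff P).mp hP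
  refine two_le_dimT (A := {P}) (B := fib D y) isIrreducible_singleton (closed_singleton P)
    (fib_irr h) (fib_closed h.reg) (V_irr hF) hcl ?_ ?_ Set.Subset.rfl
  · refine ⟨by simpa using mem_fib h, fun hcon => fib_ne h ?_⟩
    exact Set.Subset.antisymm hcon (by simpa using mem_fib h)
  · exact ⟨fib_sub y, V_ne_fib hF j hj y⟩

end

end Pool.Agent.Work.MP_7da6af_nt.Anom
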