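import Pool.Agent.Work.MP_7da6af_nt.Ext

/-! # Invariance under extension of number fields -/

set_option autoImplicit false

namespace Pool.Agent.Work.MP_7da6af_nt

open NumberField Polynomial

variable {K L : Type} [Field K] [NumberField K] [Field L] [NumberField L]

/-- Sums of positively homogeneous functions of the logarithmic vectors: embedding `f : K → L`. -/
theorem inv (f : K →+* L) {ι : Type} [Fintype ι] (F : (ι → ℝ) → ℝ)
    (hF : ∀ t : ℝ, 0 < t → ∀ u, F (t • u) = t * F u) (y : ι → K) (hy : ∀ i, y i ≠ 0) :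
    dg K * plSum L (fun p => F fun i => lg p (f (y i))) =
      dg L * plSum K (fun p => F fun i => lg p (y i)) := by
  let : Algebra K L := f.toAlgebra
  have h0 : F 0 = 0 := by
    have h := hF 2 two_pos 0
    rw [smul_zero] at h
    linarith
  have hF' : ∀ t : ℝ, 0 ≤ t → ∀ u, F (t • u) = t * F u := by
    intro t ht u
    rcases ht.eq_or_lt with h | h
    · rw [← h, zero_smul, zero_mul, h0]
    · exact hF t h u
  have h1 := plSum_ext (L := L) F hF' y hy
  have h2 : dg L = (Module.finrank K L : ℝ) * dg K := dg_ext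
  have h3 : plSum L (fun p => F fun i => lg p (f (y i))) =
      (Module.finrank K L : ℝ) * plSum K (fun p => F fun i => lg p (y i)) := h1
  rw [h3, h2]
  ring

theorem hh_map (f : K →+* L) {x : K} (hx : x ≠ 0) : dg K * hh (f x) = dg L * hh x := by
  have h := inv f (ι := Unit) (fun u => max 0 (u ())) (fun t ht u => by
    simp only [Pi.smul_apply, smul_eq_mul]
    rw [mul_max_of_nonneg _ _ ht.le, mul_zero]) (fun _ => x) fun _ => hx
  exact h

theorem dg_rat : dg ℚ = 1 := by
  simp [dg]

theorem hh_rat (q : ℚ) (hq : q ≠ 0) : hh (algebraMap ℚ K q) = dg K * hh q := by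
  have h := hh_map (algebraMap ℚ K) hq
  rw [dg_rat, one_mul] at h
  exact h

end Pool.Agent.Work.MP_7da6af_nt
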