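import Pool.Agent.Work.MP_7da6af_nt.AnomDefs
import Pool.Agent.Work.MP_7da6af_nt.Inv

/-! # Heights of algebraic numbers -/

set_option autoImplicit false

namespace Pool.Agent.Work.MP_7da6af_nt.Anom

open NumberField IntermediateField

theorem isInt (x : Om) : IsIntegral ℚ x := by
  obtain ⟨p, hp, hx⟩ := ((AlgebraicClosure.isAlgebraic ℚ).isAlgebraic x).isIntegral
  refine ⟨p, hp, ?_⟩
  rw [← hx]
  congr 1

/-- the absolute height of Mathlib computed in any number field -/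
theorem absLogHeight_map {K : Type} [Field K] [NumberField K] (φ : K →+* Om) (α : K)
    (hα : α ≠ 0) : absLogHeight₁ (φ α) = hh α / dg K := by
  have hx : IsIntegral ℚ (φ α) := isInt _
  have : FiniteDimensional ℚ ℚ⟮φ α⟯ := adjoin.finiteDimensional hx
  have : NumberField ℚ⟮φ α⟯ := {}
  have h1 : absLogHeight₁ (φ α) =
      ((Module.finrank ℚ ℚ⟮φ α⟯ : ℝ))⁻¹ * Height.logHeight₁ (AdjoinSimple.gen ℚ (φ α)) := by
    unfold absLogHeight₁ absMulHeight₁
    rw [dif_pos hx, Real.log_rpow (Height.mulHeight₁_pos _)]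
    rfl
  have hg : AdjoinSimple.gen ℚ (φ α) ≠ 0 := by
    intro h0
    have h2 : φ α = 0 := by
      have := congrArg (fun z : ℚ⟮φ α⟯ => (z : Om)) h0
      simpa using this
    exact hα ((map_eq_zero φ).mp h2)
  have hmem : ∀ t : ℚ⟮φ α⟯, (t : Om) ∈ φ.range := by
    intro t
    have h3 : ℚ⟮φ α⟯ ≤ φ.toRatAlgHom.fieldRange := adjoin_simple_le_iff.mpr ⟨α, rfl⟩
    exact h3 t.2
  let e : K ≃+* φ.range := RingEquiv.ofBijective φ.rangeRestrict
    ⟨fun a b hab => φ.injective (congrArg Subtype.val hab), φ.rangeRestrict_surjective⟩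
  let g : ℚ⟮φ α⟯ →+* φ.range := (algebraMap ℚ⟮φ α⟯ Om).codRestrict φ.range hmem
  let f : ℚ⟮φ α⟯ →+* K := e.symm.toRingHom.comp g
  have h5 : f (AdjoinSimple.gen ℚ (φ α)) = α := by
    show e.symm (g _) = α
    rw [RingEquiv.symm_apply_eq]
    rfl
  have h4 := hh_map f hg
  rw [h5, hh_eq hg] at h4
  have h6 : 0 < dg K := dg_pos
  have h7 : 0 < dg ℚ⟮φ α⟯ := dg_pos
  rw [h1]
  change (dg ℚ⟮φ α⟯)⁻¹ * _ = _
  rw [eq_div_iff h6.ne']
  have h8 : hh α = dg K * Height.logHeight₁ (AdjoinSimple.gen ℚ (φ α)) / dg ℚ⟮φ α⟯ := by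
    rw [eq_div_iff h7.ne', ← h4]
    ring
  rw [h8]
  ring

/-- finitely many algebraic numbers lie in an extension of a given number field -/
theorem exists_field {k : Type} [Field k] [NumberField k] (ι : k →+* Om) (x z y : Om) :
    ∃ (K : Type) (_ : Field K) (_ : NumberField K) (φ : k →+* K) (j : K →+* Om) (x' z' y' : K),
      j.comp φ = ι ∧ j x' = x ∧ j z' = z ∧ j y' = y := by
  let f : k →ₐ[ℚ] Om := ι.toRatAlgHom
  have h0 : FiniteDimensional ℚ f.fieldRange := by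
    let g : k →ₗ[ℚ] f.fieldRange :=
      { toFun := fun a => ⟨f a, a, rfl⟩
        map_add' := fun a b => Subtype.ext (map_add f a b)
        map_smul' := fun c a => Subtype.ext (f.toLinearMap.map_smul c a) }
    refine Module.Finite.of_surjective g ?_
    rintro ⟨_, a, rfl⟩
    exact ⟨a, rfl⟩
  have h1 : FiniteDimensional ℚ ℚ⟮x⟯ := adjoin.finiteDimensional (isInt _)
  have h2 : FiniteDimensional ℚ ℚ⟮z⟯ := adjoin.finiteDimensional (isInt _)
  have h3 : FiniteDimensional ℚ ℚ⟮y⟯ := adjoin.finiteDimensional (isInt _)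
  let S : IntermediateField ℚ Om := (f.fieldRange ⊔ ℚ⟮x⟯) ⊔ (ℚ⟮z⟯ ⊔ ℚ⟮y⟯)
  have hS : FiniteDimensional ℚ S := inferInstance
  have hN : NumberField S := {}
  have hι : ∀ a, ι a ∈ S := fun a =>
    (le_sup_left.trans le_sup_left : f.fieldRange ≤ S) ⟨a, rfl⟩
  have hx : x ∈ S := (le_sup_right.trans le_sup_left : ℚ⟮x⟯ ≤ S) (mem_adjoin_simple_self ℚ x)
  have hz : z ∈ S := (le_sup_left.trans le_sup_right : ℚ⟮z⟯ ≤ S) (mem_adjoin_simple_self ℚ z)
  have hy : y ∈ S := (le_sup_right.trans le_sup_right : ℚ⟮y⟯ ≤ S) (mem_adjoin_simple_self ℚ y)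
  exact ⟨S, inferInstance, hN, ι.codRestrict S hι, algebraMap S Om, ⟨x, hx⟩, ⟨z, hz⟩,
    ⟨y, hy⟩, RingHom.ext fun a => rfl, rfl, rfl, rfl⟩

end Pool.Agent.Work.MP_7da6af_nt.Anom
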