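import Pool.Agent.Work.MP_7da6af_nt.AnomDefs

/-! # Relation lattices -/

set_option autoImplicit false

namespace Pool.Agent.Work.MP_7da6af_nt.Anom

theorem chr_zero (P : Tor) : P.chr 0 = 1 := by
  unfold Tor.chr
  simp

theorem chr_add (P : Tor) (m n : Fin 5 → ℤ) : P.chr (m + n) = P.chr m * P.chr n := by
  unfold Tor.chr
  rw [← Finset.prod_mul_distrib]
  refine Finset.prod_congr rfl fun i _ => ?_
  rw [Pi.add_apply, zpow_add]

theorem chr_smul (P : Tor) (c : ℤ) (m : Fin 5 → ℤ) : P.chr (c • m) = P.chr m ^ c := by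
  unfold Tor.chr
  rw [← Finset.prod_zpow]
  refine Finset.prod_congr rfl fun i _ => ?_
  rw [Pi.smul_apply, smul_eq_mul, zpow_mul']

theorem one_chr (m : Fin 5 → ℤ) : (1 : Tor).chr m = 1 :=
  Finset.prod_eq_one fun i _ => one_zpow (m i)

theorem pow_chr (q : Tor) (N : ℕ) (m : Fin 5 → ℤ) : (q ^ N).chr m = q.chr m ^ N := by
  unfold Tor.chr
  rw [← Finset.prod_pow]
  refine Finset.prod_congr rfl fun i _ => ?_
  have h : (q ^ N).fn i = q.fn i ^ N := rfl
  rw [h, ← zpow_natCast, ← zpow_natCast, zpow_comm]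

/-- the lattice of relations of a point -/
def rel (P : Tor) : Submodule ℤ (Fin 5 → ℤ) where
  carrier := {m | P.chr m = 1}
  zero_mem' := chr_zero P
  add_mem' := by
    intro m n hm hn
    rw [Set.mem_ofPred_eq] at hm hn ⊢
    rw [chr_add, hm, hn, one_mul]
  smul_mem' := by
    intro c m hm
    rw [Set.mem_ofPred_eq] at hm ⊢
    rw [chr_smul, hm, one_zpow]

theorem mem_rel (P : Tor) (m : Fin 5 → ℤ) : m ∈ rel P ↔ P.chr m = 1 := Iff.rfl

/-- a point of a torsion variety of codimension `c` has at least `c` independent relations -/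
theorem rel_rank {B : Set Tor} {c : ℕ} {P : Tor} (hB : IsTorsionVariety B c) (hP : P ∈ B) :
    c ≤ Module.finrank ℤ (rel P) := by
  obtain ⟨F, hF, rfl, hc, -⟩ := hB
  simp only [Set.mem_iUnion] at hP
  obtain ⟨⟨ζ, Λ⟩, hp, hP⟩ := hP
  have h1 := hc _ hp
  refine h1.trans ?_
  obtain ⟨N, hN, hζ⟩ := (isOfFinOrder_iff_pow_eq_one.mp (hF _ hp))
  have hζ' : ζ ^ N = 1 := hζ
  have hP' : ∀ m ∈ Λ, P.chr m = ζ.chr m := hP
  have hmem : ∀ m ∈ Λ, (N : ℤ) • m ∈ rel P := by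
    intro m hm
    rw [mem_rel, chr_smul, hP' m hm, zpow_natCast, ← pow_chr, hζ', one_chr]
  let f : Λ →ₗ[ℤ] rel P :=
    { toFun := fun m => ⟨(N : ℤ) • (m : Fin 5 → ℤ), hmem _ m.2⟩
      map_add' := fun a b => Subtype.ext (smul_add _ _ _)
      map_smul' := fun c a => Subtype.ext (smul_comm _ _ _) }
  refine LinearMap.finrank_le_finrank_of_injective (f := f) ?_
  intro a b hab
  have h2 : (N : ℤ) • (a : Fin 5 → ℤ) = (N : ℤ) • (b : Fin 5 → ℤ) := congrArg Subtype.val hab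
  have h3 : (N : ℤ) ≠ 0 := by exact_mod_cast hN.ne'
  refine Subtype.ext (funext fun i => ?_)
  have h4 := congrFun h2 i
  simp only [Pi.smul_apply, smul_eq_mul] at h4
  exact mul_left_cancel₀ h3 h4

theorem exists_indep (Λ : Submodule ℤ (Fin 5 → ℤ)) (n : ℕ) (hn : n ≤ Module.finrank ℤ Λ) :
    ∃ M : Fin n → Fin 5 → ℤ, LinearIndependent ℤ M ∧ ∀ i, M i ∈ Λ := by
  let b := Module.finBasis ℤ Λ
  have h1 : LinearIndependent ℤ (fun i : Fin (Module.finrank ℤ Λ) => ((b i : Λ) : Fin 5 → ℤ)) :=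
    b.linearIndependent.map' Λ.subtype (Submodule.ker_subtype Λ)
  exact ⟨fun i => ((b (Fin.castLE hn i) : Λ) : Fin 5 → ℤ),
    h1.comp (Fin.castLE hn) (Fin.castLE_injective hn), fun i => (b (Fin.castLE hn i)).2⟩

theorem rank_ker (Λ : Submodule ℤ (Fin 5 → ℤ)) (e : (Fin 5 → ℤ) →ₗ[ℤ] ℤ) :
    Module.finrank ℤ Λ ≤ Module.finrank ℤ (Λ ⊓ LinearMap.ker e : Submodule ℤ (Fin 5 → ℤ)) + 1 := by
  have h1 := Submodule.finrank_quotient_add_finrank (LinearMap.ker (e.comp Λ.subtype))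
  rw [(e.comp Λ.subtype).quotKerEquivRange.finrank_eq] at h1
  have h2 : Module.finrank ℤ (LinearMap.range (e.comp Λ.subtype)) ≤ 1 := by
    have := Submodule.finrank_le (LinearMap.range (e.comp Λ.subtype))
    rwa [Module.finrank_self] at this
  have h3 : Module.finrank ℤ (LinearMap.ker (e.comp Λ.subtype)) ≤
      Module.finrank ℤ (Λ ⊓ LinearMap.ker e : Submodule ℤ (Fin 5 → ℤ)) := by
    let f : LinearMap.ker (e.comp Λ.subtype) →ₗ[ℤ] (Λ ⊓ LinearMap.ker e : Submodule ℤ (Fin 5 → ℤ)) :=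
      { toFun := fun m => ⟨((m : Λ) : Fin 5 → ℤ), ⟨(m : Λ).2, m.2⟩⟩
        map_add' := fun a b => rfl
        map_smul' := fun c a => rfl }
    refine LinearMap.finrank_le_finrank_of_injective (f := f) ?_
    intro a b hab
    have h4 : ((a : Λ) : Fin 5 → ℤ) = ((b : Λ) : Fin 5 → ℤ) :=
      congrArg (fun z : (Λ ⊓ LinearMap.ker e : Submodule ℤ (Fin 5 → ℤ)) => (z : Fin 5 → ℤ)) hab
    exact Subtype.ext (Subtype.ext h4)
  omega

/-- the last three coordinates -/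
def ext5 : (Fin 3 → ℤ) →ₗ[ℤ] (Fin 5 → ℤ) where
  toFun := fun v => ![0, 0, v 0, v 1, v 2]
  map_add' := by
    intro v w
    funext i
    fin_cases i <;> simp
  map_smul' := by
    intro c v
    funext i
    fin_cases i <;> simp

theorem chr_ext5 (P : Tor) (v : Fin 3 → ℤ) :
    ((P.chr (ext5 v) : Omˣ) : Om) = ∏ j : Fin 3, P.co (Fin.natAdd 2 j) ^ v j := by
  unfold Tor.chr Tor.co
  rw [Fin.prod_univ_five, Fin.prod_univ_three]
  have h0 : ext5 v 0 = 0 := rfl
  have h1 : ext5 v 1 = 0 := rfl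
  have h2 : ext5 v 2 = v 0 := rfl
  have h3 : ext5 v 3 = v 1 := rfl
  have h4 : ext5 v 4 = v 2 := rfl
  rw [h0, h1, h2, h3, h4, zpow_zero, zpow_zero, one_mul, one_mul]
  push_cast
  rfl

/-- two independent relations between the last three coordinates -/
theorem rank_of_two (P : Tor) (N : Fin 2 → Fin 3 → ℤ) (hN : LinearIndependent ℤ N)
    (h : ∀ i, ∏ j : Fin 3, P.co (Fin.natAdd 2 j) ^ N i j = 1) :
    ∃ Λ : Submodule ℤ (Fin 5 → ℤ), Λ ≤ rel P ∧ (∀ m ∈ Λ, m 0 = 0 ∧ m 1 = 0) ∧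
      2 ≤ Module.finrank ℤ Λ := by
  have hinj : Function.Injective ext5 := by
    intro v w hvw
    funext i
    fin_cases i
    · exact congrFun hvw 2
    · exact congrFun hvw 3
    · exact congrFun hvw 4
  have hli : LinearIndependent ℤ (fun i => ext5 (N i)) :=
    hN.map' ext5 (LinearMap.ker_eq_bot.mpr hinj)
  refine ⟨Submodule.span ℤ (Set.range fun i => ext5 (N i)), ?_, ?_, ?_⟩
  · rw [Submodule.span_le]
    rintro _ ⟨i, rfl⟩
    show P.chr (ext5 (N i)) = 1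
    ext
    rw [chr_ext5, h i, Units.val_one]
  · intro m hm
    induction hm using Submodule.span_induction with
    | mem x hx =>
      obtain ⟨i, rfl⟩ := hx
      exact ⟨rfl, rfl⟩
    | zero => exact ⟨rfl, rfl⟩
    | add x y _ _ hx hy =>
      exact ⟨by rw [Pi.add_apply, hx.1, hy.1, add_zero], by rw [Pi.add_apply, hx.2, hy.2, add_zero]⟩
    | smul a x _ hx =>
      exact ⟨by rw [Pi.smul_apply, hx.1, smul_zero], by rw [Pi.smul_apply, hx.2, smul_zero]⟩
  · rw [finrank_span_eq_card hli, Fintype.card_fin]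

/-- subgroups are torsion varieties -/
theorem torsion_of_lattice (Λ : Submodule ℤ (Fin 5 → ℤ)) :
    IsTorsionVariety (coset 1 Λ) (Module.finrank ℤ Λ) := by
  classical
  refine ⟨{(1, Λ)}, ?_, ?_, ?_, ?_⟩
  · intro p hp
    rw [Finset.mem_singleton] at hp
    rw [hp]
    exact IsOfFinOrder.one
  · simp
  · intro p hp
    rw [Finset.mem_singleton] at hp
    rw [hp]
  · exact ⟨(1, Λ), Finset.mem_singleton_self _, rfl⟩

theorem mem_coset_one (Λ : Submodule ℤ (Fin 5 → ℤ)) (q : Tor) :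
    q ∈ coset 1 Λ ↔ ∀ m ∈ Λ, q.chr m = 1 := by
  constructor
  · intro h m hm
    rw [h m hm, one_chr]
  · intro h m hm
    rw [h m hm, one_chr]

theorem coset_ne_univ (Λ : Submodule ℤ (Fin 5 → ℤ)) (h : 1 ≤ Module.finrank ℤ Λ) :
    coset 1 Λ ≠ Set.univ := by
  intro hu
  obtain ⟨M, hM, hMΛ⟩ := exists_indep Λ 1 h
  have hM0 : M 0 ≠ 0 := hM.ne_zero 0
  obtain ⟨i, hi⟩ := Function.ne_iff.mp hM0
  let u : Omˣ := Units.mk0 (2 : Om) two_ne_zero
  let q : Tor := (show Tor from Function.update (1 : Fin 5 → Omˣ) i u)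
  have hq : q ∈ coset 1 Λ := by rw [hu]; exact Set.mem_univ q
  have h1 := (mem_coset_one Λ q).mp hq (M 0) (hMΛ 0)
  have hqj : ∀ j, q.fn j = Function.update (1 : Fin 5 → Omˣ) i u j :=
    fun _ => rfl
  have h2 : q.chr (M 0) = u ^ M 0 i := by
    unfold Tor.chr
    rw [Finset.prod_eq_single i]
    · rw [hqj i, Function.update_self]
    · intro j _ hj
      rw [hqj j, Function.update_of_ne hj, Pi.one_apply, one_zpow]
    · intro hj
      exact absurd (Finset.mem_univ i) hj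
  rw [h2] at h1
  have h3 : (2 : Om) ^ M 0 i = 1 := by
    have := congrArg (fun z : Omˣ => (z : Om)) h1
    simpa [u] using this
  have h4 : ((2 : ℚ) ^ M 0 i) = 1 := by
    have h5 : (algebraMap ℚ Om) ((2 : ℚ) ^ M 0 i) = algebraMap ℚ Om 1 := by
      rw [map_zpow₀, map_ofNat, map_one, h3]
    exact (algebraMap ℚ Om).injective h5
  have h6 := (zpow_eq_one_iff_right₀ (by norm_num : (0 : ℚ) ≤ 2) (by norm_num : (2 : ℚ) ≠ 1)).mp h4
  exact hi h6

end Pool.Agent.Work.MP_7da6af_nt.Anom
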