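import Mathlib

/-! # The polynomials of Beukers and Schlickewei -/

set_option autoImplicit false

namespace Pool.Agent.Work.MP_7da6af_nt

open Polynomial

/-- The basic sum `∑ (-1)^j C(a+j,j) C(a+b+m,b-j) X^j`. -/
noncomputable def bsS (a b m : ℕ) : ℤ[X] :=
  ∑ j ∈ Finset.range (b + 1),
    Polynomial.C ((-1 : ℤ) ^ j * ((a + j).choose j : ℤ) * ((a + b + m).choose (b - j) : ℤ)) * X ^ j

/-- The binomial identity behind the Beta integral. -/
theorem bs_choose (a b m j : ℕ) (hj : j ≤ b) :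
    (a + j).choose j * (a + b + m).choose (b - j) * (a + m + j).descFactorial m =
      ((a + b).choose a * (a + b + m).descFactorial m) * b.choose j := by
  have h1 : (a + j).choose j * (j.factorial * a.factorial) = (a + j).factorial := by
    have := Nat.choose_mul_factorial_mul_factorial (n := a + j) (k := j) (by omega)
    have e : a + j - j = a := by omega
    rw [e] at this
    linarith [this, mul_assoc ((a + j).choose j) j.factorial a.factorial]
  have h2 : (a + b + m).choose (b - j) * ((b - j).factorial * (a + m + j).factorial) =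
      (a + b + m).factorial := by
    have := Nat.choose_mul_factorial_mul_factorial (n := a + b + m) (k := b - j) (by omega)
    have e : a + b + m - (b - j) = a + m + j := by omega
    rw [e] at this
    linarith [this, mul_assoc ((a + b + m).choose (b - j)) (b - j).factorial (a + m + j).factorial]
  have h3 : (a + j).factorial * (a + m + j).descFactorial m = (a + m + j).factorial := by
    have := Nat.factorial_mul_descFactorial (n := a + m + j) (k := m) (by omega)
    have e : a + m + j - m = a + j := by omega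
    rw [e] at this
    exact this
  have h4 : (a + b).choose a * (a.factorial * b.factorial) = (a + b).factorial := by
    have := Nat.choose_mul_factorial_mul_factorial (n := a + b) (k := a) (by omega)
    have e : a + b - a = b := by omega
    rw [e] at this
    linarith [this, mul_assoc ((a + b).choose a) a.factorial b.factorial]
  have h5 : (a + b).factorial * (a + b + m).descFactorial m = (a + b + m).factorial := by
    have := Nat.factorial_mul_descFactorial (n := a + b + m) (k := m) (by omega)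
    have e : a + b + m - m = a + b := by omega
    rw [e] at this
    exact this
  have h6 : b.choose j * (j.factorial * (b - j).factorial) = b.factorial := by
    have := Nat.choose_mul_factorial_mul_factorial hj
    linarith [this, mul_assoc (b.choose j) j.factorial (b - j).factorial]
  have hpos : 0 < j.factorial * a.factorial * (b - j).factorial * (a + j).factorial := by
    positivity
  refine Nat.eq_of_mul_eq_mul_right hpos ?_
  have hR : ((a + b).choose a * (a + b + m).descFactorial m) * b.choose j *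
      (j.factorial * a.factorial * (b - j).factorial * (a + j).factorial) =
      (a + b + m).factorial * (a + j).factorial := by
    calc _ = ((a + b).choose a * (a.factorial * (b.choose j * (j.factorial * (b - j).factorial)))) *
          (a + b + m).descFactorial m * (a + j).factorial := by ring
      _ = _ := by rw [h6, h4, h5]
  have hL : (a + j).choose j * (a + b + m).choose (b - j) * (a + m + j).descFactorial m *
      (j.factorial * a.factorial * (b - j).factorial * (a + j).factorial) =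
      (a + b + m).factorial * (a + j).factorial := by
    calc _ = ((a + j).choose j * (j.factorial * a.factorial)) *
          ((a + b + m).choose (b - j) * ((b - j).factorial *
            ((a + j).factorial * (a + m + j).descFactorial m))) := by ring
      _ = _ := by rw [h3, h2, h1]; ring
  rw [hL, hR]

theorem bs_deriv (a b m : ℕ) :
    derivative^[m] (X ^ (a + m) * bsS a b m) =
      Polynomial.C (((a + b).choose a * (a + b + m).descFactorial m : ℕ) : ℤ) *
        (X ^ a * (1 - X) ^ b) := by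
  unfold bsS
  rw [Finset.mul_sum, iterate_derivative_sum]
  have hsub : (1 - X : ℤ[X]) ^ b = ∑ j ∈ Finset.range (b + 1),
      Polynomial.C ((-1 : ℤ) ^ j * (b.choose j : ℤ)) * X ^ j := by
    rw [sub_eq_add_neg, add_comm, add_pow]
    refine Finset.sum_congr rfl fun j _ => ?_
    rw [neg_pow]
    simp only [one_pow, mul_one, map_mul, map_pow, map_neg, map_one, map_natCast]
    ring
  rw [hsub, Finset.mul_sum, Finset.mul_sum]
  refine Finset.sum_congr rfl fun j hj => ?_
  have hj' : j ≤ b := by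
    have := Finset.mem_range.mp hj
    omega
  have e : X ^ (a + m) * (Polynomial.C ((-1 : ℤ) ^ j * ((a + j).choose j : ℤ) *
      ((a + b + m).choose (b - j) : ℤ)) * X ^ j) =
      Polynomial.C ((-1 : ℤ) ^ j * ((a + j).choose j : ℤ) * ((a + b + m).choose (b - j) : ℤ)) *
        X ^ (a + m + j) := by
    rw [pow_add X (a + m) j]; ring
  rw [e, iterate_derivative_C_mul, iterate_derivative_X_pow_eq_natCast_mul]
  have e2 : a + m + j - m = a + j := by omega
  rw [e2]
  have key := bs_choose a b m j hj'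
  have key' : ((a + j).choose j : ℤ) * ((a + b + m).choose (b - j) : ℤ) *
      ((a + m + j).descFactorial m : ℤ) =
      ((((a + b).choose a * (a + b + m).descFactorial m : ℕ) : ℤ)) * (b.choose j : ℤ) := by
    exact_mod_cast key
  have key2 : (Polynomial.C ((-1 : ℤ) ^ j * ((a + j).choose j : ℤ) *
      ((a + b + m).choose (b - j) : ℤ)) : ℤ[X]) * ((((a + m + j).descFactorial m : ℕ)) : ℤ[X]) =
      Polynomial.C ((((a + b).choose a * (a + b + m).descFactorial m : ℕ) : ℤ)) *
        Polynomial.C ((-1 : ℤ) ^ j * (b.choose j : ℤ)) := by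
    rw [← Polynomial.C_mul]
    have : (((a + m + j).descFactorial m : ℕ) : ℤ[X]) =
        Polynomial.C (((a + m + j).descFactorial m : ℕ) : ℤ) := by simp
    rw [this, ← Polynomial.C_mul]
    congr 1
    linear_combination ((-1 : ℤ) ^ j) * key'
  rw [← mul_assoc, key2, pow_add]
  ring

/-- Vanishing of the `m`-th derivative of the combination. -/
theorem bs_deriv_zero (n k : ℕ) :
    derivative^[n + 1] (X ^ (2 * n + 1) * (X ^ k * bsS (n + k) n (n + 1)) +
      (1 - X) ^ (2 * n + 1) * ((-1) ^ n * (bsS n (n + k) (n + 1)).comp (1 - X))) = 0 := by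
  have h1 : X ^ (2 * n + 1) * (X ^ k * bsS (n + k) n (n + 1)) =
      X ^ ((n + k) + (n + 1)) * bsS (n + k) n (n + 1) := by
    rw [← mul_assoc, ← pow_add]
    congr 2
    ring
  have h2 : (1 - X) ^ (2 * n + 1) * ((-1) ^ n * (bsS n (n + k) (n + 1)).comp (1 - X)) =
      Polynomial.C ((-1 : ℤ) ^ n) *
        (X ^ (n + (n + 1)) * bsS n (n + k) (n + 1)).comp (1 - X) := by
    rw [mul_comp, X_pow_comp]
    simp only [map_pow, map_neg, map_one]
    have : n + (n + 1) = 2 * n + 1 := by ring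
    rw [this]
    ring
  rw [h1, h2, iterate_map_add, bs_deriv, iterate_derivative_C_mul,
    iterate_derivative_comp_one_sub_X, bs_deriv]
  have e1 : n + k + n + (n + 1) = n + (n + k) + (n + 1) := by ring
  have e2 : (n + k + n).choose (n + k) = (n + (n + k)).choose n := by
    rw [show n + k + n = n + (n + k) by ring]
    rw [Nat.choose_symm_of_eq_add]
    ring
  rw [e1, e2]
  simp only [mul_comp, C_comp, pow_comp, sub_comp, one_comp, X_comp, map_pow, map_neg,
    map_one]
  have hs : (-1 : ℤ[X]) ^ n * (-1) ^ n = 1 := by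
    rw [← mul_pow]; simp
  have e3 : (1 - (1 - X) : ℤ[X]) = X := by ring
  rw [e3, pow_succ]
  linear_combination (-(Polynomial.C (((((n + (n + k)).choose n *
    (n + (n + k) + (n + 1)).descFactorial (n + 1) : ℕ)) : ℤ)) * ((1 - X) ^ n * X ^ (n + k)))) * hs

theorem natDegree_le_of_deriv_zero (p : ℤ[X]) (n : ℕ) (h : derivative^[n + 1] p = 0) :
    p.natDegree ≤ n := by
  rw [natDegree_le_iff_coeff_eq_zero]
  intro N hN
  obtain ⟨m, rfl⟩ : ∃ m, N = m + (n + 1) := ⟨N - (n + 1), by omega⟩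
  have := congrArg (fun q => q.coeff m) h
  simp only [coeff_iterate_derivative, coeff_zero, nsmul_eq_mul, mul_eq_zero, Nat.cast_eq_zero] at this
  rcases this with h1 | h1
  · rw [Nat.descFactorial_eq_zero_iff_lt] at h1
    omega
  · exact h1

theorem bsS_natDegree (a b m : ℕ) : (bsS a b m).natDegree ≤ b := by
  unfold bsS
  refine natDegree_sum_le_of_forall_le _ _ fun j hj => ?_
  have hj' : j ≤ b := by
    have := Finset.mem_range.mp hj
    omega
  exact (natDegree_C_mul_X_pow_le _ _).trans hj'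

/-- `f(a,b,M) = ∑_{j ≤ b} (-1)^j C(a+j,j) C(M,b-j)`. -/
theorem bs_sum_rec (a b M : ℕ) :
    ∑ j ∈ Finset.range (b + 1 + 1), (-1 : ℤ) ^ j * ((a + 1 + j).choose j : ℤ) *
        (M.choose (b + 1 - j) : ℤ) =
      ∑ j ∈ Finset.range (b + 1 + 1), (-1 : ℤ) ^ j * ((a + j).choose j : ℤ) *
        (M.choose (b + 1 - j) : ℤ) -
      ∑ j ∈ Finset.range (b + 1), (-1 : ℤ) ^ j * ((a + 1 + j).choose j : ℤ) *
        (M.choose (b - j) : ℤ) := by
  rw [Finset.sum_range_succ' _ (b + 1), Finset.sum_range_succ' _ (b + 1)]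
  have : ∀ j ∈ Finset.range (b + 1), (-1 : ℤ) ^ (j + 1) * ((a + 1 + (j + 1)).choose (j + 1) : ℤ) *
      (M.choose (b + 1 - (j + 1)) : ℤ) =
      (-1 : ℤ) ^ (j + 1) * ((a + (j + 1)).choose (j + 1) : ℤ) * (M.choose (b + 1 - (j + 1)) : ℤ) -
      (-1 : ℤ) ^ j * ((a + 1 + j).choose j : ℤ) * (M.choose (b - j) : ℤ) := by
    intro j _
    have e : (a + 1 + (j + 1)).choose (j + 1) = (a + 1 + j).choose j + (a + (j + 1)).choose (j + 1) := by
      rw [show a + 1 + (j + 1) = (a + 1 + j) + 1 by ring, Nat.choose_succ_succ,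
        show a + 1 + j = a + (j + 1) by ring]
    rw [e, show b + 1 - (j + 1) = b - j by omega]
    push_cast
    ring
  rw [Finset.sum_congr rfl this, Finset.sum_sub_distrib]
  simp
  ring

theorem bs_sum_rec0 (b M : ℕ) :
    ∑ j ∈ Finset.range (b + 1 + 1), (-1 : ℤ) ^ j * ((0 + j).choose j : ℤ) *
        (M.choose (b + 1 - j) : ℤ) =
      (M.choose (b + 1) : ℤ) -
      ∑ j ∈ Finset.range (b + 1), (-1 : ℤ) ^ j * ((0 + j).choose j : ℤ) *
        (M.choose (b - j) : ℤ) := by
  rw [Finset.sum_range_succ' _ (b + 1)]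
  have : ∀ j ∈ Finset.range (b + 1), (-1 : ℤ) ^ (j + 1) * ((0 + (j + 1)).choose (j + 1) : ℤ) *
      (M.choose (b + 1 - (j + 1)) : ℤ) =
      -((-1 : ℤ) ^ j * ((0 + j).choose j : ℤ) * (M.choose (b - j) : ℤ)) := by
    intro j _
    rw [show b + 1 - (j + 1) = b - j by omega]
    simp [pow_succ]
  rw [Finset.sum_congr rfl this, Finset.sum_neg_distrib]
  simp
  ring

theorem bs_sum (a : ℕ) : ∀ b M : ℕ, a + 1 ≤ M →
    ∑ j ∈ Finset.range (b + 1), (-1 : ℤ) ^ j * ((a + j).choose j : ℤ) * (M.choose (b - j) : ℤ) =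
      ((M - (a + 1)).choose b : ℤ) := by
  induction a with
  | zero =>
    intro b M hM
    induction b with
    | zero => simp
    | succ b ih =>
      rw [bs_sum_rec0, ih]
      obtain ⟨M', rfl⟩ : ∃ M', M = M' + 1 := ⟨M - 1, by omega⟩
      rw [Nat.choose_succ_succ]
      simp
  | succ a iha =>
    intro b M hM
    induction b with
    | zero => simp
    | succ b ih =>
      rw [bs_sum_rec, ih, iha (b + 1) M (by omega)]
      obtain ⟨M', rfl⟩ : ∃ M', M = M' + (a + 1 + 1) := ⟨M - (a + 1 + 1), by omega⟩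
      rw [show M' + (a + 1 + 1) - (a + 1) = M' + 1 by omega,
        show M' + (a + 1 + 1) - (a + 1 + 1) = M' by omega, Nat.choose_succ_succ]
      push_cast
      ring

theorem bsS_eval_one (a b m : ℕ) (h : 1 ≤ b + m) :
    (bsS a b m).eval 1 = ((b + m - 1).choose b : ℤ) := by
  unfold bsS
  simp only [eval_finsetSum, eval_mul, eval_C, eval_pow, eval_X, one_pow, mul_one]
  rw [bs_sum a b (a + b + m) (by omega)]
  congr 2
  omega

theorem bsS_coeff_zero (a b m : ℕ) : (bsS a b m).coeff 0 = ((a + b + m).choose b : ℤ) := by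
  unfold bsS
  rw [coeff_zero_eq_eval_zero]
  simp only [eval_finsetSum, eval_mul, eval_C, eval_pow, eval_X]
  rw [Finset.sum_eq_single 0]
  · simp
  · intro j _ hj
    simp [hj]
  · intro h
    simp at h

/-- `q` majorizes `p`. -/
def BsMaj (p q : ℤ[X]) : Prop := ∀ i, |p.coeff i| ≤ q.coeff i

theorem BsMaj.nonneg {p q : ℤ[X]} (h : BsMaj p q) (i : ℕ) : 0 ≤ q.coeff i :=
  (abs_nonneg _).trans (h i)

theorem BsMaj.add {p q p' q' : ℤ[X]} (h : BsMaj p q) (h' : BsMaj p' q') :
    BsMaj (p + p') (q + q') := by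
  intro i
  rw [coeff_add, coeff_add]
  exact (abs_add_le _ _).trans (add_le_add (h i) (h' i))

theorem BsMaj.mul {p q p' q' : ℤ[X]} (h : BsMaj p q) (h' : BsMaj p' q') :
    BsMaj (p * p') (q * q') := by
  intro i
  rw [coeff_mul, coeff_mul]
  refine (Finset.abs_sum_le_sum_abs _ _).trans (Finset.sum_le_sum fun x _ => ?_)
  rw [abs_mul]
  exact mul_le_mul (h _) (h' _) (abs_nonneg _) (h.nonneg _)

theorem BsMaj.one : BsMaj 1 1 := by
  intro i
  rw [coeff_one]
  split_ifs <;> simp

theorem BsMaj.x : BsMaj X X := by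
  intro i
  rw [coeff_X]
  split_ifs <;> simp

theorem BsMaj.const (a : ℤ) : BsMaj (Polynomial.C a) (Polynomial.C |a|) := by
  intro i
  rw [coeff_C, coeff_C]
  split_ifs <;> simp

theorem BsMaj.one_sub : BsMaj (1 - X) (1 + X) := by
  intro i
  rw [coeff_sub, coeff_add, coeff_one, coeff_X]
  rcases i with _ | _ | i
  · simp
  · simp
  · simp

theorem BsMaj.pow {p q : ℤ[X]} (h : BsMaj p q) (n : ℕ) : BsMaj (p ^ n) (q ^ n) := by
  induction n with
  | zero => simpa using BsMaj.one
  | succ n ih => rw [pow_succ, pow_succ]; exact ih.mul h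

theorem BsMaj.sum {p q : ℕ → ℤ[X]} (s : Finset ℕ) (h : ∀ j ∈ s, BsMaj (p j) (q j)) :
    BsMaj (∑ j ∈ s, p j) (∑ j ∈ s, q j) := by
  intro i
  rw [finsetSum_coeff, finsetSum_coeff]
  exact (Finset.abs_sum_le_sum_abs _ _).trans (Finset.sum_le_sum fun j hj => h j hj i)

theorem BsMaj.coeff_le {p q : ℤ[X]} (h : BsMaj p q) (i : ℕ) : |p.coeff i| ≤ q.eval 1 := by
  refine (h i).trans ?_
  rw [eval_eq_sum_range]
  simp only [one_pow, mul_one]
  by_cases hi : i ≤ q.natDegree
  · exact Finset.single_le_sum (f := fun j => q.coeff j) (fun j _ => h.nonneg j)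
      (Finset.mem_range.mpr (by omega))
  · rw [coeff_eq_zero_of_natDegree_lt (by omega)]
    exact Finset.sum_nonneg fun j _ => h.nonneg j

/-- Size of the coefficients of `bsS`, with weights `2 ^ j`. -/
theorem bs_weight (a b m : ℕ) :
    ∑ j ∈ Finset.range (b + 1), |(-1 : ℤ) ^ j * ((a + j).choose j : ℤ) *
      ((a + b + m).choose (b - j) : ℤ)| * 2 ^ j ≤ 2 ^ (2 * a + 4 * b + m) := by
  have hterm : ∀ j ∈ Finset.range (b + 1), |(-1 : ℤ) ^ j * ((a + j).choose j : ℤ) *
      ((a + b + m).choose (b - j) : ℤ)| * 2 ^ j ≤ 2 ^ (a + b) * 2 ^ (a + b + m) * 2 ^ b := by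
    intro j hj
    have hj' : j ≤ b := by
      have := Finset.mem_range.mp hj
      omega
    rw [abs_mul, abs_mul, abs_pow, abs_neg, abs_one, one_pow, one_mul, Nat.abs_cast, Nat.abs_cast]
    have h1 : ((a + j).choose j : ℤ) ≤ 2 ^ (a + b) := by
      have : (a + j).choose j ≤ 2 ^ (a + b) :=
        (Nat.choose_le_two_pow _ _).trans (Nat.pow_le_pow_right (by norm_num) (by omega))
      exact_mod_cast this
    have h2 : ((a + b + m).choose (b - j) : ℤ) ≤ 2 ^ (a + b + m) := by
      exact_mod_cast Nat.choose_le_two_pow _ _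
    have h3 : (2 : ℤ) ^ j ≤ 2 ^ b := pow_le_pow_right₀ (by norm_num) hj'
    gcongr
  refine (Finset.sum_le_sum hterm).trans ?_
  rw [Finset.sum_const, Finset.card_range, nsmul_eq_mul]
  have h4 : ((b + 1 : ℕ) : ℤ) ≤ 2 ^ b := by
    exact_mod_cast (Nat.lt_two_pow_self (n := b))
  calc ((b + 1 : ℕ) : ℤ) * (2 ^ (a + b) * 2 ^ (a + b + m) * 2 ^ b)
      ≤ 2 ^ b * (2 ^ (a + b) * 2 ^ (a + b + m) * 2 ^ b) := by gcongr
    _ = 2 ^ (2 * a + 4 * b + m) := by
      rw [← pow_add, ← pow_add, ← pow_add]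
      congr 1
      ring

/-- The majorant of `bsS`, substituted. -/
noncomputable def bsM (a b m : ℕ) (y : ℤ[X]) : ℤ[X] :=
  ∑ j ∈ Finset.range (b + 1), Polynomial.C (|(-1 : ℤ) ^ j * ((a + j).choose j : ℤ) *
      ((a + b + m).choose (b - j) : ℤ)|) * y ^ j

theorem bsS_maj (a b m : ℕ) : BsMaj (bsS a b m) (bsM a b m X) :=
  BsMaj.sum _ fun j _ => (BsMaj.const _).mul (BsMaj.x.pow j)

theorem bsS_comp_maj (a b m : ℕ) : BsMaj ((bsS a b m).comp (1 - X)) (bsM a b m (1 + X)) := by
  unfold bsS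
  rw [Polynomial.sum_comp]
  refine BsMaj.sum _ fun j _ => ?_
  rw [mul_comp, C_comp, pow_comp, X_comp]
  exact (BsMaj.const _).mul (BsMaj.one_sub.pow j)

theorem bsM_eval_x (a b m : ℕ) : (bsM a b m X).eval 1 ≤ 2 ^ (2 * a + 4 * b + m) := by
  refine le_trans ?_ (bs_weight a b m)
  unfold bsM
  simp only [eval_finsetSum, eval_mul, eval_C, eval_pow, eval_X, one_pow]
  refine Finset.sum_le_sum fun j _ => ?_
  exact mul_le_mul_of_nonneg_left (one_le_pow₀ (by norm_num)) (abs_nonneg _)

theorem bsM_eval_one_add (a b m : ℕ) :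
    (bsM a b m (1 + X)).eval 1 ≤ 2 ^ (2 * a + 4 * b + m) := by
  refine le_trans (le_of_eq ?_) (bs_weight a b m)
  unfold bsM
  simp only [eval_finsetSum, eval_mul, eval_C, eval_pow, eval_add, eval_one, eval_X]
  norm_num

theorem natDegree_one_sub_X_int : (1 - X : ℤ[X]).natDegree = 1 := by
  rw [← neg_sub, natDegree_neg]
  exact natDegree_X_sub_C 1

theorem bsPoly : ∃ c : ℕ, ∀ n : ℕ, ∃ A B C : Fin 2 → ℤ[X],
    (∀ k, (A k).natDegree ≤ n + 1 ∧ (B k).natDegree ≤ n + 1 ∧ (C k).natDegree ≤ n + 1) ∧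
    (∀ k i, |(A k).coeff i| ≤ (c : ℤ) ^ (n + 1) ∧ |(B k).coeff i| ≤ (c : ℤ) ^ (n + 1) ∧
      |(C k).coeff i| ≤ (c : ℤ) ^ (n + 1)) ∧
    (∀ k, X ^ (2 * n + 1) * A k + (1 - X) ^ (2 * n + 1) * B k = C k) ∧
    ∃ r : ℤ, r ≠ 0 ∧ A 0 * B 1 - A 1 * B 0 = Polynomial.C r := by
  refine ⟨1024, fun n => ?_⟩
  set A : Fin 2 → ℤ[X] := fun k => X ^ (k : ℕ) * bsS (n + (k : ℕ)) n (n + 1) with hA
  set B : Fin 2 → ℤ[X] := fun k => (-1) ^ n * (bsS n (n + (k : ℕ)) (n + 1)).comp (1 - X) with hB
  set C : Fin 2 → ℤ[X] := fun k => X ^ (2 * n + 1) * A k + (1 - X) ^ (2 * n + 1) * B k with hC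
  have hk : ∀ k : Fin 2, (k : ℕ) ≤ 1 := fun k => by have := k.isLt; omega
  have dA : ∀ k, (A k).natDegree ≤ n + (k : ℕ) := by
    intro k
    refine (natDegree_mul_le).trans ?_
    have h1 := bsS_natDegree (n + (k : ℕ)) n (n + 1)
    have h2 : (X ^ (k : ℕ) : ℤ[X]).natDegree = (k : ℕ) := natDegree_X_pow _
    omega
  have dB : ∀ k, (B k).natDegree ≤ n + (k : ℕ) := by
    intro k
    refine (natDegree_mul_le).trans ?_
    have h1 := bsS_natDegree n (n + (k : ℕ)) (n + 1)
    have h2 : ((-1 : ℤ[X]) ^ n).natDegree = 0 := by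
      have : ((-1 : ℤ[X]) ^ n) = Polynomial.C ((-1) ^ n) := by simp
      rw [this, natDegree_C]
    have h3 := natDegree_comp_le (p := bsS n (n + (k : ℕ)) (n + 1)) (q := (1 - X : ℤ[X]))
    rw [natDegree_one_sub_X_int, mul_one] at h3
    omega
  have dC : ∀ k, (C k).natDegree ≤ n := fun k =>
    natDegree_le_of_deriv_zero _ n (bs_deriv_zero n (k : ℕ))
  have mA : ∀ k, BsMaj (A k) (X ^ (k : ℕ) * bsM (n + (k : ℕ)) n (n + 1) X) := fun k =>
    (BsMaj.x.pow _).mul (bsS_maj _ _ _)
  have mneg : BsMaj (-1 : ℤ[X]) 1 := by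
    intro i
    have := BsMaj.one i
    rwa [coeff_neg, abs_neg]
  have mB : ∀ k, BsMaj (B k) (1 ^ n * bsM n (n + (k : ℕ)) (n + 1) (1 + X)) := fun k =>
    (mneg.pow n).mul (bsS_comp_maj _ _ _)
  have mC : ∀ k, BsMaj (C k) (X ^ (2 * n + 1) * (X ^ (k : ℕ) * bsM (n + (k : ℕ)) n (n + 1) X) +
      (1 + X) ^ (2 * n + 1) * (1 ^ n * bsM n (n + (k : ℕ)) (n + 1) (1 + X))) := fun k =>
    ((BsMaj.x.pow _).mul (mA k)).add ((BsMaj.one_sub.pow _).mul (mB k))
  have eA : ∀ k : Fin 2, (X ^ (k : ℕ) * bsM (n + (k : ℕ)) n (n + 1) X : ℤ[X]).eval 1 ≤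
      2 ^ (7 * (n + 1)) := by
    intro k
    rw [eval_mul, eval_pow, eval_X, one_pow, one_mul]
    refine (bsM_eval_x _ _ _).trans (pow_le_pow_right₀ (by norm_num) ?_)
    have := hk k
    omega
  have eB : ∀ k : Fin 2, (1 ^ n * bsM n (n + (k : ℕ)) (n + 1) (1 + X) : ℤ[X]).eval 1 ≤
      2 ^ (7 * (n + 1)) := by
    intro k
    rw [one_pow, one_mul]
    refine (bsM_eval_one_add _ _ _).trans (pow_le_pow_right₀ (by norm_num) ?_)
    have := hk k
    omega
  have hbig : (2 : ℤ) ^ (7 * (n + 1)) ≤ ((1024 : ℕ) : ℤ) ^ (n + 1) := by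
    have : ((1024 : ℕ) : ℤ) = 2 ^ 10 := by norm_num
    rw [this, ← pow_mul]
    exact pow_le_pow_right₀ (by norm_num) (by omega)
  refine ⟨A, B, C, fun k => ⟨?_, ?_, ?_⟩, fun k i => ⟨?_, ?_, ?_⟩, fun k => rfl, ?_⟩
  · have := dA k; have := hk k; omega
  · have := dB k; have := hk k; omega
  · have := dC k; omega
  · exact ((mA k).coeff_le i).trans ((eA k).trans hbig)
  · exact ((mB k).coeff_le i).trans ((eB k).trans hbig)
  · refine ((mC k).coeff_le i).trans ?_
    have hs : ((X ^ (2 * n + 1) * (X ^ (k : ℕ) * bsM (n + (k : ℕ)) n (n + 1) X) +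
        (1 + X) ^ (2 * n + 1) * (1 ^ n * bsM n (n + (k : ℕ)) (n + 1) (1 + X))) : ℤ[X]).eval 1 =
        (X ^ (k : ℕ) * bsM (n + (k : ℕ)) n (n + 1) X : ℤ[X]).eval 1 +
        ((1 : ℤ) + 1) ^ (2 * n + 1) *
          (1 ^ n * bsM n (n + (k : ℕ)) (n + 1) (1 + X) : ℤ[X]).eval 1 := by
      rw [eval_add, eval_mul (p := (X : ℤ[X]) ^ (2 * n + 1)),
        eval_mul (p := (1 + X : ℤ[X]) ^ (2 * n + 1)), eval_pow, eval_X, one_pow, one_mul,
        eval_pow (p := (1 + X : ℤ[X])), eval_add, eval_one, eval_X]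
    rw [hs]
    have h1 := eA k
    have h2 := eB k
    have h3 : ((1 : ℤ) + 1) ^ (2 * n + 1) *
        (1 ^ n * bsM n (n + (k : ℕ)) (n + 1) (1 + X) : ℤ[X]).eval 1 ≤
        2 ^ (2 * n + 1) * 2 ^ (7 * (n + 1)) := by
      rw [show (1 : ℤ) + 1 = 2 by norm_num]
      exact mul_le_mul_of_nonneg_left h2 (by positivity)
    have h4 : (2 : ℤ) ^ (7 * (n + 1)) + 2 ^ (2 * n + 1) * 2 ^ (7 * (n + 1)) ≤
        ((1024 : ℕ) : ℤ) ^ (n + 1) := by
      have e1 : ((1024 : ℕ) : ℤ) = 2 ^ 10 := by norm_num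
      rw [e1, ← pow_mul]
      have e2 : (2 : ℤ) ^ (7 * (n + 1)) ≤ 2 ^ (2 * n + 1) * 2 ^ (7 * (n + 1)) := by
        have : (1 : ℤ) ≤ 2 ^ (2 * n + 1) := one_le_pow₀ (by norm_num)
        exact le_mul_of_one_le_left (by positivity) this
      calc (2 : ℤ) ^ (7 * (n + 1)) + 2 ^ (2 * n + 1) * 2 ^ (7 * (n + 1))
          ≤ 2 * (2 ^ (2 * n + 1) * 2 ^ (7 * (n + 1))) := by linarith
        _ = 2 ^ (1 + (2 * n + 1) + 7 * (n + 1)) := by rw [pow_add, pow_add]; ring
        _ ≤ 2 ^ (10 * (n + 1)) := pow_le_pow_right₀ (by norm_num) (by omega)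
    linarith
  · have hr : (A 0 * B 1 - A 1 * B 0).coeff 0 ≠ 0 := by
      have a0 : (A 0).coeff 0 = ((n + n + (n + 1)).choose n : ℤ) := by
        simp only [hA]
        simpa using bsS_coeff_zero n n (n + 1)
      have a1 : (A 1).coeff 0 = 0 := by
        simp only [hA]
        simp
      have b1 : (B 1).coeff 0 = (-1) ^ n * (((n + 1) + (n + 1) - 1).choose (n + 1) : ℤ) := by
        simp only [hB]
        rw [coeff_zero_eq_eval_zero, eval_mul, eval_pow, eval_neg, eval_one, eval_comp, eval_sub,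
          eval_one, eval_X, sub_zero]
        congr 1
        exact bsS_eval_one n (n + 1) (n + 1) (by omega)
      rw [coeff_sub, mul_coeff_zero (A 0) (B 1), mul_coeff_zero (A 1) (B 0), a0, a1, b1, zero_mul,
        sub_zero]
      have h1 : 0 < (n + n + (n + 1)).choose n := Nat.choose_pos (by omega)
      have h2 : 0 < ((n + 1) + (n + 1) - 1).choose (n + 1) := Nat.choose_pos (by omega)
      refine mul_ne_zero (by exact_mod_cast h1.ne') (mul_ne_zero ?_ (by exact_mod_cast h2.ne'))
      exact pow_ne_zero _ (by norm_num)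
    refine ⟨(A 0 * B 1 - A 1 * B 0).coeff 0, hr, ?_⟩
    apply eq_C_of_natDegree_eq_zero
    have hne : A 0 * B 1 - A 1 * B 0 ≠ 0 := by
      intro h
      rw [h] at hr
      simp at hr
    have hpne : ((1 - X : ℤ[X]) ^ (2 * n + 1)) ≠ 0 := by
      apply pow_ne_zero
      intro h
      have := natDegree_one_sub_X_int
      rw [h] at this
      simp at this
    have e : (1 - X : ℤ[X]) ^ (2 * n + 1) * (A 0 * B 1 - A 1 * B 0) = A 0 * C 1 - A 1 * C 0 := by
      simp only [hC]
      ring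
    have d1 : ((1 - X : ℤ[X]) ^ (2 * n + 1) * (A 0 * B 1 - A 1 * B 0)).natDegree =
        (2 * n + 1) + (A 0 * B 1 - A 1 * B 0).natDegree := by
      rw [natDegree_mul hpne hne, natDegree_pow, natDegree_one_sub_X_int, mul_one]
    have d2 : (A 0 * C 1 - A 1 * C 0).natDegree ≤ 2 * n + 1 := by
      refine (natDegree_sub_le _ _).trans (max_le ?_ ?_)
      · refine natDegree_mul_le.trans ?_
        have h1 := dA 0
        have h2 := dC 1
        simp at h1
        omega
      · refine natDegree_mul_le.trans ?_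
        have h1 := dA 1
        have h2 := dC 0
        simp at h1
        omega
    rw [e] at d1
    omega

end Pool.Agent.Work.MP_7da6af_nt
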