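import Pool.Agent.Work.MP_7da6af_nt.Places
import Pool.Agent.Work.MP_7da6af_nt.BSPoly

/-! # The inequality of Beukers and Schlickewei -/

set_option autoImplicit false

namespace Pool.Agent.Work.MP_7da6af_nt

open NumberField Polynomial

section

variable {L : Type} [Field L] [NumberField L]

theorem bs_fin_int (v : FinitePlace L) (n : ℤ) : av (Sum.inr v) (n : L) ≤ 1 := by
  have hnat : ∀ n : ℕ, av (Sum.inr v) (n : L) ≤ 1 := by
    intro n
    induction n with
    | zero => simp
    | succ n ih =>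
      rw [Nat.cast_succ]
      exact (av_add_le_max v _ _).trans (max_le ih (by rw [map_one]))
  rcases Int.eq_nat_or_neg n with ⟨m, rfl | rfl⟩
  · simpa using hnat m
  · rw [Int.cast_neg, (av (Sum.inr v : Pl L)).map_neg]
    simpa using hnat m

theorem bs_inf_int (v : InfinitePlace L) (n : ℤ) : av (Sum.inl v) (n : L) = |(n : ℝ)| := by
  rw [av_inl, ← InfinitePlace.norm_embedding_eq, map_intCast, Complex.norm_intCast]

theorem bs_fin_sum (v : FinitePlace L) (s : Finset ℕ) (f : ℕ → L) (M : ℝ) (hM : 0 ≤ M)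
    (h : ∀ i ∈ s, av (Sum.inr v) (f i) ≤ M) : av (Sum.inr v) (∑ i ∈ s, f i) ≤ M := by
  classical
  induction s using Finset.induction_on with
  | empty => simpa using hM
  | insert a s ha ih =>
    rw [Finset.sum_insert ha]
    exact (av_add_le_max v _ _).trans (max_le (h a (Finset.mem_insert_self _ _))
      (ih fun i hi => h i (Finset.mem_insert_of_mem hi)))

/-- values of a polynomial with integer coefficients -/
theorem bs_poly (P : ℤ[X]) (N : ℕ) (T : ℝ) (hT : 1 ≤ T) (hN : P.natDegree ≤ N)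
    (hP : ∀ i, |((P.coeff i : ℤ) : ℝ)| ≤ T) (x : L) (p : Pl L) :
    av p (aeval x P) ≤ Real.exp (ar p * Real.log ((N + 1) * T)) * (max 1 (av p x)) ^ N := by
  have hm : (1 : ℝ) ≤ max 1 (av p x) := le_max_left _ _
  have hpow : ∀ i, i ≤ N → (av p x) ^ i ≤ (max 1 (av p x)) ^ N := fun i hi =>
    (pow_le_pow_left₀ ((av p).nonneg x) (le_max_right _ _) i).trans (pow_le_pow_right₀ hm hi)
  rw [aeval_eq_sum_range' (n := N + 1) (by omega)]
  rcases p with v | v
  · have h1 : ∀ i ∈ Finset.range (N + 1), av (Sum.inl v) (P.coeff i • x ^ i) ≤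
        T * (max 1 (av (Sum.inl v) x)) ^ N := by
      intro i hi
      rw [zsmul_eq_mul, map_mul, map_pow, bs_inf_int]
      exact mul_le_mul (hP i) (hpow i (by have := Finset.mem_range.mp hi; omega))
        (pow_nonneg ((av _).nonneg x) _) (by linarith)
    have h2 : av (Sum.inl v) (∑ i ∈ Finset.range (N + 1), P.coeff i • x ^ i) ≤
        ∑ i ∈ Finset.range (N + 1), av (Sum.inl v) (P.coeff i • x ^ i) :=
      (av (Sum.inl v : Pl L)).sum_le _ _
    refine h2.trans ((Finset.sum_le_sum h1).trans ?_)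
    rw [Finset.sum_const, Finset.card_range, nsmul_eq_mul]
    have h3 : (0 : ℝ) < (N + 1) * T := by positivity
    show _ ≤ Real.exp (1 * Real.log ((N + 1) * T)) * _
    rw [one_mul, Real.exp_log h3]
    push_cast
    exact le_of_eq (by ring)
  · show _ ≤ Real.exp (0 * Real.log ((N + 1) * T)) * _
    rw [zero_mul, Real.exp_zero, one_mul]
    refine bs_fin_sum v _ _ _ (by positivity) fun i hi => ?_
    rw [zsmul_eq_mul, map_mul, map_pow]
    calc av (Sum.inr v) ((P.coeff i : ℤ) : L) * av (Sum.inr v) x ^ i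
        ≤ 1 * (max 1 (av (Sum.inr v) x)) ^ N := by
          exact mul_le_mul (bs_fin_int v _) (hpow i (by have := Finset.mem_range.mp hi; omega))
            (pow_nonneg ((av _).nonneg x) _) zero_le_one
      _ = _ := one_mul _

/-- two terms -/
theorem bs_two (p : Pl L) (a b c d : L) (W Y : ℝ) (hW : 0 ≤ W) (ha : av p a ≤ W)
    (hc : av p c ≤ W) (hb : av p b ≤ Y) (hd : av p d ≤ Y) :
    av p (a * b - c * d) ≤ Real.exp (ar p * Real.log 2) * (W * Y) := by
  have h1 : av p (a * b) ≤ W * Y := by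
    rw [map_mul]
    exact mul_le_mul ha hb ((av p).nonneg _) hW
  have h2 : av p (-(c * d)) ≤ W * Y := by
    rw [(av p).map_neg, map_mul]
    exact mul_le_mul hc hd ((av p).nonneg _) hW
  rw [sub_eq_add_neg]
  rcases p with v | v
  · show _ ≤ Real.exp (1 * Real.log 2) * _
    rw [one_mul, Real.exp_log two_pos]
    refine (av_add_le _ _ _).trans ?_
    linarith
  · show _ ≤ Real.exp (0 * Real.log 2) * _
    rw [zero_mul, Real.exp_zero, one_mul]
    exact (av_add_le_max v _ _).trans (max_le h1 h2)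

theorem fs_max_two {F G : Pl L → ℝ} (hF : FS F) (hG : FS G) :
    FS (fun p => max 0 (max (F p) (G p))) := by
  refine (hF.union hG).subset fun p hp => ?_
  by_contra hcon
  rw [Set.mem_union, not_or] at hcon
  apply hp
  have h1 : F p = 0 := by
    by_contra h
    exact hcon.1 h
  have h2 : G p = 0 := by
    by_contra h
    exact hcon.2 h
  show max 0 (max (F p) (G p)) = 0
  rw [h1, h2, max_self, max_self]

theorem log_max_one {a b : ℝ} (ha : 0 < a) (hb : 0 < b) :
    Real.log (max 1 (max a b)) = max 0 (max (Real.log a) (Real.log b)) := by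
  rcases le_total a b with h | h
  · rw [max_eq_right h, max_eq_right (Real.log_le_log ha h)]
    rcases le_total 1 b with h1 | h1
    · rw [max_eq_right h1, max_eq_right (Real.log_nonneg h1)]
    · rw [max_eq_left h1, max_eq_left (Real.log_nonpos hb.le h1), Real.log_one]
  · rw [max_eq_left h, max_eq_left (Real.log_le_log hb h)]
    rcases le_total 1 a with h1 | h1
    · rw [max_eq_right h1, max_eq_right (Real.log_nonneg h1)]
    · rw [max_eq_left h1, max_eq_left (Real.log_nonpos ha.le h1), Real.log_one]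

theorem log_max_one' {a : ℝ} (ha : 0 < a) : Real.log (max 1 a) = max 0 (Real.log a) := by
  rcases le_total 1 a with h1 | h1
  · rw [max_eq_right h1, max_eq_right (Real.log_nonneg h1)]
  · rw [max_eq_left h1, max_eq_left (Real.log_nonpos ha.le h1), Real.log_one]

theorem av_pos (p : Pl L) {x : L} (hx : x ≠ 0) : 0 < av p x := (av p).pos hx

/-- the pointwise inequality -/
theorem bs_pointwise (p : Pl L) (x z ξ ζ A B C l : L) (n : ℕ) (κ : ℝ) (hx : x ≠ 0) (hz : z ≠ 0)
    (hξ : ξ ≠ 0) (hζ : ζ ≠ 0) (hl : l ≠ 0)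
    (e1 : ζ * C - 1 * B = l * x ^ (2 * n + 1)) (e2 : 1 * A - ξ * C = l * z ^ (2 * n + 1))
    (e3 : ζ * A - ξ * B = l)
    (hA : av p A ≤ Real.exp (ar p * κ) * (max 1 (av p x)) ^ (n + 1))
    (hB : av p B ≤ Real.exp (ar p * κ) * (max 1 (av p x)) ^ (n + 1))
    (hC : av p C ≤ Real.exp (ar p * κ) * (max 1 (av p x)) ^ (n + 1)) :
    lg p l + (2 * n + 1) * max 0 (max (lg p x) (lg p z)) ≤
      ar p * (κ + Real.log 2) + max 0 (max (lg p ξ) (lg p ζ)) + (n + 1) * max 0 (lg p x) := by
  set W : ℝ := max 1 (max (av p ξ) (av p ζ)) with hW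
  set U : ℝ := max 1 (max (av p x) (av p z)) with hU
  set Y : ℝ := Real.exp (ar p * κ) * (max 1 (av p x)) ^ (n + 1) with hY
  have W1 : (1 : ℝ) ≤ W := le_max_left _ _
  have Wξ : av p ξ ≤ W := (le_max_left _ _).trans (le_max_right _ _)
  have Wζ : av p ζ ≤ W := (le_max_right _ _).trans (le_max_right _ _)
  have W0 : 0 < W := by linarith
  have U0 : 0 < U := lt_of_lt_of_le one_pos (le_max_left _ _)
  have M0 : (0 : ℝ) < max 1 (av p x) := lt_of_lt_of_le one_pos (le_max_left _ _)
  have Y0 : 0 < Y := by positivity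
  have hone : av p (1 : L) ≤ W := by rw [map_one]; exact W1
  have t1 := bs_two p ζ C 1 B W Y W0.le Wζ hone hC hB
  have t2 := bs_two p 1 A ξ C W Y W0.le hone Wξ hA hC
  have t3 := bs_two p ζ A ξ B W Y W0.le Wζ Wξ hA hB
  rw [e1, map_mul, map_pow] at t1
  rw [e2, map_mul, map_pow] at t2
  rw [e3] at t3
  have key : av p l * U ^ (2 * n + 1) ≤ Real.exp (ar p * Real.log 2) * (W * Y) := by
    have hcase : U = 1 ∨ U = av p x ∨ U = av p z := by
      rw [hU]
      rcases max_choice 1 (max (av p x) (av p z)) with h | h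
      · exact Or.inl h
      · rw [h]
        rcases max_choice (av p x) (av p z) with h' | h'
        · exact Or.inr (Or.inl h')
        · exact Or.inr (Or.inr h')
    rcases hcase with h | h | h
    · rw [h, one_pow, mul_one]; exact t3
    · rw [h]; exact t1
    · rw [h]; exact t2
  have hlpos : 0 < av p l := av_pos p hl
  have hlog := Real.log_le_log (by positivity) key
  rw [Real.log_mul hlpos.ne' (by positivity), Real.log_pow,
    Real.log_mul (Real.exp_pos _).ne' (by positivity), Real.log_exp,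
    Real.log_mul W0.ne' Y0.ne', hY, Real.log_mul (Real.exp_pos _).ne' (by positivity),
    Real.log_exp, Real.log_pow, log_max_one' (av_pos p hx), hW, hU,
    log_max_one (av_pos p hx) (av_pos p hz), log_max_one (av_pos p hξ) (av_pos p hζ)] at hlog
  push_cast at hlog
  unfold lg
  linarith

end

theorem bsIneq : ∃ c : ℝ, 0 ≤ c ∧ ∀ (L : Type) [Field L] [NumberField L] (x z x' z' : L),
    x ≠ 0 → z ≠ 0 → x' ≠ 0 → z' ≠ 0 → x + z = 1 → x' + z' = 1 → ∀ n : ℕ,
    n * plSum L (fun p => max 0 (max (lg p x) (lg p z))) - c * (n + 1) * dg L ≤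
      plSum L (fun p => max 0 (max (lg p x' - (2 * n + 1) * lg p x)
        (lg p z' - (2 * n + 1) * lg p z))) := by
  obtain ⟨c, hc⟩ := bsPoly
  have hc1 : (1 : ℝ) ≤ (c : ℝ) + 1 := by
    have : (0 : ℝ) ≤ c := Nat.cast_nonneg c
    linarith
  refine ⟨2 + Real.log (c + 1), by have := Real.log_nonneg hc1; linarith, ?_⟩
  intro L _ _ x z x' z' hx hz hx' hz' hxz hxz' n
  obtain ⟨A, B, C, hdeg, hcoef, hrel, r, hr, hdet⟩ := hc n
  set T : ℝ := ((c : ℝ) + 1) ^ (n + 1) with hT
  have hT1 : 1 ≤ T := one_le_pow₀ hc1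
  have hcT : ((c : ℝ)) ^ (n + 1) ≤ T :=
    pow_le_pow_left₀ (Nat.cast_nonneg c) (by linarith) _
  have hcast : ∀ a : ℤ, |a| ≤ (c : ℤ) ^ (n + 1) → |(a : ℝ)| ≤ T := by
    intro a ha
    have : ((|a| : ℤ) : ℝ) ≤ (((c : ℤ) ^ (n + 1) : ℤ) : ℝ) := by exact_mod_cast ha
    rw [Int.cast_abs] at this
    push_cast at this
    exact this.trans hcT
  set κ : ℝ := Real.log (((n + 1 : ℕ) + 1) * T) with hκ
  have bA : ∀ k p, av p (aeval x (A k)) ≤ Real.exp (ar p * κ) * (max 1 (av p x)) ^ (n + 1) :=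
    fun k p => bs_poly (A k) (n + 1) T hT1 (hdeg k).1 (fun i => hcast _ (hcoef k i).1) x p
  have bB : ∀ k p, av p (aeval x (B k)) ≤ Real.exp (ar p * κ) * (max 1 (av p x)) ^ (n + 1) :=
    fun k p => bs_poly (B k) (n + 1) T hT1 (hdeg k).2.1 (fun i => hcast _ (hcoef k i).2.1) x p
  have bC : ∀ k p, av p (aeval x (C k)) ≤ Real.exp (ar p * κ) * (max 1 (av p x)) ^ (n + 1) :=
    fun k p => bs_poly (C k) (n + 1) T hT1 (hdeg k).2.2 (fun i => hcast _ (hcoef k i).2.2) x p
  set ξ : L := x' * (x ^ (2 * n + 1))⁻¹ with hξd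
  set ζ : L := z' * (z ^ (2 * n + 1))⁻¹ with hζd
  have hxp : x ^ (2 * n + 1) ≠ 0 := pow_ne_zero _ hx
  have hzp : z ^ (2 * n + 1) ≠ 0 := pow_ne_zero _ hz
  have hξ : ξ ≠ 0 := mul_ne_zero hx' (inv_ne_zero hxp)
  have hζ : ζ ≠ 0 := mul_ne_zero hz' (inv_ne_zero hzp)
  have hsum : ξ * x ^ (2 * n + 1) + ζ * z ^ (2 * n + 1) = 1 := by
    rw [hξd, hζd, inv_mul_cancel_right₀ hxp, inv_mul_cancel_right₀ hzp, hxz']
  have hrel' : ∀ k, x ^ (2 * n + 1) * aeval x (A k) + z ^ (2 * n + 1) * aeval x (B k) =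
      aeval x (C k) := by
    intro k
    have h := congrArg (aeval x) (hrel k)
    simp only [map_add, map_mul, map_pow, map_sub, map_one, aeval_X] at h
    rw [← h, ← hxz, add_sub_cancel_left]
  have hdet' : aeval x (A 0) * aeval x (B 1) - aeval x (A 1) * aeval x (B 0) = (r : L) := by
    have h := congrArg (aeval x) hdet
    simp only [map_sub, map_mul, aeval_C] at h
    rw [h]
    simp
  have hk : ∃ k : Fin 2, ζ * aeval x (A k) - ξ * aeval x (B k) ≠ 0 := by
    by_contra hcon
    push Not at hcon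
    have h0 := hcon 0
    have h1 := hcon 1
    have h2 : ζ * (r : L) = 0 := by
      rw [← hdet']
      linear_combination (aeval x (B 1)) * h0 - (aeval x (B 0)) * h1
    rcases mul_eq_zero.mp h2 with h3 | h3
    · exact hζ h3
    · exact hr (by exact_mod_cast h3)
  obtain ⟨k, hl⟩ := hk
  set l : L := ζ * aeval x (A k) - ξ * aeval x (B k) with hld
  have e1 : ζ * aeval x (C k) - 1 * aeval x (B k) = l * x ^ (2 * n + 1) := by
    rw [hld, ← hrel' k]
    linear_combination (aeval x (B k)) * hsum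
  have e2 : 1 * aeval x (A k) - ξ * aeval x (C k) = l * z ^ (2 * n + 1) := by
    rw [hld, ← hrel' k]
    linear_combination (-(aeval x (A k))) * hsum
  have hpt := fun p : Pl L => bs_pointwise p x z ξ ζ (aeval x (A k)) (aeval x (B k))
    (aeval x (C k)) l n κ hx hz hξ hζ hl e1 e2 hld.symm (bA k p) (bB k p) (bC k p)
  have fU : FS (fun p : Pl L => max 0 (max (lg p x) (lg p z))) := fs_max_two (fs_lg hx) (fs_lg hz)
  have fW : FS (fun p : Pl L => max 0 (max (lg p ξ) (lg p ζ))) := fs_max_two (fs_lg hξ) (fs_lg hζ)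
  have fl : FS (fun p : Pl L => lg p l) := fs_lg hl
  have fx : FS (fun p : Pl L => max 0 (lg p x)) := fs_max hx
  have f1 : FS (fun p : Pl L => (2 * n + 1) * max 0 (max (lg p x) (lg p z))) := fU.smul _
  have f2 : FS (fun p : Pl L => (κ + Real.log 2) * ar p) := fs_ar.smul _
  have f3 : FS (fun p : Pl L => (n + 1) * max 0 (lg p x)) := fx.smul _
  have hmono := plSum_mono (K := L)
    (F := fun p => lg p l + (2 * n + 1) * max 0 (max (lg p x) (lg p z)))
    (G := fun p => ((κ + Real.log 2) * ar p + max 0 (max (lg p ξ) (lg p ζ))) +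
      (n + 1) * max 0 (lg p x))
    (fl.add f1) ((f2.add fW).add f3) (fun p => by have := hpt p; linarith)
  rw [plSum_add fl f1, plSum_lg hl, plSum_smul, plSum_add (f2.add fW) f3, plSum_add f2 fW,
    plSum_smul, plSum_smul, plSum_ar] at hmono
  have hle : plSum L (fun p => max 0 (lg p x)) ≤ plSum L (fun p => max 0 (max (lg p x) (lg p z))) :=
    plSum_mono fx fU fun p => max_le_max le_rfl (le_max_left _ _)
  have hnn : (0 : ℝ) ≤ (n : ℝ) + 1 := by positivity
  have hW' : plSum L (fun p => max 0 (max (lg p x' - (2 * n + 1) * lg p x)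
        (lg p z' - (2 * n + 1) * lg p z))) = plSum L (fun p => max 0 (max (lg p ξ) (lg p ζ))) := by
    refine plSum_congr fun p => ?_
    rw [hξd, hζd, lg_mul p hx' (inv_ne_zero hxp), lg_mul p hz' (inv_ne_zero hzp), lg_inv, lg_inv,
      lg_pow, lg_pow]
    push_cast
    ring_nf
  have hκb : κ + Real.log 2 ≤ (2 + Real.log (c + 1)) * (n + 1) := by
    have h1 : κ = Real.log ((n : ℝ) + 2) + (n + 1) * Real.log (c + 1) := by
      rw [hκ, hT, Real.log_mul (by positivity) (by positivity), Real.log_pow]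
      push_cast
      ring_nf
    have h2 : Real.log ((n : ℝ) + 2) ≤ n + 1 := by
      have := Real.log_le_sub_one_of_pos (show (0 : ℝ) < (n : ℝ) + 2 by positivity)
      linarith
    have h3 : Real.log 2 ≤ 1 := by
      have := Real.log_le_sub_one_of_pos (show (0 : ℝ) < 2 by norm_num)
      linarith
    have h4 : (0 : ℝ) ≤ n := Nat.cast_nonneg n
    rw [h1]
    nlinarith
  have hdg : 0 < dg L := dg_pos
  have h5 : (κ + Real.log 2) * dg L ≤ (2 + Real.log (c + 1)) * (n + 1) * dg L :=
    mul_le_mul_of_nonneg_right hκb hdg.le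
  have h6 := mul_le_mul_of_nonneg_left hle hnn
  rw [hW']
  linarith

end Pool.Agent.Work.MP_7da6af_nt
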