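import Pool.Agent.Work.MP_7da6af_nt.Defs

/-! # A boundedness criterion for sublinear functions -/

set_option autoImplicit false

namespace Pool.Agent.Work.MP_7da6af_nt

section

variable {E : Type} [NormedAddCommGroup E] [NormedSpace ℝ E] [FiniteDimensional ℝ E]

theorem Sublin.zero {P : E → ℝ} (hP : Sublin P) : P 0 = 0 := by
  have := hP.smul 0 le_rfl 0
  simpa using this

theorem Sublin.continuous {P : E → ℝ} (hP : Sublin P) : Continuous P := by
  apply LocallyLipschitz.continuous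
  apply ConvexOn.locallyLipschitz
  refine ⟨convex_univ, ?_⟩
  intro x _ y _ a b ha hb _
  calc P (a • x + b • y) ≤ P (a • x) + P (b • y) := hP.add _ _
    _ = a • P x + b • P y := by rw [hP.smul a ha, hP.smul b hb, smul_eq_mul, smul_eq_mul]

/-- a homogeneous function is bounded by a multiple of the norm -/
theorem Sublin.bound {P : E → ℝ} (hP : Sublin P) (h0 : ∀ u, 0 ≤ P u) :
    ∃ C : ℝ, 0 < C ∧ ∀ u, P u ≤ C * ‖u‖ := by
  have hc : IsCompact (Metric.closedBall (0 : E) 1) := isCompact_closedBall _ _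
  obtain ⟨C, hC⟩ := (hc.image hP.continuous).bddAbove
  have hC0 : 0 ≤ C := by
    refine le_trans (h0 0) (hC ⟨0, ?_, rfl⟩)
    simp
  refine ⟨C + 1, by linarith, ?_⟩
  intro u
  rcases eq_or_ne u 0 with rfl | hu
  · simp [hP.zero]
  · have hn : 0 < ‖u‖ := norm_pos_iff.mpr hu
    have h1 : P ((‖u‖)⁻¹ • u) ≤ C := by
      refine hC ⟨_, ?_, rfl⟩
      rw [mem_closedBall_zero_iff, norm_smul, norm_inv, norm_norm, inv_mul_cancel₀ hn.ne']
    have h2 : u = ‖u‖ • ((‖u‖)⁻¹ • u) := by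
      rw [smul_smul, mul_inv_cancel₀ hn.ne', one_smul]
    calc P u = P (‖u‖ • ((‖u‖)⁻¹ • u)) := by rw [← h2]
      _ = ‖u‖ * P ((‖u‖)⁻¹ • u) := hP.smul _ hn.le _
      _ ≤ ‖u‖ * C := by gcongr
      _ ≤ (C + 1) * ‖u‖ := by nlinarith

/-- the zero set of a sublinear function -/
def Sublin.ker {P : E → ℝ} (hP : Sublin P) (h0 : ∀ u, 0 ≤ P u) (hneg : ∀ u, P (-u) ≤ 2 * P u) :
    Submodule ℝ E where
  carrier := {u | P u = 0}
  zero_mem' := hP.zero
  add_mem' := by
    intro a b ha hb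
    have ha' : P a = 0 := ha
    have hb' : P b = 0 := hb
    have := hP.add a b
    have h1 := h0 (a + b)
    show P (a + b) = 0
    linarith
  smul_mem' := by
    intro t u hu
    have hu' : P u = 0 := hu
    show P (t • u) = 0
    rcases le_total 0 t with ht | ht
    · rw [hP.smul t ht, hu', mul_zero]
    · have h1 : t • u = (-t) • (-u) := by simp
      rw [h1, hP.smul (-t) (by linarith)]
      have h2 := hneg u
      have h3 := h0 (-u)
      have h4 : P (-u) = 0 := by rw [hu'] at h2; linarith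
      rw [h4, mul_zero]

/-- In a set on which `P` is unbounded there are two elements with almost the same direction. -/
theorem exists_pair {P : E → ℝ} (hP : Sublin P) (h0 : ∀ u, 0 ≤ P u)
    (hneg : ∀ u, P (-u) ≤ 2 * P u) (S : Set E) (hS : ∀ C : ℝ, ∃ u ∈ S, C < P u) (T : ℝ)
    (hT : 0 < T) :
    ∃ u ∈ S, ∃ u' ∈ S, T ≤ P u ∧ 100 * P u ≤ P u' ∧
      P ((P u')⁻¹ • u' - (P u)⁻¹ • u) ≤ 1 / 10 := by
  classical
  obtain ⟨C, hC, hCb⟩ := hP.bound h0
  set Z : Submodule ℝ E := hP.ker h0 hneg with hZ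
  have hZm : ∀ z : E, z ∈ Z ↔ P z = 0 := fun z => Iff.rfl
  obtain ⟨W, hW⟩ := Z.exists_isCompl
  -- a lower bound on the complement
  have hlow : ∃ δ : ℝ, 0 < δ ∧ ∀ w ∈ W, δ * ‖w‖ ≤ P w := by
    by_cases hne : (Metric.sphere (0 : W) 1).Nonempty
    · have hcomp : IsCompact (Metric.sphere (0 : W) 1) := isCompact_sphere _ _
      have hcont : Continuous fun w : W => P (w : E) := hP.continuous.comp continuous_subtype_val
      obtain ⟨w0, hw0, hmin⟩ := hcomp.exists_isMinOn hne hcont.continuousOn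
      refine ⟨P w0, ?_, ?_⟩
      · rcases (h0 (w0 : E)).lt_or_eq with h | h
        · exact h
        · exfalso
          have h1 : (w0 : E) ∈ Z := (hZm _).2 h.symm
          have h2 : (w0 : E) ∈ Z ⊓ W := ⟨h1, w0.2⟩
          rw [hW.inf_eq_bot] at h2
          have h3 : (w0 : E) = 0 := h2
          have h4 : ‖w0‖ = 1 := by simpa using hw0
          have h5 : ‖(w0 : E)‖ = 1 := h4
          rw [h3, norm_zero] at h5
          exact zero_ne_one h5
      · intro w hw
        rcases eq_or_ne w 0 with rfl | hw0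
        · simp [hP.zero]
        · have hn : 0 < ‖w‖ := norm_pos_iff.mpr hw0
          have h1 : (⟨(‖w‖)⁻¹ • w, W.smul_mem _ hw⟩ : W) ∈ Metric.sphere (0 : W) 1 := by
            rw [mem_sphere_zero_iff_norm]
            show ‖(‖w‖)⁻¹ • w‖ = 1
            rw [norm_smul, norm_inv, norm_norm, inv_mul_cancel₀ hn.ne']
          have h2 : P w0 ≤ P ((‖w‖)⁻¹ • w) := hmin h1
          rw [hP.smul _ (inv_nonneg.mpr hn.le)] at h2
          calc P w0 * ‖w‖ ≤ ((‖w‖)⁻¹ * P w) * ‖w‖ := by gcongr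
            _ = P w := by field_simp
    · refine ⟨1, one_pos, ?_⟩
      intro w hw
      have hw0 : w = 0 := by
        by_contra hw0
        apply hne
        have hn : 0 < ‖w‖ := norm_pos_iff.mpr hw0
        refine ⟨⟨(‖w‖)⁻¹ • w, W.smul_mem _ hw⟩, ?_⟩
        rw [mem_sphere_zero_iff_norm]
        show ‖(‖w‖)⁻¹ • w‖ = 1
        rw [norm_smul, norm_inv, norm_norm, inv_mul_cancel₀ hn.ne']
      subst hw0
      simp [hP.zero]
  obtain ⟨δ, hδ, hlow⟩ := hlow
  -- decomposition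
  have hdec : ∀ u : E, ∃ w ∈ W, ∃ z ∈ Z, u = w + z := by
    intro u
    have : u ∈ Z ⊔ W := by rw [hW.sup_eq_top]; trivial
    obtain ⟨z, hz, w, hw, h⟩ := Submodule.mem_sup.mp this
    exact ⟨w, hw, z, hz, by rw [← h, add_comm]⟩
  choose π hπ ζ hζ hπζ using hdec
  have hPz : ∀ u z : E, z ∈ Z → P (u + z) = P u := by
    intro u z hz
    have h1 : P z = 0 := hz
    have h2 : P (-z) = 0 := Z.neg_mem hz
    apply le_antisymm
    · have := hP.add u z; linarith
    · have := hP.add (u + z) (-z)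
      rw [add_neg_cancel_right] at this
      linarith
  have hPπ : ∀ u, P (π u) = P u := by
    intro u
    conv_rhs => rw [hπζ u]
    exact (hPz _ _ (hζ u)).symm
  -- the normalised elements
  let f : E → E := fun u => (P u)⁻¹ • π u
  have hfb : ∀ u, f u ∈ Metric.closedBall (0 : E) (1 / δ) := by
    intro u
    rw [mem_closedBall_zero_iff]
    have h1 := hlow (f u) (W.smul_mem _ (hπ u))
    have h2 : P (f u) ≤ 1 := by
      show P ((P u)⁻¹ • π u) ≤ 1
      rw [hP.smul _ (inv_nonneg.mpr (h0 u)), hPπ]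
      exact inv_mul_le_one
    rw [le_div_iff₀ hδ]
    linarith [mul_comm δ ‖f u‖]
  have hr : (0 : ℝ) < 1 / (20 * C) := by positivity
  obtain ⟨t, htf, htc⟩ := Metric.totallyBounded_iff.mp
    (isCompact_closedBall (0 : E) (1 / δ)).totallyBounded _ hr
  -- one of the pieces is unbounded
  have hpiece : ∃ y ∈ t, ∀ B : ℝ, ∃ u ∈ S, B < P u ∧ f u ∈ Metric.ball y (1 / (20 * C)) := by
    by_contra hcon
    push_neg at hcon
    choose! B hB using hcon
    obtain ⟨M, hM⟩ := (htf.image B).bddAbove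
    obtain ⟨u, hu, hMu⟩ := hS M
    obtain ⟨y, hy, hfy⟩ := Set.mem_iUnion₂.mp (htc (hfb u))
    exact hB y hy u hu (lt_of_le_of_lt (hM ⟨y, hy, rfl⟩) hMu) hfy
  obtain ⟨y, _, hy⟩ := hpiece
  obtain ⟨u, hu, huT, hfu⟩ := hy T
  obtain ⟨u', hu', huT', hfu'⟩ := hy (100 * P u)
  refine ⟨u, hu, u', hu', huT.le, huT'.le, ?_⟩
  have h1 : P ((P u')⁻¹ • u' - (P u)⁻¹ • u) = P (f u' - f u) := by
    have : (P u')⁻¹ • u' - (P u)⁻¹ • u = (f u' - f u) + ((P u')⁻¹ • ζ u' - (P u)⁻¹ • ζ u) := by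
      show (P u')⁻¹ • u' - (P u)⁻¹ • u = ((P u')⁻¹ • π u' - (P u)⁻¹ • π u) +
        ((P u')⁻¹ • ζ u' - (P u)⁻¹ • ζ u)
      have e1 : (P u')⁻¹ • u' = (P u')⁻¹ • π u' + (P u')⁻¹ • ζ u' := by
        rw [← smul_add, ← hπζ u']
      have e2 : (P u)⁻¹ • u = (P u)⁻¹ • π u + (P u)⁻¹ • ζ u := by
        rw [← smul_add, ← hπζ u]
      rw [e1, e2]
      abel
    rw [this]
    exact hPz _ _ (Z.sub_mem (Z.smul_mem _ (hζ u')) (Z.smul_mem _ (hζ u)))
  rw [h1]
  have h2 : dist (f u') (f u) < 1 / (20 * C) + 1 / (20 * C) :=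
    lt_of_le_of_lt (dist_triangle_right _ _ y) (add_lt_add hfu' hfu)
  rw [dist_eq_norm] at h2
  calc P (f u' - f u) ≤ C * ‖f u' - f u‖ := hCb _
    _ ≤ C * (1 / (20 * C) + 1 / (20 * C)) := by gcongr
    _ = 1 / 10 := by field_simp; norm_num

end

theorem fa {E : Type} [NormedAddCommGroup E] [NormedSpace ℝ E] [FiniteDimensional ℝ E]
    (P : E → ℝ) (hP : Sublin P) (h0 : ∀ u, 0 ≤ P u) (hneg : ∀ u, P (-u) ≤ 2 * P u)
    (c : ℝ) (hc : 0 ≤ c) (S : Set E)
    (hS : ∀ u ∈ S, ∀ u' ∈ S, ∀ n : ℕ, n * P u - c * (n + 1) ≤ P (u' - (2 * n + 1 : ℝ) • u)) :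
    ∃ C : ℝ, ∀ u ∈ S, P u ≤ C := by
  by_contra hcon
  push_neg at hcon
  have hT : (0 : ℝ) < 100 * c + 1 := by linarith
  obtain ⟨u, hu, u', hu', huT, h100, hclose⟩ := exists_pair hP h0 hneg S hcon _ hT
  have hPu : 0 < P u := lt_of_lt_of_le hT huT
  have hPu' : 0 < P u' := by linarith
  set R : ℝ := P u' / P u with hR
  have hR100 : 100 ≤ R := by rw [hR, le_div_iff₀ hPu]; exact h100
  have hRu : R * P u = P u' := by rw [hR]; field_simp
  set n : ℕ := ⌊(R - 1) / 2⌋₊ with hn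
  have hn1 : (n : ℝ) ≤ (R - 1) / 2 := Nat.floor_le (by linarith)
  have hn2 : (R - 1) / 2 < n + 1 := Nat.lt_floor_add_one _
  have hmain := hS u hu u' hu' n
  have heq : u' - (2 * n + 1 : ℝ) • u =
      P u' • ((P u')⁻¹ • u' - (P u)⁻¹ • u) + (R - (2 * n + 1)) • u := by
    rw [smul_sub, smul_smul, smul_smul, mul_inv_cancel₀ hPu'.ne', one_smul, ← div_eq_mul_inv, ← hR,
      sub_smul R]
    abel
  have h1 : P (u' - (2 * n + 1 : ℝ) • u) ≤ P u' * (1 / 10) + 2 * P u := by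
    rw [heq]
    refine (hP.add _ _).trans ?_
    rw [hP.smul _ hPu'.le, hP.smul _ (by linarith)]
    gcongr
    linarith
  have h2 : c * ((n : ℝ) + 1) ≤ P u' / 100 := by
    have h3 : (n : ℝ) + 1 ≤ R := by linarith
    have h4 : c * ((n : ℝ) + 1) ≤ c * R := by gcongr
    have h5 : 100 * (c * R) ≤ P u * R := by nlinarith
    have h6 : P u * R = P u' := by rw [mul_comm]; exact hRu
    linarith
  have h3 : P u' / 2 - 2 * P u ≤ n * P u := by
    have h4 : R / 2 - 2 ≤ n := by linarith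
    have h5 : (R / 2 - 2) * P u ≤ n * P u := by gcongr
    have h6 : (R / 2 - 2) * P u = P u' / 2 - 2 * P u := by rw [← hRu]; ring
    linarith
  linarith

end Pool.Agent.Work.MP_7da6af_nt
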