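import Pool.Agent.Work.MP_7da6af_nt.Inv
import Pool.Agent.Work.MP_7da6af_nt.BSIneq
import Pool.Agent.Work.MP_7da6af_nt.FA

/-! # `x + z = 1` in the division hull of a finitely generated group -/

set_option autoImplicit false

namespace Pool.Agent.Work.MP_7da6af_nt

open NumberField Polynomial TensorProduct

theorem nf_of_finite (K₀ L : Type) [Field K₀] [NumberField K₀] [Field L] [Algebra K₀ L]
    [Module.Finite K₀ L] : NumberField L := by
  have hchar : CharZero L := charZero_of_injective_ringHom (algebraMap K₀ L).injective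
  have : IsScalarTower ℚ K₀ L := ⟨fun a b c => by simp [Algebra.smul_def, mul_assoc]⟩
  have : FiniteDimensional ℚ L := Module.Finite.trans K₀ L
  exact ⟨⟩

/-- two extensions of a number field have a common extension -/
theorem common_ext {K₀ K K' : Type} [Field K₀] [NumberField K₀] [Field K] [NumberField K]
    [Field K'] [NumberField K'] (f : K₀ →+* K) (f' : K₀ →+* K') :
    ∃ (L : Type) (_ : Field L) (_ : NumberField L) (g : K →+* L) (g' : K' →+* L),
      g.comp f = g'.comp f' := by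
  let : Algebra K₀ K := f.toAlgebra
  let : Algebra K₀ K' := f'.toAlgebra
  have : IsScalarTower ℚ K₀ K := ⟨fun a b c => by simp [Algebra.smul_def, mul_assoc]⟩
  have : IsScalarTower ℚ K₀ K' := ⟨fun a b c => by simp [Algebra.smul_def, mul_assoc]⟩
  have : Module.Finite K₀ K := Module.Finite.of_restrictScalars_finite ℚ K₀ K
  have : Module.Finite K₀ K' := Module.Finite.of_restrictScalars_finite ℚ K₀ K'
  obtain ⟨M, hM⟩ := Ideal.exists_maximal (K ⊗[K₀] K')
  let fld : Field ((K ⊗[K₀] K') ⧸ M) := Ideal.Quotient.field M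
  let g : K →+* (K ⊗[K₀] K') ⧸ M := (Ideal.Quotient.mk M).comp
    (Algebra.TensorProduct.includeLeftRingHom)
  let g' : K' →+* (K ⊗[K₀] K') ⧸ M := (Ideal.Quotient.mk M).comp
    (Algebra.TensorProduct.includeRight (R := K₀) (A := K) (B := K')).toRingHom
  have hc : g.comp f = g'.comp f' := by
    ext a
    have h1 : (algebraMap K₀ K a) ⊗ₜ[K₀] (1 : K') = (1 : K) ⊗ₜ[K₀] (algebraMap K₀ K' a) := by
      rw [Algebra.algebraMap_eq_smul_one, Algebra.algebraMap_eq_smul_one,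
        TensorProduct.smul_tmul]
    exact congrArg (Ideal.Quotient.mk M) h1
  have hfin : Module.Finite K₀ ((K ⊗[K₀] K') ⧸ M) := inferInstance
  have hnf : @NumberField ((K ⊗[K₀] K') ⧸ M) fld :=
    @nf_of_finite K₀ ((K ⊗[K₀] K') ⧸ M) _ _ fld (Ideal.Quotient.algebra K₀) hfin
  exact ⟨(K ⊗[K₀] K') ⧸ M, fld, hnf, g, g', hc⟩

/-- the local function -/
noncomputable def Ph {r : ℕ} (u : (Fin r → ℝ) × (Fin r → ℝ)) (w : Fin r → ℝ) : ℝ :=
  max 0 (max (∑ i, u.1 i * w i) (∑ i, u.2 i * w i))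

theorem Ph_zero {r : ℕ} (u : (Fin r → ℝ) × (Fin r → ℝ)) : Ph u 0 = 0 := by
  simp [Ph]

theorem Ph_nonneg {r : ℕ} (u : (Fin r → ℝ) × (Fin r → ℝ)) (w : Fin r → ℝ) : 0 ≤ Ph u w :=
  le_max_left _ _

theorem Ph_hom {r : ℕ} (u : (Fin r → ℝ) × (Fin r → ℝ)) (t : ℝ) (ht : 0 < t) (w : Fin r → ℝ) :
    Ph u (t • w) = t * Ph u w := by
  unfold Ph
  have h : ∀ v : Fin r → ℝ, ∑ i, v i * (t • w) i = t * ∑ i, v i * w i := by
    intro v
    rw [Finset.mul_sum]
    refine Finset.sum_congr rfl fun i _ => ?_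
    simp only [Pi.smul_apply, smul_eq_mul]
    ring
  rw [h, h, mul_max_of_nonneg _ _ ht.le, mul_max_of_nonneg _ _ ht.le, mul_zero]

theorem Ph_smul {r : ℕ} (u : (Fin r → ℝ) × (Fin r → ℝ)) (t : ℝ) (ht : 0 ≤ t) (w : Fin r → ℝ) :
    Ph (t • u) w = t * Ph u w := by
  unfold Ph
  have h : ∀ v : Fin r → ℝ, ∑ i, (t • v) i * w i = t * ∑ i, v i * w i := by
    intro v
    rw [Finset.mul_sum]
    refine Finset.sum_congr rfl fun i _ => ?_
    simp only [Pi.smul_apply, smul_eq_mul]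
    ring
  rw [Prod.smul_fst, Prod.smul_snd, h, h, mul_max_of_nonneg _ _ ht, mul_max_of_nonneg _ _ ht,
    mul_zero]

theorem Ph_add {r : ℕ} (u v : (Fin r → ℝ) × (Fin r → ℝ)) (w : Fin r → ℝ) :
    Ph (u + v) w ≤ Ph u w + Ph v w := by
  unfold Ph
  have h : ∀ a b : Fin r → ℝ, ∑ i, (a + b) i * w i = ∑ i, a i * w i + ∑ i, b i * w i := by
    intro a b
    rw [← Finset.sum_add_distrib]
    refine Finset.sum_congr rfl fun i _ => ?_
    simp only [Pi.add_apply]
    ring
  rw [Prod.fst_add, Prod.snd_add, h, h]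
  refine max_le ?_ (max_le ?_ ?_)
  · exact add_nonneg (le_max_left _ _) (le_max_left _ _)
  · exact add_le_add ((le_max_left _ _).trans (le_max_right _ _))
      ((le_max_left _ _).trans (le_max_right _ _))
  · exact add_le_add ((le_max_right _ _).trans (le_max_right _ _))
      ((le_max_right _ _).trans (le_max_right _ _))

theorem Ph_neg {r : ℕ} (u : (Fin r → ℝ) × (Fin r → ℝ)) (w : Fin r → ℝ) :
    Ph (-u) w ≤ 2 * Ph u w + (-1) * (∑ i, u.1 i * w i + ∑ i, u.2 i * w i) := by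
  unfold Ph
  have h : ∀ a : Fin r → ℝ, ∑ i, (-a) i * w i = - ∑ i, a i * w i := by
    intro a
    rw [← Finset.sum_neg_distrib]
    refine Finset.sum_congr rfl fun i _ => ?_
    simp only [Pi.neg_apply]
    ring
  rw [Prod.fst_neg, Prod.snd_neg, h, h]
  set A := ∑ i, u.1 i * w i
  set B := ∑ i, u.2 i * w i
  have h1 : A ≤ max 0 (max A B) := (le_max_left _ _).trans (le_max_right _ _)
  have h2 : B ≤ max 0 (max A B) := (le_max_right _ _).trans (le_max_right _ _)
  have h3 : 0 ≤ max 0 (max A B) := le_max_left _ _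
  refine max_le ?_ (max_le ?_ ?_) <;> linarith

section

variable {K₀ : Type} [Field K₀] [NumberField K₀] {r : ℕ} (l : Fin r → K₀)

/-- the sublinear function on the exponents -/
noncomputable def PP (u : (Fin r → ℝ) × (Fin r → ℝ)) : ℝ :=
  plSum K₀ (fun p => Ph u (fun i => lg p (l i))) / dg K₀

variable {l}

theorem fs_vec (hl : ∀ i, l i ≠ 0) (F : (Fin r → ℝ) → ℝ) (hF : F 0 = 0) :
    FS (fun p : Pl K₀ => F (fun i => lg p (l i))) := by
  have h1 : (⋃ i, Function.support (fun v : Pl K₀ => lg v (l i))).Finite :=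
    Set.finite_iUnion fun i => fs_lg (hl i)
  refine h1.subset fun v hv => ?_
  by_contra hcon
  apply hv
  have h2 : (fun i => lg v (l i)) = 0 := by
    funext i
    by_contra h3
    exact hcon (Set.mem_iUnion.mpr ⟨i, h3⟩)
  show F (fun i => lg v (l i)) = 0
  rw [h2, hF]

theorem PP_sublin (hl : ∀ i, l i ≠ 0) : Sublin (PP l) where
  smul := by
    intro t ht u
    unfold PP
    rw [← mul_div_assoc, ← plSum_smul]
    congr 1
    exact plSum_congr fun p => Ph_smul u t ht _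
  add := by
    intro u v
    unfold PP
    rw [← add_div, ← plSum_add (fs_vec hl _ (Ph_zero u)) (fs_vec hl _ (Ph_zero v))]
    apply div_le_div_of_nonneg_right _ dg_pos.le
    exact plSum_mono (fs_vec hl _ (Ph_zero (u + v)))
      ((fs_vec hl _ (Ph_zero u)).add (fs_vec hl _ (Ph_zero v))) fun p => Ph_add u v _

theorem PP_nonneg (u : (Fin r → ℝ) × (Fin r → ℝ)) : 0 ≤ PP l u :=
  div_nonneg (plSum_nonneg fun _ => Ph_nonneg _ _) dg_pos.le

theorem plSum_lin (hl : ∀ i, l i ≠ 0) (a : Fin r → ℝ) :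
    plSum K₀ (fun p => ∑ i, a i * lg p (l i)) = 0 := by
  rw [plSum_sum Finset.univ fun i _ => (fs_lg (hl i)).smul (a i)]
  refine Finset.sum_eq_zero fun i _ => ?_
  rw [plSum_smul, plSum_lg (hl i), mul_zero]

theorem PP_neg (hl : ∀ i, l i ≠ 0) (u : (Fin r → ℝ) × (Fin r → ℝ)) : PP l (-u) ≤ 2 * PP l u := by
  unfold PP
  rw [← mul_div_assoc]
  apply div_le_div_of_nonneg_right _ dg_pos.le
  have f1 : FS (fun p : Pl K₀ => ∑ i, u.1 i * lg p (l i)) :=
    FS.sum Finset.univ fun i _ => (fs_lg (hl i)).smul (u.1 i)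
  have f2 : FS (fun p : Pl K₀ => ∑ i, u.2 i * lg p (l i)) :=
    FS.sum Finset.univ fun i _ => (fs_lg (hl i)).smul (u.2 i)
  have f3 := (fs_vec hl _ (Ph_zero u)).smul 2
  have f4 := (f1.add f2).smul (-1)
  have h := plSum_mono (fs_vec hl _ (Ph_zero (-u))) (f3.add f4) fun p => Ph_neg u _
  refine h.trans (le_of_eq ?_)
  rw [plSum_add f3 f4, plSum_smul, plSum_smul, plSum_add f1 f2, plSum_lin hl, plSum_lin hl]
  ring

omit [NumberField K₀] in
/-- logarithms of a root of a monomial -/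
theorem lg_root {L : Type} [Field L] [NumberField L] (hl : ∀ i, l i ≠ 0) (h : K₀ →+* L) (X : L)
    (m : ℕ) (hm : 0 < m) (c : Fin r → ℤ) (hX : X ^ m = h (mon l c)) (p : Pl L) :
    lg p X = ∑ i, ((c i : ℝ) / m) * lg p (h (l i)) := by
  have hl' : ∀ i, h (l i) ≠ 0 := fun i => (map_ne_zero h).mpr (hl i)
  have h1 : (m : ℝ) * lg p X = ∑ i, (c i : ℝ) * lg p (h (l i)) := by
    rw [← lg_pow, hX]
    unfold mon
    rw [map_prod]
    unfold lg
    rw [map_prod, Real.log_prod]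
    · refine Finset.sum_congr rfl fun i _ => ?_
      rw [map_zpow₀, map_zpow₀, Real.log_zpow]
    · intro i _
      rw [map_zpow₀, map_zpow₀]
      exact zpow_ne_zero _ ((av p).ne_zero (hl' i))
  have hm' : (m : ℝ) ≠ 0 := by exact_mod_cast hm.ne'
  have h2 : lg p X = (m : ℝ)⁻¹ * ∑ i, (c i : ℝ) * lg p (h (l i)) := by
    rw [← h1, inv_mul_cancel_left₀ hm']
  rw [h2, Finset.mul_sum]
  refine Finset.sum_congr rfl fun i _ => ?_
  ring

/-- values of the sublinear function in an extension -/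
theorem PP_eq {L : Type} [Field L] [NumberField L] (hl : ∀ i, l i ≠ 0) (h : K₀ →+* L)
    (u : (Fin r → ℝ) × (Fin r → ℝ)) :
    plSum L (fun p => Ph u (fun i => lg p (h (l i)))) = dg L * PP l u := by
  have h1 := inv h (Ph u) (Ph_hom u) l hl
  unfold PP
  have h2 : dg K₀ ≠ 0 := dg_pos.ne'
  field_simp
  linarith

end

theorem ml (K₀ : Type) [Field K₀] [NumberField K₀] (r : ℕ) (l : Fin r → K₀)
    (hl : ∀ i, l i ≠ 0) : ∃ C : ℝ, 0 ≤ C ∧
    ∀ (K : Type) [Field K] [NumberField K] (f : K₀ →+* K) (x z : K), x ≠ 0 → z ≠ 0 →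
      x + z = 1 → ∀ m : ℕ, 0 < m → (∃ c : Fin r → ℤ, x ^ m = f (mon l c)) →
      (∃ c : Fin r → ℤ, z ^ m = f (mon l c)) → hh x ≤ C * dg K := by
  obtain ⟨c0, hc0, hbs⟩ := bsIneq
  let S : Set ((Fin r → ℝ) × (Fin r → ℝ)) := {u | ∃ (K : Type) (_ : Field K) (_ : NumberField K)
    (f : K₀ →+* K) (x z : K) (m : ℕ) (c c' : Fin r → ℤ), x ≠ 0 ∧ z ≠ 0 ∧ x + z = 1 ∧ 0 < m ∧
      x ^ m = f (mon l c) ∧ z ^ m = f (mon l c') ∧
      u = ((fun i => (c i : ℝ) / m), (fun i => (c' i : ℝ) / m))}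
  have hS : ∀ u ∈ S, ∀ u' ∈ S, ∀ n : ℕ,
      n * PP l u - c0 * (n + 1) ≤ PP l (u' - (2 * n + 1 : ℝ) • u) := by
    rintro u ⟨K, _, _, f, x, z, m, c, c', hx, hz, hxz, hm, e1, e2, hu⟩ u'
      ⟨K', _, _, f', x', z', m', d, d', hx', hz', hxz', hm', e1', e2', hu'⟩ n
    obtain ⟨L, _, _, g, g', hgg⟩ := common_ext f f'
    have hgg' : ∀ a, g (f a) = g' (f' a) := fun a => RingHom.congr_fun hgg a
    have hb := hbs L (g x) (g z) (g' x') (g' z') ((map_ne_zero g).mpr hx)
      ((map_ne_zero g).mpr hz) ((map_ne_zero g').mpr hx') ((map_ne_zero g').mpr hz')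
      (by rw [← map_add, hxz, map_one]) (by rw [← map_add, hxz', map_one]) n
    have l1 : ∀ p : Pl L, lg p (g x) = ∑ i, ((c i : ℝ) / m) * lg p ((g.comp f) (l i)) :=
      fun p => lg_root hl (g.comp f) (g x) m hm c
        (by rw [← map_pow, e1]; rfl) p
    have l2 : ∀ p : Pl L, lg p (g z) = ∑ i, ((c' i : ℝ) / m) * lg p ((g.comp f) (l i)) :=
      fun p => lg_root hl (g.comp f) (g z) m hm c'
        (by rw [← map_pow, e2]; rfl) p
    have l3 : ∀ p : Pl L, lg p (g' x') = ∑ i, ((d i : ℝ) / m') * lg p ((g.comp f) (l i)) :=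
      fun p => lg_root hl (g.comp f) (g' x') m' hm' d
        (by rw [← map_pow, e1', hgg]; rfl) p
    have l4 : ∀ p : Pl L, lg p (g' z') = ∑ i, ((d' i : ℝ) / m') * lg p ((g.comp f) (l i)) :=
      fun p => lg_root hl (g.comp f) (g' z') m' hm' d'
        (by rw [← map_pow, e2', hgg]; rfl) p
    have s1 : plSum L (fun p => max 0 (max (lg p (g x)) (lg p (g z)))) = dg L * PP l u := by
      rw [← PP_eq hl (g.comp f) u]
      refine plSum_congr fun p => ?_
      rw [l1, l2, hu]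
      rfl
    have s2 : plSum L (fun p => max 0 (max (lg p (g' x') - (2 * n + 1) * lg p (g x))
        (lg p (g' z') - (2 * n + 1) * lg p (g z)))) =
        dg L * PP l (u' - (2 * n + 1 : ℝ) • u) := by
      rw [← PP_eq hl (g.comp f) _]
      refine plSum_congr fun p => ?_
      rw [l1, l2, l3, l4, hu, hu']
      unfold Ph
      congr 2
      · rw [Finset.mul_sum, ← Finset.sum_sub_distrib]
        refine Finset.sum_congr rfl fun i _ => ?_
        simp only [Prod.fst_sub, Prod.smul_fst, Pi.sub_apply, Pi.smul_apply, smul_eq_mul]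
        ring
      · rw [Finset.mul_sum, ← Finset.sum_sub_distrib]
        refine Finset.sum_congr rfl fun i _ => ?_
        simp only [Prod.snd_sub, Prod.smul_snd, Pi.sub_apply, Pi.smul_apply, smul_eq_mul]
        ring
    rw [s1, s2] at hb
    have hL : 0 < dg L := dg_pos
    have hb' : dg L * (n * PP l u - c0 * (n + 1)) ≤ dg L * PP l (u' - (2 * n + 1 : ℝ) • u) := by
      linarith
    exact le_of_mul_le_mul_left hb' hL
  obtain ⟨C, hC⟩ := fa (PP l) (PP_sublin hl) PP_nonneg (PP_neg hl) c0 hc0 S hS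
  refine ⟨max C 0, le_max_right _ _, ?_⟩
  intro K _ _ f x z hx hz hxz m hm ⟨c, e1⟩ ⟨c', e2⟩
  have hu := hC ((fun i => (c i : ℝ) / m), (fun i => (c' i : ℝ) / m))
    ⟨K, inferInstance, inferInstance, f, x, z, m, c, c', hx, hz, hxz, hm, e1, e2, rfl⟩
  have h1 : hh x ≤ dg K * PP l ((fun i => (c i : ℝ) / m), (fun i => (c' i : ℝ) / m)) := by
    rw [← PP_eq hl f _]
    unfold hh
    refine plSum_mono (fs_max hx) ?_ fun p => ?_
    · exact fs_vec (l := fun i => f (l i)) (fun i => (map_ne_zero f).mpr (hl i)) _ (Ph_zero _)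
    · unfold Ph
      rw [lg_root hl f x m hm c e1 p]
      exact max_le_max le_rfl (le_max_left _ _)
  have hK : 0 < dg K := dg_pos
  calc hh x ≤ dg K * PP l ((fun i => (c i : ℝ) / m), (fun i => (c' i : ℝ) / m)) := h1
    _ ≤ dg K * max C 0 := mul_le_mul_of_nonneg_left (hu.trans (le_max_left _ _)) hK.le
    _ = max C 0 * dg K := mul_comm _ _

end Pool.Agent.Work.MP_7da6af_nt
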