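import Pool.Agent.Work.MP_7da6af_nt.AnomDim
import Pool.Agent.Work.MP_7da6af_nt.AnomLat
import Pool.Agent.Work.MP_7da6af_nt.AnomHt
import Pool.Agent.Work.MP_7da6af_nt.AnomClosed
import Pool.Agent.Work.MP_7da6af_nt.Gen.Main

/-! # Bounded height of the maximal torsion anomalous points of the surface -/

set_option autoImplicit false

namespace Pool.Agent.Work.MP_7da6af_nt.Anom

open Pool.Agent.Work.MP_7da6af_nt Gen
open TopologicalSpace

theorem chr_eq (q : Tor) (m : Fin 5 → ℤ) : ((q.chr m : Omˣ) : Om) = ∏ i, q.co i ^ m i := by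
  unfold Tor.chr Tor.co
  push_cast
  rfl

theorem closed_coset (ζ : Tor) (Λ : Submodule ℤ (Fin 5 → ℤ)) : IsClosed (coset ζ Λ) := by
  have h1 : coset ζ Λ = ⋂ m ∈ Λ, zLoc {(∏ i, (MvPolynomial.X i : MvPolynomial (Fin 5) Om) ^ (m i).toNat) -
      MvPolynomial.C ((ζ.chr m : Omˣ) : Om) * ∏ i, MvPolynomial.X i ^ (-m i).toNat} := by
    ext q
    simp only [coset, Set.mem_ofPred_eq, Set.mem_iInter, zLoc, Set.mem_singleton_iff, forall_eq,
      map_sub, map_mul, map_prod, map_pow, MvPolynomial.eval_X, MvPolynomial.eval_C]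
    refine forall₂_congr fun m _ => ?_
    have h2 : (∏ i, q.co i ^ (m i).toNat) = ((q.chr m : Omˣ) : Om) * ∏ i, q.co i ^ (-m i).toNat := by
      rw [chr_eq, ← Finset.prod_mul_distrib]
      refine Finset.prod_congr rfl fun i _ => ?_
      rw [← zpow_natCast, ← zpow_natCast, ← zpow_add₀ (co_ne q i)]
      congr 1
      omega
    have h3 : (∏ i, q.co i ^ (-m i).toNat) ≠ 0 :=
      Finset.prod_ne_zero_iff.mpr fun i _ => pow_ne_zero _ (co_ne q i)
    rw [h2, ← sub_mul, mul_eq_zero]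
    constructor
    · intro h
      left
      rw [h, sub_self]
    · rintro (h | h)
      · exact Units.ext (sub_eq_zero.mp h)
      · exact absurd h h3
  rw [h1]
  exact isClosed_biInter fun m _ => closed_zLoc _

theorem exists_par {k : Type} [Field k] (ι : k →+* Om) (F : Fin 3 → RatFunc k)
    (u v w : Polynomial k) (hu : u ≠ 0) (hv : v ≠ 0)
    (hcop : ∃ α β γ : Polynomial k, α * u + β * v + γ * w = 1) :
    ∃ D : Par k, D.φ = ι ∧ D.F = F ∧ D.u = u ∧ D.v = v ∧ D.w = w := by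
  classical
  obtain ⟨u', hu'⟩ := EuclideanDomain.gcd_dvd_left u v
  obtain ⟨v', hv'⟩ := EuclideanDomain.gcd_dvd_right u v
  have hg : EuclideanDomain.gcd u v ≠ 0 := fun h => hu (by rw [hu', h, zero_mul])
  have h1 := EuclideanDomain.gcd_eq_gcd_ab u v
  refine ⟨⟨ι, F, u, v, w, hu, hv, hcop, EuclideanDomain.gcd u v, u', v',
    EuclideanDomain.gcdA u v, EuclideanDomain.gcdB u v, hu', hv', ?_⟩, rfl, rfl, rfl, rfl, rfl⟩
  apply mul_left_cancel₀ hg
  calc EuclideanDomain.gcd u v * (EuclideanDomain.gcdA u v * u' + EuclideanDomain.gcdB u v * v')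
      = (EuclideanDomain.gcd u v * u') * EuclideanDomain.gcdA u v +
        (EuclideanDomain.gcd u v * v') * EuclideanDomain.gcdB u v := by ring
    _ = u * EuclideanDomain.gcdA u v + v * EuclideanDomain.gcdB u v := by rw [← hu', ← hv']
    _ = EuclideanDomain.gcd u v * 1 := by rw [← h1, mul_one]

section

variable {k : Type} [Field k] {D : Par k}

/-- a maximal point lies on no fibre contained in a torsion variety of codimension two -/
theorem no_lattice (hcl : IsClosed D.V) (hdim : dimT D.V = 2)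
    {P : Tor} (hmax : IsMaxPoint D.V P) {t y : Om} (h : Over D P t y)
    (Λ : Submodule ℤ (Fin 5 → ℤ)) (hr : 2 ≤ Module.finrank ℤ Λ)
    (hsub : ∀ q ∈ fib D y, ∀ m ∈ Λ, q.chr m = 1) : False := by
  have hW : IsClosed (D.V ∩ coset 1 Λ) := hcl.inter (closed_coset 1 Λ)
  have hfW : fib D y ⊆ D.V ∩ coset 1 Λ :=
    fun q hq => ⟨fib_sub y hq, (mem_coset_one Λ q).mpr (hsub q hq)⟩
  obtain ⟨Y, hY, hfY⟩ := exists_component (fib_irr h) (fib_closed h.reg) hW hfW
  have hYi : IsIrreducible Y := hY.prop.1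
  have hYc : IsClosed Y := hY.prop.2.1
  have hPY : P ∈ Y := hfY (mem_fib h)
  have hne : Y ≠ {P} := by
    intro heq
    apply fib_ne h
    refine Set.Subset.antisymm (heq ▸ hfY) ?_
    simpa using mem_fib h
  have h1 : 1 ≤ dimT Y := one_le_dimT hYi hYc hPY hne
  refine hmax.2 Y ⟨coset 1 Λ, Module.finrank ℤ Λ, torsion_of_lattice Λ,
    coset_ne_univ Λ (by omega), hY, ?_⟩ hPY ?_
  · rw [hdim]
    have h2 : (2 : WithBot ℕ∞) ≤ ((Module.finrank ℤ Λ : ℕ) : WithBot ℕ∞) := by exact_mod_cast hr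
    calc (2 : WithBot ℕ∞) < 1 + 2 := by decide
      _ ≤ dimT Y + ((Module.finrank ℤ Λ : ℕ) : WithBot ℕ∞) := add_le_add h1 h2
  · rw [dimT_singleton]
    exact lt_of_lt_of_le (by decide) h1

theorem fib_co {q P : Tor} {t y : Om} (h : Over D P t y) (hq : q ∈ fib D y) :
    (∀ l : Fin 3, q.co (Fin.natAdd 2 l) = P.co (Fin.natAdd 2 l)) ∧
    ev D.φ y D.u * q.co 0 + ev D.φ y D.v * q.co 1 = ev D.φ y D.w := by
  have h1 := (mem_fib_iff h.reg q).mp hq
  exact ⟨fun l => (h1.1 l).trans (h.co2 l).symm, h1.2⟩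

theorem chr_split (q : Tor) (m : Fin 5 → ℤ) : ((q.chr m : Omˣ) : Om) =
    q.co 0 ^ m 0 * q.co 1 ^ m 1 * ∏ l : Fin 3, q.co (Fin.natAdd 2 l) ^ m (Fin.natAdd 2 l) := by
  rw [chr_eq, Fin.prod_univ_five, Fin.prod_univ_three]
  simp only [mul_assoc]
  rfl

/-- agreement of monomials on the fibre -/
theorem chr_fib {q P : Tor} {t y : Om} (h : Over D P t y) (hq : q ∈ fib D y) (m : Fin 5 → ℤ)
    (hP : P.chr m = 1) (h01 : q.co 0 ^ m 0 * q.co 1 ^ m 1 = P.co 0 ^ m 0 * P.co 1 ^ m 1) :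
    q.chr m = 1 := by
  have h2 := (fib_co h hq).1
  apply Units.ext
  rw [chr_split, h01]
  simp only [h2]
  rw [← chr_split, hP]

end

/-- the conditions of the main theorem hold at a maximal point -/
theorem conditions {k : Type} [Field k] (D : Par k) (hcl : IsClosed D.V)
    (hdim : dimT D.V = 2) {P : Tor} (hmax : IsMaxPoint D.V P) : ∃ t y, Over D P t y ∧
      ev D.φ y D.u ≠ 0 ∧ ev D.φ y D.v ≠ 0 ∧ ev D.φ y D.w ≠ 0 ∧
      (∃ M : Fin 3 → Fin 5 → ℤ, LinearIndependent ℤ M ∧ ∀ i, P.chr (M i) = 1) ∧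
      ¬ ∃ N : Fin 2 → Fin 3 → ℤ, LinearIndependent ℤ N ∧
        ∀ i, ∏ j : Fin 3, P.co (Fin.natAdd 2 j) ^ N i j = 1 := by
  obtain ⟨⟨B, c, hB, hBne, hcomp, hd⟩, hmx⟩ := hmax
  have hmax : IsMaxPoint D.V P := ⟨⟨B, c, hB, hBne, hcomp, hd⟩, hmx⟩
  have hPVB : P ∈ D.V ∩ B := hcomp.prop.2.2 rfl
  rw [hdim, dimT_singleton, zero_add] at hd
  have hc : 3 ≤ c := by
    have : (2 : ℕ) < c := by exact_mod_cast hd
    omega
  have hrk : 3 ≤ Module.finrank ℤ (rel P) := hc.trans (rel_rank hB hPVB.2)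
  obtain ⟨t, y, h⟩ := (mem_V_iff P).mp hPVB.1
  obtain ⟨hreg, hco, heq⟩ := h.mem
  have hcop : ¬ (ev D.φ y D.u = 0 ∧ ev D.φ y D.v = 0) := by
    rintro ⟨h1, h2⟩
    apply h.hd
    have h3 := bez (D := D) y
    rw [evu] at h1
    rw [evv] at h2
    calc ev D.φ y D.d = ev D.φ y D.d * (ev D.φ y D.al * ev D.φ y D.u' +
        ev D.φ y D.be * ev D.φ y D.v') := by rw [h3, mul_one]
      _ = ev D.φ y D.al * (ev D.φ y D.d * ev D.φ y D.u') +
        ev D.φ y D.be * (ev D.φ y D.d * ev D.φ y D.v') := by ring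
      _ = 0 := by rw [h1, h2]; ring
  have hu : ev D.φ y D.u ≠ 0 := by
    intro hu0
    have hv0 : ev D.φ y D.v ≠ 0 := fun hv0 => hcop ⟨hu0, hv0⟩
    refine no_lattice hcl hdim hmax h (rel P ⊓ LinearMap.ker (LinearMap.proj (R := ℤ) 0))
      (by have := rank_ker (rel P) (LinearMap.proj (R := ℤ) 0); omega) ?_
    rintro q hq m ⟨hm1, hm2⟩
    have hm0 : m 0 = 0 := hm2
    refine chr_fib h hq m hm1 ?_
    have e1 := (fib_co h hq).2
    have e2 : q.co 1 = P.co 1 := by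
      apply mul_left_cancel₀ hv0
      rw [hu0, zero_mul, zero_add] at e1 heq
      rw [e1, heq]
    rw [hm0, zpow_zero, zpow_zero, e2]
  have hv : ev D.φ y D.v ≠ 0 := by
    intro hv0
    refine no_lattice hcl hdim hmax h (rel P ⊓ LinearMap.ker (LinearMap.proj (R := ℤ) 1))
      (by have := rank_ker (rel P) (LinearMap.proj (R := ℤ) 1); omega) ?_
    rintro q hq m ⟨hm1, hm2⟩
    have hm0 : m 1 = 0 := hm2
    refine chr_fib h hq m hm1 ?_
    have e1 := (fib_co h hq).2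
    have e2 : q.co 0 = P.co 0 := by
      apply mul_left_cancel₀ hu
      rw [hv0, zero_mul, add_zero] at e1 heq
      rw [e1, heq]
    rw [hm0, zpow_zero, zpow_zero, e2]
  refine ⟨t, y, h, hu, hv, ?_, ?_, ?_⟩
  · intro hw0
    refine no_lattice hcl hdim hmax h (rel P ⊓ LinearMap.ker
      (LinearMap.proj (R := ℤ) (φ := fun _ : Fin 5 => ℤ) 0 +
        LinearMap.proj (R := ℤ) (φ := fun _ : Fin 5 => ℤ) 1))
      (by have := rank_ker (rel P) (LinearMap.proj (R := ℤ) (φ := fun _ : Fin 5 => ℤ) 0 +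
            LinearMap.proj (R := ℤ) (φ := fun _ : Fin 5 => ℤ) 1)
          omega) ?_
    rintro q hq m ⟨hm1, hm2⟩
    have hm0 : m 0 + m 1 = 0 := hm2
    refine chr_fib h hq m hm1 ?_
    have e1 := (fib_co h hq).2
    have e2 : q.co 0 * P.co 1 = P.co 0 * q.co 1 := by
      apply mul_left_cancel₀ hu
      rw [hw0] at e1 heq
      linear_combination (P.co 1) * e1 - (q.co 1) * heq
    have hm1' : m 1 = - m 0 := by omega
    rw [hm1', zpow_neg, zpow_neg, ← div_eq_mul_inv, ← div_eq_mul_inv, ← div_zpow, ← div_zpow]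
    congr 1
    rw [div_eq_div_iff (co_ne q 1) (co_ne P 1)]
    exact e2
  · obtain ⟨M, hM1, hM2⟩ := exists_indep (rel P) 3 hrk
    exact ⟨M, hM1, hM2⟩
  · rintro ⟨N, hN1, hN2⟩
    obtain ⟨Λ, hΛ1, hΛ2, hΛ3⟩ := rank_of_two P N hN1 hN2
    refine no_lattice hcl hdim hmax h Λ hΛ3 ?_
    intro q hq m hm
    refine chr_fib h hq m (hΛ1 hm) ?_
    rw [(hΛ2 m hm).1, (hΛ2 m hm).2, zpow_zero, zpow_zero, zpow_zero, zpow_zero]

theorem ev_map {K L : Type} [Field K] [Field L] {k : Type} [Field k] (φ : k →+* K) (j : K →+* L)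
    (y : K) (P : Polynomial k) : ev (j.comp φ) (j y) P = j (ev φ y P) := by
  unfold ev
  rw [Polynomial.hom_eval₂]

/-- Q1 for the surface. -/
theorem q1 {k : Type} [Field k] [NumberField k] (ι : k →+* Om) (F : Fin 3 → RatFunc k)
    (u v w : Polynomial k) (hu : u ≠ 0) (hv : v ≠ 0) (hw : w ≠ 0)
    (hcop : ∃ α β γ : Polynomial k, α * u + β * v + γ * w = 1)
    (hind : ∀ n : Fin 3 → ℤ, n ≠ 0 → ∀ c : k, ∏ j, F j ^ n j ≠ RatFunc.C c)
    (hinf : ∃ j, (F j).num.natDegree ≠ (F j).denom.natDegree)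
    (hstar : ∀ σ : k →+* ℂ, StarP F σ) :
    IsIrreducible (surf ι F u v w) ∧ IsClosed (surf ι F u v w) ∧ dimT (surf ι F u v w) = 2 ∧
      ∃ C : ℝ, ∀ P : Tor, IsMaxPoint (surf ι F u v w) P → hgt P ≤ C := by
  obtain ⟨j, hj⟩ := hinf
  have hF : ∀ l, F l ≠ 0 := by
    intro l h0
    apply hind (Pi.single l 1) (by
      intro h
      have := congrFun h l
      simp at this) 0
    rw [Finset.prod_eq_zero (Finset.mem_univ l), map_zero]
    rw [h0, Pi.single_eq_same, zpow_one]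
  obtain ⟨D, rfl, rfl, rfl, rfl, rfl⟩ := exists_par ι F u v w hu hv hcop
  have hcl : IsClosed D.V := closed_surf D.φ D.F D.u D.v D.w j hj
  have hdim : dimT D.V = 2 := dimT_V hF hcl j hj
  refine ⟨V_irr hF, hcl, hdim, ?_⟩
  obtain ⟨C, hC⟩ := Gen.final D.F D.u D.v D.w hu hv hw hind hstar
  refine ⟨5 * C, fun P hP => ?_⟩
  obtain ⟨t, y, h, hu0, hv0, hw0, ⟨M, hM1, hM2⟩, hN⟩ := conditions D hcl hdim hP
  obtain ⟨hreg, hco, heq⟩ := h.mem
  obtain ⟨K, _, _, φ, i, x', z', y', hφ, hx', hz', hy'⟩ := exists_field D.φ (P.co 0) (P.co 1) y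
  have hi : Function.Injective i := i.injective
  have hev : ∀ Q : Polynomial k, i (ev φ y' Q) = ev D.φ y Q := by
    intro Q
    rw [← ev_map, hφ, hy']
  have hreg' : Reg D.F φ y' := by
    intro l
    constructor
    · intro h0
      apply (hreg l).1
      rw [← hev, h0, map_zero]
    · intro h0
      apply (hreg l).2
      rw [← hev, h0, map_zero]
  have hcu : ∀ l : Fin 3, i (Gen.cu D.F φ y' l) = P.co (Fin.natAdd 2 l) := by
    intro l
    rw [hco l]
    unfold Gen.cu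
    rw [map_div₀, hev, hev]
  have hx0 : x' ≠ 0 := fun h0 => co_ne P 0 (by rw [← hx', h0, map_zero])
  have hz0 : z' ≠ 0 := fun h0 => co_ne P 1 (by rw [← hz', h0, map_zero])
  obtain ⟨b1, b2, b3, b4⟩ := hC K φ x' z' y' hx0 hz0 hreg'
    (fun h0 => hu0 (by rw [← hev, h0, map_zero])) (fun h0 => hv0 (by rw [← hev, h0, map_zero]))
    (fun h0 => hw0 (by rw [← hev, h0, map_zero]))
    (by
      apply hi
      rw [map_add, map_mul, map_mul, hev, hev, hev, hx', hz']
      exact heq)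
    ⟨M, hM1, fun l => by
      apply hi
      rw [map_one, map_mul, map_mul, map_zpow₀, map_zpow₀, map_prod, hx', hz']
      simp only [map_zpow₀, hcu]
      rw [← chr_split, hM2 l]
      rfl⟩
    (by
      rintro ⟨N, hN1, hN2⟩
      refine hN ⟨N, hN1, fun l => ?_⟩
      have := congrArg i (hN2 l)
      rw [map_prod, map_one] at this
      simp only [map_zpow₀, hcu] at this
      exact this)
  have hd : 0 < dg K := dg_pos
  have hb : ∀ a : K, a ≠ 0 → hh a ≤ C * dg K → NumberField.absLogHeight₁ (i a) ≤ C := by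
    intro a ha hab
    rw [absLogHeight_map i a ha, div_le_iff₀ hd]
    exact hab
  have h0 := hb x' hx0 b1
  have h1 := hb z' hz0 b2
  have h2 : ∀ l : Fin 3, NumberField.absLogHeight₁ (P.co (Fin.natAdd 2 l)) ≤ C := by
    intro l
    rw [← hcu l]
    exact hb _ (div_ne_zero (hreg' l).1 (hreg' l).2) (b4 l)
  rw [hx'] at h0
  rw [hz'] at h1
  unfold hgt
  rw [Fin.sum_univ_five]
  have c2 := h2 0
  have c3 := h2 1
  have c4 := h2 2
  have e2 : P.co (Fin.natAdd 2 (0 : Fin 3)) = P.co 2 := rfl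
  have e3 : P.co (Fin.natAdd 2 (1 : Fin 3)) = P.co 3 := rfl
  have e4 : P.co (Fin.natAdd 2 (2 : Fin 3)) = P.co 4 := rfl
  rw [e2] at c2
  rw [e3] at c3
  rw [e4] at c4
  linarith

end Pool.Agent.Work.MP_7da6af_nt.Anom
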