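import Pool.Agent.Work.MP_7da6af_nt.Places

/-! # Rules for heights and monomials -/

set_option autoImplicit false

namespace Pool.Agent.Work.MP_7da6af_nt

open NumberField Polynomial

variable {K : Type} [Field K] [NumberField K]

theorem hh_inv {x : K} (hx : x ≠ 0) : hh x⁻¹ = hh x := by
  rw [hh_eq hx, hh_eq (inv_ne_zero hx), Height.logHeight₁_inv]

theorem hh_mul_le {x z : K} (hx : x ≠ 0) (hz : z ≠ 0) : hh (x * z) ≤ hh x + hh z := by
  rw [hh_eq hx, hh_eq hz, hh_eq (mul_ne_zero hx hz)]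
  exact Height.logHeight₁_mul_le x z

theorem hh_div_le {x z : K} (hx : x ≠ 0) (hz : z ≠ 0) : hh (x / z) ≤ hh x + hh z := by
  rw [div_eq_mul_inv]
  have h := hh_mul_le hx (inv_ne_zero hz)
  rw [hh_inv hz] at h
  exact h

theorem hh_sub_le {x z : K} (hx : x ≠ 0) (hz : z ≠ 0) (h : x - z ≠ 0) :
    hh (x - z) ≤ hh x + hh z + dg K * Real.log 2 := by
  rw [hh_eq hx, hh_eq hz, hh_eq h]
  have h1 := Height.logHeight₁_sub_le x z
  rw [NumberField.totalWeight_eq_finrank] at h1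
  unfold dg
  linarith

omit [NumberField K] in
theorem mon_ne_zero {n : ℕ} {t : Fin n → K} (ht : ∀ j, t j ≠ 0) (k : Fin n → ℤ) :
    mon t k ≠ 0 :=
  Finset.prod_ne_zero_iff.mpr fun j _ => zpow_ne_zero _ (ht j)

theorem lg_mon {n : ℕ} {t : Fin n → K} (ht : ∀ j, t j ≠ 0) (k : Fin n → ℤ) (p : Pl K) :
    lg p (mon t k) = ∑ j, (k j : ℝ) * lg p (t j) := by
  unfold mon lg
  rw [map_prod, Real.log_prod fun j _ => (av p).ne_zero (zpow_ne_zero _ (ht j))]
  refine Finset.sum_congr rfl fun j _ => ?_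
  rw [map_zpow₀, Real.log_zpow]

omit [NumberField K] in
theorem map_mon {n : ℕ} {L : Type} [Field L] (f : K →+* L) (t : Fin n → K) (k : Fin n → ℤ) :
    f (mon t k) = mon (fun j => f (t j)) k := by
  unfold mon
  rw [map_prod]
  refine Finset.prod_congr rfl fun j _ => ?_
  rw [map_zpow₀]

/-- the real form of `x ^ m = mon t c` -/
theorem lg_of_pow_eq {n : ℕ} {t : Fin n → K} (ht : ∀ j, t j ≠ 0) {x : K} {m : ℕ} (hm : 0 < m)
    {c : Fin n → ℤ} (h : x ^ m = mon t c) (p : Pl K) :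
    lg p x = ∑ j, ((c j : ℝ) / m) * lg p (t j) := by
  have h1 := congrArg (lg p) h
  rw [lg_pow, lg_mon ht] at h1
  have hm' : (m : ℝ) ≠ 0 := by exact_mod_cast hm.ne'
  rw [← mul_right_inj' hm', h1, Finset.mul_sum]
  refine Finset.sum_congr rfl fun j _ => ?_
  field_simp

end Pool.Agent.Work.MP_7da6af_nt
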