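import Pool.Agent.Work.MP_7da6af_nt.AnomDefs
import Pool.Agent.Work.MP_7da6af_nt.Gen.Defs

/-! # The surface and its parametrisation -/

set_option autoImplicit false

namespace Pool.Agent.Work.MP_7da6af_nt.Anom

open Pool.Agent.Work.MP_7da6af_nt Gen
open Polynomial (eval₂)

section

variable {k : Type} [Field k]

/-- the surface: the points `(x, z, F(y))` of the torus with `u(y) x + v(y) z = w(y)` -/
def surf (φ : k →+* Om) (F : Fin 3 → RatFunc k) (u v w : Polynomial k) : Set Tor :=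
  {q | ∃ y : Om, Reg F φ y ∧ (∀ l : Fin 3, q.co (Fin.natAdd 2 l) = Gen.cu F φ y l) ∧
    ev φ y u * q.co 0 + ev φ y v * q.co 1 = ev φ y w}

/-- the data of a parametrisation -/
structure Par (k : Type) [Field k] where
  φ : k →+* Om
  F : Fin 3 → RatFunc k
  u : Polynomial k
  v : Polynomial k
  w : Polynomial k
  hu : u ≠ 0
  hv : v ≠ 0
  hcop : ∃ α β γ : Polynomial k, α * u + β * v + γ * w = 1
  d : Polynomial k
  u' : Polynomial k
  v' : Polynomial k
  al : Polynomial k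
  be : Polynomial k
  hdu : u = d * u'
  hdv : v = d * v'
  hbez : al * u' + be * v' = 1

theorem ev_mul {K : Type} [Field K] (φ : k →+* K) (y : K) (P Q : Polynomial k) :
    ev φ y (P * Q) = ev φ y P * ev φ y Q := Polynomial.eval₂_mul _ _

theorem ev_add {K : Type} [Field K] (φ : k →+* K) (y : K) (P Q : Polynomial k) :
    ev φ y (P + Q) = ev φ y P + ev φ y Q := Polynomial.eval₂_add _ _

theorem ev_one {K : Type} [Field K] (φ : k →+* K) (y : K) :
    ev φ y (1 : Polynomial k) = 1 := Polynomial.eval₂_one _ _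

variable (D : Par k)

/-- the surface of the data -/
def Par.V : Set Tor := surf D.φ D.F D.u D.v D.w

/-- `q` has the parameters `t`, `y` -/
structure Over (q : Tor) (t y : Om) : Prop where
  reg : Reg D.F D.φ y
  hd : ev D.φ y D.d ≠ 0
  co2 : ∀ l : Fin 3, q.co (Fin.natAdd 2 l) = Gen.cu D.F D.φ y l
  co0 : ev D.φ y D.d * q.co 0 = ev D.φ y D.al * ev D.φ y D.w + ev D.φ y D.v' * t
  co1 : ev D.φ y D.d * q.co 1 = ev D.φ y D.be * ev D.φ y D.w - ev D.φ y D.u' * t

variable {D}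

theorem bez (y : Om) : ev D.φ y D.al * ev D.φ y D.u' + ev D.φ y D.be * ev D.φ y D.v' = 1 := by
  rw [← ev_mul, ← ev_mul, ← ev_add, D.hbez, ev_one]

theorem evu (y : Om) : ev D.φ y D.u = ev D.φ y D.d * ev D.φ y D.u' := by
  rw [← ev_mul, ← D.hdu]

theorem evv (y : Om) : ev D.φ y D.v = ev D.φ y D.d * ev D.φ y D.v' := by
  rw [← ev_mul, ← D.hdv]

theorem Over.mem {q : Tor} {t y : Om} (h : Over D q t y) :
    Reg D.F D.φ y ∧ (∀ l : Fin 3, q.co (Fin.natAdd 2 l) = Gen.cu D.F D.φ y l) ∧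
    ev D.φ y D.u * q.co 0 + ev D.φ y D.v * q.co 1 = ev D.φ y D.w := by
  refine ⟨h.reg, h.co2, ?_⟩
  have h1 := h.co0
  have h2 := h.co1
  have h3 := bez (D := D) y
  rw [evu, evv]
  linear_combination (ev D.φ y D.u') * h1 + (ev D.φ y D.v') * h2 + (ev D.φ y D.w) * h3

theorem exists_over {q : Tor} {y : Om} (hr : Reg D.F D.φ y)
    (h2 : ∀ l : Fin 3, q.co (Fin.natAdd 2 l) = Gen.cu D.F D.φ y l)
    (he : ev D.φ y D.u * q.co 0 + ev D.φ y D.v * q.co 1 = ev D.φ y D.w) :
    ∃ t, Over D q t y := by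
  have hd : ev D.φ y D.d ≠ 0 := by
    intro h0
    obtain ⟨α, β, γ, h⟩ := D.hcop
    have h1 := congrArg (ev D.φ y) h
    rw [ev_add, ev_add, ev_mul, ev_mul, ev_mul, ev_one, evu, evv, h0] at h1
    rw [evu, evv, h0] at he
    have hw : ev D.φ y D.w = 0 := by rw [← he]; ring
    rw [hw] at h1
    simp at h1
  have h3 := bez (D := D) y
  rw [evu, evv] at he
  refine ⟨ev D.φ y D.d * (ev D.φ y D.be * q.co 0 - ev D.φ y D.al * q.co 1), hr, hd, h2, ?_, ?_⟩
  · linear_combination (ev D.φ y D.al) * he - (ev D.φ y D.d * q.co 0) * h3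
  · linear_combination (ev D.φ y D.be) * he - (ev D.φ y D.d * q.co 1) * h3

theorem mem_V_iff (q : Tor) : q ∈ D.V ↔ ∃ t y, Over D q t y := by
  constructor
  · rintro ⟨y, hr, h2, he⟩
    obtain ⟨t, ht⟩ := exists_over hr h2 he
    exact ⟨t, y, ht⟩
  · rintro ⟨t, y, h⟩
    exact ⟨y, h.mem⟩

/-- values of polynomials in two variables -/
noncomputable def e2 (t y : Om) (G : MvPolynomial (Fin 2) Om) : Om := MvPolynomial.eval ![t, y] G

theorem e2_mul (t y : Om) (G H : MvPolynomial (Fin 2) Om) :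
    e2 t y (G * H) = e2 t y G * e2 t y H := map_mul _ _ _

theorem e2_add (t y : Om) (G H : MvPolynomial (Fin 2) Om) :
    e2 t y (G + H) = e2 t y G + e2 t y H := map_add _ _ _

theorem e2_sub (t y : Om) (G H : MvPolynomial (Fin 2) Om) :
    e2 t y (G - H) = e2 t y G - e2 t y H := map_sub _ _ _

theorem e2_pow (t y : Om) (G : MvPolynomial (Fin 2) Om) (n : ℕ) :
    e2 t y (G ^ n) = e2 t y G ^ n := map_pow _ _ _

theorem e2_X0 (t y : Om) : e2 t y (MvPolynomial.X 0) = t := by simp [e2]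

theorem e2_X1 (t y : Om) : e2 t y (MvPolynomial.X 1) = y := by simp [e2]

theorem e2_C (t y a : Om) : e2 t y (MvPolynomial.C a) = a := by simp [e2]

theorem e2_prod {ι : Type} (s : Finset ι) (t y : Om) (G : ι → MvPolynomial (Fin 2) Om) :
    e2 t y (∏ i ∈ s, G i) = ∏ i ∈ s, e2 t y (G i) := map_prod _ _ _

/-- a polynomial in `y` -/
noncomputable def py (φ : k →+* Om) (P : Polynomial k) : MvPolynomial (Fin 2) Om :=
  P.eval₂ ((MvPolynomial.C : Om →+* MvPolynomial (Fin 2) Om).comp φ) (MvPolynomial.X 1)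

theorem e2_py (φ : k →+* Om) (P : Polynomial k) (t y : Om) : e2 t y (py φ P) = ev φ y P := by
  unfold e2 py ev
  rw [Polynomial.hom_eval₂]
  congr 1
  · ext a
    simp
  · simp

variable (D)

/-- the common denominator -/
noncomputable def den : MvPolynomial (Fin 2) Om := py D.φ D.d * ∏ l, py D.φ (D.F l).denom

/-- the numerators of the first two coordinates -/
noncomputable def n0 : MvPolynomial (Fin 2) Om :=
  py D.φ D.al * py D.φ D.w + py D.φ D.v' * MvPolynomial.X 0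

noncomputable def n1 : MvPolynomial (Fin 2) Om :=
  py D.φ D.be * py D.φ D.w - py D.φ D.u' * MvPolynomial.X 0

/-- the polynomial which vanishes at the parameters without a point -/
noncomputable def bad : MvPolynomial (Fin 2) Om :=
  den D * (∏ l, py D.φ (D.F l).num) * n0 D * n1 D

variable {D}

theorem e2_n0 (t y : Om) : e2 t y (n0 D) =
    ev D.φ y D.al * ev D.φ y D.w + ev D.φ y D.v' * t := by
  unfold n0
  rw [e2_add, e2_mul, e2_mul, e2_py, e2_py, e2_py, e2_X0]

theorem e2_n1 (t y : Om) : e2 t y (n1 D) =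
    ev D.φ y D.be * ev D.φ y D.w - ev D.φ y D.u' * t := by
  unfold n1
  rw [e2_sub, e2_mul, e2_mul, e2_py, e2_py, e2_py, e2_X0]

theorem e2_den (t y : Om) : e2 t y (den D) =
    ev D.φ y D.d * ∏ l, ev D.φ y (D.F l).denom := by
  unfold den
  rw [e2_mul, e2_prod, e2_py]
  simp only [e2_py]

theorem Over.den_ne {q : Tor} {t y : Om} (h : Over D q t y) : e2 t y (den D) ≠ 0 := by
  rw [e2_den]
  exact mul_ne_zero h.hd (Finset.prod_ne_zero_iff.mpr fun l _ => (h.reg l).2)

theorem co_ne (q : Tor) (i : Fin 5) : q.co i ≠ 0 := Units.ne_zero _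

theorem bad_ne_iff (t y : Om) : e2 t y (bad D) ≠ 0 ↔ ∃ q, Over D q t y := by
  constructor
  · intro h
    unfold bad at h
    rw [e2_mul, e2_mul, e2_mul, e2_den, e2_prod, e2_n0, e2_n1] at h
    simp only [e2_py] at h
    obtain ⟨⟨⟨⟨hd, hden⟩, hnum⟩, h0⟩, h1⟩ := by
      simpa only [mul_ne_zero_iff] using h
    rw [Finset.prod_ne_zero_iff] at hden hnum
    have hreg : Reg D.F D.φ y := fun l => ⟨hnum l (Finset.mem_univ _), hden l (Finset.mem_univ _)⟩
    let c : Fin 5 → Om := Fin.append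
      (![(ev D.φ y D.al * ev D.φ y D.w + ev D.φ y D.v' * t) / ev D.φ y D.d,
        (ev D.φ y D.be * ev D.φ y D.w - ev D.φ y D.u' * t) / ev D.φ y D.d] : Fin 2 → Om)
      (Gen.cu D.F D.φ y : Fin 3 → Om)
    have hc : ∀ i, c i ≠ 0 := by
      intro i
      refine Fin.addCases (m := 2) (n := 3) (fun j => ?_) (fun j => ?_) i
      · simp only [c, Fin.append_left]
        fin_cases j
        · exact div_ne_zero h0 hd
        · exact div_ne_zero h1 hd
      · simp only [c, Fin.append_right]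
        exact div_ne_zero (hreg j).1 (hreg j).2
    refine ⟨(fun i => Units.mk0 (c i) (hc i) : Fin 5 → Omˣ), hreg, hd, fun l => ?_, ?_, ?_⟩
    · show c (Fin.natAdd 2 l) = _
      simp only [c, Fin.append_right]
    · show ev D.φ y D.d * c 0 = _
      have : c 0 = (ev D.φ y D.al * ev D.φ y D.w + ev D.φ y D.v' * t) / ev D.φ y D.d := rfl
      rw [this, mul_div_cancel₀ _ hd]
    · show ev D.φ y D.d * c 1 = _
      have : c 1 = (ev D.φ y D.be * ev D.φ y D.w - ev D.φ y D.u' * t) / ev D.φ y D.d := rfl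
      rw [this, mul_div_cancel₀ _ hd]
  · rintro ⟨q, h⟩
    unfold bad
    rw [e2_mul, e2_mul, e2_mul, e2_prod]
    refine mul_ne_zero (mul_ne_zero (mul_ne_zero h.den_ne ?_) ?_) ?_
    · rw [Finset.prod_ne_zero_iff]
      intro l _
      rw [e2_py]
      exact (h.reg l).1
    · rw [e2_n0, ← h.co0]
      exact mul_ne_zero h.hd (co_ne q 0)
    · rw [e2_n1, ← h.co1]
      exact mul_ne_zero h.hd (co_ne q 1)

/-- each coordinate is a fraction with the common denominator -/
theorem exists_num (i : Fin 5) : ∃ N : MvPolynomial (Fin 2) Om, ∀ (q : Tor) (t y : Om),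
    Over D q t y → q.co i * e2 t y (den D) = e2 t y N := by
  refine Fin.addCases (m := 2) (n := 3) (fun j => ?_) (fun j => ?_) i
  · fin_cases j
    · refine ⟨n0 D * ∏ l, py D.φ (D.F l).denom, fun q t y h => ?_⟩
      rw [e2_mul, e2_n0, ← h.co0, e2_den, e2_prod]
      simp only [e2_py]
      show q.co 0 * _ = _
      ring
    · refine ⟨n1 D * ∏ l, py D.φ (D.F l).denom, fun q t y h => ?_⟩
      rw [e2_mul, e2_n1, ← h.co1, e2_den, e2_prod]
      simp only [e2_py]
      show q.co 1 * _ = _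
      ring
  · obtain ⟨c, hc⟩ := Finset.dvd_prod_of_mem (fun l => py D.φ (D.F l).denom) (Finset.mem_univ j)
    refine ⟨py D.φ (D.F j).num * (py D.φ D.d * c), fun q t y h => ?_⟩
    rw [e2_mul, e2_mul, e2_py, e2_py]
    unfold den
    rw [hc, e2_mul, e2_mul, e2_py, e2_py, h.co2]
    unfold Gen.cu
    have := (h.reg j).2
    field_simp

/-- polynomials in the coordinates are fractions in the parameters -/
theorem exists_frac (f : MvPolynomial (Fin 5) Om) : ∃ (G : MvPolynomial (Fin 2) Om) (m : ℕ),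
    ∀ (q : Tor) (t y : Om), Over D q t y →
      MvPolynomial.eval q.co f * e2 t y (den D) ^ m = e2 t y G := by
  induction f using MvPolynomial.induction_on with
  | C a => exact ⟨MvPolynomial.C a, 0, fun q t y _ => by simp [e2_C]⟩
  | add p q hp hq =>
    obtain ⟨G, m, h1⟩ := hp
    obtain ⟨H, n, h2⟩ := hq
    refine ⟨G * den D ^ n + H * den D ^ m, m + n, fun q t y h => ?_⟩
    rw [map_add, e2_add, e2_mul, e2_mul, e2_pow, e2_pow, ← h1 q t y h, ← h2 q t y h]
    ring
  | mul_X p i hp =>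
    obtain ⟨G, m, h1⟩ := hp
    obtain ⟨N, h2⟩ := exists_num (D := D) i
    refine ⟨G * N, m + 1, fun q t y h => ?_⟩
    rw [map_mul, MvPolynomial.eval_X, e2_mul, ← h1 q t y h, ← h2 q t y h]
    ring

/-- sets of parameters on which nonzero polynomials have common nonzeros -/
def Good (S : Set (Om × Om)) : Prop := ∀ G H : MvPolynomial (Fin 2) Om,
  (∃ s ∈ S, e2 s.1 s.2 G ≠ 0) → (∃ s ∈ S, e2 s.1 s.2 H ≠ 0) →
    ∃ s ∈ S, e2 s.1 s.2 G ≠ 0 ∧ e2 s.1 s.2 H ≠ 0

theorem exists_nonzero (G : MvPolynomial (Fin 2) Om) (hG : G ≠ 0) : ∃ t y, e2 t y G ≠ 0 := by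
  by_contra hcon
  push Not at hcon
  apply hG
  apply MvPolynomial.funext
  intro x
  have h1 : x = ![x 0, x 1] := by
    funext i
    fin_cases i <;> rfl
  rw [h1, map_zero]
  exact hcon _ _

theorem good_univ : Good Set.univ := by
  rintro G H ⟨s, _, hs⟩ ⟨s', _, hs'⟩
  have hG : G ≠ 0 := fun h => hs (by rw [h]; exact map_zero _)
  have hH : H ≠ 0 := fun h => hs' (by rw [h]; exact map_zero _)
  obtain ⟨t, y, h⟩ := exists_nonzero (G * H) (mul_ne_zero hG hH)
  rw [e2_mul] at h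
  exact ⟨(t, y), Set.mem_univ _, left_ne_zero_of_mul h, right_ne_zero_of_mul h⟩

/-- restriction to a line -/
noncomputable def ln (y : Om) (G : MvPolynomial (Fin 2) Om) : Polynomial Om :=
  MvPolynomial.eval₂ Polynomial.C ![Polynomial.X, Polynomial.C y] G

theorem eval_ln (t y : Om) (G : MvPolynomial (Fin 2) Om) : (ln y G).eval t = e2 t y G := by
  unfold ln e2
  rw [← Polynomial.coe_evalRingHom, MvPolynomial.hom_eval₂]
  rw [MvPolynomial.eval]
  congr 1
  · ext a
    simp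
  · funext i
    fin_cases i <;> simp

theorem good_line (y : Om) : Good {s | s.2 = y} := by
  rintro G H ⟨s, hs1, hs⟩ ⟨s', hs1', hs'⟩
  have e1 : s.2 = y := hs1
  have e2' : s'.2 = y := hs1'
  rw [e1, ← eval_ln] at hs
  rw [e2', ← eval_ln] at hs'
  have hG : ln y G ≠ 0 := fun h => hs (by rw [h]; simp)
  have hH : ln y H ≠ 0 := fun h => hs' (by rw [h]; simp)
  obtain ⟨t, ht⟩ : ∃ t, (ln y G * ln y H).eval t ≠ 0 := by
    by_contra hcon
    push Not at hcon
    exact mul_ne_zero hG hH (Polynomial.funext fun t => by rw [hcon t, Polynomial.eval_zero])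
  rw [Polynomial.eval_mul] at ht
  refine ⟨(t, y), rfl, ?_, ?_⟩
  · rw [← eval_ln]
    exact left_ne_zero_of_mul ht
  · rw [← eval_ln]
    exact right_ne_zero_of_mul ht

/-- the part of the surface over a set of parameters is irreducible -/
theorem irr (S : Set (Om × Om)) (hS : Good S) (hne : ∃ q, ∃ s ∈ S, Over D q s.1 s.2) :
    IsIrreducible {q : Tor | ∃ s ∈ S, Over D q s.1 s.2} := by
  refine ⟨hne, ?_⟩
  rw [isPreirreducible_iff_isClosed_union_isClosed]
  intro A B hA hB hAB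
  by_contra hcon
  push Not at hcon
  obtain ⟨h1, h2⟩ := hcon
  obtain ⟨I, rfl⟩ := (isClosed_iff A).mp hA
  obtain ⟨J, rfl⟩ := (isClosed_iff B).mp hB
  rw [Set.not_subset] at h1 h2
  obtain ⟨q1, ⟨s1, hs1, o1⟩, hq1⟩ := h1
  obtain ⟨q2, ⟨s2, hs2, o2⟩, hq2⟩ := h2
  simp only [zLoc, Set.mem_ofPred_eq, not_forall] at hq1 hq2
  obtain ⟨f, hf, hfq⟩ := hq1
  obtain ⟨g, hg, hgq⟩ := hq2
  obtain ⟨G, m, hG⟩ := exists_frac (D := D) f
  obtain ⟨H, n, hH⟩ := exists_frac (D := D) g
  have g1 : e2 s1.1 s1.2 G ≠ 0 := by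
    rw [← hG q1 _ _ o1]
    exact mul_ne_zero hfq (pow_ne_zero _ o1.den_ne)
  have g2 : e2 s2.1 s2.2 H ≠ 0 := by
    rw [← hH q2 _ _ o2]
    exact mul_ne_zero hgq (pow_ne_zero _ o2.den_ne)
  obtain ⟨s3, hs3, h31, h32⟩ := hS G H ⟨s1, hs1, g1⟩ ⟨s2, hs2, g2⟩
  obtain ⟨s4, hs4, h41, h42⟩ := hS (G * H) (bad D) ⟨s3, hs3, by
    rw [e2_mul]; exact mul_ne_zero h31 h32⟩ ⟨s1, hs1, (bad_ne_iff _ _).mpr ⟨q1, o1⟩⟩
  obtain ⟨q, hq⟩ := (bad_ne_iff _ _).mp h42
  rw [e2_mul] at h41
  have hfq' : MvPolynomial.eval q.co f ≠ 0 := by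
    intro h0
    have := hG q _ _ hq
    rw [h0, zero_mul] at this
    exact left_ne_zero_of_mul h41 this.symm
  have hgq' : MvPolynomial.eval q.co g ≠ 0 := by
    intro h0
    have := hH q _ _ hq
    rw [h0, zero_mul] at this
    exact right_ne_zero_of_mul h41 this.symm
  rcases hAB ⟨s4, hs4, hq⟩ with h | h
  · exact hfq' (h f hf)
  · exact hgq' (h g hg)

end

end Pool.Agent.Work.MP_7da6af_nt.Anom
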