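import Pool.Agent.Work.MP_7da6af_nt.Places

/-! # Archimedean part of a sum, integer polynomials -/

set_option autoImplicit false

namespace Pool.Agent.Work.MP_7da6af_nt

open NumberField Polynomial

/-- a nonnegative function: the archimedean part is at most the whole sum -/
theorem arch_le {K : Type} [Field K] [NumberField K] {F : Pl K → ℝ} (hF : FS F)
    (h0 : ∀ p, 0 ≤ F p) : ∑ v : InfinitePlace K, (v.mult : ℝ) * F (Sum.inl v) ≤ plSum K F := by
  rw [plSum_eq hF]
  exact le_add_of_nonneg_right (finsum_nonneg fun v => h0 _)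

theorem fs_max' {K : Type} [Field K] [NumberField K] (x : K) :
    FS fun p : Pl K => max 0 (lg p x) := by
  by_cases hx : x = 0
  · refine fs_zero.of_imp fun p _ => ?_
    rw [hx]
    unfold lg
    rw [map_zero, Real.log_zero, max_self]
  · exact fs_max hx

/-- integer polynomials at the finite places -/
theorem int_poly_le {K : Type} [Field K] [NumberField K] (w : FinitePlace K) (y : K) (Q : ℤ[X]) :
    w (aeval y Q) ≤ (max 1 (w y)) ^ Q.natDegree := by
  have hna : IsNonarchimedean (w ·) := FinitePlace.add_le w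
  rw [aeval_eq_sum_range]
  obtain ⟨i, hi, h1⟩ : ∃ i ∈ Finset.range (Q.natDegree + 1),
      w (∑ i ∈ Finset.range (Q.natDegree + 1), Q.coeff i • y ^ i) ≤ w (Q.coeff i • y ^ i) := by
    have h2 := hna.apply_sum_le_sup (s := Finset.range (Q.natDegree + 1))
      (l := fun i => Q.coeff i • y ^ i) ⟨0, by simp⟩
    rw [Finset.le_sup'_iff] at h2
    exact h2
  refine h1.trans ?_
  rw [zsmul_eq_mul, map_mul, map_pow]
  have h3 : w ((Q.coeff i : ℤ) : K) ≤ 1 := IsNonarchimedean.apply_intCast_le_one hna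
  have h4 : (0 : ℝ) ≤ w y := apply_nonneg _ _
  have h5 : w y ^ i ≤ (max 1 (w y)) ^ Q.natDegree :=
    (pow_le_pow_left₀ h4 (le_max_right _ _) i).trans
      (pow_le_pow_right₀ (le_max_left _ _) (by simpa [Nat.lt_succ_iff] using hi))
  calc w ((Q.coeff i : ℤ) : K) * w y ^ i ≤ 1 * (max 1 (w y)) ^ Q.natDegree :=
        mul_le_mul h3 h5 (pow_nonneg h4 _) zero_le_one
    _ = _ := one_mul _

theorem int_poly_lg {K : Type} [Field K] [NumberField K] (w : FinitePlace K) (y : K) (Q : ℤ[X])
    (hQ : aeval y Q ≠ 0) :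
    lg (Sum.inr w) (aeval y Q) ≤ Q.natDegree * max 0 (lg (Sum.inr w) y) := by
  have h1 := int_poly_le w y Q
  have h2 : 0 < w (aeval y Q) := FinitePlace.pos_iff.mpr hQ
  have h3 := Real.log_le_log h2 h1
  rw [Real.log_pow] at h3
  have h4 : Real.log (max 1 (w y)) = max 0 (lg (Sum.inr w) y) := by
    show _ = max 0 (Real.log (w y))
    rcases le_total (w y) 1 with h | h
    · rw [max_eq_left h, Real.log_one, max_eq_left]
      exact Real.log_nonpos (apply_nonneg _ _) h
    · rw [max_eq_right h, max_eq_right (Real.log_nonneg h)]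
  rw [h4] at h3
  exact h3

theorem emb_aevalQ {K : Type} [Field K] [NumberField K] (φ : K →+* ℂ) (y : K) (P : ℚ[X]) :
    aeval (φ y) P = φ (aeval y P) := by
  rw [aeval_def, aeval_def, hom_eval₂]
  have : φ.comp (algebraMap ℚ K) = algebraMap ℚ ℂ := Subsingleton.elim _ _
  rw [this]

theorem emb_aevalZ {K : Type} [Field K] [NumberField K] (φ : K →+* ℂ) (y : K) (P : ℤ[X]) :
    aeval (φ y) P = φ (aeval y P) := by
  rw [aeval_def, aeval_def, hom_eval₂]
  have : φ.comp (algebraMap ℤ K) = algebraMap ℤ ℂ := Subsingleton.elim _ _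
  rw [this]

/-- lower bound from the product formula -/
theorem arch_lower {K : Type} [Field K] [NumberField K] (y : K) (Q : ℤ[X])
    (hQ : aeval y Q ≠ 0) :
    -(Q.natDegree * hh y) ≤
      ∑ v : InfinitePlace K, (v.mult : ℝ) * lg (Sum.inl v) (aeval y Q) := by
  classical
  let A : Pl K → ℝ := fun p => ar p * lg p (aeval y Q)
  have hA : FS A := fs_ar.of_imp fun p hp => by
    show ar p * lg p (aeval y Q) = 0
    rw [hp, zero_mul]
  have h1 : plSum K A = ∑ v : InfinitePlace K, (v.mult : ℝ) * lg (Sum.inl v) (aeval y Q) := by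
    rw [plSum_eq hA]
    simp [A, ar]
  have h2 : plSum K (fun p => lg p (aeval y Q)) ≤
      plSum K (fun p => A p + Q.natDegree * max 0 (lg p y)) := by
    refine plSum_mono (fs_lg hQ) (hA.add ((fs_max' y).smul _)) ?_
    rintro (v | w)
    · have : (0 : ℝ) ≤ Q.natDegree * max 0 (lg (Sum.inl v) y) :=
        mul_nonneg (Nat.cast_nonneg _) (le_max_left _ _)
      simp only [A, ar, one_mul]
      linarith
    · simp only [A, ar, zero_mul, zero_add]
      exact int_poly_lg w y Q hQ
  rw [plSum_lg hQ, plSum_add hA ((fs_max' y).smul _), plSum_smul, h1] at h2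
  unfold hh
  linarith

end Pool.Agent.Work.MP_7da6af_nt
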