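import Pool.Agent.Work.MP_7da6af_nt.Poly

/-! # Bounded height on the curve: one relation -/

set_option autoImplicit false

namespace Pool.Agent.Work.MP_7da6af_nt

open NumberField Polynomial

theorem c2_hh_zero {K : Type} [Field K] [NumberField K] : hh (0 : K) = 0 := by
  unfold hh lg plSum
  simp

theorem c2_aeval_X_sub_C' {K : Type} [Field K] [NumberField K] (y : K) (b : ℚ) :
    aeval y (X - C b : ℚ[X]) = y - algebraMap ℚ K b := by
  simp

/-- height of `y` from the height of the value of a nonconstant polynomial -/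
theorem c2_hh_low (g : ℚ[X]) (hg : 0 < g.natDegree) : ∃ C : ℝ, 0 ≤ C ∧
    ∀ (K : Type) [Field K] [NumberField K] (y : K), aeval y g ≠ 0 →
      hh y ≤ C * dg K + hh (aeval y g) := by
  obtain ⟨C, S, hC, h⟩ := poly_low g hg
  obtain ⟨B, hB, hS⟩ := plSum_cst S
  refine ⟨C * B, mul_nonneg hC hB, fun K _ _ y hy => ?_⟩
  rcases eq_or_ne y 0 with h0 | h0
  · rw [h0, c2_hh_zero]
    have h1 : 0 ≤ C * B * dg K := mul_nonneg (mul_nonneg hC hB) dg_pos.le
    have h2 := hh_nonneg (aeval (0 : K) g)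
    linarith
  · have h1 : hh y ≤ plSum K (fun p => C * cst S p + max 0 (lg p (aeval y g))) :=
      plSum_mono (fs_max h0) (((fs_cst S).smul C).add (fs_max hy)) fun p => h K y p hy
    rw [plSum_add ((fs_cst S).smul C) (fs_max hy), plSum_smul] at h1
    have h2 := mul_le_mul_of_nonneg_left (hS K) hC
    have h3 : plSum K (fun p => max 0 (lg p (aeval y g))) = hh (aeval y g) := rfl
    rw [h3] at h1
    linarith

/-- height of `y - a` from the height of `y` -/
theorem c2_hh_sub_up (a : ℚ) : ∃ C : ℝ, 0 ≤ C ∧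
    ∀ (K : Type) [Field K] [NumberField K] (y : K), y ≠ 0 → y - algebraMap ℚ K a ≠ 0 →
      hh (y - algebraMap ℚ K a) ≤ C * dg K + hh y := by
  obtain ⟨C, S, hC, h⟩ := sub_up a
  obtain ⟨B, hB, hS⟩ := plSum_cst S
  refine ⟨C * B, mul_nonneg hC hB, fun K _ _ y h0 hy => ?_⟩
  have h1 : hh (y - algebraMap ℚ K a) ≤ plSum K (fun p => C * cst S p + max 0 (lg p y)) :=
    plSum_mono (fs_max hy) (((fs_cst S).smul C).add (fs_max h0)) fun p => h K y p
  rw [plSum_add ((fs_cst S).smul C) (fs_max h0), plSum_smul] at h1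
  have h2 := mul_le_mul_of_nonneg_left (hS K) hC
  have h3 : plSum K (fun p => max 0 (lg p y)) = hh y := rfl
  rw [h3] at h1
  linarith

/-- the case in which the coefficient of `y - a` dominates -/
theorem c2_near_height (a b : ℚ) (hab : a ≠ b) (g : ℚ[X]) (hga : g.eval a ≠ 0) :
    ∃ B : ℝ, 0 ≤ B ∧ ∀ (K : Type) [Field K] [NumberField K] (y : K),
      y - algebraMap ℚ K a ≠ 0 → y - algebraMap ℚ K b ≠ 0 → aeval y g ≠ 0 →
      (∀ p : Pl K, |lg p (y - algebraMap ℚ K a)| ≤
        |lg p (y - algebraMap ℚ K b)| + 8 * |lg p (aeval y g)|) → hh y ≤ B * dg K := by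
  obtain ⟨C1, S1, hC1, h1⟩ := poly_near a g hga
  obtain ⟨C2, S2, hC2, h2⟩ := poly_near a (X - C b) (by
    simpa [sub_eq_zero] using hab)
  obtain ⟨B1, hB1, hS1⟩ := plSum_cst S1
  obtain ⟨B2, hB2, hS2⟩ := plSum_cst S2
  obtain ⟨C3, hC3, h3⟩ := c2_hh_low (X - C a : ℚ[X]) (by
    rw [natDegree_X_sub_C]; exact one_pos)
  refine ⟨C3 + (C2 * B2 + 8 * C1 * B1), by positivity, fun K _ _ y hya hyb hyg hp => ?_⟩
  have hya' : y ≠ algebraMap ℚ K a := sub_ne_zero.mp hya
  have h4 : ∀ p : Pl K, max 0 (- lg p (y - algebraMap ℚ K a)) ≤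
      C2 * cst S2 p + 8 * C1 * cst S1 p := by
    intro p
    have e1 : 0 ≤ C1 * cst S1 p := mul_nonneg hC1 (cst_nonneg S1 p)
    have e2 : 0 ≤ C2 * cst S2 p := mul_nonneg hC2 (cst_nonneg S2 p)
    refine max_le (by linarith) ?_
    rcases h1 K y p hya' hyg with h5 | h5
    · linarith
    · rcases h2 K y p hya' (by rw [c2_aeval_X_sub_C']; exact hyb) with h6 | h6
      · linarith
      · rw [c2_aeval_X_sub_C'] at h6
        have h7 := hp p
        have h8 := neg_abs_le (lg p (y - algebraMap ℚ K a))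
        linarith
  have h5 : hh (y - algebraMap ℚ K a) ≤ plSum K (fun p => C2 * cst S2 p + 8 * C1 * cst S1 p) := by
    rw [← plSum_neg hya]
    exact plSum_mono ((fs_lg hya).of_imp fun p hp => by rw [hp, neg_zero, max_self])
      (((fs_cst S2).smul C2).add ((fs_cst S1).smul (8 * C1))) h4
  rw [plSum_add ((fs_cst S2).smul C2) ((fs_cst S1).smul (8 * C1)), plSum_smul, plSum_smul] at h5
  have h6 := h3 K y (by rw [c2_aeval_X_sub_C']; exact hya)
  rw [c2_aeval_X_sub_C'] at h6
  have h7 := mul_le_mul_of_nonneg_left (hS1 K) (by positivity : 0 ≤ 8 * C1)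
  have h8 := mul_le_mul_of_nonneg_left (hS2 K) hC2
  linarith

/-- the case in which the coefficient of `g(y)` dominates -/
theorem c2_far_height (a b : ℚ) (g : ℚ[X]) (hg : 0 < g.natDegree) :
    ∃ B : ℝ, 0 ≤ B ∧ ∀ (K : Type) [Field K] [NumberField K] (y : K),
      y - algebraMap ℚ K a ≠ 0 → y - algebraMap ℚ K b ≠ 0 → aeval y g ≠ 0 →
      (∀ p : Pl K, 8 * |lg p (aeval y g)| ≤
        |lg p (y - algebraMap ℚ K a)| + |lg p (y - algebraMap ℚ K b)|) → hh y ≤ B * dg K := by
  obtain ⟨C1, hC1, h1⟩ := c2_hh_low g hg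
  obtain ⟨C2, hC2, h2⟩ := c2_hh_sub_up a
  obtain ⟨C3, hC3, h3⟩ := c2_hh_sub_up b
  refine ⟨2 * (C1 + C2 + C3), by positivity, fun K _ _ y hya hyb hyg hp => ?_⟩
  have hd : 0 < dg K := dg_pos
  rcases eq_or_ne y 0 with h0 | h0
  · rw [h0, c2_hh_zero]
    positivity
  · have h4 : plSum K (fun p => 8 * |lg p (aeval y g)|) ≤
        plSum K (fun p => |lg p (y - algebraMap ℚ K a)| + |lg p (y - algebraMap ℚ K b)|) :=
      plSum_mono ((fs_abs hyg).smul 8) ((fs_abs hya).add (fs_abs hyb)) hp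
    rw [plSum_smul, plSum_add (fs_abs hya) (fs_abs hyb), plSum_abs hyg, plSum_abs hya,
      plSum_abs hyb] at h4
    have h5 := h1 K y hyg
    have h6 := h2 K y h0 hya
    have h7 := h3 K y h0 hyb
    have h8 : 0 ≤ C1 * dg K := mul_nonneg hC1 hd.le
    have h9 : 0 ≤ C2 * dg K := mul_nonneg hC2 hd.le
    have h10 : 0 ≤ C3 * dg K := mul_nonneg hC3 hd.le
    have h11 := hh_nonneg y
    nlinarith

/-- dividing by the largest coefficient -/
theorem c2_rel_abs {k0 k1 k2 l0 l1 l2 m : ℝ} (h0 : k0 ≠ 0) (h1 : |k1| ≤ |k0|)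
    (h2 : |k2| ≤ m * |k0|) (h : k0 * l0 + k1 * l1 + k2 * l2 = 0) :
    |l0| ≤ |l1| + m * |l2| := by
  have h3 : 0 < |k0| := abs_pos.mpr h0
  have h4 : |k0| * |l0| ≤ |k1| * |l1| + |k2| * |l2| := by
    have h5 : k0 * l0 = -(k1 * l1 + k2 * l2) := by linarith
    rw [← abs_mul, h5, abs_neg, ← abs_mul, ← abs_mul]
    exact abs_add_le _ _
  have h5 : |k1| * |l1| ≤ |k0| * |l1| := mul_le_mul_of_nonneg_right h1 (abs_nonneg _)
  have h6 : |k2| * |l2| ≤ m * |k0| * |l2| := mul_le_mul_of_nonneg_right h2 (abs_nonneg _)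
  have h7 : |k0| * |l0| ≤ |k0| * (|l1| + m * |l2|) := by
    calc |k0| * |l0| ≤ |k0| * |l1| + m * |k0| * |l2| := by linarith
      _ = |k0| * (|l1| + m * |l2|) := by ring
  exact le_of_mul_le_mul_left h7 h3

/-- If `(y - a, y - b, g(y))` satisfies one nontrivial real relation at all places, then the height
of `y` is bounded. -/
theorem c2height (D : Dat) : ∃ B : ℝ, 0 ≤ B ∧
    ∀ (K : Type) [Field K] [NumberField K] (y : K), (∀ j, cu D.a D.b D.g y j ≠ 0) →
      ∀ k : Fin 3 → ℝ, k ≠ 0 → (∀ p : Pl K, ∑ j, k j * lg p (cu D.a D.b D.g y j) = 0) →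
      hh y ≤ B * dg K := by
  obtain ⟨B1, hB1, h1⟩ := c2_near_height D.a D.b D.hab D.g D.hga
  obtain ⟨B2, hB2, h2⟩ := c2_near_height D.b D.a D.hab.symm D.g D.hgb
  obtain ⟨B3, hB3, h3⟩ := c2_far_height D.a D.b D.g D.hg
  refine ⟨B1 + B2 + B3, by positivity, fun K _ _ y hcu k hk hrel => ?_⟩
  have hd : 0 < dg K := dg_pos
  have hya : y - algebraMap ℚ K D.a ≠ 0 := hcu 0
  have hyb : y - algebraMap ℚ K D.b ≠ 0 := hcu 1
  have hyg : aeval y D.g ≠ 0 := hcu 2
  have hrel' : ∀ p : Pl K, k 0 * lg p (y - algebraMap ℚ K D.a) +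
      k 1 * lg p (y - algebraMap ℚ K D.b) + k 2 * lg p (aeval y D.g) = 0 := by
    intro p
    have h := hrel p
    rw [Fin.sum_univ_three] at h
    exact h
  have e1 : 0 ≤ B1 * dg K := mul_nonneg hB1 hd.le
  have e2 : 0 ≤ B2 * dg K := mul_nonneg hB2 hd.le
  have e3 : 0 ≤ B3 * dg K := mul_nonneg hB3 hd.le
  rcases le_total |k 1| |k 0| with h01 | h01
  · rcases le_total |k 2| (8 * |k 0|) with h20 | h20
    · have hk0 : k 0 ≠ 0 := by
        intro h0
        apply hk
        rw [h0, abs_zero] at h01 h20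
        rw [mul_zero] at h20
        funext j
        fin_cases j
        · exact h0
        · exact abs_nonpos_iff.mp h01
        · exact abs_nonpos_iff.mp h20
      have h := h1 K y hya hyb hyg fun p =>
        c2_rel_abs hk0 h01 h20 (hrel' p)
      linarith
    · have hk2 : k 2 ≠ 0 := by
        intro h0
        apply hk
        rw [h0, abs_zero] at h20
        have h5 : |k 0| ≤ 0 := by linarith
        funext j
        fin_cases j
        · exact abs_nonpos_iff.mp h5
        · exact abs_nonpos_iff.mp (h01.trans h5)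
        · exact h0
      have h := h3 K y hya hyb hyg fun p => by
        have h6 := c2_rel_abs (k0 := k 2) (k1 := 8 * k 0) (k2 := 8 * k 1)
          (l0 := 8 * lg p (aeval y D.g)) (l1 := lg p (y - algebraMap ℚ K D.a))
          (l2 := lg p (y - algebraMap ℚ K D.b)) (m := 1) hk2
          (by rw [abs_mul, abs_of_pos (by norm_num : (0 : ℝ) < 8)]; exact h20)
          (by rw [abs_mul, abs_of_pos (by norm_num : (0 : ℝ) < 8)]; linarith)
          (by linarith [hrel' p])
        rw [abs_mul, abs_of_pos (by norm_num : (0 : ℝ) < 8), one_mul] at h6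
        exact h6
      linarith
  · rcases le_total |k 2| (8 * |k 1|) with h21 | h21
    · have hk1 : k 1 ≠ 0 := by
        intro h0
        apply hk
        rw [h0, abs_zero] at h01 h21
        rw [mul_zero] at h21
        funext j
        fin_cases j
        · exact abs_nonpos_iff.mp h01
        · exact h0
        · exact abs_nonpos_iff.mp h21
      have h := h2 K y hyb hya hyg fun p =>
        c2_rel_abs hk1 h01 h21 (by linarith [hrel' p])
      linarith
    · have hk2 : k 2 ≠ 0 := by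
        intro h0
        apply hk
        rw [h0, abs_zero] at h21
        have h5 : |k 1| ≤ 0 := by linarith
        funext j
        fin_cases j
        · exact abs_nonpos_iff.mp (h01.trans h5)
        · exact abs_nonpos_iff.mp h5
        · exact h0
      have h := h3 K y hya hyb hyg fun p => by
        have h6 := c2_rel_abs (k0 := k 2) (k1 := 8 * k 0) (k2 := 8 * k 1)
          (l0 := 8 * lg p (aeval y D.g)) (l1 := lg p (y - algebraMap ℚ K D.a))
          (l2 := lg p (y - algebraMap ℚ K D.b)) (m := 1) hk2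
          (by rw [abs_mul, abs_of_pos (by norm_num : (0 : ℝ) < 8)]; linarith)
          (by rw [abs_mul, abs_of_pos (by norm_num : (0 : ℝ) < 8)]; linarith)
          (by linarith [hrel' p])
        rw [abs_mul, abs_of_pos (by norm_num : (0 : ℝ) < 8), one_mul] at h6
        exact h6
      linarith

/-- the coordinates -/
theorem cu_height (D : Dat) (B : ℝ) : ∃ B' : ℝ, 0 ≤ B' ∧
    ∀ (K : Type) [Field K] [NumberField K] (y : K), (∀ j, cu D.a D.b D.g y j ≠ 0) →
      hh y ≤ B * dg K → ∀ j, hh (cu D.a D.b D.g y j) ≤ B' * dg K := by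
  obtain ⟨C1, hC1, h1⟩ := hh_poly_bdd (X - C D.a) B
  obtain ⟨C2, hC2, h2⟩ := hh_poly_bdd (X - C D.b) B
  obtain ⟨C3, hC3, h3⟩ := hh_poly_bdd D.g B
  refine ⟨C1 + C2 + C3, by positivity, fun K _ _ y hcu hy j => ?_⟩
  have hd : 0 < dg K := dg_pos
  have e1 : 0 ≤ C1 * dg K := mul_nonneg hC1 hd.le
  have e2 : 0 ≤ C2 * dg K := mul_nonneg hC2 hd.le
  have e3 : 0 ≤ C3 * dg K := mul_nonneg hC3 hd.le
  have f1 := h1 K y hy (by rw [c2_aeval_X_sub_C']; exact hcu 0)
  have f2 := h2 K y hy (by rw [c2_aeval_X_sub_C']; exact hcu 1)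
  have f3 := h3 K y hy (hcu 2)
  rw [c2_aeval_X_sub_C'] at f1 f2
  fin_cases j
  · show hh (y - algebraMap ℚ K D.a) ≤ _
    linarith
  · show hh (y - algebraMap ℚ K D.b) ≤ _
    linarith
  · show hh (aeval y D.g) ≤ _
    linarith

end Pool.Agent.Work.MP_7da6af_nt
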