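import Mathlib

/-!
Box principle: an integer polynomial of bounded degree which is tiny at finitely many given
complex numbers, compared with its coefficients.
-/

namespace Pool.Agent.Work.MP_7da6af_nt

open Polynomial

/-- The value at `z` of the polynomial with coefficients `c`. -/
noncomputable def valAt (N : ℕ) (c : Fin (N + 1) → ℤ) (z : ℂ) : ℂ := ∑ i : Fin (N + 1), (c i : ℂ) * z ^ (i : ℕ)

/-- The polynomial with coefficients `c`. -/
noncomputable def polyOf (N : ℕ) (c : Fin (N + 1) → ℤ) : ℤ[X] :=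
  ∑ i : Fin (N + 1), monomial (i : ℕ) (c i)

lemma aeval_polyOf (N : ℕ) (c : Fin (N + 1) → ℤ) (z : ℂ) :
    aeval z (polyOf N c) = valAt N c z := by
  simp [polyOf, valAt, aeval_monomial]

lemma coeff_polyOf_of_lt (N : ℕ) (c : Fin (N + 1) → ℤ) (i : Fin (N + 1)) :
    (polyOf N c).coeff i = c i := by
  rw [polyOf, finsetSum_coeff]
  rw [Finset.sum_eq_single i]
  · simp
  · intro j _ hj
    rw [coeff_monomial, if_neg]
    intro h
    exact hj (Fin.ext h)
  · simp

lemma coeff_polyOf_of_ge (N : ℕ) (c : Fin (N + 1) → ℤ) (n : ℕ) (hn : N < n) :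
    (polyOf N c).coeff n = 0 := by
  rw [polyOf, finsetSum_coeff]
  refine Finset.sum_eq_zero fun j _ => ?_
  rw [coeff_monomial, if_neg]
  intro h
  have := j.2
  omega

lemma norm_valAt_le (N : ℕ) (c : Fin (N + 1) → ℤ) (z : ℂ) (t R : ℝ) (hR : 1 ≤ R)
    (hz : ‖z‖ ≤ R) (hc : ∀ i, |(c i : ℝ)| ≤ t) : ‖valAt N c z‖ ≤ (N + 1) * t * R ^ N := by
  have ht : 0 ≤ t := (abs_nonneg _).trans (hc 0)
  calc ‖valAt N c z‖ ≤ ∑ i : Fin (N + 1), ‖(c i : ℂ) * z ^ (i : ℕ)‖ := norm_sum_le _ _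
    _ ≤ ∑ _i : Fin (N + 1), t * R ^ N := by
      refine Finset.sum_le_sum fun i _ => ?_
      rw [norm_mul, norm_pow]
      have h1 : ‖(c i : ℂ)‖ = |(c i : ℝ)| := by
        exact Complex.norm_intCast _
      rw [h1]
      have h2 : ‖z‖ ^ (i : ℕ) ≤ R ^ N :=
        (pow_le_pow_left₀ (norm_nonneg _) hz _).trans
          (pow_le_pow_right₀ hR (Nat.lt_succ_iff.mp i.2))
      exact mul_le_mul (hc i) h2 (by positivity) ht
    _ = (N + 1) * t * R ^ N := by simp [Finset.sum_const]; ring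

theorem siegelPoly (Z : Set ℂ) (hZ : Z.Finite) : ∃ N : ℕ, 1 ≤ N ∧ ∀ M : ℝ,
    ∃ (Q : Polynomial ℤ) (η T : ℝ), Q ≠ 0 ∧ Q.natDegree ≤ N ∧ 0 < η ∧ 1 ≤ T ∧
      (∀ i, |(Q.coeff i : ℝ)| ≤ T) ∧ (∀ z ∈ Z, ‖aeval z Q‖ ≤ η) ∧
      Real.log η + Real.log T ≤ -M := by
  classical
  obtain ⟨R, hR1, hR⟩ : ∃ R : ℝ, 1 ≤ R ∧ ∀ z ∈ Z, ‖z‖ ≤ R := by
    obtain ⟨R, hR⟩ := (hZ.image (fun z => ‖z‖)).bddAbove
    exact ⟨max 1 R, le_max_left _ _, fun z hz => (hR ⟨z, hz, rfl⟩).trans (le_max_right _ _)⟩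
  set k := hZ.toFinset.card with hk
  refine ⟨8 * k + 8, by omega, fun M => ?_⟩
  set N := 8 * k + 8 with hN
  set W : ℝ := (N + 1) * R ^ N with hW
  have hWpos : 0 < W := by positivity
  -- choose t
  obtain ⟨t, ht9, htM⟩ : ∃ t : ℕ, 9 ^ k ≤ t ∧ Real.log (2 * W) + M ≤ 2 * Real.log t := by
    have h1 : Filter.Tendsto (fun t : ℕ => Real.log (t : ℝ)) Filter.atTop Filter.atTop :=
      Real.tendsto_log_atTop.comp tendsto_natCast_atTop_atTop
    have h2 := h1.eventually_ge_atTop ((Real.log (2 * W) + M) / 2)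
    obtain ⟨t, h3, h4⟩ := (h2.and (Filter.eventually_ge_atTop (9 ^ k))).exists
    exact ⟨t, h4, by linarith⟩
  have ht1 : 1 ≤ t := (Nat.one_le_pow _ _ (by norm_num)).trans ht9
  have htR : (1 : ℝ) ≤ t := by exact_mod_cast ht1
  have htpos : (0 : ℝ) < t := by linarith
  set s : ℝ := W / t ^ 3 with hs
  have hspos : 0 < s := by positivity
  -- the box map
  let f : (Fin (N + 1) → Fin (t + 1)) → (hZ.toFinset × Fin 2 → ℤ) := fun c p =>
    ⌊(if p.2 = 0 then (valAt N (fun i => ((c i : ℕ) : ℤ)) p.1).re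
        else (valAt N (fun i => ((c i : ℕ) : ℤ)) p.1).im) / s⌋
  let B : Finset (hZ.toFinset × Fin 2 → ℤ) :=
    Fintype.piFinset fun _ => Finset.Icc (-(t ^ 4 : ℤ)) (t ^ 4 : ℤ)
  have hcoef : ∀ (c : Fin (N + 1) → Fin (t + 1)) i, |((((c i : ℕ) : ℤ)) : ℝ)| ≤ t := by
    intro c i
    have h := (c i).2
    have h' : ((c i : ℕ) : ℝ) ≤ t := by exact_mod_cast Nat.lt_succ_iff.mp h
    rw [abs_of_nonneg (by positivity)]
    simpa using h'
  have hmaps : ∀ c ∈ (Finset.univ : Finset (Fin (N + 1) → Fin (t + 1))), f c ∈ B := by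
    intro c _
    rw [Fintype.mem_piFinset]
    intro p
    have hz : (p.1 : ℂ) ∈ Z := hZ.mem_toFinset.mp p.1.2
    have hn := norm_valAt_le N (fun i => ((c i : ℕ) : ℤ)) p.1 t R hR1 (hR _ hz) (hcoef c)
    have hx : |(if p.2 = 0 then (valAt N (fun i => ((c i : ℕ) : ℤ)) p.1).re
        else (valAt N (fun i => ((c i : ℕ) : ℤ)) p.1).im)| ≤ W * t := by
      have e : (N + 1) * (t : ℝ) * R ^ N = W * t := by rw [hW]; ring
      rw [← e]
      split_ifs
      · exact (Complex.abs_re_le_norm _).trans hn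
      · exact (Complex.abs_im_le_norm _).trans hn
    have hx' : |(if p.2 = 0 then (valAt N (fun i => ((c i : ℕ) : ℤ)) p.1).re
        else (valAt N (fun i => ((c i : ℕ) : ℤ)) p.1).im) / s| ≤ (t : ℝ) ^ 4 := by
      rw [abs_div, abs_of_pos hspos, div_le_iff₀ hspos]
      refine hx.trans (le_of_eq ?_)
      rw [hs]; field_simp
    rw [abs_le] at hx'
    rw [Finset.mem_Icc]
    constructor
    · apply Int.le_floor.mpr
      push_cast
      exact hx'.1
    · apply Int.floor_le_iff.mpr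
      push_cast
      linarith [hx'.2]
  have hcard : B.card < (Finset.univ : Finset (Fin (N + 1) → Fin (t + 1))).card := by
    rw [Fintype.card_piFinset]
    simp only [Finset.prod_const, Finset.card_univ, Fintype.card_prod, Fintype.card_fin,
      Fintype.card_coe, Fintype.card_pi, Int.card_Icc]
    have e1 : ((t : ℤ) ^ 4 + 1 - -(t : ℤ) ^ 4).toNat = 2 * t ^ 4 + 1 := by
      have : ((t : ℤ) ^ 4 + 1 - -(t : ℤ) ^ 4) = ((2 * t ^ 4 + 1 : ℕ) : ℤ) := by push_cast; ring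
      rw [this]; exact Int.toNat_natCast _
    rw [e1, ← hk]
    have hb : 2 * t ^ 4 + 1 ≤ 3 * t ^ 4 := by
      have := Nat.one_le_pow 4 t (by omega)
      omega
    calc (2 * t ^ 4 + 1) ^ (k * 2) ≤ (3 * t ^ 4) ^ (k * 2) := Nat.pow_le_pow_left hb _
      _ = 9 ^ k * t ^ (8 * k) := by
        rw [mul_pow, ← pow_mul t, mul_comm k 2, pow_mul 3 2 k]; norm_num
        congr 1; ring
      _ ≤ t * t ^ (8 * k) := Nat.mul_le_mul_right _ ht9
      _ = t ^ (8 * k + 1) := by ring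
      _ ≤ t ^ (N + 1) := Nat.pow_le_pow_right (by omega) (by omega)
      _ < (t + 1) ^ (N + 1) := Nat.pow_lt_pow_left (by omega) (by omega)
  obtain ⟨c, -, c', -, hne, heq⟩ := Finset.exists_ne_map_eq_of_card_lt_of_maps_to hcard hmaps
  set d : Fin (N + 1) → ℤ := fun i => ((c i : ℕ) : ℤ) - ((c' i : ℕ) : ℤ) with hd
  have hval : ∀ z, valAt N d z = valAt N (fun i => ((c i : ℕ) : ℤ)) z -
      valAt N (fun i => ((c' i : ℕ) : ℤ)) z := by
    intro z
    simp only [valAt, hd, ← Finset.sum_sub_distrib]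
    refine Finset.sum_congr rfl fun i _ => ?_
    push_cast; ring
  refine ⟨polyOf N d, 2 * s, t, ?_, ?_, by positivity, htR, ?_, ?_, ?_⟩
  · intro h0
    apply hne
    funext i
    have h1 := coeff_polyOf_of_lt N d i
    rw [h0] at h1
    simp only [coeff_zero, hd] at h1
    apply Fin.ext
    omega
  · rw [natDegree_le_iff_coeff_eq_zero]
    intro n hn
    exact coeff_polyOf_of_ge N d n hn
  · intro n
    by_cases hn : N < n
    · rw [coeff_polyOf_of_ge N d n hn]; simp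
    · have h1 := coeff_polyOf_of_lt N d ⟨n, by omega⟩
      simp only at h1
      rw [h1, hd]
      have a1 : ((c ⟨n, by omega⟩ : ℕ) : ℝ) ≤ t := by
        exact_mod_cast Nat.lt_succ_iff.mp (c ⟨n, by omega⟩).2
      have a2 : ((c' ⟨n, by omega⟩ : ℕ) : ℝ) ≤ t := by
        exact_mod_cast Nat.lt_succ_iff.mp (c' ⟨n, by omega⟩).2
      have b1 : (0 : ℝ) ≤ ((c ⟨n, by omega⟩ : ℕ) : ℝ) := by positivity
      have b2 : (0 : ℝ) ≤ ((c' ⟨n, by omega⟩ : ℕ) : ℝ) := by positivity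
      push_cast
      rw [abs_le]
      constructor <;> linarith
  · intro z hz
    rw [aeval_polyOf]
    have key : ∀ j : Fin 2, f c (⟨z, hZ.mem_toFinset.mpr hz⟩, j) =
        f c' (⟨z, hZ.mem_toFinset.mpr hz⟩, j) := fun j => by rw [heq]
    have hre := key 0
    have him := key 1
    simp only [f, if_true, Fin.isValue, one_ne_zero, if_false] at hre him
    have h1 := Int.abs_sub_lt_one_of_floor_eq_floor hre
    have h2 := Int.abs_sub_lt_one_of_floor_eq_floor him
    rw [← sub_div, abs_div, abs_of_pos hspos, div_lt_one hspos] at h1 h2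
    have h3 : |(valAt N d z).re| ≤ s := by rw [hval]; simpa using h1.le
    have h4 : |(valAt N d z).im| ≤ s := by rw [hval]; simpa using h2.le
    calc ‖valAt N d z‖ ≤ |(valAt N d z).re| + |(valAt N d z).im| :=
          Complex.norm_le_abs_re_add_abs_im _
      _ ≤ 2 * s := by linarith
  · have e : Real.log (2 * s) = Real.log (2 * W) - 3 * Real.log t := by
      rw [hs, show 2 * (W / (t : ℝ) ^ 3) = (2 * W) / (t : ℝ) ^ 3 by ring,
        Real.log_div (by positivity) (by positivity), Real.log_pow]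
      norm_num
    rw [e]
    linarith

end Pool.Agent.Work.MP_7da6af_nt
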