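import Pool.Agent.Work.MP_7da6af_nt.Defs
import Pool.Agent.Work.MP_7da6af_nt.SiegelPoly

/-! # Integer polynomials which are small on clusters -/

set_option autoImplicit false

namespace Pool.Agent.Work.MP_7da6af_nt

open Polynomial

namespace Clu

/-- the points with bounded logarithmic vector -/
def KS (a b : ℝ) (g : ℝ[X]) (S : ℝ) : Set ℂ :=
  {z | (Real.exp (-S) ≤ ‖z - a‖ ∧ ‖z - a‖ ≤ Real.exp S) ∧
    (Real.exp (-S) ≤ ‖z - b‖ ∧ ‖z - b‖ ≤ Real.exp S) ∧
    (Real.exp (-S) ≤ ‖aeval z g‖ ∧ ‖aeval z g‖ ≤ Real.exp S)}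

theorem continuous_aeval (g : ℝ[X]) : Continuous fun z : ℂ => aeval z g := by
  have : (fun z : ℂ => aeval z g) = fun z : ℂ => (g.map (algebraMap ℝ ℂ)).eval z := by
    funext z
    rw [eval_map_algebraMap]
  rw [this]
  exact Polynomial.continuous _

theorem continuous_aeval_int (Q : ℤ[X]) : Continuous fun z : ℂ => aeval z Q := by
  have : (fun z : ℂ => aeval z Q) = fun z : ℂ => (Q.map (algebraMap ℤ ℂ)).eval z := by
    funext z
    rw [eval_map_algebraMap]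
  rw [this]
  exact Polynomial.continuous _

theorem isCompact_KS (a b : ℝ) (g : ℝ[X]) (S : ℝ) : IsCompact (KS a b g S) := by
  have h1 : IsClosed (KS a b g S) := by
    have c1 : Continuous fun z : ℂ => ‖z - a‖ := (continuous_id.sub continuous_const).norm
    have c2 : Continuous fun z : ℂ => ‖z - b‖ := (continuous_id.sub continuous_const).norm
    have c3 : Continuous fun z : ℂ => ‖aeval z g‖ := (continuous_aeval g).norm
    exact ((isClosed_le continuous_const c1).inter (isClosed_le c1 continuous_const)).inter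
      (((isClosed_le continuous_const c2).inter (isClosed_le c2 continuous_const)).inter
      ((isClosed_le continuous_const c3).inter (isClosed_le c3 continuous_const)))
  refine (isCompact_closedBall (a : ℂ) (Real.exp S)).of_isClosed_subset h1 fun z hz => ?_
  rw [Metric.mem_closedBall, dist_eq_norm]
  exact hz.1.2

theorem mem_KS_of {a b : ℝ} {g : ℝ[X]} {S : ℝ} {z : ℂ} (hz : z ≠ a ∧ z ≠ b ∧ aeval z g ≠ 0)
    (h : ∀ l, |Lz a b g z l| ≤ S) : z ∈ KS a b g S := by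
  have key : ∀ x : ℝ, 0 < x → |Real.log x| ≤ S → Real.exp (-S) ≤ x ∧ x ≤ Real.exp S := by
    intro x hx h
    rw [abs_le] at h
    exact ⟨(Real.le_log_iff_exp_le hx).1 h.1, (Real.log_le_iff_le_exp hx).1 h.2⟩
  exact ⟨key _ (norm_pos_iff.2 (sub_ne_zero.2 hz.1)) (h 0),
    key _ (norm_pos_iff.2 (sub_ne_zero.2 hz.2.1)) (h 1), key _ (norm_pos_iff.2 hz.2.2) (h 2)⟩

theorem of_mem_KS {a b : ℝ} {g : ℝ[X]} {S : ℝ} {z : ℂ} (hz : z ∈ KS a b g S) :
    (z ≠ a ∧ z ≠ b ∧ aeval z g ≠ 0) ∧ ∀ l, |Lz a b g z l| ≤ S := by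
  have e := Real.exp_pos (-S)
  have key : ∀ x : ℝ, Real.exp (-S) ≤ x ∧ x ≤ Real.exp S → |Real.log x| ≤ S := by
    intro x hx
    have h0 : 0 < x := e.trans_le hx.1
    rw [abs_le]
    exact ⟨(Real.le_log_iff_exp_le h0).2 hx.1, (Real.log_le_iff_le_exp h0).2 hx.2⟩
  refine ⟨⟨?_, ?_, ?_⟩, ?_⟩
  · rintro rfl
    have := hz.1.1
    rw [sub_self, norm_zero] at this
    linarith
  · rintro rfl
    have := hz.2.1.1
    rw [sub_self, norm_zero] at this
    linarith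
  · intro h
    have := hz.2.2.1
    rw [h, norm_zero] at this
    linarith
  · intro l
    fin_cases l
    · exact key _ hz.1
    · exact key _ hz.2.1
    · exact key _ hz.2.2

theorem continuousOn_Lz (a b : ℝ) (g : ℝ[X]) (S : ℝ) (l : Fin 3) :
    ContinuousOn (fun z => Lz a b g z l) (KS a b g S) := by
  have c1 : Continuous fun z : ℂ => ‖z - a‖ := (continuous_id.sub continuous_const).norm
  have c2 : Continuous fun z : ℂ => ‖z - b‖ := (continuous_id.sub continuous_const).norm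
  have c3 : Continuous fun z : ℂ => ‖aeval z g‖ := (continuous_aeval g).norm
  fin_cases l
  · exact c1.continuousOn.log fun z hz => (norm_pos_iff.2 (sub_ne_zero.2 (of_mem_KS hz).1.1)).ne'
  · exact c2.continuousOn.log fun z hz =>
      (norm_pos_iff.2 (sub_ne_zero.2 (of_mem_KS hz).1.2.1)).ne'
  · exact c3.continuousOn.log fun z hz => (norm_pos_iff.2 (of_mem_KS hz).1.2.2).ne'

/-- the polynomial is small near the rays -/
theorem near_rays (a b : ℝ) (g : ℝ[X]) (S : ℝ) (d0 : Fin 3 → Fin 3 → ℝ) (Q : ℤ[X]) (η : ℝ)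
    (hη : 0 < η) (hQ : ∀ z ∈ KS a b g S, ∀ (j : Fin 3) (s : ℝ), Lz a b g z = s • d0 j →
      ‖aeval z Q‖ ≤ η) :
    ∃ r : ℝ, 0 < r ∧ ∀ d : Fin 3 → Fin 3 → ℝ, (∀ j, ‖d j‖ = 1) → dist d d0 < r →
      ∀ z ∈ KS a b g S, ∀ (j : Fin 3) (s : ℝ), 0 ≤ s →
        (∀ l, |Lz a b g z l - s * d j l| ≤ r / 2) → ‖aeval z Q‖ ≤ 2 * η := by
  -- the compact sets
  let DD : Set (Fin 3 → Fin 3 → ℝ) := Set.univ.pi fun _ => Metric.sphere 0 1
  have hDD : IsCompact DD := isCompact_univ_pi fun _ => isCompact_sphere _ _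
  let X0 : Set (((Fin 3 → Fin 3 → ℝ) × ℝ) × (ℂ × ℝ)) :=
    (DD ×ˢ Set.Icc 0 1) ×ˢ (KS a b g S ×ˢ Set.Icc 0 (S + 1))
  have hX0 : IsCompact X0 :=
    (hDD.prod isCompact_Icc).prod ((isCompact_KS a b g S).prod isCompact_Icc)
  let f : Fin 3 → Fin 3 → ((Fin 3 → Fin 3 → ℝ) × ℝ) × (ℂ × ℝ) → ℝ := fun j l x =>
    |Lz a b g x.2.1 l - x.2.2 * x.1.1 j l| - x.1.2
  have hf : ∀ j l, ContinuousOn (f j l) X0 := by
    intro j l
    have h1 : ContinuousOn (fun x : ((Fin 3 → Fin 3 → ℝ) × ℝ) × (ℂ × ℝ) =>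
        Lz a b g x.2.1 l) X0 := by
      refine (continuousOn_Lz a b g S l).comp (Continuous.continuousOn (by fun_prop)) ?_
      intro x hx
      exact hx.2.1
    have h2 : ContinuousOn (fun x : ((Fin 3 → Fin 3 → ℝ) × ℝ) × (ℂ × ℝ) =>
        x.2.2 * x.1.1 j l) X0 := Continuous.continuousOn (by fun_prop)
    have h3 : ContinuousOn (fun x : ((Fin 3 → Fin 3 → ℝ) × ℝ) × (ℂ × ℝ) =>
        x.1.2) X0 := Continuous.continuousOn (by fun_prop)
    exact (h1.sub h2).abs.sub h3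
  let Cj : Fin 3 → Set (((Fin 3 → Fin 3 → ℝ) × ℝ) × (ℂ × ℝ)) := fun j =>
    (⋂ l, X0 ∩ f j l ⁻¹' Set.Iic 0) ∩ {x | 2 * η ≤ ‖aeval x.2.1 Q‖}
  have hCj : ∀ j, IsCompact (Cj j) := by
    intro j
    have h1 : IsClosed (Cj j) := by
      refine IsClosed.inter (isClosed_iInter fun l =>
        (hf j l).preimage_isClosed_of_isClosed hX0.isClosed isClosed_Iic) ?_
      exact isClosed_le continuous_const
        ((continuous_aeval_int Q).comp (continuous_fst.comp continuous_snd)).norm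
    refine hX0.of_isClosed_subset h1 fun x hx => ?_
    have := hx.1
    rw [Set.mem_iInter] at this
    exact (this 0).1
  let U : Set ((Fin 3 → Fin 3 → ℝ) × ℝ) := (⋃ j, Prod.fst '' Cj j)ᶜ
  have hU : IsOpen U := by
    have hcl : IsClosed (⋃ j, Prod.fst '' Cj j) :=
      isClosed_iUnion_of_finite fun j => ((hCj j).image continuous_fst).isClosed
    exact hcl.isOpen_compl
  have h0 : (d0, (0 : ℝ)) ∈ U := by
    intro hmem
    rw [Set.mem_iUnion] at hmem
    obtain ⟨j, x, hx, hx0⟩ := hmem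
    have h1 := hx.1
    rw [Set.mem_iInter] at h1
    have hx1 : x.1.1 = d0 := by rw [hx0]
    have hx2 : x.1.2 = 0 := by rw [hx0]
    have hz := (h1 0).1.2.1
    have hL : Lz a b g x.2.1 = x.2.2 • d0 j := by
      funext l
      have h2 := (h1 l).2
      rw [Set.mem_preimage, Set.mem_Iic] at h2
      simp only [f] at h2
      rw [hx1, hx2, sub_zero] at h2
      have h3 := abs_eq_zero.1 (le_antisymm h2 (abs_nonneg _))
      rw [Pi.smul_apply, smul_eq_mul]
      linarith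
    have h2 := hQ _ hz j _ hL
    have h3 : 2 * η ≤ ‖aeval x.2.1 Q‖ := hx.2
    linarith
  obtain ⟨r, hr, hball⟩ := Metric.isOpen_iff.1 hU _ h0
  refine ⟨min r 1, by positivity, fun d hd hdist z hz j s hs hl => ?_⟩
  by_contra hcon
  push Not at hcon
  set e := min r 1 / 2 with he
  have he0 : 0 < e := by positivity
  have he1 : e ≤ 1 / 2 := by
    have := min_le_right r 1
    linarith
  have her : e < r := by
    have := min_le_left r 1
    linarith
  have hS := (of_mem_KS hz).2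
  -- the bound for `s`
  have hs1 : s ≤ S + 1 := by
    obtain ⟨l, hl1⟩ : ∃ l, |d j l| = 1 := by
      have h1 := hd j
      by_contra hcon'
      push Not at hcon'
      have h2 : ‖d j‖ < 1 := by
        rw [pi_norm_lt_iff one_pos]
        intro l
        refine lt_of_le_of_ne ?_ (by rw [Real.norm_eq_abs]; exact hcon' l)
        rw [← h1]
        exact norm_le_pi_norm (d j) l
      linarith
    have h2 := hl l
    have h3 := hS l
    have h4 : |s * d j l| ≤ |Lz a b g z l| + |Lz a b g z l - s * d j l| := by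
      have : s * d j l = Lz a b g z l - (Lz a b g z l - s * d j l) := by ring
      calc |s * d j l| = |Lz a b g z l - (Lz a b g z l - s * d j l)| := by rw [← this]
        _ ≤ _ := abs_sub _ _
    rw [abs_mul, hl1, mul_one, abs_of_nonneg hs] at h4
    linarith
  have hmem : ((d, e), (z, s)) ∈ Cj j := by
    refine ⟨?_, hcon.le⟩
    rw [Set.mem_iInter]
    intro l
    refine ⟨⟨⟨?_, ?_⟩, hz, hs, hs1⟩, ?_⟩
    · intro j' _
      rw [mem_sphere_zero_iff_norm]
      exact hd j'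
    · exact ⟨he0.le, by linarith⟩
    · rw [Set.mem_preimage, Set.mem_Iic]
      simp only [f]
      have := hl l
      linarith
  have hnot : (d, e) ∉ ⋃ j, Prod.fst '' Cj j := by
    refine hball ?_
    rw [Metric.mem_ball, Prod.dist_eq, max_lt_iff]
    refine ⟨hdist.trans_le (min_le_left _ _), ?_⟩
    rw [Real.dist_eq, sub_zero, abs_of_pos he0]
    exact her
  exact hnot (Set.mem_iUnion.2 ⟨j, _, hmem, rfl⟩)

/-- growth of an integer polynomial -/
theorem norm_aeval_le (Q : ℤ[X]) (N : ℕ) (hN : Q.natDegree ≤ N) (T : ℝ)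
    (hT : ∀ i, |(Q.coeff i : ℝ)| ≤ T) (z : ℂ) :
    ‖aeval z Q‖ ≤ (N + 1) * T * (max 1 ‖z‖) ^ N := by
  have hT0 : 0 ≤ T := (abs_nonneg _).trans (hT 0)
  rw [aeval_eq_sum_range' (Nat.lt_succ_of_le hN)]
  calc ‖∑ i ∈ Finset.range (N + 1), Q.coeff i • z ^ i‖
      ≤ ∑ i ∈ Finset.range (N + 1), ‖Q.coeff i • z ^ i‖ := norm_sum_le _ _
    _ ≤ ∑ _i ∈ Finset.range (N + 1), T * (max 1 ‖z‖) ^ N := by
        refine Finset.sum_le_sum fun i hi => ?_
        rw [zsmul_eq_mul, norm_mul, norm_pow, Complex.norm_intCast]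
        have h1 : ‖z‖ ^ i ≤ (max 1 ‖z‖) ^ N :=
          (pow_le_pow_left₀ (norm_nonneg _) (le_max_right _ _) _).trans
            (pow_le_pow_right₀ (le_max_left _ _) (by rw [Finset.mem_range] at hi; omega))
        exact mul_le_mul (hT i) h1 (by positivity) hT0
    _ = (N + 1) * T * (max 1 ‖z‖) ^ N := by
        rw [Finset.sum_const, Finset.card_range, nsmul_eq_mul]
        push_cast
        ring

theorem exists_pos_le {ι : Type*} (t : Finset ι) (r : ι → ℝ) (hr : ∀ i ∈ t, 0 < r i) :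
    ∃ ε : ℝ, 0 < ε ∧ ∀ i ∈ t, ε ≤ r i := by
  classical
  induction t using Finset.induction_on with
  | empty => exact ⟨1, one_pos, fun i hi => absurd hi (Finset.notMem_empty i)⟩
  | insert i t hi ih =>
    obtain ⟨ε, hε, h⟩ := ih fun j hj => hr j (Finset.mem_insert_of_mem hj)
    refine ⟨min ε (r i), lt_min hε (hr i (Finset.mem_insert_self i t)), fun j hj => ?_⟩
    rcases Finset.mem_insert.1 hj with rfl | hj
    · exact min_le_right _ _
    · exact (min_le_left _ _).trans (h j hj)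

/-- the estimate of the average -/
theorem average (a b : ℝ) (g : ℝ[X]) {B : ℝ} (hB : 0 ≤ B) {N : ℕ} {Q : ℤ[X]} {η T M : ℝ}
    (hN : Q.natDegree ≤ N) (hη : 0 < η) (hT1 : 1 ≤ T) (hT : ∀ i, |(Q.coeff i : ℝ)| ≤ T)
    (hM : Real.log η + Real.log T ≤ -M)
    (hMN : 2 * (1 + Real.log (N + 1) + 2 * (N * B)) + 2 ≤ M)
    (ι : Type) [Fintype ι] (m : ι → ℝ) (z : ι → ℂ) (hm : ∀ i, 0 ≤ m i) (hm1 : ∑ i, m i = 1)
    (hsum : ∑ i, m i * (max 0 (Real.log ‖z i‖) + ∑ l, |Lz a b g (z i) l|) ≤ B)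
    (bad : Finset ι) (hbad : ∑ i ∈ bad, m i ≤ 1 / 10)
    (hgood : ∀ i ∉ bad, (∀ l, |Lz a b g (z i) l| ≤ 10 * B + 1) → ‖aeval (z i) Q‖ ≤ 2 * η)
    (hne : ∀ i, aeval (z i) Q ≠ 0) :
    ∑ i, m i * Real.log ‖aeval (z i) Q‖ < -(Q.natDegree * B) := by
  classical
  set w : ι → ℝ := fun i => max 0 (Real.log ‖z i‖) + ∑ l, |Lz a b g (z i) l| with hw
  have hw0 : ∀ i, 0 ≤ w i := fun i =>
    add_nonneg (le_max_left _ _) (Finset.sum_nonneg fun l _ => abs_nonneg _)
  have hwlog : ∀ i, max 0 (Real.log ‖z i‖) ≤ w i := fun i =>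
    le_add_of_nonneg_right (Finset.sum_nonneg fun l _ => abs_nonneg _)
  set bad2 : Finset ι := Finset.univ.filter fun i => 10 * B + 1 < w i with hbad2
  -- Markov
  have hmark : ∑ i ∈ bad2, m i ≤ 1 / 10 := by
    have h1 : (10 * B + 1) * ∑ i ∈ bad2, m i ≤ ∑ i, m i * w i := by
      rw [Finset.mul_sum]
      calc ∑ i ∈ bad2, (10 * B + 1) * m i ≤ ∑ i ∈ bad2, m i * w i := by
            refine Finset.sum_le_sum fun i hi => ?_
            rw [mul_comm]
            exact mul_le_mul_of_nonneg_left (Finset.mem_filter.1 hi).2.le (hm i)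
        _ ≤ ∑ i, m i * w i := Finset.sum_le_sum_of_subset_of_nonneg (Finset.subset_univ _)
            fun i _ _ => mul_nonneg (hm i) (hw0 i)
    have h2 : (10 * B + 1) * ∑ i ∈ bad2, m i ≤ B := h1.trans hsum
    have h3 : 0 ≤ ∑ i ∈ bad2, m i := Finset.sum_nonneg fun i _ => hm i
    nlinarith
  set A : Finset ι := bad ∪ bad2 with hA
  have hAw : ∑ i ∈ A, m i ≤ 1 / 5 := by
    have h1 : ∑ i ∈ A, m i ≤ ∑ i ∈ bad, m i + ∑ i ∈ bad2, m i := by
      rw [hA, ← Finset.sum_union_inter]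
      exact le_add_of_nonneg_right (Finset.sum_nonneg fun i _ => hm i)
    linarith
  have hA0 : 0 ≤ ∑ i ∈ A, m i := Finset.sum_nonneg fun i _ => hm i
  have hsplit : ∑ i ∈ A, m i + ∑ i ∈ Aᶜ, m i = 1 := by
    rw [Finset.sum_add_sum_compl, hm1]
  have hT0 : 0 < T := by linarith
  have hlogT : 0 ≤ Real.log T := Real.log_nonneg hT1
  have hN1 : (0 : ℝ) < N + 1 := by positivity
  have hlogN : 0 ≤ Real.log (N + 1) := Real.log_nonneg (by
    have : (0 : ℝ) ≤ N := Nat.cast_nonneg N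
    linarith)
  have hNB : 0 ≤ (N : ℝ) * B := by positivity
  -- bound on the good points
  have hg : ∀ i ∈ Aᶜ, m i * Real.log ‖aeval (z i) Q‖ ≤ m i * Real.log (2 * η) := by
    intro i hi
    rw [Finset.mem_compl, hA, Finset.mem_union, not_or] at hi
    have h1 : w i ≤ 10 * B + 1 := by
      by_contra hcon
      exact hi.2 (Finset.mem_filter.2 ⟨Finset.mem_univ _, not_le.1 hcon⟩)
    have h2 := hgood i hi.1 fun l => by
      have h3 : |Lz a b g (z i) l| ≤ ∑ l, |Lz a b g (z i) l| :=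
        Finset.single_le_sum (f := fun l => |Lz a b g (z i) l|) (fun _ _ => abs_nonneg _)
          (Finset.mem_univ l)
      have h4 : (0 : ℝ) ≤ max 0 (Real.log ‖z i‖) := le_max_left _ _
      have h5 : w i = max 0 (Real.log ‖z i‖) + ∑ l, |Lz a b g (z i) l| := rfl
      linarith
    exact mul_le_mul_of_nonneg_left (Real.log_le_log (norm_pos_iff.2 (hne i)) h2) (hm i)
  -- bound on the other points
  have hb : ∀ i ∈ A, m i * Real.log ‖aeval (z i) Q‖ ≤
      m i * (Real.log (N + 1) + Real.log T) + N * (m i * w i) := by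
    intro i _
    have h1 := norm_aeval_le Q N hN T hT (z i)
    have h2 : Real.log ‖aeval (z i) Q‖ ≤ Real.log (N + 1) + Real.log T +
        N * max 0 (Real.log ‖z i‖) := by
      have h3 : 0 < max 1 ‖z i‖ := lt_of_lt_of_le one_pos (le_max_left _ _)
      have h4 := Real.log_le_log (norm_pos_iff.2 (hne i)) h1
      rw [Real.log_mul (by positivity) (by positivity), Real.log_mul hN1.ne' hT0.ne',
        Real.log_pow] at h4
      have h5 : Real.log (max 1 ‖z i‖) ≤ max 0 (Real.log ‖z i‖) := by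
        rcases le_total ‖z i‖ 1 with h | h
        · rw [max_eq_left h, Real.log_one]
          exact le_max_left _ _
        · rw [max_eq_right h]
          exact le_max_right _ _
      have h6 : (N : ℝ) * Real.log (max 1 ‖z i‖) ≤ N * max 0 (Real.log ‖z i‖) :=
        mul_le_mul_of_nonneg_left h5 (Nat.cast_nonneg N)
      linarith
    have h3 : (N : ℝ) * max 0 (Real.log ‖z i‖) ≤ N * w i :=
      mul_le_mul_of_nonneg_left (hwlog i) (Nat.cast_nonneg N)
    calc m i * Real.log ‖aeval (z i) Q‖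
        ≤ m i * (Real.log (N + 1) + Real.log T + N * w i) :=
          mul_le_mul_of_nonneg_left (by linarith) (hm i)
      _ = _ := by ring
  have hlog2 : Real.log 2 ≤ 1 := by
    have := Real.log_two_lt_d9
    linarith
  have hlog2' : 0 ≤ Real.log 2 := Real.log_nonneg (by norm_num)
  have hlogη : Real.log (2 * η) = Real.log 2 + Real.log η :=
    Real.log_mul (by norm_num) hη.ne'
  have hη2 : Real.log (2 * η) ≤ 1 - M - Real.log T := by
    rw [hlogη]
    linarith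
  have hη3 : Real.log (2 * η) ≤ 0 := by linarith
  -- sum up
  have h1 : ∑ i, m i * Real.log ‖aeval (z i) Q‖ ≤
      (∑ i ∈ A, m i) * (Real.log (N + 1) + Real.log T) + N * B +
        (∑ i ∈ Aᶜ, m i) * Real.log (2 * η) := by
    rw [← Finset.sum_add_sum_compl A]
    have h2 := Finset.sum_le_sum hb
    have h3 := Finset.sum_le_sum hg
    rw [Finset.sum_add_distrib, ← Finset.sum_mul, ← Finset.mul_sum] at h2
    rw [← Finset.sum_mul] at h3
    have h4 : ∑ i ∈ A, m i * w i ≤ B :=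
      (Finset.sum_le_sum_of_subset_of_nonneg (Finset.subset_univ _)
        fun i _ _ => mul_nonneg (hm i) (hw0 i)).trans hsum
    have h5 : (N : ℝ) * ∑ i ∈ A, m i * w i ≤ N * B :=
      mul_le_mul_of_nonneg_left h4 (Nat.cast_nonneg N)
    linarith
  have h2 : (∑ i ∈ A, m i) * (Real.log (N + 1) + Real.log T) ≤
      1 / 5 * (Real.log (N + 1) + Real.log T) :=
    mul_le_mul_of_nonneg_right hAw (by linarith)
  have h3 : (∑ i ∈ Aᶜ, m i) * Real.log (2 * η) ≤ 4 / 5 * Real.log (2 * η) := by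
    have h4 : 4 / 5 ≤ ∑ i ∈ Aᶜ, m i := by linarith
    nlinarith
  have h4 : (Q.natDegree : ℝ) * B ≤ N * B :=
    mul_le_mul_of_nonneg_right (by exact_mod_cast hN) hB
  linarith

end Clu

open Clu

theorem cluster (a b : ℝ) (g : ℝ[X])
    (hstar : ∀ d : Fin 3 → ℝ, d ≠ 0 → ∀ S : ℝ,
      {z : ℂ | z ≠ a ∧ z ≠ b ∧ aeval z g ≠ 0 ∧ (∀ l, |Lz a b g z l| ≤ S) ∧
        ∃ s : ℝ, Lz a b g z = s • d}.Finite) (B : ℝ) (hB : 0 ≤ B) :
    ∃ (ε : ℝ) (QQ : Finset ℤ[X]), 0 < ε ∧ (∀ Q ∈ QQ, Q ≠ 0) ∧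
      ∀ (d : Fin 3 → Fin 3 → ℝ), (∀ j, ‖d j‖ = 1) →
      ∀ (ι : Type) [Fintype ι] (m : ι → ℝ) (z : ι → ℂ), (∀ i, 0 ≤ m i) → ∑ i, m i = 1 →
        (∀ i, z i ≠ a ∧ z i ≠ b ∧ aeval (z i) g ≠ 0) →
        (∑ i, m i * (max 0 (Real.log ‖z i‖) + ∑ l, |Lz a b g (z i) l|) ≤ B) →
        (∃ bad : Finset ι, ∑ i ∈ bad, m i ≤ 1 / 10 ∧
          ∀ i ∉ bad, ∃ (j : Fin 3) (s : ℝ), 0 ≤ s ∧
            ∀ l, |Lz a b g (z i) l - s * d j l| ≤ ε) →
        ∃ Q ∈ QQ, (∃ i, aeval (z i) Q = 0) ∨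
          ∑ i, m i * Real.log ‖aeval (z i) Q‖ < -(Q.natDegree * B) := by
  classical
  let DD : Set (Fin 3 → Fin 3 → ℝ) := Set.univ.pi fun _ => Metric.sphere 0 1
  have hDD : IsCompact DD := isCompact_univ_pi fun _ => isCompact_sphere _ _
  have hmemDD : ∀ d : Fin 3 → Fin 3 → ℝ, d ∈ DD ↔ ∀ j, ‖d j‖ = 1 := by
    intro d
    simp only [DD, Set.mem_univ_pi, mem_sphere_zero_iff_norm]
  -- the polynomial for each point of `DD`
  have hloc : ∀ d0 : DD, ∃ (Q : ℤ[X]) (r : ℝ), Q ≠ 0 ∧ 0 < r ∧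
      ∀ (d : Fin 3 → Fin 3 → ℝ), (∀ j, ‖d j‖ = 1) → dist d d0 < r →
      ∀ (ι : Type) [Fintype ι] (m : ι → ℝ) (z : ι → ℂ), (∀ i, 0 ≤ m i) → ∑ i, m i = 1 →
        (∀ i, z i ≠ a ∧ z i ≠ b ∧ aeval (z i) g ≠ 0) →
        (∑ i, m i * (max 0 (Real.log ‖z i‖) + ∑ l, |Lz a b g (z i) l|) ≤ B) →
        (∃ bad : Finset ι, ∑ i ∈ bad, m i ≤ 1 / 10 ∧
          ∀ i ∉ bad, ∃ (j : Fin 3) (s : ℝ), 0 ≤ s ∧
            ∀ l, |Lz a b g (z i) l - s * d j l| ≤ r / 2) →
        (∃ i, aeval (z i) Q = 0) ∨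
          ∑ i, m i * Real.log ‖aeval (z i) Q‖ < -(Q.natDegree * B) := by
    rintro ⟨d0, hd0⟩
    rw [hmemDD] at hd0
    let Z : Set ℂ := ⋃ j : Fin 3, {z : ℂ | z ≠ a ∧ z ≠ b ∧ aeval z g ≠ 0 ∧
      (∀ l, |Lz a b g z l| ≤ 10 * B + 1) ∧ ∃ s : ℝ, Lz a b g z = s • d0 j}
    have hZ : Z.Finite := by
      refine Set.finite_iUnion fun j => hstar (d0 j) ?_ _
      intro h
      have := hd0 j
      rw [h, norm_zero] at this
      exact zero_ne_one this
    obtain ⟨N, _, hNM⟩ := siegelPoly Z hZ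
    obtain ⟨Q, η, T, hQ0, hQN, hη, hT1, hT, hQZ, hM⟩ :=
      hNM (2 * (1 + Real.log (N + 1) + 2 * (N * B)) + 2)
    obtain ⟨r, hr, hnear⟩ := near_rays a b g (10 * B + 1) d0 Q η hη (by
      intro z hz j s hs
      refine hQZ z ?_
      obtain ⟨⟨h1, h2, h3⟩, h4⟩ := of_mem_KS hz
      exact Set.mem_iUnion.2 ⟨j, h1, h2, h3, h4, s, hs⟩)
    refine ⟨Q, r, hQ0, hr, ?_⟩
    intro d hd hdist ι _ m z hm hm1 hz hsum hbad
    obtain ⟨bad, hb1, hb2⟩ := hbad
    by_cases hne : ∃ i, aeval (z i) Q = 0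
    · exact Or.inl hne
    · refine Or.inr ?_
      push Not at hne
      refine average a b g hB hQN hη hT1 hT hM le_rfl ι m z hm hm1 hsum bad hb1 ?_ hne
      intro i hi hl
      obtain ⟨j, s, hs, h⟩ := hb2 i hi
      exact hnear d hd hdist (z i) (mem_KS_of (hz i) hl) j s hs h
  choose Q r hQ0 hr hmain using hloc
  obtain ⟨t, ht⟩ := hDD.elim_nhds_subcover' (fun d0 hd0 => Metric.ball d0 (r ⟨d0, hd0⟩))
    (fun d0 hd0 => Metric.ball_mem_nhds _ (hr _))
  obtain ⟨ε, hε, hεt⟩ := exists_pos_le t (fun d0 => r d0 / 2) (fun d0 _ => half_pos (hr d0))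
  refine ⟨ε, t.image Q, hε, ?_, ?_⟩
  · intro P hP
    rw [Finset.mem_image] at hP
    obtain ⟨d0, _, rfl⟩ := hP
    exact hQ0 d0
  · intro d hd ι _ m z hm hm1 hz hsum hbad
    have h1 := ht ((hmemDD d).2 hd)
    rw [Set.mem_iUnion₂] at h1
    obtain ⟨d0, hd0, hball⟩ := h1
    rw [Metric.mem_ball] at hball
    refine ⟨Q d0, Finset.mem_image_of_mem Q hd0, ?_⟩
    refine hmain d0 d hd hball ι m z hm hm1 hz hsum ?_
    obtain ⟨bad, hb1, hb2⟩ := hbad
    refine ⟨bad, hb1, fun i hi => ?_⟩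
    obtain ⟨j, s, hs, h⟩ := hb2 i hi
    exact ⟨j, s, hs, fun l => (h l).trans (hεt d0 hd0)⟩

end Pool.Agent.Work.MP_7da6af_nt
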