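import Pool.Agent.Work.MP_7da6af_nt.Places

/-! # The line `x + z = 1` -/

set_option autoImplicit false

namespace Pool.Agent.Work.MP_7da6af_nt

open NumberField Polynomial

variable {K : Type} [Field K] [NumberField K]

theorem line_real_one {a b : ℝ} (ha : 0 < a) (hb : 0 < b) (h1 : 1 ≤ a + b)
    (h3 : b ≤ 1 + a) (h4 : a ≤ 1 / 2) : |Real.log b| ≤ Real.log 4 := by
  have h5 : 1 / 2 ≤ b := by linarith
  have h6 : b ≤ 2 := by linarith
  rw [abs_le]
  constructor
  · rw [← Real.log_inv]
    exact Real.log_le_log (by norm_num) (by linarith)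
  · exact Real.log_le_log hb (by linarith)

/-- the archimedean case -/
theorem line_real {a b : ℝ} (ha : 0 < a) (hb : 0 < b) (h1 : 1 ≤ a + b) (h2 : a ≤ 1 + b)
    (h3 : b ≤ 1 + a) : ∃ (j : Fin 3) (s : ℝ), 0 ≤ s ∧
      |Real.log a - s * rho j 0| ≤ Real.log 4 ∧ |Real.log b - s * rho j 1| ≤ Real.log 4 := by
  have hlog4 : 0 ≤ Real.log 4 := Real.log_nonneg (by norm_num)
  by_cases h4 : a ≤ 1 / 2
  · refine ⟨0, -Real.log a, by linarith [Real.log_nonpos ha.le (by linarith : a ≤ 1)], ?_, ?_⟩
    · simpa [rho] using hlog4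
    · simpa [rho] using line_real_one ha hb h1 h3 h4
  by_cases h5 : b ≤ 1 / 2
  · refine ⟨1, -Real.log b, by linarith [Real.log_nonpos hb.le (by linarith : b ≤ 1)], ?_, ?_⟩
    · simpa [rho] using line_real_one hb ha (by linarith) h2 h5
    · simpa [rho] using hlog4
  rw [not_le] at h4 h5
  by_cases h6 : 1 ≤ a
  · refine ⟨2, Real.log a, Real.log_nonneg h6, ?_, ?_⟩
    · simpa [rho] using hlog4
    · have e : Real.log b - Real.log a * rho 2 1 = Real.log b - Real.log a := by simp [rho]
      rw [e, abs_le]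
      constructor
      · have h7 : a ≤ 4 * b := by
          rcases le_or_gt 2 a with h | h <;> linarith
        have h8 := Real.log_le_log ha h7
        rw [Real.log_mul (by norm_num) hb.ne'] at h8
        linarith
      · have h7 : b ≤ 4 * a := by linarith
        have h8 := Real.log_le_log hb h7
        rw [Real.log_mul (by norm_num) ha.ne'] at h8
        linarith
  · rw [not_le] at h6
    refine ⟨2, 0, le_rfl, ?_, ?_⟩
    · rw [zero_mul, sub_zero, abs_le]
      constructor
      · rw [← Real.log_inv]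
        exact Real.log_le_log (by norm_num) (by linarith)
      · exact Real.log_le_log ha (by linarith)
    · rw [zero_mul, sub_zero, abs_le]
      constructor
      · rw [← Real.log_inv]
        exact Real.log_le_log (by norm_num) (by linarith)
      · exact Real.log_le_log hb (by linarith)

/-- the ultrametric case -/
theorem line_ultra {a b : ℝ} (ha : 0 < a) (hb : 0 < b) (h1 : 1 ≤ max a b) (h2 : a ≤ max 1 b)
    (h3 : b ≤ max 1 a) : ∃ (j : Fin 3) (s : ℝ), 0 ≤ s ∧
      |Real.log a - s * rho j 0| ≤ 0 ∧ |Real.log b - s * rho j 1| ≤ 0 := by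
  rcases lt_or_ge a 1 with h4 | h4
  · have h5 : b = 1 := by
      refine le_antisymm (by rwa [max_eq_left h4.le] at h3) ?_
      rcases le_max_iff.1 h1 with h | h
      · exact absurd h (not_le.2 h4)
      · exact h
    refine ⟨0, -Real.log a, by linarith [Real.log_nonpos ha.le h4.le], ?_, ?_⟩
    · simp [rho]
    · simp [rho, h5]
  rcases lt_or_ge b 1 with h5 | h5
  · have h6 : a = 1 := le_antisymm (by rwa [max_eq_left h5.le] at h2) h4
    refine ⟨1, -Real.log b, by linarith [Real.log_nonpos hb.le h5.le], ?_, ?_⟩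
    · simp [rho, h6]
    · simp [rho]
  · have h6 : a = b := by
      rw [max_eq_right h5] at h2
      rw [max_eq_right h4] at h3
      exact le_antisymm h2 h3
    refine ⟨2, Real.log a, Real.log_nonneg h4, ?_, ?_⟩
    · simp [rho]
    · simp [rho, h6]

/-- the logarithmic vector of a point of the line is near one of three rays -/
theorem line_pt {x z : K} (hx : x ≠ 0) (hz : z ≠ 0) (h : x + z = 1) (p : Pl K) :
    ∃ (j : Fin 3) (s : ℝ), 0 ≤ s ∧ |lg p x - s * rho j 0| ≤ ar p * Real.log 4 ∧
      |lg p z - s * rho j 1| ≤ ar p * Real.log 4 := by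
  have hx' : x = 1 + -z := by rw [← h]; ring
  have hz' : z = 1 + -x := by rw [← h]; ring
  have ha : 0 < av p x := (av p).pos hx
  have hb : 0 < av p z := (av p).pos hz
  have hn : ∀ y : K, av p (-y) = av p y := fun y => (av p).map_neg y
  have h1 : av p (1 : K) = 1 := map_one _
  rcases p with v | v
  · have e : ar (Sum.inl v : Pl K) * Real.log 4 = Real.log 4 := one_mul _
    rw [e]
    refine line_real ha hb ?_ ?_ ?_
    · have := av_add_le (Sum.inl v : Pl K) x z
      rwa [h, h1] at this
    · have := av_add_le (Sum.inl v : Pl K) 1 (-z)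
      rwa [← hx', h1, hn] at this
    · have := av_add_le (Sum.inl v : Pl K) 1 (-x)
      rwa [← hz', h1, hn] at this
  · have e : ar (Sum.inr v : Pl K) * Real.log 4 = 0 := zero_mul _
    rw [e]
    refine line_ultra ha hb ?_ ?_ ?_
    · have := av_add_le_max v x z
      rwa [h, h1] at this
    · have := av_add_le_max v 1 (-z)
      rwa [← hx', h1, hn] at this
    · have := av_add_le_max v 1 (-x)
      rwa [← hz', h1, hn] at this

/-- the pointwise estimate -/
theorem line_pointwise {X Z e s t : ℝ} (he : 0 ≤ e) {j : Fin 3} {σ : ℝ} (hσ : 0 ≤ σ)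
    (h1 : |X - σ * rho j 0| ≤ e) (h2 : |Z - σ * rho j 1| ≤ e) :
    max 0 (-s) * max 0 (-X) + max 0 (-t) * max 0 (-Z) + max 0 (s + t) * max 0 X -
      4 * e * (|s| + |t|) ≤ max 0 (s * X + t * Z) ∧ max 0 X ≤ max 0 Z + 2 * e := by
  have hN0 : max 0 (-s) ≤ |s| := max_le (abs_nonneg _) (neg_le_abs _)
  have hN1 : max 0 (-t) ≤ |t| := max_le (abs_nonneg _) (neg_le_abs _)
  have hN2 : max 0 (s + t) ≤ |s| + |t| :=
    max_le (by positivity) (add_le_add (le_abs_self _) (le_abs_self _))
  have hn0 : 0 ≤ max 0 (-s) := le_max_left _ _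
  have hn1 : 0 ≤ max 0 (-t) := le_max_left _ _
  have hn2 : 0 ≤ max 0 (s + t) := le_max_left _ _
  have hs := abs_nonneg s
  have ht := abs_nonneg t
  rw [abs_le] at h1 h2
  -- the linear form is close to its value on the ray
  have key : ∀ A B : ℝ, |X - A| ≤ e → |Z - B| ≤ e →
      s * A + t * B - e * (|s| + |t|) ≤ s * X + t * Z := by
    intro A B hA hB
    have e1 : |s * (X - A)| ≤ |s| * e := by
      rw [abs_mul]; exact mul_le_mul_of_nonneg_left hA hs
    have e2 : |t * (Z - B)| ≤ |t| * e := by
      rw [abs_mul]; exact mul_le_mul_of_nonneg_left hB ht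
    have e3 := neg_abs_le (s * (X - A))
    have e4 := neg_abs_le (t * (Z - B))
    nlinarith
  have hk := key (σ * rho j 0) (σ * rho j 1) (abs_le.2 h1) (abs_le.2 h2)
  have hmax0 : (0 : ℝ) ≤ max 0 (s * X + t * Z) := le_max_left _ _
  have hmax1 : s * X + t * Z ≤ max 0 (s * X + t * Z) := le_max_right _ _
  have hes : 0 ≤ e * (|s| + |t|) := by positivity
  -- bounds of the positive parts
  fin_cases j
  · simp only [rho, Fin.isValue, Fin.zero_eta, Matrix.cons_val_zero, Matrix.cons_val_one,
      Matrix.cons_val_fin_one, mul_neg, mul_one, mul_zero] at h1 h2 hk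
    have b0 : max 0 (-X) ≤ σ + e := max_le (by linarith) (by linarith)
    have b1 : max 0 (-Z) ≤ e := max_le he (by linarith)
    have b2 : max 0 X ≤ e := max_le he (by linarith)
    refine ⟨?_, ?_⟩
    · have c0 := mul_le_mul_of_nonneg_left b0 hn0
      have c1 := mul_le_mul_of_nonneg_left b1 hn1
      have c2 := mul_le_mul_of_nonneg_left b2 hn2
      have d0 := mul_le_mul_of_nonneg_right hN0 he
      have d1 := mul_le_mul_of_nonneg_right hN1 he
      have d2 := mul_le_mul_of_nonneg_right hN2 he
      have m0 : max 0 (-s) * σ - e * (|s| + |t|) ≤ max 0 (s * X + t * Z) := by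
        rcases le_total s 0 with h | h
        · rw [max_eq_right (by linarith : (0 : ℝ) ≤ -s)]; linarith
        · rw [max_eq_left (by linarith : -s ≤ 0)]; linarith
      nlinarith
    · have := le_max_left 0 Z
      linarith
  · simp only [rho, Fin.isValue, Fin.mk_one, Matrix.cons_val_zero, Matrix.cons_val_one,
      Matrix.cons_val_fin_one, mul_neg, mul_one, mul_zero] at h1 h2 hk
    have b0 : max 0 (-X) ≤ e := max_le he (by linarith)
    have b1 : max 0 (-Z) ≤ σ + e := max_le (by linarith) (by linarith)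
    have b2 : max 0 X ≤ e := max_le he (by linarith)
    refine ⟨?_, ?_⟩
    · have c0 := mul_le_mul_of_nonneg_left b0 hn0
      have c1 := mul_le_mul_of_nonneg_left b1 hn1
      have c2 := mul_le_mul_of_nonneg_left b2 hn2
      have d0 := mul_le_mul_of_nonneg_right hN0 he
      have d1 := mul_le_mul_of_nonneg_right hN1 he
      have d2 := mul_le_mul_of_nonneg_right hN2 he
      have m0 : max 0 (-t) * σ - e * (|s| + |t|) ≤ max 0 (s * X + t * Z) := by
        rcases le_total t 0 with h | h
        · rw [max_eq_right (by linarith : (0 : ℝ) ≤ -t)]; linarith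
        · rw [max_eq_left (by linarith : -t ≤ 0)]; linarith
      nlinarith
    · have := le_max_left 0 Z
      linarith
  · simp only [rho, Fin.isValue, Fin.reduceFinMk, Matrix.cons_val, Matrix.cons_val_zero,
      Matrix.cons_val_one, Matrix.cons_val_fin_one, mul_one] at h1 h2 hk
    have b0 : max 0 (-X) ≤ e := max_le he (by linarith)
    have b1 : max 0 (-Z) ≤ e := max_le he (by linarith)
    have b2 : max 0 X ≤ σ + e := max_le (by linarith) (by linarith)
    refine ⟨?_, ?_⟩
    · have c0 := mul_le_mul_of_nonneg_left b0 hn0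
      have c1 := mul_le_mul_of_nonneg_left b1 hn1
      have c2 := mul_le_mul_of_nonneg_left b2 hn2
      have d0 := mul_le_mul_of_nonneg_right hN0 he
      have d1 := mul_le_mul_of_nonneg_right hN1 he
      have d2 := mul_le_mul_of_nonneg_right hN2 he
      have m0 : max 0 (s + t) * σ - e * (|s| + |t|) ≤ max 0 (s * X + t * Z) := by
        rcases le_total (s + t) 0 with h | h
        · rw [max_eq_left h]; linarith
        · rw [max_eq_right h]; linarith
      nlinarith
    · have h3 : σ - e ≤ max 0 Z := le_trans (by linarith) (le_max_right 0 Z)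
      linarith

theorem line_coef (s t : ℝ) :
    max |s| |t| ≤ max 0 (-s) + max 0 (-t) + max 0 (s + t) := by
  have a0 := le_max_left 0 (-s)
  have a1 := le_max_right 0 (-s)
  have b0 := le_max_left 0 (-t)
  have b1 := le_max_right 0 (-t)
  have c0 := le_max_left 0 (s + t)
  have c1 := le_max_right 0 (s + t)
  refine max_le ?_ ?_ <;> rw [abs_le] <;> constructor <;> linarith

/-- heights of monomials on the line -/
theorem line_lower {x z : K} (hx : x ≠ 0) (hz : z ≠ 0) (h : x + z = 1) (s t : ℝ) :
    (hh x - 16 * dg K) * max |s| |t| ≤ plSum K fun p => max 0 (s * lg p x + t * lg p z) := by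
  have hl4 : Real.log 4 < 1.4 := by
    have h1 : Real.log 4 = 2 * Real.log 2 := by
      rw [show (4 : ℝ) = 2 ^ 2 by norm_num, Real.log_pow]; norm_num
    rw [h1]
    linarith [Real.log_two_lt_d9]
  have hl0 : 0 ≤ Real.log 4 := Real.log_nonneg (by norm_num)
  have hpt : ∀ p : Pl K, max 0 (-s) * max 0 (-lg p x) + max 0 (-t) * max 0 (-lg p z) +
      max 0 (s + t) * max 0 (lg p x) - 4 * (ar p * Real.log 4) * (|s| + |t|) ≤
        max 0 (s * lg p x + t * lg p z) ∧
      max 0 (lg p x) ≤ max 0 (lg p z) + 2 * (ar p * Real.log 4) := by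
    intro p
    obtain ⟨j, σ, hσ, h1, h2⟩ := line_pt hx hz h p
    exact line_pointwise (mul_nonneg (ar_nonneg p) hl0) hσ h1 h2
  -- finiteness
  have fnx : FS fun p : Pl K => max 0 (-lg p x) :=
    (fs_lg hx).of_imp fun p hp => by rw [hp, neg_zero, max_self]
  have fnz : FS fun p : Pl K => max 0 (-lg p z) :=
    (fs_lg hz).of_imp fun p hp => by rw [hp, neg_zero, max_self]
  have fx : FS fun p : Pl K => max 0 (lg p x) := fs_max hx
  have fz : FS fun p : Pl K => max 0 (lg p z) := fs_max hz
  have fR : FS fun p : Pl K => max 0 (s * lg p x + t * lg p z) :=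
    (((fs_lg hx).smul s).add ((fs_lg hz).smul t)).of_imp fun p hp => by rw [hp, max_self]
  -- the height of `z`
  have hzx : hh x ≤ hh z + 2 * Real.log 4 * dg K := by
    have h1 := plSum_mono fx (fz.add ((fs_ar (K := K)).smul (2 * Real.log 4)))
      (fun p => by have := (hpt p).2; linarith)
    rw [plSum_add fz ((fs_ar (K := K)).smul _), plSum_smul, plSum_ar] at h1
    exact h1
  -- the main sum
  have hmain : max 0 (-s) * hh x + max 0 (-t) * hh z + max 0 (s + t) * hh x +
      (-(4 * Real.log 4 * (|s| + |t|))) * dg K ≤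
        plSum K fun p => max 0 (s * lg p x + t * lg p z) := by
    have f1 := fnx.smul (max 0 (-s))
    have f2 := fnz.smul (max 0 (-t))
    have f3 := fx.smul (max 0 (s + t))
    have f4 := (fs_ar (K := K)).smul (-(4 * Real.log 4 * (|s| + |t|)))
    have h1 := plSum_mono (((f1.add f2).add f3).add f4) fR
      (fun p => by have := (hpt p).1; linarith)
    rw [plSum_add ((f1.add f2).add f3) f4, plSum_add (f1.add f2) f3, plSum_add f1 f2,
      plSum_smul, plSum_smul, plSum_smul, plSum_smul, plSum_ar, plSum_neg hx, plSum_neg hz] at h1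
    exact h1
  have hcoef := line_coef s t
  have hhx := hh_nonneg x
  have hd := dg_pos (K := K)
  have hN1 : max 0 (-t) ≤ max |s| |t| :=
    (max_le (abs_nonneg _) (neg_le_abs _)).trans (le_max_right _ _)
  have hst : |s| + |t| ≤ 2 * max |s| |t| := by
    linarith [le_max_left |s| |t|, le_max_right |s| |t|]
  have hM : 0 ≤ max |s| |t| := (abs_nonneg s).trans (le_max_left _ _)
  have hn1 : 0 ≤ max 0 (-t) := le_max_left _ _
  have e1 := mul_le_mul_of_nonneg_left hzx hn1
  have e2 := mul_le_mul_of_nonneg_right hcoef hhx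
  have e3 : max 0 (-t) * (2 * Real.log 4 * dg K) ≤ max |s| |t| * (2.8 * dg K) := by
    refine mul_le_mul hN1 ?_ (by positivity) hM
    nlinarith
  have e4 : 4 * Real.log 4 * (|s| + |t|) * dg K ≤ 11.2 * max |s| |t| * dg K := by
    refine mul_le_mul_of_nonneg_right ?_ hd.le
    have : 4 * Real.log 4 * (|s| + |t|) ≤ 4 * Real.log 4 * (2 * max |s| |t|) :=
      mul_le_mul_of_nonneg_left hst (by linarith)
    nlinarith
  have e5 : 0 ≤ max |s| |t| * dg K := by positivity
  nlinarith

end Pool.Agent.Work.MP_7da6af_nt
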