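import Pool.Agent.Work.MP_7da6af_nt.AnomDefs

/-! # Plane curves in a fibre have no isolated points -/

set_option autoImplicit false

namespace Pool.Agent.Work.MP_7da6af_nt.Anom

open MvPolynomial

/-- a polynomial vanishing on the part of an irreducible plane curve in the torus is divisible by
the equation -/
theorem plane_dvd {f : MvPolynomial (Fin 2) Om} (hf : Irreducible f) {a0 b0 : Om} (ha : a0 ≠ 0)
    (hb : b0 ≠ 0) (h0 : eval ![a0, b0] f = 0) (g : MvPolynomial (Fin 2) Om)
    (hg : ∀ a b : Om, a ≠ 0 → b ≠ 0 → eval ![a, b] f = 0 → eval ![a, b] g = 0) : f ∣ g := by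
  have hp : Prime f := hf.prime
  have hpi : (Ideal.span {f}).IsPrime := (Ideal.span_singleton_prime hp.ne_zero).2 hp
  have hmem : (X 0 * X 1 * g : MvPolynomial (Fin 2) Om) ∈
      vanishingIdeal Om (zeroLocus Om (Ideal.span {f})) := by
    rw [mem_vanishingIdeal_iff]
    intro x hx
    have hev : ∀ p : MvPolynomial (Fin 2) Om, aeval x p = eval x p := fun p =>
      RingHom.congr_fun (coe_aeval_eq_eval x) p
    have h1 : eval x f = 0 := by
      have := hx f (Ideal.mem_span_singleton_self f)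
      rwa [hev] at this
    have hx2 : x = ![x 0, x 1] := by
      funext i; fin_cases i <;> rfl
    rw [hev]
    simp only [map_mul, eval_X]
    by_cases h2 : x 0 = 0
    · rw [h2]; ring
    by_cases h3 : x 1 = 0
    · rw [h3]; ring
    have h4 : eval x g = 0 := by
      rw [hx2] at h1 ⊢
      exact hg _ _ h2 h3 h1
    rw [h4]; ring
  rw [MvPolynomial.IsPrime.vanishingIdeal_zeroLocus, Ideal.mem_span_singleton] at hmem
  rcases hp.dvd_or_dvd hmem with h | h
  · exfalso
    rcases hp.dvd_or_dvd h with ⟨c, hc⟩ | ⟨c, hc⟩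
    · have := congrArg (eval ![a0, b0]) hc
      simp [h0] at this
      exact ha this
    · have := congrArg (eval ![a0, b0]) hc
      simp [h0] at this
      exact hb this
  · exact h

/-- restriction of a polynomial to a fibre -/
noncomputable def sp (P : Tor) : MvPolynomial (Fin 5) Om →ₐ[Om] MvPolynomial (Fin 2) Om :=
  aeval ![X 0, X 1, C (P.co 2), C (P.co 3), C (P.co 4)]

theorem eval_sp (P : Tor) (A : MvPolynomial (Fin 5) Om) (a b : Om) :
    eval ![a, b] (sp P A) = eval ![a, b, P.co 2, P.co 3, P.co 4] A := by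
  have h : (eval ![a, b]).comp (sp P : MvPolynomial (Fin 5) Om →+* MvPolynomial (Fin 2) Om) =
      eval ![a, b, P.co 2, P.co 3, P.co 4] := by
    apply MvPolynomial.ringHom_ext
    · intro c
      simp
    · intro i
      fin_cases i <;> simp [sp]
  exact RingHom.congr_fun h A

theorem co_eq {P q : Tor} (h : ∀ l : Fin 3, q.co (Fin.natAdd 2 l) = P.co (Fin.natAdd 2 l)) :
    q.co = ![q.co 0, q.co 1, P.co 2, P.co 3, P.co 4] := by
  funext i
  fin_cases i
  · rfl
  · rfl
  · exact h 0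
  · exact h 1
  · exact h 2

/-- the point of the fibre with given first two coordinates -/
theorem exists_pt (P : Tor) {a b : Om} (ha : a ≠ 0) (hb : b ≠ 0) :
    ∃ q : Tor, q.co 0 = a ∧ q.co 1 = b ∧
      ∀ l : Fin 3, q.co (Fin.natAdd 2 l) = P.co (Fin.natAdd 2 l) := by
  refine ⟨(show Tor from (![Units.mk0 a ha, Units.mk0 b hb, (show Fin 5 → Omˣ from P) 2,
    (show Fin 5 → Omˣ from P) 3, (show Fin 5 → Omˣ from P) 4] : Fin 5 → Omˣ)), rfl, rfl, ?_⟩
  intro l
  fin_cases l <;> rfl

/-- A zero `P` of a polynomial in the first two coordinates lies on an irreducible closed set of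
positive dimension consisting of zeros with the same last three coordinates. -/
theorem plane_comp (P : Tor) (f : MvPolynomial (Fin 2) Om)
    (hf : eval ![P.co 0, P.co 1] f = 0) :
    ∃ Z : Set Tor, IsIrreducible Z ∧ IsClosed Z ∧ P ∈ Z ∧ Z ≠ {P} ∧
      ∀ q ∈ Z, (∀ l : Fin 3, q.co (Fin.natAdd 2 l) = P.co (Fin.natAdd 2 l)) ∧
        eval ![q.co 0, q.co 1] f = 0 := by
  classical
  have hP0 : P.co 0 ≠ 0 := Units.ne_zero _
  have hP1 : P.co 1 ≠ 0 := Units.ne_zero _
  -- an irreducible factor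
  obtain ⟨f1, hf1, hf10, hdvd⟩ : ∃ f1 : MvPolynomial (Fin 2) Om, Irreducible f1 ∧
      eval ![P.co 0, P.co 1] f1 = 0 ∧ f1 ∣ f := by
    have key : ∀ g : MvPolynomial (Fin 2) Om, g ≠ 0 → eval ![P.co 0, P.co 1] g = 0 →
        ∃ f1 : MvPolynomial (Fin 2) Om, Irreducible f1 ∧ eval ![P.co 0, P.co 1] f1 = 0 ∧
          f1 ∣ g := by
      intro g hg0
      induction g using WfDvdMonoid.induction_on_irreducible with
      | zero => exact absurd rfl hg0
      | unit u hu =>
        intro h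
        exfalso
        have := hu.map (eval ![P.co 0, P.co 1])
        rw [h] at this
        exact not_isUnit_zero this
      | mul a i ha hi ih =>
        intro h
        rw [map_mul] at h
        rcases mul_eq_zero.1 h with h | h
        · exact ⟨i, hi, h, Dvd.intro _ rfl⟩
        · obtain ⟨f1, h1, h2, h3⟩ := ih ha h
          exact ⟨f1, h1, h2, h3.mul_left _⟩
    by_cases h0 : f = 0
    · obtain ⟨f1, h1, h2, -⟩ := key (X 0 - C (P.co 0)) (by
        intro h
        have := congrArg (eval ![P.co 0 + 1, P.co 1]) h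
        simp at this) (by simp)
      exact ⟨f1, h1, h2, by rw [h0]; exact dvd_zero _⟩
    · exact key f h0 hf
  set Z : Set Tor := {q | (∀ l : Fin 3, q.co (Fin.natAdd 2 l) = P.co (Fin.natAdd 2 l)) ∧
    eval ![q.co 0, q.co 1] f1 = 0} with hZ
  have hPZ : P ∈ Z := ⟨fun _ => rfl, hf10⟩
  have hdv : ∀ A : MvPolynomial (Fin 5) Om, (∀ q ∈ Z, eval q.co A = 0) → f1 ∣ sp P A := by
    intro A hA
    refine plane_dvd hf1 hP0 hP1 hf10 _ ?_
    intro a b ha hb hab
    obtain ⟨q, hq0, hq1, hq⟩ := exists_pt P ha hb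
    have := hA q ⟨hq, by rw [hq0, hq1]; exact hab⟩
    rw [co_eq hq, hq0, hq1] at this
    rw [eval_sp]; exact this
  have hvd : ∀ A : MvPolynomial (Fin 5) Om, f1 ∣ sp P A → ∀ q ∈ Z, eval q.co A = 0 := by
    rintro A ⟨c, hc⟩ q ⟨hq, hq2⟩
    rw [co_eq hq, ← eval_sp, hc, map_mul, hq2, zero_mul]
  refine ⟨Z, ⟨⟨P, hPZ⟩, ?_⟩, ?_, hPZ, ?_, ?_⟩
  · rw [isPreirreducible_iff_isClosed_union_isClosed]
    intro A B hA hB hAB
    by_contra hcon
    push Not at hcon
    obtain ⟨h1, h2⟩ := hcon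
    obtain ⟨I, rfl⟩ := (isClosed_iff A).mp hA
    obtain ⟨J, rfl⟩ := (isClosed_iff B).mp hB
    rw [Set.not_subset] at h1 h2
    obtain ⟨q1, hq1, hq1'⟩ := h1
    obtain ⟨q2, hq2, hq2'⟩ := h2
    simp only [zLoc, Set.mem_ofPred_eq, not_forall] at hq1' hq2'
    obtain ⟨g1, hg1, hgq1⟩ := hq1'
    obtain ⟨g2, hg2, hgq2⟩ := hq2'
    have h3 : f1 ∣ sp P (g1 * g2) := by
      apply hdv
      intro q hq
      rw [map_mul]
      rcases hAB hq with h | h
      · rw [h g1 hg1, zero_mul]
      · rw [h g2 hg2, mul_zero]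
    rw [map_mul] at h3
    rcases hf1.prime.dvd_or_dvd h3 with h4 | h4
    · exact hgq1 (hvd _ h4 _ hq1)
    · exact hgq2 (hvd _ h4 _ hq2)
  · rw [isClosed_iff]
    refine ⟨(Set.range fun l : Fin 3 => X (Fin.natAdd 2 l) - C (P.co (Fin.natAdd 2 l))) ∪
      {rename (Fin.castAdd 3) f1}, ?_⟩
    ext q
    have h5 : eval q.co (rename (Fin.castAdd 3) f1) = eval ![q.co 0, q.co 1] f1 := by
      rw [eval_rename]
      congr 1
      congr 1
      funext i
      fin_cases i <;> rfl
    simp only [zLoc, Set.mem_ofPred_eq, Set.mem_union, Set.mem_range, Set.mem_singleton_iff, hZ]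
    constructor
    · intro h
      refine ⟨fun l => ?_, ?_⟩
      · have := h _ (Or.inl ⟨l, rfl⟩)
        simpa [sub_eq_zero] using this
      · rw [← h5]; exact h _ (Or.inr rfl)
    · rintro ⟨h6, h7⟩ g (⟨l, rfl⟩ | rfl)
      · simp [h6 l]
      · rw [h5]; exact h7
  · intro hZP
    have hq : ∀ a b : Om, a ≠ 0 → b ≠ 0 → eval ![a, b] f1 = 0 → a = P.co 0 ∧ b = P.co 1 := by
      intro a b ha hb hab
      obtain ⟨q, hq0, hq1, hq⟩ := exists_pt P ha hb
      have : q ∈ Z := ⟨hq, by rw [hq0, hq1]; exact hab⟩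
      rw [hZP, Set.mem_singleton_iff] at this
      rw [← hq0, ← hq1, this]
      exact ⟨rfl, rfl⟩
    have hd0 : f1 ∣ X 0 - C (P.co 0) := by
      refine plane_dvd hf1 hP0 hP1 hf10 _ ?_
      intro a b ha hb hab
      simp [(hq a b ha hb hab).1]
    have hd1 : f1 ∣ X 1 - C (P.co 1) := by
      refine plane_dvd hf1 hP0 hP1 hf10 _ ?_
      intro a b ha hb hab
      simp [(hq a b ha hb hab).2]
    have htd : f1.totalDegree ≠ 0 := by
      intro h
      rw [totalDegree_eq_zero_iff_eq_C] at h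
      rw [h, eval_C] at hf10
      rw [hf10, C_0] at h
      exact hf1.ne_zero h
    have hx : ∀ (i : Fin 2) (c : Om), (X i - C c : MvPolynomial (Fin 2) Om) ≠ 0 := by
      intro i c h
      have := congrArg (eval fun _ => c + 1) h
      simp at this
    have htx : ∀ (i : Fin 2) (c : Om), (X i - C c : MvPolynomial (Fin 2) Om).totalDegree ≤ 1 := by
      intro i c
      refine (totalDegree_sub_C_le _ _).trans ?_
      exact (totalDegree_X _).le
    have hcst : ∀ (i : Fin 2) (c : Om), f1 ∣ X i - C c → ∃ u : Om, X i - C c = f1 * C u := by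
      rintro i c ⟨u, hu⟩
      have hu0 : u ≠ 0 := by
        rintro rfl
        rw [mul_zero] at hu
        exact hx i c hu
      have h6 := totalDegree_mul_of_isDomain hf1.ne_zero hu0
      rw [← hu] at h6
      have h7 := htx i c
      have h8 : u.totalDegree = 0 := by omega
      rw [totalDegree_eq_zero_iff_eq_C] at h8
      exact ⟨_, by rw [hu]; nth_rewrite 1 [h8]; rfl⟩
    obtain ⟨u, hu⟩ := hcst 0 _ hd0
    obtain ⟨v, hv⟩ := hcst 1 _ hd1
    have h9 : (X 0 - C (P.co 0)) * C v = (X 1 - C (P.co 1)) * (C u : MvPolynomial (Fin 2) Om) := by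
      rw [hu, hv]; ring
    have h10 := congrArg (eval ![P.co 0, P.co 1 + 1]) h9
    simp at h10
    rw [← h10, C_0, mul_zero] at hu
    exact hx _ _ hu
  · rintro q ⟨hq1, hq2⟩
    refine ⟨hq1, ?_⟩
    obtain ⟨c, rfl⟩ := hdvd
    rw [map_mul, hq2, zero_mul]

end Pool.Agent.Work.MP_7da6af_nt.Anom
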