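import Mathlib

/-! # Bounded height on surfaces in a five dimensional torus: definitions

Sums over the places of a number field.
-/

set_option autoImplicit false

namespace Pool.Agent.Work.MP_7da6af_nt

open NumberField Polynomial

/-- the places of a number field -/
abbrev Pl (K : Type) [Field K] [NumberField K] : Type := InfinitePlace K ⊕ FinitePlace K

section

variable {K : Type} [Field K] [NumberField K]

/-- the absolute value of a place -/
def av (p : Pl K) : AbsoluteValue K ℝ :=
  match p with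
  | Sum.inl v => v.1
  | Sum.inr v => v.1

/-- the weight of a place in the product formula -/
noncomputable def wt (p : Pl K) : ℝ :=
  match p with
  | Sum.inl v => (v.mult : ℝ)
  | Sum.inr _ => 1

/-- `1` at the archimedean places, `0` at the others -/
def ar (p : Pl K) : ℝ :=
  match p with
  | Sum.inl _ => 1
  | Sum.inr _ => 0

/-- the logarithm of the absolute value -/
noncomputable def lg (p : Pl K) (x : K) : ℝ := Real.log (av p x)

end

/-- the weighted sum over all places -/
noncomputable def plSum (K : Type) [Field K] [NumberField K] (F : Pl K → ℝ) : ℝ :=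
  ∑ᶠ p : Pl K, wt p * F p

/-- finite support -/
def FS {K : Type} [Field K] [NumberField K] (F : Pl K → ℝ) : Prop := (Function.support F).Finite

/-- the degree -/
noncomputable def dg (K : Type) [Field K] [NumberField K] : ℝ := (Module.finrank ℚ K : ℝ)

/-- `[K : ℚ]` times the absolute logarithmic height -/
noncomputable def hh {K : Type} [Field K] [NumberField K] (x : K) : ℝ :=
  plSum K fun p => max 0 (lg p x)

/-- the three rays of the line `x + z = 1` -/
def rho : Fin 3 → Fin 2 → ℝ := ![![-1, 0], ![0, -1], ![1, 1]]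

/-- the logarithmic vector of the curve `y ↦ (y - a, y - b, g y)` over the complex numbers -/
noncomputable def Lz (a b : ℝ) (g : ℝ[X]) (z : ℂ) : Fin 3 → ℝ :=
  ![Real.log ‖z - a‖, Real.log ‖z - b‖, Real.log ‖aeval z g‖]

/-- the coordinates of the curve `y ↦ (y - a, y - b, g y)` over a number field -/
noncomputable def cu (a b : ℚ) (g : ℚ[X]) {K : Type} [Field K] [NumberField K] (y : K) : Fin 3 → K :=
  ![y - algebraMap ℚ K a, y - algebraMap ℚ K b, aeval y g]

/-- a monomial with integer exponents -/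
noncomputable def mon {n : ℕ} {K : Type} [Field K] (t : Fin n → K) (k : Fin n → ℤ) : K :=
  ∏ j, t j ^ k j

/-- the constants at a place: `ar p + ∑ |log |q|_p|` -/
noncomputable def cst {K : Type} [Field K] [NumberField K] (S : Finset ℚ) (p : Pl K) : ℝ :=
  ar p + ∑ q ∈ S, |lg p (algebraMap ℚ K q)|

/-- the data of the surface `u(y) x + v(y) z = w(y)` in the torus, with the last three coordinates
`y - a`, `y - b`, `g(y)` -/
structure Dat where
  a : ℚ
  b : ℚ
  g : ℚ[X]
  u : ℚ[X]
  v : ℚ[X]
  w : ℚ[X]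
  hab : a ≠ b
  hg : 0 < g.natDegree
  hga : g.eval a ≠ 0
  hgb : g.eval b ≠ 0
  hu : u ≠ 0
  hv : v ≠ 0
  hw : w ≠ 0
  hcrit : ∀ z1 z2 : ℂ, z1 + z2 = (a : ℂ) + (b : ℂ) → z1 * z2 = 1 + (a : ℂ) * (b : ℂ) →
    aeval z1 g * aeval z2 g ≠ 1

/-- the points which are studied -/
structure Pt (D : Dat) (K : Type) [Field K] [NumberField K] (x z y : K) : Prop where
  hx : x ≠ 0
  hz : z ≠ 0
  hcu : ∀ j, cu D.a D.b D.g y j ≠ 0
  hu : aeval y D.u ≠ 0
  hv : aeval y D.v ≠ 0
  hw : aeval y D.w ≠ 0
  heq : aeval y D.u * x + aeval y D.v * z = aeval y D.w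
  rel : ∃ k : Fin 3 → ℤ, k ≠ 0 ∧ mon (cu D.a D.b D.g y) k = 1
  dep : ∃ m : ℕ, 0 < m ∧ (∃ c : Fin 3 → ℤ, x ^ m = mon (cu D.a D.b D.g y) c) ∧
    ∃ d : Fin 3 → ℤ, z ^ m = mon (cu D.a D.b D.g y) d

/-- sublinear functions -/
structure Sublin {E : Type} [AddCommGroup E] [Module ℝ E] (P : E → ℝ) : Prop where
  smul : ∀ t : ℝ, 0 ≤ t → ∀ u, P (t • u) = t * P u
  add : ∀ u v, P (u + v) ≤ P u + P v

end Pool.Agent.Work.MP_7da6af_nt
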