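import Pool.Agent.Work.MP_7da6af_nt.Defs

/-! # A line through the origin meets the amoeba of the curve in finitely many points -/

set_option autoImplicit false

namespace Pool.Agent.Work.MP_7da6af_nt

open Polynomial

/-- `z ^ n = (ab e f n).1 * z + (ab e f n).2` if `z ^ 2 = f * z - e` -/
def ab (e f : ℝ) : ℕ → ℝ × ℝ
  | 0 => (0, 1)
  | n + 1 => ((ab e f n).1 * f + (ab e f n).2, -((ab e f n).1 * e))

theorem pow_ab {e f : ℝ} {z : ℂ} (hz : z ^ 2 = f * z - e) (n : ℕ) :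
    z ^ n = ((ab e f n).1 : ℂ) * z + ((ab e f n).2 : ℂ) := by
  induction n with
  | zero => simp [ab]
  | succ n ih =>
    rw [pow_succ, ih, ab]
    push_cast
    linear_combination ((ab e f n).1 : ℂ) * hz

/-- the two coefficients of `g z` -/
noncomputable def gA (g : ℝ[X]) (e f : ℝ) : ℝ :=
  ∑ n ∈ Finset.range (g.natDegree + 1), g.coeff n * (ab e f n).1

noncomputable def gB (g : ℝ[X]) (e f : ℝ) : ℝ :=
  ∑ n ∈ Finset.range (g.natDegree + 1), g.coeff n * (ab e f n).2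

theorem aeval_ab (g : ℝ[X]) {e f : ℝ} {z : ℂ} (hz : z ^ 2 = f * z - e) :
    aeval z g = (gA g e f : ℂ) * z + (gB g e f : ℂ) := by
  rw [aeval_eq_sum_range, gA, gB]
  push_cast
  rw [Finset.sum_mul, ← Finset.sum_add_distrib]
  refine Finset.sum_congr rfl fun n _ => ?_
  rw [pow_ab hz, Complex.real_smul]
  ring

/-- the square of the absolute value of `g z` -/
noncomputable def gG (g : ℝ[X]) (e f : ℝ) : ℝ :=
  gA g e f ^ 2 * e + gA g e f * gB g e f * f + gB g e f ^ 2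

theorem gG_mul (g : ℝ[X]) {e f : ℝ} {z1 z2 : ℂ} (h1 : z1 + z2 = f) (h2 : z1 * z2 = e) :
    aeval z1 g * aeval z2 g = (gG g e f : ℂ) := by
  have e1 : z1 ^ 2 = f * z1 - e := by rw [← h1, ← h2]; ring
  have e2 : z2 ^ 2 = f * z2 - e := by rw [← h1, ← h2]; ring
  rw [aeval_ab g e1, aeval_ab g e2, gG]
  push_cast
  rw [← h1, ← h2]
  ring

theorem gG_norm (g : ℝ[X]) (z : ℂ) : ‖aeval z g‖ ^ 2 = gG g (‖z‖ ^ 2) (2 * z.re) := by
  have h1 : z + (starRingEnd ℂ) z = ((2 * z.re : ℝ) : ℂ) := by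
    rw [Complex.add_conj]
  have h2 : z * (starRingEnd ℂ) z = ((‖z‖ ^ 2 : ℝ) : ℂ) := by
    rw [Complex.mul_conj, Complex.normSq_eq_norm_sq]
  have h3 := gG_mul g h1 h2
  rw [aeval_conj, Complex.mul_conj, Complex.normSq_eq_norm_sq] at h3
  exact_mod_cast h3

theorem analytic_ab {E F : ℝ → ℝ} (hE : AnalyticOnNhd ℝ E Set.univ)
    (hF : AnalyticOnNhd ℝ F Set.univ) (n : ℕ) :
    AnalyticOnNhd ℝ (fun s => (ab (E s) (F s) n).1) Set.univ ∧
      AnalyticOnNhd ℝ (fun s => (ab (E s) (F s) n).2) Set.univ := by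
  induction n with
  | zero => exact ⟨analyticOnNhd_const, analyticOnNhd_const⟩
  | succ n ih =>
    simp only [ab]
    exact ⟨(ih.1.mul hF).add ih.2, (ih.1.mul hE).neg⟩

theorem analytic_gG (g : ℝ[X]) {E F : ℝ → ℝ} (hE : AnalyticOnNhd ℝ E Set.univ)
    (hF : AnalyticOnNhd ℝ F Set.univ) :
    AnalyticOnNhd ℝ (fun s => gG g (E s) (F s)) Set.univ := by
  have h1 : AnalyticOnNhd ℝ (fun s => gA g (E s) (F s)) Set.univ := by
    unfold gA
    exact Finset.analyticOnNhd_fun_sum _ fun n _ => analyticOnNhd_const.mul (analytic_ab hE hF n).1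
  have h2 : AnalyticOnNhd ℝ (fun s => gB g (E s) (F s)) Set.univ := by
    unfold gB
    exact Finset.analyticOnNhd_fun_sum _ fun n _ => analyticOnNhd_const.mul (analytic_ab hE hF n).2
  unfold gG
  exact (((h1.pow 2).mul hE).add ((h1.mul h2).mul hF)).add (h2.pow 2)

/-- a nonzero analytic function has finitely many zeros in an interval -/
theorem finite_zeros {Φ : ℝ → ℝ} (hΦ : AnalyticOnNhd ℝ Φ Set.univ) (h0 : Φ 0 ≠ 0) (R : ℝ) :
    {s : ℝ | |s| ≤ R ∧ Φ s = 0}.Finite := by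
  by_contra hinf
  obtain ⟨x, -, hx⟩ := Set.Infinite.exists_accPt_of_subset_isCompact (K := Set.Icc (-R) R)
    hinf isCompact_Icc (fun s hs => abs_le.1 hs.1)
  have h1 : ∃ᶠ s in nhdsWithin x {x}ᶜ, Φ s = 0 := by
    have h2 := accPt_iff_frequently_nhdsNE.1 hx
    exact h2.mono fun s hs => hs.2
  exact h0 (hΦ.eqOn_zero_of_preconnected_of_frequently_eq_zero isPreconnected_univ
    (Set.mem_univ x) h1 (Set.mem_univ 0))

/-- finitely many complex numbers have a given real part and absolute value -/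
theorem finite_re_norm (e f : ℝ) : {z : ℂ | ‖z‖ ^ 2 = e ∧ 2 * z.re = f}.Finite := by
  have h1 : {z : ℂ | ‖z‖ ^ 2 = e ∧ 2 * z.re = f} ⊆
      {(⟨f / 2, √(e - f ^ 2 / 4)⟩ : ℂ), (⟨f / 2, -√(e - f ^ 2 / 4)⟩ : ℂ)} := by
    rintro z ⟨h2, h3⟩
    rw [← Complex.normSq_eq_norm_sq, Complex.normSq_apply] at h2
    have h4 : z.im ^ 2 = e - f ^ 2 / 4 := by
      rw [← h2, ← h3]
      ring
    have h5 : √(e - f ^ 2 / 4) = |z.im| := by
      rw [← h4, Real.sqrt_sq_eq_abs]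
    rw [h5]
    simp only [Set.mem_insert_iff, Set.mem_singleton_iff, Complex.ext_iff]
    rcases le_total 0 z.im with h | h
    · left
      exact ⟨by linarith, (abs_of_nonneg h).symm⟩
    · right
      refine ⟨by linarith, ?_⟩
      rw [abs_of_nonpos h, neg_neg]
  exact Set.Finite.subset (Set.toFinite _) h1

theorem star (a b : ℝ) (hab : a ≠ b) (g : ℝ[X])
    (hcrit : ∀ z1 z2 : ℂ, z1 + z2 = (a : ℂ) + (b : ℂ) → z1 * z2 = 1 + (a : ℂ) * (b : ℂ) →
      aeval z1 g * aeval z2 g ≠ 1) (d : Fin 3 → ℝ) (hd : d ≠ 0) (S : ℝ) :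
    {z : ℂ | z ≠ a ∧ z ≠ b ∧ aeval z g ≠ 0 ∧ (∀ l, |Lz a b g z l| ≤ S) ∧
      ∃ s : ℝ, Lz a b g z = s • d}.Finite := by
  have hba : b - a ≠ 0 := sub_ne_zero.2 hab.symm
  -- the two symmetric functions along the line
  set F : ℝ → ℝ := fun s => (Real.exp (2 * d 0 * s) - Real.exp (2 * d 1 * s) - a ^ 2 + b ^ 2) /
    (b - a) with hF
  set E : ℝ → ℝ := fun s => Real.exp (2 * d 0 * s) + a * F s - a ^ 2 with hE
  have hexp : ∀ c : ℝ, AnalyticOnNhd ℝ (fun s : ℝ => Real.exp (c * s)) Set.univ := by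
    intro c s _
    exact (analyticAt_const.mul analyticAt_id).rexp
  have hFan : AnalyticOnNhd ℝ F Set.univ := by
    rw [hF]
    have h1 : AnalyticOnNhd ℝ (fun s : ℝ => (Real.exp (2 * d 0 * s) - Real.exp (2 * d 1 * s) -
      a ^ 2 + b ^ 2) * (b - a)⁻¹) Set.univ :=
      ((((hexp _).sub (hexp _)).sub analyticOnNhd_const).add analyticOnNhd_const).mul
        analyticOnNhd_const
    exact h1
  have hEan : AnalyticOnNhd ℝ E Set.univ := by
    rw [hE]
    exact ((hexp _).add (analyticOnNhd_const.mul hFan)).sub analyticOnNhd_const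
  set Φ : ℝ → ℝ := fun s => gG g (E s) (F s) - Real.exp (2 * d 2 * s) with hΦ
  have hΦan : AnalyticOnNhd ℝ Φ Set.univ := (analytic_gG g hEan hFan).sub (hexp _)
  have hΦ0 : Φ 0 ≠ 0 := by
    have hF0 : F 0 = a + b := by
      simp only [hF, mul_zero, Real.exp_zero, sub_self, zero_sub]
      field_simp
      ring
    have hE0 : E 0 = 1 + a * b := by
      simp only [hE, hF0, mul_zero, Real.exp_zero]
      ring
    -- two roots
    obtain ⟨w, hw⟩ := IsAlgClosed.exists_pow_nat_eq (k := ℂ)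
      (((a : ℂ) + b) ^ 2 - 4 * (1 + a * b)) (n := 2) (by norm_num)
    have h1 : ((a : ℂ) + b + w) / 2 + ((a : ℂ) + b - w) / 2 = (a : ℂ) + b := by ring
    have h2 : ((a : ℂ) + b + w) / 2 * (((a : ℂ) + b - w) / 2) = 1 + (a : ℂ) * b := by
      have : ((a : ℂ) + b + w) / 2 * (((a : ℂ) + b - w) / 2) = (((a : ℂ) + b) ^ 2 - w ^ 2) / 4 := by
        ring
      rw [this, hw]
      ring
    have h3 := hcrit _ _ h1 h2
    have h4 := gG_mul g (e := 1 + a * b) (f := a + b) (by push_cast; exact h1)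
      (by push_cast; exact h2)
    rw [h4] at h3
    simp only [hΦ, hF0, hE0, mul_zero, Real.exp_zero]
    intro h5
    apply h3
    have : gG g (1 + a * b) (a + b) = 1 := by linarith
    rw [this]
    norm_num
  -- the bound for `s`
  obtain ⟨l, hl⟩ : ∃ l, d l ≠ 0 := Function.ne_iff.1 hd
  have hfin := finite_zeros hΦan hΦ0 (S / |d l|)
  refine Set.Finite.subset (hfin.biUnion fun s _ => finite_re_norm (E s) (F s)) ?_
  rintro z ⟨hza, hzb, hzg, hS, s, hs⟩
  have hpos : ∀ w : ℂ, w ≠ 0 → Real.exp (2 * Real.log ‖w‖) = ‖w‖ ^ 2 := by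
    intro w hw
    have : 0 < ‖w‖ := norm_pos_iff.2 hw
    rw [two_mul, Real.exp_add, Real.exp_log this, sq]
  have h0 : Real.log ‖z - a‖ = s * d 0 := congrFun hs 0
  have h1 : Real.log ‖z - b‖ = s * d 1 := congrFun hs 1
  have h2 : Real.log ‖aeval z g‖ = s * d 2 := congrFun hs 2
  have p0 : Real.exp (2 * d 0 * s) = ‖z - a‖ ^ 2 := by
    rw [← hpos _ (sub_ne_zero.2 hza), h0]
    congr 1
    ring
  have p1 : Real.exp (2 * d 1 * s) = ‖z - b‖ ^ 2 := by
    rw [← hpos _ (sub_ne_zero.2 hzb), h1]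
    congr 1
    ring
  have p2 : Real.exp (2 * d 2 * s) = ‖aeval z g‖ ^ 2 := by
    rw [← hpos _ hzg, h2]
    congr 1
    ring
  have q : ∀ c : ℝ, ‖z - c‖ ^ 2 = ‖z‖ ^ 2 - 2 * c * z.re + c ^ 2 := by
    intro c
    rw [← Complex.normSq_eq_norm_sq, ← Complex.normSq_eq_norm_sq, Complex.normSq_apply,
      Complex.normSq_apply]
    simp
    ring
  have hFz : F s = 2 * z.re := by
    simp only [hF]
    rw [p0, p1, q, q, div_eq_iff hba]
    ring
  have hEz : E s = ‖z‖ ^ 2 := by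
    simp only [hE]
    rw [hFz, p0, q]
    ring
  refine Set.mem_biUnion (x := s) ⟨?_, ?_⟩ ⟨hEz.symm, hFz.symm⟩
  · have h3 := hS l
    rw [hs, Pi.smul_apply, smul_eq_mul, abs_mul] at h3
    rw [le_div_iff₀ (abs_pos.2 hl)]
    exact h3
  · simp only [hΦ]
    rw [hFz, hEz, p2, gG_norm]
    ring

end Pool.Agent.Work.MP_7da6af_nt
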