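import Pool.Agent.Work.MP_7da6af_nt.Near
import Pool.Agent.Work.MP_7da6af_nt.Star
import Pool.Agent.Work.MP_7da6af_nt.Cluster
import Pool.Agent.Work.MP_7da6af_nt.Hts
import Pool.Agent.Work.MP_7da6af_nt.Arch

/-! # Large height: finitely many minimal polynomials -/

set_option autoImplicit false

namespace Pool.Agent.Work.MP_7da6af_nt

open NumberField Polynomial

theorem degree (D : Dat) : ∃ (H : ℝ) (S : Finset ℚ[X]),
    ∀ (K : Type) [Field K] [NumberField K] (x z y : K), Pt D K x z y → H * dg K ≤ hh x →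
      minpoly ℚ y ∈ S := by
  classical
  obtain ⟨B, hB, hc2⟩ := c2height D
  obtain ⟨B', hB', hcu⟩ := cu_height D B
  have hB1 : 0 ≤ B + 6 * B' := by positivity
  let gR : ℝ[X] := D.g.map (algebraMap ℚ ℝ)
  have hgR : ∀ z : ℂ, aeval z gR = aeval z D.g := fun z => aeval_map_algebraMap ℝ z D.g
  have hab : (D.a : ℝ) ≠ (D.b : ℝ) := by exact_mod_cast D.hab
  obtain ⟨ε, QQ, hε, hQQ, hcl⟩ := cluster (D.a : ℝ) (D.b : ℝ) gR (fun d hd S =>
    star (D.a : ℝ) (D.b : ℝ) hab gR (fun z1 z2 h1 h2 => by
      rw [hgR, hgR]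
      exact D.hcrit z1 z2 (by simpa using h1) (by simpa using h2)) d hd S) (B + 6 * B') hB1
  obtain ⟨H, hnear⟩ := near D ε hε
  refine ⟨H, QQ.biUnion fun Q => (UniqueFactorizationMonoid.normalizedFactors
    (Q.map (Int.castRingHom ℚ))).toFinset, fun K _ _ x z y h hH => ?_⟩
  -- it suffices to find a `Q` which vanishes at `y`
  have key : ∀ Q ∈ QQ, aeval y Q = 0 → minpoly ℚ y ∈ QQ.biUnion fun Q =>
      (UniqueFactorizationMonoid.normalizedFactors (Q.map (Int.castRingHom ℚ))).toFinset := by
    intro Q hQ hQy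
    have hint : IsIntegral ℚ y := Algebra.IsIntegral.isIntegral y
    have hne : Q.map (Int.castRingHom ℚ) ≠ 0 :=
      (Polynomial.map_ne_zero_iff (Int.cast_injective)).mpr (hQQ Q hQ)
    refine Finset.mem_biUnion.mpr ⟨Q, hQ, Multiset.mem_toFinset.mpr ?_⟩
    rw [Polynomial.mem_normalizedFactors_iff hne]
    refine ⟨minpoly.irreducible hint, minpoly.monic hint, minpoly.dvd ℚ y ?_⟩
    have h1 : aeval y (Q.map (algebraMap ℤ ℚ)) = aeval y Q := aeval_map_algebraMap ℚ y Q
    rw [← hQy, ← h1]
    rfl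
  obtain ⟨d, bad, hd1, hbad, hgood⟩ := hnear K x z y h hH
  have hdg : 0 < dg K := dg_pos
  obtain ⟨k, hk, hkr⟩ : ∃ k : Fin 3 → ℝ, k ≠ 0 ∧
      ∀ p : Pl K, ∑ j, k j * lg p (cu D.a D.b D.g y j) = 0 := by
    obtain ⟨k, hk, h1⟩ := h.rel
    refine ⟨fun j => (k j : ℝ), ?_, fun p => ?_⟩
    · intro h0
      apply hk
      funext j
      have := congrFun h0 j
      simpa using this
    · rw [← lg_mon h.hcu, h1, lg_one]
  have hy := hc2 K y h.hcu k hk hkr
  have hcuy := hcu K y h.hcu hy
  -- the coordinates at the archimedean places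
  have hLz : ∀ v : InfinitePlace K, ∀ l, Lz (D.a : ℝ) (D.b : ℝ) gR (v.embedding y) l =
      lg (Sum.inl v) (cu D.a D.b D.g y l) := by
    intro v l
    have e : ∀ t : K, lg (Sum.inl v) t = Real.log ‖v.embedding t‖ := fun t => by
      rw [InfinitePlace.norm_embedding_eq]
      rfl
    rw [e]
    fin_cases l
    · simp [Lz, cu]
    · simp [Lz, cu]
    · show Real.log ‖aeval (v.embedding y) gR‖ = Real.log ‖v.embedding (aeval y D.g)‖
      rw [hgR, emb_aevalQ]
  have e1 : ∀ (v : InfinitePlace K) (t : K), Real.log ‖v.embedding t‖ = lg (Sum.inl v) t :=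
    fun v t => by
      rw [InfinitePlace.norm_embedding_eq]
      rfl
  have hm : ∑ v : InfinitePlace K, (v.mult : ℝ) / dg K = 1 := by
    rw [← Finset.sum_div, div_eq_one_iff_eq hdg.ne']
    unfold dg
    exact_mod_cast InfinitePlace.sum_mult_eq (K := K)
  obtain ⟨Q, hQ, h1⟩ := hcl d hd1 (InfinitePlace K) (fun v => (v.mult : ℝ) / dg K)
    (fun v => v.embedding y) (fun v => by positivity) hm
    (fun v => by
      refine ⟨?_, ?_, ?_⟩
      · intro h0
        apply h.hcu 0
        show y - algebraMap ℚ K D.a = 0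
        apply v.embedding.injective
        rw [map_sub, h0, map_zero]
        simp
      · intro h0
        apply h.hcu 1
        show y - algebraMap ℚ K D.b = 0
        apply v.embedding.injective
        rw [map_sub, h0, map_zero]
        simp
      · rw [hgR, emb_aevalQ]
        intro h0
        exact h.hcu 2 (v.embedding.injective (by rw [map_zero]; exact h0)))
    (by
      have hFS : FS fun p : Pl K => max 0 (lg p y) + ∑ l, |lg p (cu D.a D.b D.g y l)| :=
        (fs_max' y).add (FS.sum _ fun l _ => fs_abs (h.hcu l))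
      have h2 := arch_le hFS fun p => add_nonneg (le_max_left _ _)
        (Finset.sum_nonneg fun l _ => abs_nonneg _)
      rw [plSum_add (fs_max' y) (FS.sum _ fun l _ => fs_abs (h.hcu l)),
        plSum_sum _ fun l _ => fs_abs (h.hcu l)] at h2
      have h3 : ∑ l, plSum K (fun p => |lg p (cu D.a D.b D.g y l)|) ≤ 6 * B' * dg K := by
        calc ∑ l, plSum K (fun p => |lg p (cu D.a D.b D.g y l)|)
            ≤ ∑ _l : Fin 3, 2 * (B' * dg K) := by
              refine Finset.sum_le_sum fun l _ => ?_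
              rw [plSum_abs (h.hcu l)]
              exact mul_le_mul_of_nonneg_left (hcuy l) zero_le_two
          _ = 6 * B' * dg K := by
              simp
              ring
      have h4 : ∑ v : InfinitePlace K, (v.mult : ℝ) / dg K *
          (max 0 (Real.log ‖v.embedding y‖) +
            ∑ l, |Lz (D.a : ℝ) (D.b : ℝ) gR (v.embedding y) l|) =
          (∑ v : InfinitePlace K, (v.mult : ℝ) * (max 0 (lg (Sum.inl v) y) +
            ∑ l, |lg (Sum.inl v) (cu D.a D.b D.g y l)|)) / dg K := by
        rw [Finset.sum_div]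
        refine Finset.sum_congr rfl fun v _ => ?_
        rw [e1]
        simp only [hLz]
        ring
      rw [h4, div_le_iff₀ hdg]
      have h5 : plSum K (fun p => max 0 (lg p y)) ≤ B * dg K := hy
      linarith)
    (by
      refine ⟨bad, ?_, fun v hv => ?_⟩
      · rw [← Finset.sum_div, div_le_iff₀ hdg]
        linarith
      · obtain ⟨j, s, hs, h2⟩ := hgood v hv
        refine ⟨j, s, hs, fun l => ?_⟩
        rw [hLz]
        exact h2 l)
  apply key Q hQ
  by_contra hQy
  rcases h1 with ⟨v, hv⟩ | h1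
  · rw [emb_aevalZ] at hv
    exact hQy (v.embedding.injective (by rw [map_zero]; exact hv))
  · have h2 := arch_lower y Q hQy
    have h3 : ∑ v : InfinitePlace K, (v.mult : ℝ) / dg K *
        Real.log ‖aeval (v.embedding y) Q‖ =
        (∑ v : InfinitePlace K, (v.mult : ℝ) * lg (Sum.inl v) (aeval y Q)) / dg K := by
      rw [Finset.sum_div]
      refine Finset.sum_congr rfl fun v _ => ?_
      rw [emb_aevalZ, e1]
      ring
    rw [h3, div_lt_iff₀ hdg] at h1
    have h4 : (Q.natDegree : ℝ) * hh y ≤ Q.natDegree * (B * dg K) :=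
      mul_le_mul_of_nonneg_left hy (Nat.cast_nonneg _)
    have h5 : 0 ≤ (Q.natDegree : ℝ) * (6 * B' * dg K) := by positivity
    nlinarith

end Pool.Agent.Work.MP_7da6af_nt
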