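import Pool.Agent.Work.MP_7da6af_nt.Places

/-! # Sums over places and extensions of number fields -/

set_option autoImplicit false

namespace Pool.Agent.Work.MP_7da6af_nt

open NumberField Polynomial IsDedekindDomain

section

variable (K : Type) {L : Type} [Field K] [NumberField K] [Field L] [NumberField L] [Algebra K L]

/-- the place below -/
noncomputable def below : Pl L → Pl K
  | Sum.inl w => Sum.inl (w.comap (algebraMap K L))
  | Sum.inr w => Sum.inr (FinitePlace.mk ((FinitePlace.maximalIdeal w).under (𝓞 K)))

/-- the exponent -/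
noncomputable def ef : Pl L → ℝ
  | Sum.inl _ => 1
  | Sum.inr w =>
      ((((FinitePlace.maximalIdeal w).under (𝓞 K)).asIdeal.ramificationIdx'
        (FinitePlace.maximalIdeal w).asIdeal *
       ((FinitePlace.maximalIdeal w).under (𝓞 K)).asIdeal.inertiaDeg'
        (FinitePlace.maximalIdeal w).asIdeal : ℕ) : ℝ)

variable {K}

theorem ef_nonneg (w : Pl L) : 0 ≤ ef K w := by
  rcases w with w | w
  · exact zero_le_one
  · exact Nat.cast_nonneg _

theorem toNNReal_pow {b c : NNReal} (hb : b ≠ 0) (hc : c ≠ 0) {f : ℕ} (h : c = b ^ f)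
    (x : WithZero (Multiplicative ℤ)) (hx : x ≠ 0) :
    WithZeroMulInt.toNNReal hc x = (WithZeroMulInt.toNNReal hb x) ^ f := by
  rw [WithZeroMulInt.toNNReal_neg_apply hc hx, WithZeroMulInt.toNNReal_neg_apply hb hx, h,
    ← zpow_natCast, ← zpow_natCast, ← zpow_mul, ← zpow_mul, mul_comm]

theorem adic_ext (p : HeightOneSpectrum (𝓞 K)) (P : HeightOneSpectrum (𝓞 L))
    [P.asIdeal.LiesOver p.asIdeal] (x : K) (hx : x ≠ 0) :
    (FinitePlace.mk P) (algebraMap K L x) =
      ((FinitePlace.mk p) x) ^ (p.asIdeal.ramificationIdx' P.asIdeal *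
        p.asIdeal.inertiaDeg' P.asIdeal) := by
  have hN := Ideal.absNorm_eq_pow_inertiaDeg'_of_liesOver P.asIdeal p.asIdeal p.isPrime p.ne_bot
  rw [FinitePlace.mk_apply, FinitePlace.mk_apply, FinitePlace.norm_embedding,
    FinitePlace.norm_embedding, NumberField.HeightOneSpectrum.adicAbv_def,
    NumberField.HeightOneSpectrum.adicAbv_def, ← HeightOneSpectrum.valuation_liesOver L p P x,
    toNNReal_pow (NumberField.HeightOneSpectrum.absNorm_ne_zero p)
      (NumberField.HeightOneSpectrum.absNorm_ne_zero P) (f := p.asIdeal.inertiaDeg' P.asIdeal)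
      (by rw [hN]; push_cast; rfl), map_pow]
  · push_cast
    rw [← pow_mul]
  · exact pow_ne_zero _ ((p.valuation K).ne_zero_iff.mpr hx)

theorem under_liesOver (P : HeightOneSpectrum (𝓞 L)) :
    P.asIdeal.LiesOver (P.under (𝓞 K)).asIdeal := ⟨rfl⟩

theorem lg_ext (w : Pl L) (x : K) (hx : x ≠ 0) :
    lg w (algebraMap K L x) = ef K w * lg (below K w) x := by
  rcases w with w | w
  · simp only [ef, below, one_mul]
    rfl
  · have := under_liesOver (K := K) (FinitePlace.maximalIdeal w)
    have h := adic_ext ((FinitePlace.maximalIdeal w).under (𝓞 K)) (FinitePlace.maximalIdeal w) x hx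
    rw [FinitePlace.mk_maximalIdeal] at h
    show Real.log (w (algebraMap K L x)) = _
    rw [h, Real.log_pow]
    rfl

open scoped Classical in
/-- the sum over the places above a given place -/
theorem sum_above (v : Pl K) : ∃ T : Finset (Pl L), (∀ w, w ∈ T ↔ below K w = v) ∧
    ∑ w ∈ T, wt w * ef K w = (Module.finrank K L : ℝ) * wt v := by
  rcases v with v | v
  · refine ⟨(v.placesOver L).toFinset.map ⟨Sum.inl, Sum.inl_injective⟩, ?_, ?_⟩
    · intro w
      simp only [Finset.mem_map, Set.mem_toFinset, Function.Embedding.coeFn_mk]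
      constructor
      · rintro ⟨w', hw', rfl⟩
        have : w'.LiesOver v := hw'
        simp only [below]
        rw [InfinitePlace.LiesOver.comap_eq w' v]
      · intro h
        rcases w with w | w
        · refine ⟨w, ?_, rfl⟩
          simp only [below, Sum.inl.injEq] at h
          subst h
          exact ⟨rfl⟩
        · simp [below] at h
    · rw [Finset.sum_map]
      have h1 := InfinitePlace.sum_inertiaDeg_eq_finrank K L v
      rw [← h1]
      push_cast
      rw [Finset.sum_mul]
      refine Finset.sum_congr rfl fun w hw => ?_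
      rw [Set.mem_toFinset] at hw
      have : w.LiesOver v := hw
      rw [InfinitePlace.inertiaDeg_eq_finrank]
      have h2 := InfinitePlace.mult_mul_finrank (v := v) w
      simp only [Function.Embedding.coeFn_mk, ef, mul_one, wt]
      rw [← h2]
      push_cast
      ring
  · set p := FinitePlace.maximalIdeal v with hp
    have hmem : ∀ P : Ideal (𝓞 L), P ∈ IsDedekindDomain.primesOverFinset p.asIdeal (𝓞 L) ↔
        P ∈ p.asIdeal.primesOver (𝓞 L) := fun P =>
          IsDedekindDomain.mem_primesOverFinset_iff p.ne_bot (𝓞 L)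
    have hpr : ∀ P ∈ IsDedekindDomain.primesOverFinset p.asIdeal (𝓞 L), P.IsPrime := fun P hP => ((hmem P).mp hP).1
    have hlo : ∀ P ∈ IsDedekindDomain.primesOverFinset p.asIdeal (𝓞 L), P.LiesOver p.asIdeal :=
      fun P hP => ((hmem P).mp hP).2
    have hnb : ∀ P ∈ IsDedekindDomain.primesOverFinset p.asIdeal (𝓞 L), P ≠ ⊥ :=
      fun P hP => Ideal.ne_bot_of_mem_primesOver p.ne_bot ((hmem P).mp hP)
    let φ : (IsDedekindDomain.primesOverFinset p.asIdeal (𝓞 L)) → Pl L := fun P =>
      Sum.inr (FinitePlace.mk ⟨P.1, hpr _ P.2, hnb _ P.2⟩)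
    have hφ : Function.Injective φ := by
      intro P Q h
      have h1 := Sum.inr_injective h
      rw [FinitePlace.mk_eq_iff] at h1
      exact Subtype.ext (congrArg HeightOneSpectrum.asIdeal h1)
    refine ⟨(IsDedekindDomain.primesOverFinset p.asIdeal (𝓞 L)).attach.map ⟨φ, hφ⟩, ?_, ?_⟩
    · intro w
      simp only [Finset.mem_map, Finset.mem_attach, true_and, Function.Embedding.coeFn_mk]
      constructor
      · rintro ⟨P, rfl⟩
        simp only [below, φ, FinitePlace.maximalIdeal_mk]
        congr 1
        have h1 : HeightOneSpectrum.under (𝓞 K)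
            (⟨P.1, hpr _ P.2, hnb _ P.2⟩ : HeightOneSpectrum (𝓞 L)) = p := by
          apply HeightOneSpectrum.ext
          exact (hlo _ P.2).over.symm
        rw [h1, hp, FinitePlace.mk_maximalIdeal]
      · intro h
        rcases w with w | w
        · simp [below] at h
        · simp only [below, Sum.inr.injEq] at h
          have h2 : (FinitePlace.maximalIdeal w).under (𝓞 K) = p := by
            rw [hp, ← h, FinitePlace.maximalIdeal_mk]
          have h3 : (FinitePlace.maximalIdeal w).asIdeal ∈ IsDedekindDomain.primesOverFinset p.asIdeal (𝓞 L) := by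
            rw [hmem]
            exact ⟨(FinitePlace.maximalIdeal w).isPrime,
              ⟨(congrArg HeightOneSpectrum.asIdeal h2).symm⟩⟩
          refine ⟨⟨_, h3⟩, ?_⟩
          simp only [φ]
          congr 1
          exact FinitePlace.mk_maximalIdeal w
    · rw [Finset.sum_map]
      have h1 := Ideal.sum_ramification_inertia (𝓞 L) K L (p := p.asIdeal) p.ne_bot
      rw [← h1]
      push_cast
      rw [Finset.sum_mul, ← Finset.sum_attach (IsDedekindDomain.primesOverFinset p.asIdeal (𝓞 L))]
      refine Finset.sum_congr rfl fun P _ => ?_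
      have h2 : HeightOneSpectrum.under (𝓞 K)
            (⟨P.1, hpr _ P.2, hnb _ P.2⟩ : HeightOneSpectrum (𝓞 L)) = p := by
          apply HeightOneSpectrum.ext
          exact (hlo _ P.2).over.symm
      simp only [Function.Embedding.coeFn_mk, φ, ef, wt, FinitePlace.maximalIdeal_mk, h2]
      push_cast
      ring

/-- functions on the places below -/
theorem plSum_below (G : Pl K → ℝ) (hG : FS G) :
    FS (fun w : Pl L => ef K w * G (below K w)) ∧
    plSum L (fun w => ef K w * G (below K w)) = (Module.finrank K L : ℝ) * plSum K G := by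
  classical
  choose T hT hs using sum_above (K := K) (L := L)
  have hG' : (Function.support G).Finite := hG
  set S := hG'.toFinset with hS
  have hsup : Function.support (fun w : Pl L => ef K w * G (below K w)) ⊆
      ((S.biUnion T : Finset (Pl L)) : Set (Pl L)) := by
    intro w hw
    rw [Finset.mem_coe, Finset.mem_biUnion]
    refine ⟨below K w, ?_, (hT _ _).mpr rfl⟩
    rw [hS, Set.Finite.mem_toFinset]
    intro h
    apply hw
    simp only [h, mul_zero]
  refine ⟨(Finset.finite_toSet _).subset hsup, ?_⟩
  unfold plSum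
  rw [finsum_eq_sum_of_support_subset (s := S.biUnion T),
    finsum_eq_sum_of_support_subset (s := S), Finset.sum_biUnion]
  · rw [Finset.mul_sum]
    refine Finset.sum_congr rfl fun v _ => ?_
    rw [← mul_assoc, ← hs v, Finset.sum_mul]
    refine Finset.sum_congr rfl fun w hw => ?_
    show wt w * (ef K w * G (below K w)) = _
    rw [(hT v w).mp hw]
    ring
  · intro v _ v' _ hne
    rw [Function.onFun, Finset.disjoint_left]
    intro w hw hw'
    exact hne (((hT v w).mp hw).symm.trans ((hT v' w).mp hw'))
  · rw [hS, Set.Finite.coe_toFinset]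
    exact Function.support_mul_subset_right _ _
  · exact (Function.support_mul_subset_right _ _).trans hsup

/-- the extension lemma -/
theorem plSum_ext {ι : Type} [Finite ι] (P : (ι → ℝ) → ℝ)
    (hP : ∀ t : ℝ, 0 ≤ t → ∀ u, P (t • u) = t * P u) (x : ι → K) (hx : ∀ i, x i ≠ 0) :
    plSum L (fun w => P (fun i => lg w (algebraMap K L (x i)))) =
      (Module.finrank K L : ℝ) * plSum K (fun v => P (fun i => lg v (x i))) := by
  have hP0 : P 0 = 0 := by simpa using hP 0 le_rfl 0
  have hfs : FS (fun v : Pl K => P (fun i => lg v (x i))) := by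
    have h1 : (⋃ i, Function.support (fun v : Pl K => lg v (x i))).Finite :=
      Set.finite_iUnion fun i => fs_lg (hx i)
    refine h1.subset fun v hv => ?_
    by_contra hcon
    apply hv
    have h2 : (fun i => lg v (x i)) = 0 := by
      funext i
      by_contra h3
      exact hcon (Set.mem_iUnion.mpr ⟨i, h3⟩)
    show P (fun i => lg v (x i)) = 0
    rw [h2, hP0]
  rw [← (plSum_below (L := L) _ hfs).2]
  refine plSum_congr fun w => ?_
  rw [← hP _ (ef_nonneg w)]
  congr 1
  funext i
  rw [lg_ext w (x i) (hx i)]
  rfl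

/-- heights and extensions -/
theorem hh_ext (x : K) (hx : x ≠ 0) :
    hh (algebraMap K L x) = (Module.finrank K L : ℝ) * hh x := by
  have h := plSum_ext (L := L) (ι := Unit) (fun u => max 0 (u ()))
    (fun t ht u => by simp [mul_max_of_nonneg _ _ ht]) (fun _ => x) (fun _ => hx)
  exact h

theorem dg_ext : dg L = (Module.finrank K L : ℝ) * dg K := by
  unfold dg
  rw [← Module.finrank_mul_finrank ℚ K L]
  push_cast
  ring

end

end Pool.Agent.Work.MP_7da6af_nt
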