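import Pool.Agent.Work.MP_7da6af_nt.Inv

/-! # Values of polynomials with rational coefficients: place by place -/

set_option autoImplicit false

namespace Pool.Agent.Work.MP_7da6af_nt

open NumberField Polynomial

theorem cst_nonneg {K : Type} [Field K] [NumberField K] (S : Finset ℚ) (p : Pl K) :
    0 ≤ cst S p :=
  add_nonneg (ar_nonneg p) (Finset.sum_nonneg fun _ _ => abs_nonneg _)

theorem cst_mono {K : Type} [Field K] [NumberField K] {S T : Finset ℚ} (h : S ⊆ T) (p : Pl K) :
    cst S p ≤ cst T p := by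
  unfold cst
  exact add_le_add le_rfl (Finset.sum_le_sum_of_subset_of_nonneg h fun _ _ _ => abs_nonneg _)

theorem ar_le_cst {K : Type} [Field K] [NumberField K] (S : Finset ℚ) (p : Pl K) :
    ar p ≤ cst S p :=
  le_add_of_nonneg_right (Finset.sum_nonneg fun _ _ => abs_nonneg _)

/-- the constant of `q` and the archimedean part -/
theorem ar_abs_le_cst {K : Type} [Field K] [NumberField K] {S : Finset ℚ} {q : ℚ} (hq : q ∈ S)
    (p : Pl K) : ar p + |lg p (algebraMap ℚ K q)| ≤ cst S p := by
  unfold cst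
  exact add_le_add le_rfl (Finset.single_le_sum (f := fun q => |lg p (algebraMap ℚ K q)|)
    (fun _ _ => abs_nonneg _) hq)

theorem lg_zero {K : Type} [Field K] [NumberField K] (p : Pl K) : lg p (0 : K) = 0 := by
  unfold lg
  rw [map_zero, Real.log_zero]

theorem lg_neg {K : Type} [Field K] [NumberField K] (p : Pl K) (x : K) : lg p (-x) = lg p x := by
  unfold lg
  rw [AbsoluteValue.map_neg]

theorem fs_abs' {K : Type} [Field K] [NumberField K] (x : K) : FS fun p : Pl K => |lg p x| := by
  by_cases hx : x = 0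
  · subst hx
    simp only [lg_zero, abs_zero]
    exact fs_zero
  · exact fs_abs hx

theorem fs_cst {K : Type} [Field K] [NumberField K] (S : Finset ℚ) :
    FS (fun p : Pl K => cst S p) := by
  unfold cst
  exact fs_ar.add (FS.sum S fun q _ => fs_abs' _)

theorem plSum_cst (S : Finset ℚ) : ∃ C : ℝ, 0 ≤ C ∧ ∀ (K : Type) [Field K] [NumberField K],
    plSum K (fun p => cst S p) ≤ C * dg K := by
  refine ⟨1 + ∑ q ∈ S, 2 * hh q, ?_, fun K _ _ => ?_⟩
  · exact add_nonneg zero_le_one (Finset.sum_nonneg fun q _ => mul_nonneg zero_le_two (hh_nonneg q))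
  · unfold cst
    rw [plSum_add fs_ar (FS.sum S fun q _ => fs_abs' _), plSum_ar, plSum_sum S fun q _ => fs_abs' _,
      add_mul, one_mul, Finset.sum_mul]
    refine add_le_add le_rfl (Finset.sum_le_sum fun q _ => ?_)
    by_cases hq : q = 0
    · subst hq
      simp only [map_zero, lg_zero, abs_zero]
      have h1 : plSum K (fun _ => (0 : ℝ)) = 0 := by simp [plSum]
      rw [h1]
      exact mul_nonneg (mul_nonneg zero_le_two (hh_nonneg _)) dg_pos.le
    · have h1 : algebraMap ℚ K q ≠ 0 := by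
        rw [Ne, FaithfulSMul.algebraMap_eq_zero_iff]
        exact hq
      rw [plSum_abs h1, hh_rat q hq]
      linarith

section

variable {K : Type} [Field K] [NumberField K]

/-- the value of a sum -/
theorem lg_add_le (p : Pl K) {A B : K} (hA : A ≠ 0) (hB : B ≠ 0) (hAB : A + B ≠ 0) :
    lg p (A + B) ≤ ar p * Real.log 2 + max (lg p A) (lg p B) := by
  have hA' : 0 < av p A := (av p).pos hA
  have hB' : 0 < av p B := (av p).pos hB
  have hAB' : 0 < av p (A + B) := (av p).pos hAB
  have hm : max (lg p A) (lg p B) = Real.log (max (av p A) (av p B)) := by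
    unfold lg
    rcases le_total (av p A) (av p B) with h | h
    · rw [max_eq_right h, max_eq_right (Real.log_le_log hA' h)]
    · rw [max_eq_left h, max_eq_left (Real.log_le_log hB' h)]
  have hmp : 0 < max (av p A) (av p B) := lt_max_of_lt_left hA'
  rw [hm]
  rcases p with v | v
  · have h1 : av (Sum.inl v) (A + B) ≤ 2 * max (av (Sum.inl v) A) (av (Sum.inl v) B) := by
      have h2 := av_add_le (Sum.inl v) A B
      have h3 := le_max_left (av (Sum.inl v) A) (av (Sum.inl v) B)
      have h4 := le_max_right (av (Sum.inl v) A) (av (Sum.inl v) B)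
      linarith
    have h2 := Real.log_le_log hAB' h1
    rw [Real.log_mul two_ne_zero hmp.ne'] at h2
    change lg (Sum.inl v) (A + B) ≤ 1 * Real.log 2 + _
    rw [one_mul]
    exact h2
  · have h1 := av_add_le_max v A B
    have h2 := Real.log_le_log hAB' h1
    change lg (Sum.inr v) (A + B) ≤ 0 * Real.log 2 + _
    rw [zero_mul, zero_add]
    exact h2

theorem ar_log_two (p : Pl K) : ar p * Real.log 2 ≤ ar p ∧ 0 ≤ ar p * Real.log 2 := by
  have h1 := Real.log_two_lt_d9
  have h2 := Real.log_two_gt_d9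
  have h3 := ar_nonneg p
  constructor
  · nlinarith
  · positivity

/-- the positive part of the value of a sum -/
theorem pos_add_le (p : Pl K) (A B : K) :
    max 0 (lg p (A + B)) ≤ ar p + max (max 0 (lg p A)) (max 0 (lg p B)) := by
  have h0 := ar_nonneg p
  have h1 := ar_log_two p
  have hm : 0 ≤ max (max 0 (lg p A)) (max 0 (lg p B)) := le_max_of_le_left (le_max_left _ _)
  refine max_le (by linarith) ?_
  by_cases hAB : A + B = 0
  · rw [hAB, lg_zero]
    linarith
  by_cases hA : A = 0
  · rw [hA, zero_add]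
    have h2 : lg p B ≤ max (max 0 (lg p (0 : K))) (max 0 (lg p B)) :=
      (le_max_right _ _).trans (le_max_right _ _)
    linarith
  by_cases hB : B = 0
  · rw [hB, add_zero]
    have h2 : lg p A ≤ max (max 0 (lg p A)) (max 0 (lg p (0 : K))) :=
      (le_max_right _ _).trans (le_max_left _ _)
    linarith
  · have h2 := lg_add_le p hA hB hAB
    have h3 : max (lg p A) (lg p B) ≤ max (max 0 (lg p A)) (max 0 (lg p B)) :=
      max_le_max (le_max_right _ _) (le_max_right _ _)
    linarith

theorem pos_mul_le (p : Pl K) (A B : K) :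
    max 0 (lg p (A * B)) ≤ max 0 (lg p A) + max 0 (lg p B) := by
  have hA0 := le_max_left 0 (lg p A)
  have hB0 := le_max_left 0 (lg p B)
  refine max_le (by linarith) ?_
  by_cases hA : A = 0
  · rw [hA, zero_mul, lg_zero, max_self]
    linarith
  by_cases hB : B = 0
  · rw [hB, mul_zero, lg_zero, max_self]
    linarith
  · rw [lg_mul p hA hB]
    have h1 := le_max_right 0 (lg p A)
    have h2 := le_max_right 0 (lg p B)
    linarith

theorem pos_pow_le (p : Pl K) (y : K) (n : ℕ) :
    max 0 (lg p (y ^ n)) ≤ n * max 0 (lg p y) := by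
  rw [lg_pow]
  have h0 := le_max_left 0 (lg p y)
  have h1 := le_max_right 0 (lg p y)
  exact max_le (by positivity) (mul_le_mul_of_nonneg_left h1 (Nat.cast_nonneg n))

end

/-- upper bound with the degree as coefficient -/
def Upd (d : ℕ) (P : ℚ[X]) : Prop :=
  ∃ (C : ℝ) (S : Finset ℚ), 0 ≤ C ∧
    ∀ (K : Type) [Field K] [NumberField K] (y : K) (p : Pl K),
      max 0 (lg p (aeval y P)) ≤ C * cst S p + d * max 0 (lg p y)

theorem upd_monomial {d i : ℕ} (hi : i ≤ d) (a : ℚ) : Upd d (monomial i a) := by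
  refine ⟨1, {a}, zero_le_one, fun K _ _ y p => ?_⟩
  rw [aeval_monomial]
  have h1 := pos_mul_le p (algebraMap ℚ K a) (y ^ i)
  have h2 := pos_pow_le p y i
  have h3 := ar_abs_le_cst (Finset.mem_singleton_self a) p
  have h4 : max 0 (lg p (algebraMap ℚ K a)) ≤ |lg p (algebraMap ℚ K a)| :=
    max_le (abs_nonneg _) (le_abs_self _)
  have h5 : (i : ℝ) * max 0 (lg p y) ≤ d * max 0 (lg p y) :=
    mul_le_mul_of_nonneg_right (by exact_mod_cast hi) (le_max_left _ _)
  have h6 := ar_nonneg p
  linarith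

theorem upd_zero (d : ℕ) : Upd d 0 := by
  refine ⟨0, ∅, le_rfl, fun K _ _ y p => ?_⟩
  rw [map_zero, lg_zero, max_self, zero_mul, zero_add]
  exact mul_nonneg (Nat.cast_nonneg _) (le_max_left _ _)

theorem upd_add {d : ℕ} {P Q : ℚ[X]} (hP : Upd d P) (hQ : Upd d Q) : Upd d (P + Q) := by
  classical
  obtain ⟨C₁, S₁, h₁, H₁⟩ := hP
  obtain ⟨C₂, S₂, h₂, H₂⟩ := hQ
  refine ⟨C₁ + C₂ + 1, S₁ ∪ S₂, by positivity, fun K _ _ y p => ?_⟩
  rw [map_add]
  have g0 := pos_add_le p (aeval y P) (aeval y Q)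
  have g1 := H₁ K y p
  have g2 := H₂ K y p
  have c1 := cst_mono (Finset.subset_union_left : S₁ ⊆ S₁ ∪ S₂) p
  have c2 := cst_mono (Finset.subset_union_right : S₂ ⊆ S₁ ∪ S₂) p
  have c3 := ar_le_cst (S₁ ∪ S₂) p
  have c4 := mul_le_mul_of_nonneg_left c1 h₁
  have c5 := mul_le_mul_of_nonneg_left c2 h₂
  have c6 := cst_nonneg (S₁ ∪ S₂) p
  have c7 := mul_nonneg h₁ c6
  have c8 := mul_nonneg h₂ c6
  have g3 : max (max 0 (lg p (aeval y P))) (max 0 (lg p (aeval y Q))) ≤
      (C₁ + C₂) * cst (S₁ ∪ S₂) p + d * max 0 (lg p y) := by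
    apply max_le
    · linarith
    · linarith
  linarith

theorem upd_of_natDegree_le {d : ℕ} {P : ℚ[X]} (h : P.natDegree ≤ d) : Upd d P := by
  have key : ∀ n ≤ d + 1, Upd d (∑ i ∈ Finset.range n, monomial i (P.coeff i)) := by
    intro n hn
    induction n with
    | zero =>
      rw [Finset.sum_range_zero]
      exact upd_zero d
    | succ n ih =>
      rw [Finset.sum_range_succ]
      exact upd_add (ih (by omega)) (upd_monomial (by omega) _)
  have h1 := key (d + 1) le_rfl
  rwa [← P.as_sum_range' (d + 1) (by omega)] at h1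

/-- upper bound -/
theorem poly_up (P : ℚ[X]) : ∃ (C : ℝ) (S : Finset ℚ), 0 ≤ C ∧
    ∀ (K : Type) [Field K] [NumberField K] (y : K) (p : Pl K),
      max 0 (lg p (aeval y P)) ≤ C * (cst S p + max 0 (lg p y)) := by
  obtain ⟨C, S, hC, H⟩ := upd_of_natDegree_le (le_refl P.natDegree)
  refine ⟨C + P.natDegree, S, by positivity, fun K _ _ y p => ?_⟩
  have h1 := H K y p
  have h2 := cst_nonneg S p
  have h3 := le_max_left 0 (lg p y)
  have h4 := mul_nonneg hC h3
  have h5 := mul_nonneg (Nat.cast_nonneg (α := ℝ) P.natDegree) h2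
  linarith

/-- upper bound for `y - a` -/
theorem sub_up (a : ℚ) : ∃ (C : ℝ) (S : Finset ℚ), 0 ≤ C ∧
    ∀ (K : Type) [Field K] [NumberField K] (y : K) (p : Pl K),
      max 0 (lg p (y - algebraMap ℚ K a)) ≤ C * cst S p + max 0 (lg p y) := by
  have h : (X - C a : ℚ[X]).natDegree ≤ 1 := (natDegree_X_sub_C a).le
  obtain ⟨C, S, hC, H⟩ := upd_of_natDegree_le h
  refine ⟨C, S, hC, fun K _ _ y p => ?_⟩
  have h1 := H K y p
  rw [map_sub, aeval_X, aeval_C, Nat.cast_one, one_mul] at h1
  exact h1

/-- lower bound -/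
theorem poly_low (g : ℚ[X]) (hg : 0 < g.natDegree) : ∃ (C : ℝ) (S : Finset ℚ), 0 ≤ C ∧
    ∀ (K : Type) [Field K] [NumberField K] (y : K) (p : Pl K), aeval y g ≠ 0 →
      max 0 (lg p y) ≤ C * cst S p + max 0 (lg p (aeval y g)) := by
  classical
  obtain ⟨C, S, hC, H⟩ := upd_of_natDegree_le (eraseLead_natDegree_le g)
  set lc := g.leadingCoeff with hlc
  have hlc0 : lc ≠ 0 := by
    rw [hlc, Ne, leadingCoeff_eq_zero]
    rintro rfl
    simp at hg
  refine ⟨C + 1, insert lc S, by positivity, fun K _ _ y p hgy => ?_⟩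
  have h1 := H K y p
  have c1 := cst_mono (Finset.subset_insert lc S) p
  have c2 := mul_le_mul_of_nonneg_left c1 hC
  have c3 := ar_abs_le_cst (Finset.mem_insert_self lc S) p
  have c4 := cst_nonneg (insert lc S) p
  have c5 := mul_nonneg hC c4
  have hG := le_max_left 0 (lg p (aeval y g))
  have har := ar_nonneg p
  rcases le_or_gt (lg p y) 0 with h | h
  · rw [max_eq_left h]
    linarith
  have hy0 : y ≠ 0 := by
    rintro rfl
    rw [lg_zero] at h
    exact lt_irrefl _ h
  rw [max_eq_right h.le] at h1 ⊢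
  have hlcK : algebraMap ℚ K lc ≠ 0 := by
    rw [Ne, FaithfulSMul.algebraMap_eq_zero_iff]
    exact hlc0
  set n := g.natDegree with hn
  have hn1 : ((n - 1 : ℕ) : ℝ) = n - 1 := by
    rw [Nat.cast_sub hg, Nat.cast_one]
  rw [hn1] at h1
  have hsum : algebraMap ℚ K lc * y ^ n = aeval y g + -aeval y g.eraseLead := by
    have e1 := congrArg (aeval y) (eraseLead_add_monomial_natDegree_leadingCoeff g)
    rw [map_add, aeval_monomial] at e1
    rw [← e1]
    ring
  have hne : algebraMap ℚ K lc * y ^ n ≠ 0 := mul_ne_zero hlcK (pow_ne_zero _ hy0)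
  have h2 := pos_add_le p (aeval y g) (-aeval y g.eraseLead)
  rw [← hsum, lg_neg] at h2
  have h3 : lg p (algebraMap ℚ K lc * y ^ n) = lg p (algebraMap ℚ K lc) + n * lg p y := by
    rw [lg_mul p hlcK (pow_ne_zero _ hy0), lg_pow]
  have h4 := (le_max_right 0 (lg p (algebraMap ℚ K lc * y ^ n))).trans h2
  rw [h3] at h4
  have h5 := neg_abs_le (lg p (algebraMap ℚ K lc))
  have hn2 : (1 : ℝ) ≤ n := by exact_mod_cast hg
  rcases le_total (max 0 (lg p (aeval y g))) (max 0 (lg p (aeval y g.eraseLead))) with h6 | h6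
  · rw [max_eq_right h6] at h4
    linarith
  · rw [max_eq_left h6] at h4
    have h7 : lg p y ≤ n * lg p y := by nlinarith
    linarith

/-- near `a` the value of `g` is nearly constant -/
theorem poly_near (a : ℚ) (g : ℚ[X]) (hga : g.eval a ≠ 0) : ∃ (C : ℝ) (S : Finset ℚ), 0 ≤ C ∧
    ∀ (K : Type) [Field K] [NumberField K] (y : K) (p : Pl K), y ≠ algebraMap ℚ K a →
      aeval y g ≠ 0 → - lg p (y - algebraMap ℚ K a) ≤ C * cst S p ∨
        |lg p (aeval y g)| ≤ C * cst S p := by
  classical
  set f : ℚ[X] := g.comp (X + Polynomial.C a) with hf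
  have hf0 : f.coeff 0 = g.eval a := by
    rw [coeff_zero_eq_eval_zero, hf, eval_comp, eval_add, eval_X, eval_C, zero_add]
  obtain ⟨C, S, hC, H⟩ := upd_of_natDegree_le (le_refl f.divX.natDegree)
  refine ⟨C + 1, insert (g.eval a) S, by positivity, fun K _ _ y p hya hgy => ?_⟩
  set t : K := y - algebraMap ℚ K a with ht
  have ht0 : t ≠ 0 := sub_ne_zero.2 hya
  have hval : aeval y g = algebraMap ℚ K (g.eval a) + t * aeval t f.divX := by
    have e1 : aeval t f = aeval y g := by
      rw [hf, aeval_comp, map_add, aeval_X, aeval_C, ht, sub_add_cancel]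
    have e2 := congrArg (aeval t) (divX_mul_X_add f)
    rw [map_add, map_mul, aeval_X, aeval_C, hf0, e1] at e2
    rw [← e2]
    ring
  have c1 := cst_mono (Finset.subset_insert (g.eval a) S) p
  have c2 := mul_le_mul_of_nonneg_left c1 hC
  have c3 := ar_abs_le_cst (Finset.mem_insert_self (g.eval a) S) p
  have c4 := cst_nonneg (insert (g.eval a) S) p
  have c5 := mul_nonneg hC c4
  have c6 := mul_nonneg hC (cst_nonneg S p)
  have har := ar_log_two p
  have har0 := ar_nonneg p
  by_cases hT : - lg p t ≤ (C + 1) * cst (insert (g.eval a) S) p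
  · exact Or.inl hT
  right
  push Not at hT
  set G : K := algebraMap ℚ K (g.eval a) with hGdef
  have hG0 : G ≠ 0 := by
    rw [hGdef, Ne, FaithfulSMul.algebraMap_eq_zero_iff]
    exact hga
  by_cases hk : aeval t f.divX = 0
  · rw [hval, hk, mul_zero, add_zero]
    linarith
  have h1 := H K t p
  have hneg : lg p t < 0 := by nlinarith [abs_nonneg (lg p G)]
  rw [max_eq_left hneg.le, mul_zero, add_zero] at h1
  have h2 := (le_max_right 0 (lg p (aeval t f.divX))).trans h1
  have hm0 : t * aeval t f.divX ≠ 0 := mul_ne_zero ht0 hk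
  have h3 : lg p (t * aeval t f.divX) = lg p t + lg p (aeval t f.divX) := lg_mul p ht0 hk
  have a1 := neg_abs_le (lg p G)
  have a2 := le_abs_self (lg p G)
  have h4 : lg p (t * aeval t f.divX) < lg p G - ar p * Real.log 2 := by
    rw [h3]
    have : (C + 1) * cst (insert (g.eval a) S) p = C * cst (insert (g.eval a) S) p +
        cst (insert (g.eval a) S) p := by ring
    linarith
  have h5 : lg p (aeval y g) ≤ ar p * Real.log 2 + lg p G := by
    have h6 := lg_add_le p hG0 hm0 (by rw [← hval]; exact hgy)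
    rw [← hval, max_eq_left (by linarith)] at h6
    exact h6
  have h6 : lg p G ≤ ar p * Real.log 2 + lg p (aeval y g) := by
    have e1 : G = aeval y g + -(t * aeval t f.divX) := by
      rw [hval]
      ring
    have h7 := lg_add_le p hgy (neg_ne_zero.2 hm0) (by rw [← e1]; exact hG0)
    rw [← e1, lg_neg] at h7
    rcases le_total (lg p (aeval y g)) (lg p (t * aeval t f.divX)) with h8 | h8
    · rw [max_eq_right h8] at h7
      linarith
    · rwa [max_eq_left h8] at h7
  rw [abs_le]
  constructor <;> linarith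

/-- heights of values -/
theorem hh_poly (P : ℚ[X]) : ∃ C : ℝ, 0 ≤ C ∧
    ∀ (K : Type) [Field K] [NumberField K] (y : K), y ≠ 0 → aeval y P ≠ 0 →
      hh (aeval y P) ≤ C * (dg K + hh y) := by
  obtain ⟨C, S, hC, H⟩ := poly_up P
  obtain ⟨C', hC', H'⟩ := plSum_cst S
  refine ⟨C * (C' + 1), by positivity, fun K _ _ y hy hP => ?_⟩
  have h1 : plSum K (fun p => max 0 (lg p (aeval y P))) ≤
      plSum K (fun p => C * (cst S p + max 0 (lg p y))) :=
    plSum_mono (fs_max hP) (((fs_cst S).add (fs_max hy)).smul C) fun p => H K y p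
  rw [plSum_smul, plSum_add (fs_cst S) (fs_max hy)] at h1
  have h2 := H' K
  have h3 : hh (aeval y P) ≤ C * (plSum K (fun p => cst S p) + hh y) := h1
  have h4 := hh_nonneg y
  have h5 : 0 < dg K := dg_pos
  refine h3.trans ?_
  rw [mul_assoc]
  refine mul_le_mul_of_nonneg_left ?_ hC
  nlinarith [mul_nonneg hC' h4]

/-- bounded height of the values from bounded height of the point -/
theorem hh_poly_bdd (P : ℚ[X]) (B : ℝ) : ∃ C : ℝ, 0 ≤ C ∧
    ∀ (K : Type) [Field K] [NumberField K] (y : K), hh y ≤ B * dg K → aeval y P ≠ 0 →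
      hh (aeval y P) ≤ C * dg K := by
  obtain ⟨C, hC, H⟩ := hh_poly P
  refine ⟨C * (1 + |B|) + hh (P.coeff 0), ?_, fun K _ _ y hy hP => ?_⟩
  · have := hh_nonneg (P.coeff 0)
    positivity
  have h5 : 0 < dg K := dg_pos
  have h6 := hh_nonneg (P.coeff 0)
  by_cases hy0 : y = 0
  · subst hy0
    have e1 : aeval (0 : K) P = algebraMap ℚ K (P.coeff 0) := by
      rw [aeval_def, eval₂_at_zero]
    rw [e1] at hP ⊢
    have hq : P.coeff 0 ≠ 0 := by
      rintro h
      rw [h, map_zero] at hP
      exact hP rfl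
    rw [hh_rat _ hq]
    have : 0 ≤ C * (1 + |B|) := by positivity
    nlinarith
  · have h1 := H K y hy0 hP
    have h2 : B * dg K ≤ |B| * dg K := mul_le_mul_of_nonneg_right (le_abs_self B) h5.le
    have h3 : C * (dg K + hh y) ≤ C * ((1 + |B|) * dg K) :=
      mul_le_mul_of_nonneg_left (by linarith) hC
    have h4 : 0 ≤ hh (P.coeff 0) * dg K := by positivity
    nlinarith

end Pool.Agent.Work.MP_7da6af_nt
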