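import Pool.Agent.Work.MP_7da6af_nt.Degree
import Pool.Agent.Work.MP_7da6af_nt.ML
import Pool.Agent.Work.MP_7da6af_nt.Hts

/-! # The main theorem, abstract form -/

set_option autoImplicit false

namespace Pool.Agent.Work.MP_7da6af_nt

open NumberField Polynomial

/-- the real relation -/
theorem Pt.real_rel {D : Dat} {K : Type} [Field K] [NumberField K] {x z y : K}
    (h : Pt D K x z y) : ∃ k : Fin 3 → ℝ, k ≠ 0 ∧
      ∀ p : Pl K, ∑ j, k j * lg p (cu D.a D.b D.g y j) = 0 := by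
  obtain ⟨k, hk, h1⟩ := h.rel
  refine ⟨fun j => (k j : ℝ), ?_, fun p => ?_⟩
  · intro h0
    apply hk
    funext j
    have := congrFun h0 j
    simpa using this
  · rw [← lg_mon h.hcu, h1, lg_one]

/-- the values of `u`, `v`, `w` -/
theorem uvw (D : Dat) (B : ℝ) : ∃ C : ℝ, 0 ≤ C ∧
    ∀ (K : Type) [Field K] [NumberField K] (x z y : K), Pt D K x z y → hh y ≤ B * dg K →
      hh (aeval y D.u) ≤ C * dg K ∧ hh (aeval y D.v) ≤ C * dg K ∧
        hh (aeval y D.w) ≤ C * dg K := by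
  obtain ⟨Cu, hCu, h1⟩ := hh_poly_bdd D.u B
  obtain ⟨Cv, hCv, h2⟩ := hh_poly_bdd D.v B
  obtain ⟨Cw, hCw, h3⟩ := hh_poly_bdd D.w B
  refine ⟨Cu + Cv + Cw, by positivity, fun K _ _ x z y h hy => ?_⟩
  have hd : 0 < dg K := dg_pos
  refine ⟨(h1 K y hy h.hu).trans ?_, (h2 K y hy h.hv).trans ?_, (h3 K y hy h.hw).trans ?_⟩
  · exact mul_le_mul_of_nonneg_right (by linarith) hd.le
  · exact mul_le_mul_of_nonneg_right (by linarith) hd.le
  · exact mul_le_mul_of_nonneg_right (by linarith) hd.le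

/-- fixed minimal polynomial of `y` -/
theorem fixedMin (D : Dat) (B : ℝ) (f : ℚ[X]) : ∃ C : ℝ, 0 ≤ C ∧
    ∀ (K : Type) [Field K] [NumberField K] (x z y : K), Pt D K x z y → hh y ≤ B * dg K →
      minpoly ℚ y = f → hh x ≤ C * dg K := by
  classical
  by_cases hirr : Irreducible f
  swap
  · refine ⟨0, le_rfl, fun K _ _ x z y _ _ hf => absurd ?_ hirr⟩
    rw [← hf]
    exact minpoly.irreducible (Algebra.IsIntegral.isIntegral y)
  haveI : Fact (Irreducible f) := ⟨hirr⟩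
  have hf0 : f ≠ 0 := hirr.ne_zero
  let K₀ := AdjoinRoot f
  haveI : CharZero K₀ := charZero_of_injective_algebraMap (algebraMap ℚ K₀).injective
  haveI : FiniteDimensional ℚ K₀ := (AdjoinRoot.powerBasis hf0).finite
  haveI : NumberField K₀ := ⟨⟩
  let y₀ : K₀ := AdjoinRoot.root f
  let l : Fin 5 → K₀ := ![y₀ - algebraMap ℚ K₀ D.a, y₀ - algebraMap ℚ K₀ D.b, aeval y₀ D.g,
    aeval y₀ D.u / aeval y₀ D.w, aeval y₀ D.v / aeval y₀ D.w]
  by_cases hl : ∀ i, l i ≠ 0
  swap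
  · refine ⟨0, le_rfl, fun K _ _ x z y h _ hf => absurd ?_ hl⟩
    have hroot : aeval y f = 0 := by rw [← hf]; exact minpoly.aeval ℚ y
    let φ : K₀ →ₐ[ℚ] K := AdjoinRoot.liftAlgHom f (Algebra.ofId ℚ K) y hroot
    have hφ : φ y₀ = y := AdjoinRoot.liftAlgHom_root ..
    have hP : ∀ P : ℚ[X], φ (aeval y₀ P) = aeval y P := fun P => by
      rw [← hφ, Polynomial.aeval_algHom_apply]
    have hne : ∀ P : ℚ[X], aeval y P ≠ 0 → aeval y₀ P ≠ 0 := fun P h1 h2 => h1 (by
      rw [← hP, h2, map_zero])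
    intro i
    fin_cases i
    · intro h0
      apply h.hcu 0
      show y - algebraMap ℚ K D.a = 0
      have := congrArg φ h0
      simpa [l, hφ] using this
    · intro h0
      apply h.hcu 1
      show y - algebraMap ℚ K D.b = 0
      have := congrArg φ h0
      simpa [l, hφ] using this
    · exact hne _ (h.hcu 2)
    · exact div_ne_zero (hne _ h.hu) (hne _ h.hw)
    · exact div_ne_zero (hne _ h.hv) (hne _ h.hw)
  obtain ⟨C, hC, hml⟩ := ml K₀ 5 l hl
  obtain ⟨C', hC', huvw⟩ := uvw D B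
  refine ⟨C + 2 * C', by positivity, fun K _ _ x z y h hy hf => ?_⟩
  have hroot : aeval y f = 0 := by rw [← hf]; exact minpoly.aeval ℚ y
  let φ : K₀ →ₐ[ℚ] K := AdjoinRoot.liftAlgHom f (Algebra.ofId ℚ K) y hroot
  have hφ : φ y₀ = y := AdjoinRoot.liftAlgHom_root ..
  have hP : ∀ P : ℚ[X], φ (aeval y₀ P) = aeval y P := fun P => by
    rw [← hφ, Polynomial.aeval_algHom_apply]
  obtain ⟨h1, h2, h3⟩ := huvw K x z y h hy
  obtain ⟨m, hm, ⟨c, hc⟩, ⟨d, hd⟩⟩ := h.dep
  have hlφ : ∀ i, φ (l i) = (![y - algebraMap ℚ K D.a, y - algebraMap ℚ K D.b, aeval y D.g,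
      aeval y D.u / aeval y D.w, aeval y D.v / aeval y D.w] : Fin 5 → K) i := by
    intro i
    fin_cases i
    · simp [l, hφ]
    · simp [l, hφ]
    · simp [l, hP]
    · simp [l, hP]
    · simp [l, hP]
  have hmon : ∀ k : Fin 5 → ℤ, φ (mon l k) =
      mon (cu D.a D.b D.g y) ![k 0, k 1, k 2] * (aeval y D.u / aeval y D.w) ^ k 3 *
        (aeval y D.v / aeval y D.w) ^ k 4 := by
    intro k
    have e1 : φ (mon l k) = mon (fun j => φ (l j)) k := map_mon (φ : K₀ →+* K) l k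
    rw [e1]
    unfold mon
    simp only [hlφ, Fin.prod_univ_five, Fin.prod_univ_three]
    simp [cu]
  have hx' : (aeval y D.u / aeval y D.w) * x ≠ 0 := mul_ne_zero (div_ne_zero h.hu h.hw) h.hx
  have hz' : (aeval y D.v / aeval y D.w) * z ≠ 0 := mul_ne_zero (div_ne_zero h.hv h.hw) h.hz
  have hw := h.hw
  have hsum : (aeval y D.u / aeval y D.w) * x + (aeval y D.v / aeval y D.w) * z = 1 := by
    have := h.heq
    field_simp
    exact this
  have hlast := hml K (φ : K₀ →+* K) _ _ hx' hz' hsum m hm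
    ⟨![c 0, c 1, c 2, m, 0], by
      show _ = φ (mon l _)
      rw [hmon, mul_pow, hc]
      have e2 : (![(![c 0, c 1, c 2, (m : ℤ), 0] : Fin 5 → ℤ) 0,
          (![c 0, c 1, c 2, (m : ℤ), 0] : Fin 5 → ℤ) 1,
          (![c 0, c 1, c 2, (m : ℤ), 0] : Fin 5 → ℤ) 2] : Fin 3 → ℤ) = c := by
        funext i
        fin_cases i <;> rfl
      rw [e2]
      show _ = _ * _ ^ (m : ℤ) * _ ^ (0 : ℤ)
      rw [zpow_natCast, zpow_zero, mul_one, mul_comm]⟩
    ⟨![d 0, d 1, d 2, 0, m], by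
      show _ = φ (mon l _)
      rw [hmon, mul_pow, hd]
      have e2 : (![(![d 0, d 1, d 2, 0, (m : ℤ)] : Fin 5 → ℤ) 0,
          (![d 0, d 1, d 2, 0, (m : ℤ)] : Fin 5 → ℤ) 1,
          (![d 0, d 1, d 2, 0, (m : ℤ)] : Fin 5 → ℤ) 2] : Fin 3 → ℤ) = d := by
        funext i
        fin_cases i <;> rfl
      rw [e2]
      show _ = _ * _ ^ (0 : ℤ) * _ ^ (m : ℤ)
      rw [zpow_natCast, zpow_zero, mul_one, mul_comm]⟩
  have hx : x = ((aeval y D.u / aeval y D.w) * x) * (aeval y D.w / aeval y D.u) := by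
    have := h.hu
    field_simp
  have h4 : hh x ≤ hh ((aeval y D.u / aeval y D.w) * x) + hh (aeval y D.w / aeval y D.u) := by
    conv_lhs => rw [hx]
    exact hh_mul_le hx' (div_ne_zero h.hw h.hu)
  have h5 := hh_div_le h.hw h.hu
  nlinarith

theorem main (D : Dat) : ∃ C : ℝ,
    ∀ (K : Type) [Field K] [NumberField K] (x z y : K), Pt D K x z y →
      hh x ≤ C * dg K ∧ hh z ≤ C * dg K ∧ hh y ≤ C * dg K ∧
        ∀ j, hh (cu D.a D.b D.g y j) ≤ C * dg K := by
  classical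
  obtain ⟨B, hB, hc2⟩ := c2height D
  obtain ⟨B', hB', hcu⟩ := cu_height D B
  obtain ⟨H, S, hdeg⟩ := degree D
  choose Cf hCf0 hCf using fun f => fixedMin D B f
  obtain ⟨C', hC', huvw⟩ := uvw D B
  set Cx : ℝ := |H| + ∑ f ∈ S, Cf f with hCx
  have hCx0 : 0 ≤ Cx := add_nonneg (abs_nonneg _) (Finset.sum_nonneg fun f _ => hCf0 f)
  have hx : ∀ (K : Type) [Field K] [NumberField K] (x z y : K), Pt D K x z y →
      hh x ≤ Cx * dg K ∧ hh y ≤ B * dg K := by
    intro K _ _ x z y h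
    have hd : 0 < dg K := dg_pos
    obtain ⟨k, hk, hkr⟩ := h.real_rel
    have hy := hc2 K y h.hcu k hk hkr
    refine ⟨?_, hy⟩
    rcases le_total (H * dg K) (hh x) with h1 | h1
    · have h2 := hdeg K x z y h h1
      have h3 := hCf (minpoly ℚ y) K x z y h hy rfl
      have h4 : Cf (minpoly ℚ y) ≤ ∑ f ∈ S, Cf f :=
        Finset.single_le_sum (fun f _ => hCf0 f) h2
      refine h3.trans (mul_le_mul_of_nonneg_right ?_ hd.le)
      linarith [abs_nonneg H]
    · refine h1.trans (mul_le_mul_of_nonneg_right ?_ hd.le)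
      have : 0 ≤ ∑ f ∈ S, Cf f := Finset.sum_nonneg fun f _ => hCf0 f
      linarith [le_abs_self H]
  refine ⟨Cx + B + B' + 4 * C' + Cx + 1, fun K _ _ x z y h => ?_⟩
  have hd : 0 < dg K := dg_pos
  obtain ⟨h1, h2⟩ := hx K x z y h
  obtain ⟨h3, h4, h5⟩ := huvw K x z y h h2
  have hlog : Real.log 2 ≤ 1 := by
    have := Real.log_two_lt_d9
    linarith
  refine ⟨?_, ?_, ?_, fun j => ?_⟩
  · nlinarith
  · -- z = (w - u x) / v
    have hz : z = (aeval y D.w - aeval y D.u * x) / aeval y D.v := by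
      rw [eq_div_iff h.hv]
      linear_combination h.heq
    have hne : aeval y D.w - aeval y D.u * x ≠ 0 := by
      rw [← h.heq]
      have : aeval y D.u * x + aeval y D.v * z - aeval y D.u * x = aeval y D.v * z := by ring
      rw [this]
      exact mul_ne_zero h.hv h.hz
    have h6 : hh z ≤ hh (aeval y D.w - aeval y D.u * x) + hh (aeval y D.v) := by
      conv_lhs => rw [hz]
      exact hh_div_le hne h.hv
    have h7 := hh_sub_le h.hw (mul_ne_zero h.hu h.hx) hne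
    have h8 := hh_mul_le h.hu h.hx
    nlinarith
  · nlinarith
  · have h9 := hcu K y h.hcu h2 j
    nlinarith

end Pool.Agent.Work.MP_7da6af_nt
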