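import Mathlib

/-! # Padé type identities with integer coefficients

`X ^ (2 n + 1) X ^ k A + (1 - X) ^ (2 n + 1) B = C` for `k = 0, 1`, with the determinant
`A₀ B₁ - X A₁ B₀` a nonzero constant.
-/

set_option autoImplicit false

namespace Pool.Agent.Work.MP_7da6af_nt

open Polynomial intervalIntegral Nat

theorem beta_int (a b : ℕ) (T : ℝ) :
    ∫ t in (0 : ℝ)..T, t ^ a * (T - t) ^ b =
      ((a ! : ℝ) * (b ! : ℝ) / ((a + b + 1) ! : ℝ)) * T ^ (a + b + 1) := by
  induction b generalizing a with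
  | zero =>
    simp only [pow_zero, mul_one, factorial_zero, cast_one, add_zero, integral_pow]
    rw [factorial_succ]
    have : (a ! : ℝ) ≠ 0 := by exact_mod_cast factorial_ne_zero a
    push_cast
    field_simp
    simp
  | succ b ih =>
    have hd : ∀ t ∈ Set.uIcc (0 : ℝ) T, HasDerivAt (fun t : ℝ => t ^ (a + 1) * (T - t) ^ (b + 1))
        (((a : ℝ) + 1) * (t ^ a * (T - t) ^ (b + 1)) - ((b : ℝ) + 1) * (t ^ (a + 1) * (T - t) ^ b))
        t := by
      intro t _
      have h1 : HasDerivAt (fun t : ℝ => t ^ (a + 1)) (((a : ℝ) + 1) * t ^ a) t := by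
        have := hasDerivAt_pow (a + 1) t
        simpa using this
      have h2 : HasDerivAt (fun t : ℝ => (T - t) ^ (b + 1)) (-(((b : ℝ) + 1) * (T - t) ^ b)) t := by
        have h3 : HasDerivAt (fun t : ℝ => T - t) (-1) t := by
          simpa using (hasDerivAt_id t).const_sub T
        have := h3.fun_pow (b + 1)
        simpa using this
      have h3 := h1.mul h2
      refine h3.congr_deriv ?_
      ring
    have hi : IntervalIntegrable (fun t : ℝ => ((a : ℝ) + 1) * (t ^ a * (T - t) ^ (b + 1)) -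
        ((b : ℝ) + 1) * (t ^ (a + 1) * (T - t) ^ b)) MeasureTheory.volume 0 T := by
      apply Continuous.intervalIntegrable
      fun_prop
    have h := integral_eq_sub_of_hasDerivAt hd hi
    rw [integral_sub (by apply Continuous.intervalIntegrable; fun_prop)
      (by apply Continuous.intervalIntegrable; fun_prop), integral_const_mul,
      integral_const_mul, ih (a + 1)] at h
    have h0 : (T ^ (a + 1) * (T - T) ^ (b + 1) - 0 ^ (a + 1) * (T - 0) ^ (b + 1) : ℝ) = 0 := by
      simp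
    rw [h0] at h
    have ha : ((a : ℝ) + 1) ≠ 0 := by positivity
    have h4 : ∫ t in (0 : ℝ)..T, t ^ a * (T - t) ^ (b + 1) =
        ((b : ℝ) + 1) / ((a : ℝ) + 1) * ((((a + 1) ! : ℝ)) * (b ! : ℝ) / ((a + 1 + b + 1) ! : ℝ) *
          T ^ (a + 1 + b + 1)) := by
      rw [div_mul_eq_mul_div, eq_div_iff ha, mul_comm _ ((a : ℝ) + 1)]
      linarith
    rw [h4, factorial_succ a, factorial_succ b, show a + 1 + b + 1 = a + (b + 1) + 1 by ring]
    push_cast
    field_simp

/-- the coefficients -/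
def cf (a b c j : ℕ) : ℤ := (-1) ^ j * (a + j).choose j * (a + b + c + 1).choose (c - j)

/-- the normalising factor -/
noncomputable def nf (a b c : ℕ) : ℝ := ((a + b + c + 1) ! : ℝ) / ((a ! : ℝ) * (b ! : ℝ) * (c ! : ℝ))

theorem nf_mul (a b c j : ℕ) (hj : j ≤ c) :
    nf a b c * (((-1) ^ j * (c.choose j : ℝ)) *
      (((a + j) ! : ℝ) * (b ! : ℝ) / ((a + j + b + 1) ! : ℝ))) = (cf a b c j : ℝ) := by
  unfold nf cf
  obtain ⟨i, rfl⟩ := Nat.exists_eq_add_of_le hj
  have h1 : ((j + i).choose j : ℝ) = ((j + i) ! : ℝ) / ((j ! : ℝ) * (i ! : ℝ)) := by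
    rw [Nat.cast_add_choose]
  have h2 : ((a + j).choose j : ℝ) = ((a + j) ! : ℝ) / ((a ! : ℝ) * (j ! : ℝ)) := by
    rw [Nat.add_comm a j, Nat.cast_add_choose, mul_comm (j ! : ℝ)]
  have h3 : ((a + b + (j + i) + 1).choose (j + i - j) : ℝ) =
      ((a + b + (j + i) + 1) ! : ℝ) / ((i ! : ℝ) * ((a + j + b + 1) ! : ℝ)) := by
    rw [Nat.add_sub_cancel_left, show a + b + (j + i) + 1 = i + (a + j + b + 1) by ring,
      Nat.cast_add_choose]
  push_cast
  rw [h1, h2, h3]
  have e1 : (a ! : ℝ) ≠ 0 := by exact_mod_cast factorial_ne_zero _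
  have e2 : (b ! : ℝ) ≠ 0 := by exact_mod_cast factorial_ne_zero _
  have e3 : ((j + i) ! : ℝ) ≠ 0 := by exact_mod_cast factorial_ne_zero _
  have e4 : (j ! : ℝ) ≠ 0 := by exact_mod_cast factorial_ne_zero _
  have e5 : (i ! : ℝ) ≠ 0 := by exact_mod_cast factorial_ne_zero _
  have e6 : ((a + j + b + 1) ! : ℝ) ≠ 0 := by exact_mod_cast factorial_ne_zero _
  field_simp

theorem one_sub_pow_eq (c : ℕ) (t : ℝ) :
    (1 - t) ^ c = ∑ j ∈ Finset.range (c + 1), (-1) ^ j * (c.choose j : ℝ) * t ^ j := by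
  rw [sub_eq_neg_add, add_pow]
  refine Finset.sum_congr rfl fun j _ => ?_
  rw [neg_pow]
  ring

theorem J_int (a b c : ℕ) (S : ℝ) :
    nf a b c * ∫ t in (0 : ℝ)..S, t ^ a * (S - t) ^ b * (1 - t) ^ c =
      S ^ (a + b + 1) * ∑ j ∈ Finset.range (c + 1), (cf a b c j : ℝ) * S ^ j := by
  have h1 : ∀ t : ℝ, t ^ a * (S - t) ^ b * (1 - t) ^ c =
      ∑ j ∈ Finset.range (c + 1), ((-1) ^ j * (c.choose j : ℝ)) * (t ^ (a + j) * (S - t) ^ b) := by
    intro t
    rw [one_sub_pow_eq, Finset.mul_sum]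
    refine Finset.sum_congr rfl fun j _ => ?_
    ring
  simp only [h1]
  rw [integral_finsetSum]
  · simp only [integral_const_mul, beta_int]
    rw [Finset.mul_sum, Finset.mul_sum]
    refine Finset.sum_congr rfl fun j hj => ?_
    rw [← nf_mul a b c j (by simpa [Nat.lt_succ_iff] using hj)]
    rw [show a + j + b + 1 = a + b + 1 + j by ring, pow_add]
    ring
  · intro j _
    apply Continuous.intervalIntegrable
    fun_prop

/-- the first polynomial -/
noncomputable def pA (n k : ℕ) : ℤ[X] := ∑ j ∈ Finset.range (n + 1), C (cf (n + k) n n j) * X ^ j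

/-- the second polynomial -/
noncomputable def pB (n k : ℕ) : ℤ[X] :=
  C ((-1) ^ n) * ∑ j ∈ Finset.range (n + k + 1), C (cf n n (n + k) j) * (1 - X) ^ j

/-- the third polynomial -/
noncomputable def pC (n k : ℕ) : ℤ[X] :=
  ∑ j ∈ Finset.range (n + 1), C (cf (n + k) n n j) * X ^ (n - j)

theorem pade_real (n k : ℕ) (T : ℝ) :
    T ^ (2 * n + 1 + k) * (∑ j ∈ Finset.range (n + 1), (cf (n + k) n n j : ℝ) * T ^ j) +
      (1 - T) ^ (2 * n + 1) * ((-1) ^ n * ∑ j ∈ Finset.range (n + k + 1),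
        (cf n n (n + k) j : ℝ) * (1 - T) ^ j) =
      ∑ j ∈ Finset.range (n + 1), (cf (n + k) n n j : ℝ) * T ^ (n - j) := by
  set f : ℝ → ℝ := fun t => t ^ (n + k) * (T - t) ^ n * (1 - t) ^ n with hf
  have hfc : Continuous f := by rw [hf]; fun_prop
  have h1 : nf (n + k) n n * ∫ t in (0 : ℝ)..T, f t =
      T ^ (2 * n + 1 + k) * ∑ j ∈ Finset.range (n + 1), (cf (n + k) n n j : ℝ) * T ^ j := by
    rw [hf, J_int]
    congr 2
    ring
  have h2 : nf (n + k) n n * ∫ t in T..(1 : ℝ), f t =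
      (1 - T) ^ (2 * n + 1) * ((-1) ^ n * ∑ j ∈ Finset.range (n + k + 1),
        (cf n n (n + k) j : ℝ) * (1 - T) ^ j) := by
    have e1 : ∫ t in T..(1 : ℝ), f t = ∫ t in (0 : ℝ)..(1 - T), f (1 - t) := by
      rw [integral_comp_sub_left f 1]
      simp
    have e2 : ∀ t : ℝ, f (1 - t) = (-1) ^ n * (t ^ n * ((1 - T) - t) ^ n * (1 - t) ^ (n + k)) := by
      intro t
      simp only [hf]
      have e3 : T - (1 - t) = (-1) * ((1 - T) - t) := by ring
      have e4 : 1 - (1 - t) = t := by ring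
      rw [e3, e4, mul_pow]
      ring
    rw [e1]
    simp only [e2]
    rw [integral_const_mul]
    have e5 : nf (n + k) n n = nf n n (n + k) := by
      unfold nf
      rw [show n + k + n + n + 1 = n + n + (n + k) + 1 by ring]
      ring
    rw [e5, mul_left_comm, J_int]
    rw [show n + n + 1 = 2 * n + 1 by ring]
    ring
  have h3 : nf (n + k) n n * ∫ t in (0 : ℝ)..1, f t =
      ∑ j ∈ Finset.range (n + 1), (cf (n + k) n n j : ℝ) * T ^ (n - j) := by
    have e1 : ∀ t : ℝ, f t = ∑ j ∈ Finset.range (n + 1),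
        ((-1) ^ j * (n.choose j : ℝ) * T ^ (n - j)) * (t ^ (n + k + j) * (1 - t) ^ n) := by
      intro t
      simp only [hf]
      have e2 : (T - t) ^ n = ∑ j ∈ Finset.range (n + 1),
          (-1) ^ j * (n.choose j : ℝ) * T ^ (n - j) * t ^ j := by
        rw [sub_eq_neg_add, add_pow]
        refine Finset.sum_congr rfl fun j _ => ?_
        rw [neg_pow]
        ring
      rw [e2, Finset.mul_sum, Finset.sum_mul]
      refine Finset.sum_congr rfl fun j _ => ?_
      ring
    simp only [e1]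
    rw [integral_finsetSum]
    · have e3 := fun j => beta_int (n + k + j) n 1
      simp only [integral_const_mul, e3]
      rw [Finset.mul_sum]
      refine Finset.sum_congr rfl fun j hj => ?_
      rw [← nf_mul (n + k) n n j (by simpa [Nat.lt_succ_iff] using hj)]
      ring
    · intro j _
      apply Continuous.intervalIntegrable
      fun_prop
  rw [← h1, ← h2, ← h3, ← mul_add]
  rw [integral_add_adjacent_intervals (hfc.intervalIntegrable _ _) (hfc.intervalIntegrable _ _)]

theorem pade_poly (n k : ℕ) :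
    (X : ℤ[X]) ^ (2 * n + 1 + k) * pA n k + (1 - X) ^ (2 * n + 1) * pB n k = pC n k := by
  have hinj : Function.Injective (Polynomial.map (Int.castRingHom ℝ)) :=
    Polynomial.map_injective _ Int.cast_injective
  apply hinj
  apply Polynomial.funext
  intro T
  have h := pade_real n k T
  simp only [pA, pB, pC, Polynomial.map_add, Polynomial.map_mul, Polynomial.map_pow,
    Polynomial.map_sub, Polynomial.map_one, Polynomial.map_X, Polynomial.map_sum,
    Polynomial.map_C, eval_add, eval_mul, eval_pow, eval_sub, eval_one, eval_X,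
    eval_finsetSum, eval_C]
  simpa using h

theorem natDegree_pA (n k : ℕ) : (pA n k).natDegree ≤ n := by
  unfold pA
  apply natDegree_sum_le_of_forall_le
  intro j hj
  exact (natDegree_C_mul_X_pow_le _ _).trans (by simpa [Nat.lt_succ_iff] using hj)

theorem natDegree_pC (n k : ℕ) : (pC n k).natDegree ≤ n := by
  unfold pC
  apply natDegree_sum_le_of_forall_le
  intro j _
  exact (natDegree_C_mul_X_pow_le _ _).trans (Nat.sub_le _ _)

theorem natDegree_pB (n k : ℕ) : (pB n k).natDegree ≤ n + k := by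
  unfold pB
  refine (natDegree_C_mul_le _ _).trans ?_
  apply natDegree_sum_le_of_forall_le
  intro j hj
  refine (natDegree_C_mul_le _ _).trans ?_
  refine (natDegree_pow_le).trans ?_
  have h1 : (1 - X : ℤ[X]).natDegree ≤ 1 := by
    refine (natDegree_sub_le _ _).trans ?_
    simp
  have h2 : j ≤ n + k := by simpa [Nat.lt_succ_iff] using hj
  calc j * (1 - X : ℤ[X]).natDegree ≤ j * 1 := Nat.mul_le_mul_left _ h1
    _ ≤ n + k := by omega

theorem pA_coeff_zero (n k : ℕ) : (pA n k).coeff 0 ≠ 0 := by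
  unfold pA
  rw [finsetSum_coeff, Finset.sum_eq_single 0]
  · simp only [pow_zero, mul_one, coeff_C_zero, cf]
    have h1 : 0 < (n + k + 0).choose 0 := Nat.choose_pos (by omega)
    have h2 : 0 < (n + k + n + n + 1).choose (n - 0) := Nat.choose_pos (by omega)
    positivity
  · intro j _ hj
    rw [coeff_C_mul_X_pow, if_neg (Ne.symm hj)]
  · intro h
    exact absurd (Finset.mem_range.mpr (by omega)) h

theorem pC_coeff_zero (n k : ℕ) : (pC n k).coeff 0 ≠ 0 := by
  unfold pC
  rw [finsetSum_coeff, Finset.sum_eq_single n]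
  · simp only [Nat.sub_self, pow_zero, mul_one, coeff_C_zero, cf]
    have h1 : 0 < (n + k + n).choose n := Nat.choose_pos (by omega)
    have h2 : 0 < (n + k + n + n + 1).choose 0 := Nat.choose_pos (by omega)
    have h3 : ((-1 : ℤ)) ^ n ≠ 0 := pow_ne_zero _ (by norm_num)
    refine mul_ne_zero (mul_ne_zero h3 ?_) ?_
    · exact_mod_cast h1.ne'
    · exact_mod_cast h2.ne'
  · intro j hj hjn
    have h1 : j ≤ n := by simpa [Nat.lt_succ_iff] using hj
    rw [coeff_C_mul_X_pow, if_neg]
    omega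
  · intro h
    exact absurd (Finset.mem_range.mpr (by omega)) h

theorem pB_coeff_zero (n k : ℕ) : (pB n k).coeff 0 ≠ 0 := by
  have h := congrArg (fun q : ℤ[X] => q.eval 0) (pade_poly n k)
  simp only [eval_add, eval_mul, eval_pow, eval_X, eval_sub, eval_one, sub_zero, one_pow,
    one_mul] at h
  rw [zero_pow (by omega), zero_mul, zero_add] at h
  have h1 := pC_coeff_zero n k
  rw [coeff_zero_eq_eval_zero] at h1 ⊢
  rw [h]
  exact h1

/-- the determinant is a nonzero constant -/
theorem pade_det (n : ℕ) : ∃ d : ℤ, d ≠ 0 ∧ pA n 0 * pB n 1 - X * pA n 1 * pB n 0 = C d := by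
  set D := pA n 0 * pB n 1 - X * pA n 1 * pB n 0 with hD
  have h0 := pade_poly n 0
  have h1 := pade_poly n 1
  have key : (X : ℤ[X]) ^ (2 * n + 1) * D = pC n 0 * pB n 1 - pC n 1 * pB n 0 := by
    rw [hD, ← h0, ← h1]
    ring
  have hdeg : (pC n 0 * pB n 1 - pC n 1 * pB n 0).natDegree ≤ 2 * n + 1 := by
    refine (natDegree_sub_le _ _).trans (max_le ?_ ?_)
    · refine (natDegree_mul_le).trans ?_
      have a1 := natDegree_pC n 0
      have a2 := natDegree_pB n 1
      omega
    · refine (natDegree_mul_le).trans ?_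
      have a1 := natDegree_pC n 1
      have a2 := natDegree_pB n 0
      omega
  have hD0 : D.coeff 0 ≠ 0 := by
    rw [hD, coeff_sub, mul_coeff_zero, mul_assoc, coeff_X_mul_zero, sub_zero]
    exact mul_ne_zero (pA_coeff_zero n 0) (pB_coeff_zero n 1)
  have hDne : D ≠ 0 := fun h => hD0 (by rw [h, coeff_zero])
  have hDd : D.natDegree = 0 := by
    rw [← key, natDegree_X_pow_mul _ hDne] at hdeg
    omega
  exact ⟨D.coeff 0, hD0, eq_C_of_natDegree_eq_zero hDd⟩

theorem cf_bound (a b c j : ℕ) : |cf a b c j| ≤ 2 ^ (a + j) * 2 ^ (a + b + c + 1) := by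
  unfold cf
  rw [abs_mul, abs_mul, abs_pow, abs_neg, abs_one, one_pow, one_mul, Nat.abs_cast, Nat.abs_cast]
  have h1 : (((a + j).choose j : ℕ) : ℤ) ≤ 2 ^ (a + j) := by
    exact_mod_cast Nat.choose_le_two_pow _ _
  have h2 : (((a + b + c + 1).choose (c - j) : ℕ) : ℤ) ≤ 2 ^ (a + b + c + 1) := by
    exact_mod_cast Nat.choose_le_two_pow _ _
  exact mul_le_mul h1 h2 (by positivity) (by positivity)

end Pool.Agent.Work.MP_7da6af_nt
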