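import Pool.Agent.Work.MP_7da6af_nt.Defs

/-! # Sums over places: basic rules -/

set_option autoImplicit false

namespace Pool.Agent.Work.MP_7da6af_nt

open NumberField Polynomial

variable {K : Type} [Field K] [NumberField K]

theorem wt_pos (p : Pl K) : 0 < wt p := by
  rcases p with v | v
  · show (0 : ℝ) < (v.mult : ℝ)
    exact_mod_cast InfinitePlace.mult_pos
  · exact one_pos

theorem ar_nonneg (p : Pl K) : 0 ≤ ar p := by
  rcases p with v | v
  · exact zero_le_one
  · exact le_rfl

theorem FS.add {F G : Pl K → ℝ} (hF : FS F) (hG : FS G) : FS (fun p => F p + G p) :=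
  (hF.union hG).subset (Function.support_add _ _)

theorem FS.smul {F : Pl K → ℝ} (hF : FS F) (c : ℝ) : FS (fun p => c * F p) :=
  hF.subset (Function.support_mul_subset_right _ _)

theorem FS.of_imp {F G : Pl K → ℝ} (hF : FS F) (h : ∀ p, F p = 0 → G p = 0) : FS G :=
  hF.subset fun p hp hF0 => hp (h p hF0)

theorem fs_zero : FS (fun _ : Pl K => (0 : ℝ)) := by
  simp [FS, Function.support]

theorem fs_ar : FS (ar : Pl K → ℝ) := by
  refine (Set.finite_range (Sum.inl : InfinitePlace K → Pl K)).subset ?_
  rintro (v | v) hp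
  · exact ⟨v, rfl⟩
  · exact absurd rfl hp

theorem fs_wt {F : Pl K → ℝ} (hF : FS F) : (Function.support fun p => wt p * F p).Finite :=
  hF.subset (Function.support_mul_subset_right _ _)

theorem plSum_add {F G : Pl K → ℝ} (hF : FS F) (hG : FS G) :
    plSum K (fun p => F p + G p) = plSum K F + plSum K G := by
  unfold plSum
  simp only [mul_add]
  exact finsum_add_distrib (fs_wt hF) (fs_wt hG)

theorem plSum_smul (F : Pl K → ℝ) (c : ℝ) :
    plSum K (fun p => c * F p) = c * plSum K F := by
  unfold plSum
  rw [mul_finsum]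
  refine finsum_congr fun p => ?_
  ring

theorem plSum_congr {F G : Pl K → ℝ} (h : ∀ p, F p = G p) : plSum K F = plSum K G := by
  unfold plSum
  exact finsum_congr fun p => by rw [h p]

theorem plSum_nonneg {F : Pl K → ℝ} (h : ∀ p, 0 ≤ F p) : 0 ≤ plSum K F :=
  finsum_nonneg fun p => mul_nonneg (wt_pos p).le (h p)

theorem plSum_mono {F G : Pl K → ℝ} (hF : FS F) (hG : FS G) (h : ∀ p, F p ≤ G p) :
    plSum K F ≤ plSum K G := by
  have h1 : plSum K G = plSum K F + plSum K (fun p => G p + (-1) * F p) := by
    rw [← plSum_add hF (hG.add (hF.smul _))]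
    exact plSum_congr fun p => by ring
  have h2 : 0 ≤ plSum K (fun p => G p + (-1) * F p) :=
    plSum_nonneg fun p => by linarith [h p]
  linarith

/-- finite sum of functions -/
theorem FS.sum {ι : Type} (s : Finset ι) {F : ι → Pl K → ℝ} (hF : ∀ i ∈ s, FS (F i)) :
    FS (fun p => ∑ i ∈ s, F i p) := by
  classical
  induction s using Finset.induction_on with
  | empty =>
    simp only [Finset.sum_empty]
    exact fs_zero
  | insert a s ha ih =>
    simp only [Finset.sum_insert ha]
    exact (hF a (Finset.mem_insert_self _ _)).add (ih fun i hi => hF i (Finset.mem_insert_of_mem hi))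

theorem plSum_sum {ι : Type} (s : Finset ι) {F : ι → Pl K → ℝ} (hF : ∀ i ∈ s, FS (F i)) :
    plSum K (fun p => ∑ i ∈ s, F i p) = ∑ i ∈ s, plSum K (F i) := by
  classical
  induction s using Finset.induction_on with
  | empty => simp [plSum]
  | insert a s ha ih =>
    simp only [Finset.sum_insert ha]
    rw [plSum_add (hF a (Finset.mem_insert_self _ _))
      (FS.sum s fun i hi => hF i (Finset.mem_insert_of_mem hi)),
      ih fun i hi => hF i (Finset.mem_insert_of_mem hi)]

theorem finsum_inr (G : FinitePlace K → ℝ) :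
    (∑ᶠ p : Pl K, Sum.elim (fun _ => 0) G p) = ∑ᶠ v : FinitePlace K, G v := by
  have h1 := finsum_mem_range (f := fun p : Pl K => Sum.elim (fun _ => (0 : ℝ)) G p)
    (g := (Sum.inr : FinitePlace K → Pl K)) Sum.inr_injective
  simp only [Sum.elim_inr] at h1
  rw [← h1, finsum_mem_def]
  refine finsum_congr fun p => ?_
  rcases p with v | v
  · rw [Set.indicator_of_notMem]
    · rfl
    · rintro ⟨w, hw⟩
      exact Sum.inr_ne_inl hw
  · rw [Set.indicator_of_mem]
    exact ⟨v, rfl⟩

theorem finsum_inl (G : InfinitePlace K → ℝ) :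
    (∑ᶠ p : Pl K, Sum.elim G (fun _ => 0) p) = ∑ v : InfinitePlace K, G v := by
  have h1 := finsum_mem_range (f := fun p : Pl K => Sum.elim G (fun _ => (0 : ℝ)) p)
    (g := (Sum.inl : InfinitePlace K → Pl K)) Sum.inl_injective
  simp only [Sum.elim_inl] at h1
  rw [← finsum_eq_sum_of_fintype, ← h1, finsum_mem_def]
  refine finsum_congr fun p => ?_
  rcases p with v | v
  · rw [Set.indicator_of_mem]
    exact ⟨v, rfl⟩
  · rw [Set.indicator_of_notMem]
    · rfl
    · rintro ⟨w, hw⟩
      exact Sum.inl_ne_inr hw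

/-- splitting into archimedean and other places -/
theorem plSum_eq {F : Pl K → ℝ} (hF : FS F) :
    plSum K F = ∑ v : InfinitePlace K, (v.mult : ℝ) * F (Sum.inl v) +
      ∑ᶠ v : FinitePlace K, F (Sum.inr v) := by
  rw [← finsum_inl, ← finsum_inr, ← finsum_add_distrib]
  · unfold plSum
    refine finsum_congr fun p => ?_
    rcases p with v | v
    · simp [wt]
    · simp [wt]
  · refine (Set.finite_range (Sum.inl : InfinitePlace K → Pl K)).subset ?_
    rintro (v | v) hp
    · exact ⟨v, rfl⟩
    · exact absurd rfl hp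
  · refine hF.subset ?_
    rintro (v | v) hp
    · exact absurd rfl hp
    · exact hp

/-- `∑ mult = [K : ℚ]` -/
theorem plSum_ar : plSum K ar = dg K := by
  rw [plSum_eq fs_ar]
  simp only [ar, mul_one, finsum_zero, add_zero, dg]
  exact_mod_cast InfinitePlace.sum_mult_eq (K := K)

theorem dg_pos : 0 < dg K := by
  unfold dg
  exact_mod_cast Module.finrank_pos

theorem av_inl (v : InfinitePlace K) (x : K) : av (Sum.inl v) x = v x := rfl

theorem av_inr (v : FinitePlace K) (x : K) : av (Sum.inr v) x = v x := rfl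

/-- the triangle inequality -/
theorem av_add_le (p : Pl K) (x z : K) : av p (x + z) ≤ av p x + av p z :=
  (av p).add_le _ _

/-- the ultrametric inequality at the finite places -/
theorem av_add_le_max (v : FinitePlace K) (x z : K) :
    av (Sum.inr v) (x + z) ≤ max (av (Sum.inr v) x) (av (Sum.inr v) z) :=
  v.add_le x z

theorem fs_lg {x : K} (hx : x ≠ 0) : FS fun p : Pl K => lg p x := by
  have h1 := FinitePlace.hasFiniteMulSupport hx
  refine ((Set.finite_range (Sum.inl : InfinitePlace K → Pl K)).union
    (h1.image (Sum.inr : FinitePlace K → Pl K))).subset ?_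
  rintro (v | v) hp
  · exact Or.inl ⟨v, rfl⟩
  · refine Or.inr ⟨v, ?_, rfl⟩
    intro h
    apply hp
    have h' : v x = 1 := h
    show Real.log (v x) = 0
    rw [h', Real.log_one]

/-- the product formula -/
theorem plSum_lg {x : K} (hx : x ≠ 0) : plSum K (fun p => lg p x) = 0 := by
  rw [plSum_eq (fs_lg hx)]
  have h1 := prod_abs_eq_one hx
  have h2 : ∀ v : FinitePlace K, 0 < v x := fun v => FinitePlace.pos_iff.mpr hx
  have h3 : ∀ v : InfinitePlace K, 0 < v x := fun v => InfinitePlace.pos_iff.mpr hx
  have h4 := congrArg Real.log h1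
  have h5 : Real.log (∏ᶠ w : FinitePlace K, w x) = ∑ᶠ w : FinitePlace K, Real.log (w x) := by
    have hf := FinitePlace.hasFiniteMulSupport hx
    rw [finprod_eq_prod_of_mulSupport_subset (s := hf.toFinset) _ (by simp),
      finsum_eq_sum_of_support_subset (s := hf.toFinset), Real.log_prod]
    · intro v _
      exact (h2 v).ne'
    · intro v hv
      simp only [Set.Finite.coe_toFinset]
      intro h
      apply hv
      have h' : v x = 1 := h
      show Real.log (v x) = 0
      rw [h', Real.log_one]
  have h6 : (∏ᶠ w : FinitePlace K, w x) ≠ 0 := by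
    intro h
    rw [h, mul_zero] at h1
    exact zero_ne_one h1
  rw [Real.log_mul (Finset.prod_ne_zero_iff.mpr fun v _ => pow_ne_zero _ (h3 v).ne') h6,
    Real.log_prod (fun v _ => pow_ne_zero _ (h3 v).ne'), h5, Real.log_one] at h4
  simp only [Real.log_pow] at h4
  exact h4

theorem lg_mul (p : Pl K) {x z : K} (hx : x ≠ 0) (hz : z ≠ 0) :
    lg p (x * z) = lg p x + lg p z := by
  unfold lg
  rw [map_mul, Real.log_mul ((av p).ne_zero hx) ((av p).ne_zero hz)]

theorem lg_inv (p : Pl K) (x : K) : lg p x⁻¹ = - lg p x := by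
  unfold lg
  rw [map_inv₀, Real.log_inv]

theorem lg_zpow (p : Pl K) (x : K) (n : ℤ) : lg p (x ^ n) = n * lg p x := by
  unfold lg
  rw [map_zpow₀, Real.log_zpow]

theorem lg_pow (p : Pl K) (x : K) (n : ℕ) : lg p (x ^ n) = n * lg p x := by
  unfold lg
  rw [map_pow, Real.log_pow]

theorem lg_one (p : Pl K) : lg p (1 : K) = 0 := by
  unfold lg
  rw [map_one, Real.log_one]

/-- relation with the height of Mathlib -/
theorem hh_eq {x : K} (hx : x ≠ 0) : hh x = Height.logHeight₁ x := by
  rw [NumberField.logHeight₁_eq]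
  unfold hh
  rw [plSum_eq ((fs_lg hx).of_imp fun p hp => by rw [hp, max_self])]
  rfl

theorem hh_nonneg (x : K) : 0 ≤ hh x := plSum_nonneg fun _ => le_max_left _ _

theorem fs_max {x : K} (hx : x ≠ 0) : FS fun p : Pl K => max 0 (lg p x) :=
  (fs_lg hx).of_imp fun p hp => by rw [hp, max_self]

/-- negative part -/
theorem plSum_neg {x : K} (hx : x ≠ 0) : plSum K (fun p => max 0 (- lg p x)) = hh x := by
  have h1 : plSum K (fun p => max 0 (- lg p x) + lg p x) = hh x := by
    unfold hh
    refine plSum_congr fun p => ?_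
    rcases le_total 0 (lg p x) with h | h
    · rw [max_eq_left (by linarith), max_eq_right h, zero_add]
    · rw [max_eq_right (by linarith), max_eq_left h]; ring
  rw [plSum_add ((fs_lg hx).of_imp fun p hp => by rw [hp, neg_zero, max_self]) (fs_lg hx),
    plSum_lg hx, add_zero] at h1
  exact h1

/-- the sum of the absolute values of the logarithms is twice the height -/
theorem plSum_abs {x : K} (hx : x ≠ 0) : plSum K (fun p => |lg p x|) = 2 * hh x := by
  have h1 : plSum K (fun p => |lg p x|) =
      plSum K (fun p => max 0 (lg p x) + max 0 (- lg p x)) := by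
    refine plSum_congr fun p => ?_
    rcases le_total 0 (lg p x) with h | h
    · rw [max_eq_right h, max_eq_left (by linarith), abs_of_nonneg h, add_zero]
    · rw [max_eq_left h, max_eq_right (by linarith), abs_of_nonpos h, zero_add]
  rw [h1, plSum_add (fs_max hx) ((fs_lg hx).of_imp fun p hp => by rw [hp, neg_zero, max_self]),
    plSum_neg hx]
  unfold hh
  ring

theorem fs_abs {x : K} (hx : x ≠ 0) : FS fun p : Pl K => |lg p x| :=
  (fs_lg hx).of_imp fun p hp => by rw [hp, abs_zero]

end Pool.Agent.Work.MP_7da6af_nt
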